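import Pool.Agent.Work.MP_fe3720_an.R.FlowB

/-! # FlowC: the flow of a complete vector field consists of automorphisms -/

namespace Pool.Agent.MP_fe3720.RR

open Topology

variable {X : Type} [MetricSpace X] {O : Subalgebra ℂ (X → ℂ)} {m N : ℕ}
  {G : Fin N → O}

/-- the Taylor coefficients along the flow -/
noncomputable def tc (D : Derivation ℂ O O) (f : O) (n : ℕ) : O :=
  (n.factorial : ℂ)⁻¹ • ((fun g : O => D g)^[n]) f

/-- uniform approximation by the Taylor polynomials -/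
theorem flow_approx [ProperSpace X] (hS : SD0 m O G) {D : Derivation ℂ O O} (γ : X → ℂ → X)
    (h0 : ∀ x, γ x 0 = x) (hγ : ∀ x, IsCurve D (γ x))
    (hcont : Continuous (fun p : ℂ × X => γ p.2 p.1)) (f : O) (K : Set (ℂ × X))
    (hK : IsCompact K) (ε : ℝ) (hε : 0 < ε) :
    ∃ n₀ : ℕ, ∀ n ≥ n₀, ∀ p ∈ K,
      ‖f (γ p.2 p.1) - ∑ k ∈ Finset.range n, p.1 ^ k * (tc D f k) p.2‖ < ε := by
  obtain ⟨T, hT⟩ := (hK.image continuous_fst).isBounded.subset_closedBall (0 : ℂ)
  set R : ℝ := 2 * |T| + 1 with hR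
  have hRpos : 0 < R := by positivity
  have hK₂ : IsCompact (Prod.snd '' K) := hK.image continuous_snd
  obtain ⟨B, hB⟩ := ((isCompact_closedBall (0 : ℂ) R).prod hK₂).exists_bound_of_continuousOn
    ((cont hS f).comp hcont).continuousOn
  have hterm : ∀ p ∈ K, ∀ n : ℕ, ‖p.1 ^ n * (tc D f n) p.2‖ ≤ |B| * (1 / 2) ^ n := by
    intro p hp n
    have h1 := flow_cauchy (hγ p.2) f 0 hRpos (B := |B|) (fun t ht => by
      rw [zero_add]
      refine (hB (t, p.2) ⟨?_, ⟨p, hp, rfl⟩⟩).trans (le_abs_self B)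
      simpa using ht) n
    rw [h0] at h1
    have h2 : ‖p.1‖ ≤ |T| := by
      have := hT ⟨p, hp, rfl⟩
      rw [mem_closedBall_zero_iff] at this
      exact this.trans (le_abs_self T)
    have h3 : ‖p.1‖ / R ≤ 1 / 2 := by
      rw [div_le_div_iff₀ hRpos two_pos]
      linarith
    rw [norm_mul, norm_pow]
    calc ‖p.1‖ ^ n * ‖(tc D f n) p.2‖ ≤ ‖p.1‖ ^ n * (|B| / R ^ n) := by
          gcongr
          exact h1
      _ = |B| * (‖p.1‖ / R) ^ n := by rw [div_pow]; ring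
      _ ≤ |B| * (1 / 2) ^ n := by gcongr
  obtain ⟨n₀, hn₀⟩ : ∃ n₀ : ℕ, ∀ n ≥ n₀, |B| * (1 / 2) ^ n / (1 - 1 / 2) < ε := by
    have h1 : Filter.Tendsto (fun n : ℕ => |B| * (1 / 2 : ℝ) ^ n / (1 - 1 / 2)) Filter.atTop
        (𝓝 (|B| * 0 / (1 - 1 / 2))) :=
      ((tendsto_pow_atTop_nhds_zero_of_lt_one (by norm_num) (by norm_num)).const_mul _).div_const _
    rw [mul_zero, zero_div] at h1
    exact Filter.eventually_atTop.mp (h1.eventually_lt_const hε)
  refine ⟨n₀, fun n hn p hp => ?_⟩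
  have h1 := flow_taylor (hγ p.2) f 0 p.1
  rw [zero_add, h0] at h1
  have h2 := norm_sub_le_of_geometric_bound_of_hasSum (by norm_num : (1 / 2 : ℝ) < 1)
    (hterm p hp) h1 n
  rw [norm_sub_rev]
  exact lt_of_le_of_lt h2 (hn₀ n hn)

theorem exists_flow [ProperSpace X] (hS : SD0 m O G) {D : Derivation ℂ O O}
    (hD : IsCompleteVF D) : ∃ Φ : ℂ → HolAut O, IsFlow D Φ := by
  choose γ hc h0 hγ using hD.2
  have hcont := flow_cont hS γ hc h0 hγ
  have hadd : ∀ x s t, γ x (s + t) = γ (γ x t) s := by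
    intro x s t
    have h1 := flow_unique (fun x y h => eq_of_G hS fun i => h (G i))
      (isCurve_shift (hγ x) t) (hγ (γ x t)) (by rw [h0, zero_add])
    exact congrFun h1 s
  have hmem : ∀ t : ℂ, ∀ f ∈ O, (fun x => f (γ x t)) ∈ O := by
    intro t f hf
    refine hS.alg.closed _ fun K hK ε hε => ?_
    obtain ⟨n, hn⟩ := flow_approx hS γ h0 hγ hcont ⟨f, hf⟩ ({t} ×ˢ K)
      (isCompact_singleton.prod hK) ε hε
    refine ⟨((∑ k ∈ Finset.range n, (t ^ k) • tc D ⟨f, hf⟩ k : O) : X → ℂ), Subtype.prop _,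
      fun x hx => ?_⟩
    have h1 := hn n le_rfl (t, x) ⟨rfl, hx⟩
    have h2 : ((∑ k ∈ Finset.range n, (t ^ k) • tc D ⟨f, hf⟩ k : O) : X → ℂ) x =
        ∑ k ∈ Finset.range n, t ^ k * (tc D ⟨f, hf⟩ k) x := by
      rw [AddSubmonoidClass.coe_finset_sum, Finset.sum_apply]
      rfl
    rw [h2]
    exact h1
  have hct : ∀ t, Continuous (fun x => γ x t) := fun t =>
    hcont.comp (continuous_const.prodMk continuous_id)
  refine ⟨fun t => ⟨⟨⟨fun x => γ x t, fun x => γ x (-t), fun x => ?_, fun x => ?_⟩,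
    hct t, hct (-t)⟩, hmem t, hmem (-t)⟩, ⟨hcont, h0, fun s t x => hadd x s t,
      fun f x t => hγ x f t, fun f K hK ε hε => ?_⟩⟩
  · show γ (γ x t) (-t) = x
    rw [← hadd, neg_add_cancel, h0]
  · show γ (γ x (-t)) t = x
    rw [← hadd, add_neg_cancel, h0]
  · obtain ⟨n, hn⟩ := flow_approx hS γ h0 hγ hcont f K hK ε hε
    exact ⟨n, tc D f, fun p hp => hn n le_rfl p hp⟩

theorem IsFlow.symm_apply {D : Derivation ℂ O O} {Φ : ℂ → HolAut O} (h : IsFlow D Φ) (t : ℂ)
    (x : X) : (Φ t).symm x = Φ (-t) x := by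
  have h1 := h.add (-t) t ((Φ t).symm x)
  rw [neg_add_cancel, h.zero, HolAut.apply_symm] at h1
  exact h1

theorem IsFlow.isCurve {D : Derivation ℂ O O} {Φ : ℂ → HolAut O} (h : IsFlow D Φ) (x : X) :
    IsCurve D (fun t => Φ t x) := fun f t => h.deriv f x t

/-- uniqueness of integral curves -/
theorem IsFlow.unique (hS : SD0 m O G) {D : Derivation ℂ O O} {Φ : ℂ → HolAut O}
    (h : IsFlow D Φ) {γ : ℂ → X} (hγ : IsCurve D γ) (t : ℂ) : γ t = Φ t (γ 0) := by
  have h1 := flow_unique (fun x y h => eq_of_G hS fun i => h (G i)) hγ (h.isCurve (γ 0))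
    (h.zero _).symm
  exact congrFun h1 t

/-- first integrals are invariant -/
theorem IsFlow.inv {D : Derivation ℂ O O} {Φ : ℂ → HolAut O} (h : IsFlow D Φ) {f : O}
    (hf : D f = 0) (t : ℂ) (x : X) : f (Φ t x) = f x := by
  have h1 : ∀ t, _root_.deriv (fun s => f (Φ s x)) t = 0 := by
    intro t
    rw [(h.deriv f x t).deriv, hf]
    rfl
  have h2 := is_const_of_deriv_eq_zero ((h.isCurve x).differentiable f) h1 t 0
  have h3 : f (Φ t x) = f (Φ 0 x) := h2
  rw [h3, h.zero]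

/-- if a holomorphic function is not constant on an orbit, it is unbounded on it -/
theorem fun_unbounded {D : Derivation ℂ O O} {Φ : ℂ → HolAut O}
    (h : IsFlow D Φ) {x : X} {f : O} (hx : (D f) x ≠ 0) (M : ℝ) :
    ∃ t, M < ‖f (Φ t x)‖ := by
  by_contra hcon
  push Not at hcon
  have hb : Bornology.IsBounded (Set.range fun t => f (Φ t x)) := by
    refine (Metric.isBounded_closedBall (x := (0 : ℂ)) (r := M)).subset ?_
    rintro _ ⟨t, rfl⟩
    simpa using hcon t
  have hconst : (fun s => f (Φ s x)) = fun _ => f (Φ 0 x) := by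
    funext s
    exact ((h.isCurve x).differentiable f).apply_eq_apply_of_bounded hb s 0
  have h1 := h.deriv f x 0
  rw [hconst, h.zero] at h1
  exact hx ((hasDerivAt_const (0 : ℂ) (f x)).unique h1).symm

/-- the orbits of the points where the field does not vanish are unbounded -/
theorem orbit_unbounded (hS : SD0 m O G) {D : Derivation ℂ O O} {Φ : ℂ → HolAut O}
    (h : IsFlow D Φ) {x : X} (hx : NZ D x) {K : Set X} (hK : IsCompact K) :
    ∃ t, Φ t x ∉ K := by
  obtain ⟨k, hk⟩ := hx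
  obtain ⟨B, hB⟩ := hK.exists_bound_of_continuousOn (cont hS k).continuousOn
  obtain ⟨t, ht⟩ := fun_unbounded h hk B
  exact ⟨t, fun hcon => absurd (hB _ hcon) (not_le.mpr ht)⟩

end Pool.Agent.MP_fe3720.RR
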