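import Pool.Agent.Work.MP_fe3720_an.R.OC

/-! # Ident: identity theorem

`ident`: the interior of `{f = 0}` is open, nonempty, and closed: let `x₀` be in its closure, take a chart at `x₀` and a ball `B ⊆ V` around
`q x₀`; there is `y ∈ B` with `f ∘ κ = 0` near `y`; for `z ∈ B` the one variable function `λ ↦ f (κ (y + λ (z - y)))` is
holomorphic on the convex open set `{λ | y + λ (z-y) ∈ B}` and vanishes near `0`, so everywhere
(`AnalyticOnNhd.eqOn_zero_of_preconnected_of_eventuallyEq_zero`). `ident_mul`: from `ident` (if `f x ≠ 0` then `f ≠ 0` near `x`...).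
`dim_two`: if `m = 0` the charts show that `X` is discrete, so a point (`PreconnectedSpace`) and `f` is constant. If `m = 1`: `v ≠ 0`, so `(v h) x ≠ 0` for some
`h, x`; in a chart at `x`, `(v g)(κ y) = (v (q 0)) (κ y) * (g ∘ κ)'(y)`; so `(v (q 0)) ≠ 0` near `x` and `(f ∘ κ)' = 0` near
`q x`; so `f` is constant near `x`, hence constant by `ident`. -/

namespace Pool.Agent.MP_fe3720.RR

open Topology

/-- identity theorem on a ball of `ℂ^m` -/
private theorem ident_ball {m : ℕ} {F : (Fin m → ℂ) → ℂ} {y₀ : Fin m → ℂ} {R : ℝ}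
    (hF : DifferentiableOn ℂ F (Metric.ball y₀ R)) {y : Fin m → ℂ} (hy : y ∈ Metric.ball y₀ R)
    (h0 : ∀ᶠ z in 𝓝 y, F z = 0) : ∀ z ∈ Metric.ball y₀ R, F z = 0 := by
  intro z hz
  let L : ℂ → (Fin m → ℂ) := fun l => y + l • (z - y)
  have hLd : Differentiable ℂ L := by
    intro l
    exact (differentiableAt_const y).add ((differentiableAt_id).smul_const (z - y))
  have hLc : Continuous L := hLd.continuous
  set S : Set ℂ := L ⁻¹' Metric.ball y₀ R with hS
  have hSo : IsOpen S := Metric.isOpen_ball.preimage hLc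
  have hSc : Convex ℝ S := by
    intro a ha b hb s t hs ht hst
    have h1 : L (s • a + t • b) = s • L a + t • L b := by
      funext j
      simp only [L, Pi.add_apply, Pi.smul_apply, smul_eq_mul, Pi.sub_apply, Complex.real_smul]
      have : ((s : ℂ)) + t = 1 := by exact_mod_cast hst
      linear_combination (-(y j)) * this
    change L (s • a + t • b) ∈ Metric.ball y₀ R
    rw [h1]
    exact convex_ball y₀ R ha hb hs ht hst
  have h0S : (0 : ℂ) ∈ S := by
    change L 0 ∈ Metric.ball y₀ R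
    have : L 0 = y := by simp [L]
    rw [this]
    exact hy
  have h1S : (1 : ℂ) ∈ S := by
    change L 1 ∈ Metric.ball y₀ R
    have : L 1 = z := by simp [L]
    rw [this]
    exact hz
  have hD : DifferentiableOn ℂ (fun l => F (L l)) S :=
    hF.comp hLd.differentiableOn fun l hl => hl
  have hA : AnalyticOnNhd ℂ (fun l => F (L l)) S := hD.analyticOnNhd hSo
  have hev : (fun l => F (L l)) =ᶠ[𝓝 (0 : ℂ)] 0 := by
    have h2 : Filter.Tendsto L (𝓝 0) (𝓝 y) := by
      have := hLc.tendsto 0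
      simpa [L] using this
    exact h2 h0
  have := hA.eqOn_zero_of_preconnected_of_eventuallyEq_zero hSc.isPreconnected h0S hev h1S
  simpa [L] using this

variable {X : Type} [MetricSpace X] [ProperSpace X] [PreconnectedSpace X]
  {O : Subalgebra ℂ (X → ℂ)} {m N : ℕ} {G : Fin N → O}

theorem ident (hS : SD0 m O G) {f : O} {U : Set X} (hU : IsOpen U) (hne : U.Nonempty)
    (h : ∀ x ∈ U, f x = 0) : f = 0 := by
  set Z : Set X := interior {x | f x = 0} with hZ
  have hne' : Z.Nonempty := by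
    obtain ⟨x, hx⟩ := hne
    exact ⟨x, mem_interior.mpr ⟨U, fun y hy => h y hy, hU, hx⟩⟩
  have hcl : IsClosed Z := by
    refine isClosed_of_closure_subset fun x₀ hx₀ => ?_
    obtain ⟨q, κ, V, hc, hV, hκ⟩ := hS.charts x₀
    set y₀ := fun j => (q j) x₀ with hy₀
    obtain ⟨R, hR, hB⟩ := Metric.mem_nhds_iff.mp (hc.opn.mem_nhds hV)
    have hBo : IsOpen (κ '' Metric.ball y₀ R) := chart_image_open hS.alg hc Metric.isOpen_ball hB
    have hx₀B : x₀ ∈ κ '' Metric.ball y₀ R := ⟨y₀, Metric.mem_ball_self hR, hκ⟩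
    obtain ⟨_, ⟨y, hy, rfl⟩, hyZ⟩ := mem_closure_iff.mp hx₀ _ hBo hx₀B
    have hF : DifferentiableOn ℂ (fun y => f (κ y)) (Metric.ball y₀ R) :=
      ((hc.smooth f).differentiableOn (by norm_num)).mono hB
    have h0 : ∀ᶠ z in 𝓝 y, f (κ z) = 0 := by
      have h1 : Filter.Tendsto κ (𝓝 y) (𝓝 (κ y)) :=
        (hc.cont.continuousAt (hc.opn.mem_nhds (hB hy)))
      have h2 : {x | f x = 0} ∈ 𝓝 (κ y) := mem_interior_iff_mem_nhds.mp hyZ
      exact h1 h2
    have hz := ident_ball hF hy h0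
    refine mem_interior.mpr ⟨_, ?_, hBo, hx₀B⟩
    rintro _ ⟨z, hz', rfl⟩
    exact hz z hz'
  have huniv : Z = Set.univ := IsClopen.eq_univ ⟨hcl, isOpen_interior⟩ hne'
  apply Subtype.ext
  funext x
  have : x ∈ Z := huniv ▸ Set.mem_univ x
  have h2 : x ∈ {x | f x = 0} := interior_subset this
  exact h2

theorem ident_mul (hS : SD0 m O G) {f g : O} (hf : f ≠ 0) (hg : g ≠ 0) {U : Set X}
    (hU : IsOpen U) (hne : U.Nonempty) : ∃ x ∈ U, f x ≠ 0 ∧ g x ≠ 0 := by
  obtain ⟨x, hxU, hx⟩ : ∃ x ∈ U, f x ≠ 0 := by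
    by_contra hcon
    push Not at hcon
    exact hf (ident hS hU hne hcon)
  have hU' : IsOpen (U ∩ {x | f x ≠ 0}) :=
    hU.inter (isOpen_ne_fun (cont hS f) continuous_const)
  by_contra hcon
  push Not at hcon
  exact hg (ident hS hU' ⟨x, hxU, hx⟩ fun y hy => hcon y hy.1 hy.2)

theorem dim_two (hS : SD0 m O G) {v : Derivation ℂ O O} (hv : IsVF v) (hv0 : v ≠ 0) {f : O}
    (hf : v f = 0) (hfc : ∃ x y, f x ≠ f y) : 2 ≤ m := by
  obtain ⟨g, x, hgx⟩ : ∃ (g : O) (x : X), (v g) x ≠ 0 := by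
    by_contra hcon
    push Not at hcon
    refine hv0 (Derivation.ext fun g => ?_)
    apply Subtype.ext
    funext x
    exact hcon g x
  obtain ⟨q, κ, V, hc, hV, hκ⟩ := hS.charts x
  set y₀ := fun j => (q j) x with hy₀
  by_contra hm
  have htan := hc.tan v hv g y₀ hV
  rw [hκ] at htan
  have hne : (fun j => (v (q j)) x) ≠ 0 := by
    intro h0
    rw [h0, map_zero] at htan
    exact hgx htan
  obtain ⟨j, hj⟩ : ∃ j, (v (q j)) x ≠ 0 := by
    by_contra hcon
    push Not at hcon
    exact hne (funext hcon)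
  have hm1 : ∀ i : Fin m, i = j := by
    intro i
    apply Fin.ext
    have h1 := i.2
    have h2 := j.2
    omega
  have hcont : ContinuousOn (fun y => (v (q j)) (κ y)) V :=
    (cont hS (v (q j))).comp_continuousOn hc.cont
  have hnear : ∀ᶠ y in 𝓝 y₀, (v (q j)) (κ y) ≠ 0 := by
    have h1 : ContinuousAt (fun y => (v (q j)) (κ y)) y₀ :=
      hcont.continuousAt (hc.opn.mem_nhds hV)
    refine h1.eventually_ne ?_
    rw [hκ]
    exact hj
  obtain ⟨R, hR, hB⟩ := Metric.mem_nhds_iff.mp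
    (Filter.inter_mem hnear (hc.opn.mem_nhds hV))
  have hfd : ∀ y ∈ Metric.ball y₀ R, fderiv ℂ (fun y => f (κ y)) y = 0 := by
    intro y hy
    have h1 := hc.tan v hv f y (hB hy).2
    have h2 : (v (q j)) (κ y) ≠ 0 := (hB hy).1
    rw [hf] at h1
    have h3 : fderiv ℂ (fun y => f (κ y)) y (fun j => (v (q j)) (κ y)) = 0 := h1.symm
    ext w
    have h4 : w = (w j / (v (q j)) (κ y)) • (fun j => (v (q j)) (κ y)) := by
      funext i
      rw [hm1 i, Pi.smul_apply, smul_eq_mul]
      field_simp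
    rw [h4, map_smul, h3, smul_zero]
    rfl
  have hdiff : DifferentiableOn ℂ (fun y => f (κ y)) (Metric.ball y₀ R) :=
    ((hc.smooth f).differentiableOn (by norm_num)).mono fun y hy => (hB hy).2
  have hconst : ∀ y ∈ Metric.ball y₀ R, f (κ y) = f x := by
    intro y hy
    have h1 := (convex_ball y₀ R).is_const_of_fderivWithin_eq_zero (𝕜 := ℂ) hdiff
      (fun z hz => by
        rw [fderivWithin_of_isOpen Metric.isOpen_ball hz]
        exact hfd z hz) hy (Metric.mem_ball_self hR)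
    rw [h1, hκ]
  have hBo : IsOpen (κ '' Metric.ball y₀ R) :=
    chart_image_open hS.alg hc Metric.isOpen_ball fun y hy => (hB hy).2
  have hzero : f - algebraMap ℂ O (f x) = 0 := by
    refine ident hS hBo ⟨x, y₀, Metric.mem_ball_self hR, hκ⟩ ?_
    rintro _ ⟨y, hy, rfl⟩
    change f (κ y) - f x = 0
    rw [hconst y hy, sub_self]
  obtain ⟨a, b, hab⟩ := hfc
  apply hab
  have h1 : ∀ a, f a = f x := by
    intro a
    have : (f - algebraMap ℂ O (f x)).1 a = (0 : O).1 a := by rw [hzero]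
    change f a - f x = 0 at this
    exact sub_eq_zero.mp this
  rw [h1 a, h1 b]

end Pool.Agent.MP_fe3720.RR
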