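import Pool.Agent.Work.MP_fe3720_an.R.Base

/-! # LC: charts are local homeomorphisms (proved) -/

namespace Pool.Agent.MP_fe3720.RR

open Topology Filter

section Top

variable {X : Type} [TopologicalSpace X] {O : Subalgebra ℂ (X → ℂ)} {m : ℕ}
  {q : Fin m → O} {κ : (Fin m → ℂ) → X} {V : Set (Fin m → ℂ)}

theorem chart_inv (hc : IsChart O q κ V) {y : Fin m → ℂ} (hy : y ∈ V) :
    (fun j => (q j) (κ y)) = y := by
  funext j
  exact hc.inv y hy j

theorem chart_symm (hc : IsChart O q κ V) {x : X} (hx : x ∈ κ '' V) :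
    (fun j => (q j) x) ∈ V ∧ κ (fun j => (q j) x) = x := by
  obtain ⟨y, hy, rfl⟩ := hx
  rw [chart_inv hc hy]
  exact ⟨hy, rfl⟩

theorem chart_q_cont (hO : IsClosedAlg O) (q : Fin m → O) :
    Continuous (fun (x : X) (j : Fin m) => (q j) x) :=
  continuous_pi fun j => hO.cont _ (q j).2

theorem chart_map_nhds (hO : IsClosedAlg O) (hc : IsChart O q κ V) {y : Fin m → ℂ}
    (hy : y ∈ V) : Filter.map κ (𝓝 y) = 𝓝 (κ y) := by
  have hVy : V ∈ 𝓝 y := hc.opn.mem_nhds hy
  refine le_antisymm (hc.cont.continuousAt hVy) ?_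
  intro S hS
  have hS' : κ ⁻¹' S ∈ 𝓝 y := hS
  have h1 : Tendsto (fun (x : X) (j : Fin m) => (q j) x) (𝓝 (κ y)) (𝓝 y) := by
    have := (chart_q_cont hO q).tendsto (κ y)
    rwa [chart_inv hc hy] at this
  have h2 : κ '' V ∈ 𝓝 (κ y) := hc.img.mem_nhds ⟨y, hy, rfl⟩
  filter_upwards [h1 hS', h2] with x hx hx2
  have h3 := (chart_symm hc hx2).2
  have : κ (fun j => (q j) x) ∈ S := hx
  rwa [h3] at this

theorem chart_image_open (hO : IsClosedAlg O) (hc : IsChart O q κ V) {W : Set (Fin m → ℂ)}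
    (hW : IsOpen W) (hWV : W ⊆ V) : IsOpen (κ '' W) := by
  rw [isOpen_iff_mem_nhds]
  rintro _ ⟨y, hy, rfl⟩
  rw [← chart_map_nhds hO hc (hWV hy)]
  exact image_mem_map (hW.mem_nhds hy)

theorem chart_injOn (hc : IsChart O q κ V) : Set.InjOn κ V := by
  intro y hy y' hy' h
  rw [← chart_inv hc hy, ← chart_inv hc hy', h]

end Top

variable {X : Type} [MetricSpace X] {O : Subalgebra ℂ (X → ℂ)} {m N : ℕ} {G : Fin N → O}

theorem locallyConnected (hS : SD0 m O G) : LocallyConnectedSpace X := by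
  rw [locallyConnectedSpace_iff_subsets_isOpen_isConnected]
  intro x U hU
  obtain ⟨q, κ, V, hc, hV, hκ⟩ := hS.charts x
  set y := fun j => (q j) x with hy
  have h1 : κ ⁻¹' U ∈ 𝓝 y := by
    have := chart_map_nhds hS.alg hc hV
    rw [hκ] at this
    rw [← this] at hU
    exact hU
  obtain ⟨R, hR, hB⟩ := Metric.mem_nhds_iff.mp (Filter.inter_mem h1 (hc.opn.mem_nhds hV))
  refine ⟨κ '' Metric.ball y R, ?_, chart_image_open hS.alg hc Metric.isOpen_ball
    fun z hz => (hB hz).2, ⟨y, Metric.mem_ball_self hR, hκ⟩, ?_⟩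
  · rintro _ ⟨z, hz, rfl⟩
    exact (hB hz).1
  · refine ⟨⟨_, y, Metric.mem_ball_self hR, rfl⟩, ?_⟩
    refine IsPreconnected.image (convex_ball y R).isPreconnected κ ?_
    exact hc.cont.mono fun z hz => (hB hz).2

/-- the functions of `O` separate the points -/
theorem eq_of_G (hS : SD0 m O G) {x y : X} (h : ∀ i, (G i) x = (G i) y) : x = y := by
  rw [← dist_eq_zero, hS.dist_eq]
  have : (fun i => (G i) x - (G i) y : Fin N → ℂ) = 0 := by
    funext i
    simp [h i]
  rw [this, norm_zero]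

theorem cont (hS : SD0 m O G) (f : O) : Continuous f.1 := hS.alg.cont _ f.2

theorem norm_G_le (hS : SD0 m O G) (x y : X) (i : Fin N) :
    ‖(G i) x - (G i) y‖ ≤ dist x y := by
  rw [hS.dist_eq]
  exact norm_le_pi_norm (fun i => (G i) x - (G i) y : Fin N → ℂ) i

theorem dist_le_of (hS : SD0 m O G) {x y : X} {c : ℝ} (hc : 0 ≤ c)
    (h : ∀ i, ‖(G i) x - (G i) y‖ ≤ c) : dist x y ≤ c := by
  rw [hS.dist_eq]
  exact (pi_norm_le_iff_of_nonneg hc).mpr h

theorem isometry_G (hS : SD0 m O G) : Isometry (fun (x : X) (i : Fin N) => (G i) x) := by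
  refine Isometry.of_dist_eq fun x y => ?_
  rw [dist_eq_norm, hS.dist_eq]
  rfl

/-- a map into `X` is continuous if its coordinates are -/
theorem continuousOn_of_G (hS : SD0 m O G) {Y : Type} [TopologicalSpace Y] {f : Y → X}
    {s : Set Y} (h : ∀ i, ContinuousOn (fun y => (G i) (f y)) s) : ContinuousOn f s := by
  rw [(isometry_G hS).isEmbedding.isInducing.continuousOn_iff]
  exact continuousOn_pi.mpr h

theorem continuous_of_G (hS : SD0 m O G) {Y : Type} [TopologicalSpace Y] {f : Y → X}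
    (h : ∀ i, Continuous (fun y => (G i) (f y))) : Continuous f := by
  rw [(isometry_G hS).isEmbedding.isInducing.continuous_iff]
  exact continuous_pi h

end Pool.Agent.MP_fe3720.RR
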