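import Pool.Agent.Work.MP_fe3720_an.R.FlowC

/-! # Shear: the flow of `g(f) v`

`entire_comp`: `g` is a limit of polynomials (its Taylor polynomials), uniformly on compact sets, and `O` is
closed. `shear`: `D = g(f) • v` is a complete vector field (`IsVF.fsmul`): integral curve `s ↦ Φ (s g (f x)) x`, as `f` is constant on
the orbits. Take its flow (`exists_flow`) and use uniqueness. -/

namespace Pool.Agent.MP_fe3720.RR

open Topology

variable {X : Type} [MetricSpace X] [ProperSpace X] {O : Subalgebra ℂ (X → ℂ)} {m N : ℕ}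
  {G : Fin N → O}

theorem entire_comp (hO : IsClosedAlg O) (f : O) {g : ℂ → ℂ} (hg : Differentiable ℂ g) :
    (fun x => g (f x)) ∈ O := by
  refine hO.closed _ fun K hK ε hε => ?_
  obtain ⟨B, hB⟩ := hK.exists_bound_of_continuousOn (hO.cont f.1 f.2).continuousOn
  have hs := hg.hasFPowerSeriesOnBall 0 (R := 1) one_pos
  have hu := hs.tendstoUniformlyOn (r' := ⟨|B| + 1, by positivity⟩) ENNReal.coe_lt_top
  rw [Metric.tendstoUniformlyOn_iff] at hu
  obtain ⟨n, hn⟩ := (hu ε hε).exists
  set p := cauchyPowerSeries g 0 (1 : NNReal) with hp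
  refine ⟨((∑ k ∈ Finset.range n, (p.coeff k) • f ^ k : O) : X → ℂ), Subtype.prop _,
    fun x hx => ?_⟩
  have h1 := hn (f x) (by
    rw [mem_ball_zero_iff]
    have h2 := hB x hx
    have h3 := le_abs_self B
    show ‖f x‖ < |B| + 1
    linarith)
  rw [zero_add, dist_eq_norm] at h1
  have h2 : ((∑ k ∈ Finset.range n, (p.coeff k) • f ^ k : O) : X → ℂ) x =
      p.partialSum n (f x) := by
    simp only [FormalMultilinearSeries.partialSum, FormalMultilinearSeries.apply_eq_pow_smul_coeff,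
      AddSubmonoidClass.coe_finsetSum, Finset.sum_apply]
    refine Finset.sum_congr rfl fun k _ => ?_
    show p.coeff k * (f x) ^ k = (f x) ^ k • p.coeff k
    rw [smul_eq_mul, mul_comm]
  rw [h2]
  exact h1

theorem shear (hS : SD0 m O G) {v : Derivation ℂ O O} (hv : IsVF v) {Φ : ℂ → HolAut O}
    (hΦ : IsFlow v Φ) {f : O} (hf : v f = 0) {g : ℂ → ℂ} (hg : Differentiable ℂ g) :
    ∃ Γ : ℂ → HolAut O, (∀ s x, Γ s x = Φ (s * g (f x)) x) ∧
      (∀ s x, (Γ s).symm x = Φ (-(s * g (f x))) x) := by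
  have hF : (fun x => g (f x)) ∈ O := entire_comp hS.alg f hg
  set F : O := ⟨fun x => g (f x), hF⟩ with hFdef
  have hcurve : ∀ x : X, IsCurve (F • v) (fun s => Φ (s * g (f x)) x) := by
    intro x h t
    have h1 := hΦ.deriv h x (t * g (f x))
    have h2 : HasDerivAt (fun s : ℂ => s * g (f x)) (g (f x)) t := by
      simpa using (hasDerivAt_id t).mul_const (g (f x))
    have h3 := h1.comp t h2
    have h4 : ((F • v) h) (Φ (t * g (f x)) x) =
        (v h) (Φ (t * g (f x)) x) * g (f x) := by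
      show g (f (Φ (t * g (f x)) x)) * (v h) (Φ (t * g (f x)) x) = _
      rw [hΦ.inv hf, mul_comm]
    rw [h4]
    exact h3
  have hD : IsCompleteVF (F • v) := by
    refine ⟨IsVF.fsmul hS.alg.cont hv F, fun x => ⟨fun s => Φ (s * g (f x)) x, ?_, ?_, ?_⟩⟩
    · exact hΦ.cont.comp ((continuous_id.mul continuous_const).prodMk continuous_const)
    · show Φ (0 * g (f x)) x = x
      rw [zero_mul, hΦ.zero]
    · exact hcurve x
  obtain ⟨Γ, hΓ⟩ := exists_flow hS hD
  have h1 : ∀ s x, Γ s x = Φ (s * g (f x)) x := by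
    intro s x
    have h2 := hΓ.unique hS (hcurve x) s
    rw [zero_mul, hΦ.zero] at h2
    exact h2.symm
  refine ⟨Γ, h1, fun s x => ?_⟩
  rw [hΓ.symm_apply, h1, neg_mul]

end Pool.Agent.MP_fe3720.RR
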