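import Pool.Agent.Work.MP_fe3720_an.R.OC

/-! # Val: vector fields with prescribed values -/

namespace Pool.Agent.MP_fe3720.RR

open Topology

variable {X : Type} [MetricSpace X] {O : Subalgebra ℂ (X → ℂ)} {m N : ℕ}
  {G : Fin N → O}

omit [MetricSpace X] in
theorem der_sum_apply' {ι : Type} (s : Finset ι) (D : ι → Derivation ℂ O O) (h : O) (x : X) :
    ((∑ i ∈ s, D i) h) x = ∑ i ∈ s, (D i h) x := by
  classical
  induction s using Finset.induction with
  | empty => rfl
  | insert i s hi ih =>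
    rw [Finset.sum_insert hi, Finset.sum_insert hi, ← ih]
    rfl

theorem isVF_sum {ι : Type} (s : Finset ι) (D : ι → Derivation ℂ O O)
    (h : ∀ i ∈ s, IsVF (D i)) : IsVF (∑ i ∈ s, D i) := by
  classical
  induction s using Finset.induction with
  | empty => exact isVF_zero
  | insert i s hi ih =>
    rw [Finset.sum_insert hi]
    exact (h i (Finset.mem_insert_self i s)).add
      (ih fun j hj => h j (Finset.mem_insert_of_mem hj))

theorem exists_fields (hS : SD0 m O G) {q : Fin m → O} {κ : (Fin m → ℂ) → X}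
    {V : Set (Fin m → ℂ)} (hc : IsChart O q κ V) {y₀ : Fin m → ℂ} (hy₀ : y₀ ∈ V) :
    ∃ E : Fin m → Derivation ℂ O O, (∀ i, IsVF (E i)) ∧
      ∀ i j, (E i (q j)) (κ y₀) = if i = j then 1 else 0 := by
  obtain ⟨E, hE, hli⟩ := hS.fields (κ y₀)
  set A : Matrix (Fin m) (Fin m) ℂ := Matrix.of fun i j => (E i (q j)) (κ y₀) with hA
  have hrow : LinearIndependent ℂ A.row := by
    rw [Fintype.linearIndependent_iff]
    intro c hcz
    rw [Fintype.linearIndependent_iff] at hli
    refine hli c ?_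
    funext f
    have h1 : (∑ i, c i • fun f : O => (E i f) (κ y₀)) f = ∑ i, c i * (E i f) (κ y₀) := by
      rw [Finset.sum_apply]
      rfl
    rw [h1]
    have h2 : ∀ i, (E i f) (κ y₀) = fderiv ℂ (fun y => f (κ y)) y₀ (A.row i) := fun i =>
      hc.tan (E i) (hE i) f y₀ hy₀
    have h3 : ∑ i, c i * (E i f) (κ y₀) =
        fderiv ℂ (fun y => f (κ y)) y₀ (∑ i, c i • A.row i) := by
      rw [map_sum]
      exact Finset.sum_congr rfl fun i _ => by rw [h2 i, map_smul, smul_eq_mul]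
    rw [h3, hcz, map_zero]
    rfl
  have hu : IsUnit A := Matrix.linearIndependent_rows_iff_isUnit.mp hrow
  have hdet : IsUnit A.det := (Matrix.isUnit_iff_isUnit_det A).mp hu
  refine ⟨fun i => ∑ k, A⁻¹ i k • E k, fun i => isVF_sum _ _ fun k _ => (hE k).csmul _,
    fun i j => ?_⟩
  rw [der_sum_apply']
  have h1 : ∑ k, ((A⁻¹ i k • E k) (q j)) (κ y₀) = (A⁻¹ * A) i j := by
    rw [Matrix.mul_apply]
    rfl
  rw [h1, Matrix.nonsing_inv_mul A hdet, Matrix.one_apply]

theorem exists_bump (hS : SD0 m O G) {k : ℕ} (x : Fin k → X) (hx : Function.Injective x)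
    (i : Fin k) : ∃ h : O, h (x i) = 1 ∧ ∀ j, j ≠ i → h (x j) = 0 := by
  classical
  have h1 : ∀ j, j ≠ i → ∃ l : O, l (x i) = 1 ∧ l (x j) = 0 := fun j hj =>
    sep hS (hx.ne hj.symm)
  choose! l hl1 hl2 using h1
  refine ⟨∏ j ∈ Finset.univ.erase i, l j, ?_, fun j hj => ?_⟩
  · have h2 : (∏ j ∈ Finset.univ.erase i, l j : O) (x i) =
        ∏ j ∈ Finset.univ.erase i, (l j) (x i) := by
      rw [SubmonoidClass.coe_finset_prod, Finset.prod_apply]
    rw [h2]
    exact Finset.prod_eq_one fun j hj => hl1 j (Finset.ne_of_mem_erase hj)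
  · have h2 : (∏ j ∈ Finset.univ.erase i, l j : O) (x j) =
        ∏ j' ∈ Finset.univ.erase i, (l j') (x j) := by
      rw [SubmonoidClass.coe_finset_prod, Finset.prod_apply]
    rw [h2]
    exact Finset.prod_eq_zero (Finset.mem_erase.mpr ⟨hj, Finset.mem_univ j⟩) (hl2 j hj)

end Pool.Agent.MP_fe3720.RR
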