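import Pool.Agent.Work.MP_fe3720_an.R.FlowC

/-! # Word: compositions of flows -/

namespace Pool.Agent.MP_fe3720.RR

open Topology

variable {X : Type} [MetricSpace X] {O : Subalgebra ℂ (X → ℂ)} {m N : ℕ}
  {G : Fin N → O} {r : ℕ} {W : Fin r → Derivation ℂ O O} {Φ : Fin r → ℂ → HolAut O}

theorem Psi_succ_apply {r : ℕ} (Φ : Fin (r + 1) → ℂ → HolAut O) (t : Fin (r + 1) → ℂ) (x : X) :
    Psi Φ t x = Φ 0 (t 0) (Psi (Fin.tail Φ) (Fin.tail t) x) := rfl

theorem Psi_zero (h : ∀ i, IsFlow (W i) (Φ i)) (x : X) : Psi Φ 0 x = x := by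
  induction r with
  | zero => rfl
  | succ r ih =>
    rw [Psi_succ_apply]
    have h2 : Fin.tail (0 : Fin (r + 1) → ℂ) = 0 := rfl
    rw [h2, ih (W := Fin.tail W) (Φ := Fin.tail Φ) fun i => h i.succ, Pi.zero_apply, (h 0).zero]

theorem Psi_update (h : ∀ i, IsFlow (W i) (Φ i)) (i : Fin r) (s : ℂ) (x : X) :
    Psi Φ (Function.update 0 i s) x = Φ i s x := by
  induction r with
  | zero => exact i.elim0
  | succ r ih =>
    rw [Psi_succ_apply]
    revert i
    refine Fin.cases ?_ (fun i => ?_)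
    · rw [Fin.tail_update_zero]
      have h2 : Fin.tail (0 : Fin (r + 1) → ℂ) = 0 := rfl
      rw [h2, Psi_zero (W := Fin.tail W) (Φ := Fin.tail Φ) fun i => h i.succ]
      simp
    · rw [Fin.tail_update_succ]
      have h2 : Fin.tail (0 : Fin (r + 1) → ℂ) = 0 := rfl
      rw [h2, ih (W := Fin.tail W) (Φ := Fin.tail Φ) (fun i => h i.succ) i]
      have h3 : (Function.update (0 : Fin (r + 1) → ℂ) i.succ s) 0 = 0 := by
        rw [Function.update_of_ne (Fin.succ_ne_zero i).symm]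
        rfl
      rw [h3, (h 0).zero]
      rfl

theorem cont_tail {r : ℕ} : Continuous (fun p : (Fin (r + 1) → ℂ) × X => (Fin.tail p.1, p.2)) := by
  refine Continuous.prodMk ?_ continuous_snd
  exact continuous_pi fun i => (continuous_apply i.succ).comp continuous_fst

theorem Psi_cont (h : ∀ i, IsFlow (W i) (Φ i)) :
    Continuous (fun p : (Fin r → ℂ) × X => Psi Φ p.1 p.2) := by
  induction r with
  | zero => exact continuous_snd
  | succ r ih =>
    have h1 := ih (W := Fin.tail W) (Φ := Fin.tail Φ) fun i => h i.succ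
    have h4 : Continuous (fun p : (Fin (r + 1) → ℂ) × X =>
        (p.1 0, Psi (Fin.tail Φ) (Fin.tail p.1) p.2)) :=
      ((continuous_apply 0).comp continuous_fst).prodMk (h1.comp cont_tail)
    exact (h 0).cont.comp h4

theorem Psi_symm_cont (h : ∀ i, IsFlow (W i) (Φ i)) :
    Continuous (fun p : (Fin r → ℂ) × X => (Psi Φ p.1).symm p.2) := by
  induction r with
  | zero => exact continuous_snd
  | succ r ih =>
    have h1 := ih (W := Fin.tail W) (Φ := Fin.tail Φ) fun i => h i.succ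
    have h4 : Continuous (fun p : (Fin (r + 1) → ℂ) × X =>
        (Fin.tail p.1, Φ 0 (-p.1 0) p.2)) := by
      refine Continuous.prodMk (continuous_fst.comp cont_tail) ?_
      have h6 : Continuous (fun p : (Fin (r + 1) → ℂ) × X => (-p.1 0, p.2)) :=
        (((continuous_apply 0).comp continuous_fst).neg).prodMk continuous_snd
      exact (h 0).cont.comp h6
    have h5 := h1.comp h4
    refine h5.congr fun p => ?_
    show (Psi (Fin.tail Φ) (Fin.tail p.1)).symm (Φ 0 (-p.1 0) p.2) =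
      (Psi (Fin.tail Φ) (Fin.tail p.1)).symm ((Φ 0 (p.1 0)).symm p.2)
    rw [(h 0).symm_apply]

/-- generators of the algebra of the functions of `(t, x)` -/
noncomputable def parG (hO : IsClosedAlg O) (r : ℕ) : Fin r ⊕ O → C((Fin r → ℂ) × X, ℂ) :=
  Sum.elim (fun i => ⟨fun p => p.1 i, (continuous_apply i).comp continuous_fst⟩)
    (fun f => ⟨fun p => f p.2, (hO.cont f f.2).comp continuous_snd⟩)

theorem parG_t (hO : IsClosedAlg O) {r : ℕ} (i : Fin r) :
    (fun p : (Fin r → ℂ) × X => p.1 i) ∈ closedAlg (parG hO r) :=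
  gen_mem (parG hO r) (Sum.inl i)

theorem parG_f (hO : IsClosedAlg O) {r : ℕ} (f : O) :
    (fun p : (Fin r → ℂ) × X => f p.2) ∈ closedAlg (parG hO r) :=
  gen_mem (parG hO r) (Sum.inr f)

theorem parG_tail (hO : IsClosedAlg O) {r : ℕ} (H : (Fin r → ℂ) × X → ℂ)
    (hH : H ∈ closedAlg (parG hO r)) :
    (fun p : (Fin (r + 1) → ℂ) × X => H (Fin.tail p.1, p.2)) ∈ closedAlg (parG hO (r + 1)) := by
  refine comp_mem_closedAlg (parG hO (r + 1)) (parG hO r)
    (fun p : (Fin (r + 1) → ℂ) × X => (Fin.tail p.1, p.2)) cont_tail ?_ H hH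
  rintro (i | f)
  · exact parG_t hO i.succ
  · exact parG_f hO f

theorem Psi_mem (hO : IsClosedAlg O) (h : ∀ i, IsFlow (W i) (Φ i)) (f : O) :
    (fun p : (Fin r → ℂ) × X => f (Psi Φ p.1 p.2)) ∈ closedAlg (parG hO r) := by
  induction r generalizing f with
  | zero => exact parG_f hO f
  | succ r ih =>
    have hIH : ∀ f : O, (fun p : (Fin (r + 1) → ℂ) × X =>
        f (Psi (Fin.tail Φ) (Fin.tail p.1) p.2)) ∈ closedAlg (parG hO (r + 1)) := fun f =>
      parG_tail hO _ (ih (W := Fin.tail W) (Φ := Fin.tail Φ) (fun i => h i.succ) f)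
    refine closedAlg_closed _ _ fun K hK ε hε => ?_
    set θ : (Fin (r + 1) → ℂ) × X → ℂ × X := fun p =>
      (p.1 0, Psi (Fin.tail Φ) (Fin.tail p.1) p.2) with hθ
    have hθc : Continuous θ :=
      ((continuous_apply 0).comp continuous_fst).prodMk
        ((Psi_cont (W := Fin.tail W) (Φ := Fin.tail Φ) fun i => h i.succ).comp cont_tail)
    obtain ⟨n, a, ha⟩ := (h 0).approx f (θ '' K) (hK.image hθc) ε hε
    refine ⟨∑ k ∈ Finset.range n, (fun p : (Fin (r + 1) → ℂ) × X => p.1 0) ^ k *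
      (fun p : (Fin (r + 1) → ℂ) × X => (a k) (Psi (Fin.tail Φ) (Fin.tail p.1) p.2)), ?_,
      fun p hp => ?_⟩
    · exact Subalgebra.sum_mem _ fun k _ => Subalgebra.mul_mem _
        (Subalgebra.pow_mem _ (parG_t hO 0) k) (hIH _)
    · have h1 := ha (θ p) ⟨p, hp, rfl⟩
      rw [Finset.sum_apply]
      exact h1

theorem Psi_contDiff (hO : IsClosedAlg O) (h : ∀ i, IsFlow (W i) (Φ i)) {q : Fin m → O}
    {κ : (Fin m → ℂ) → X} {V : Set (Fin m → ℂ)} (hc : IsChart O q κ V) (f : O) :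
    ContDiffOn ℂ 1 (fun p : (Fin r → ℂ) × (Fin m → ℂ) => f (Psi Φ p.1 (κ p.2)))
      (Set.univ ×ˢ V) := by
  have hP : ∀ P ∈ Algebra.adjoin ℂ (Set.range fun i => (parG hO r i :
      (Fin r → ℂ) × X → ℂ)),
      ContDiffOn ℂ 1 (fun p : (Fin r → ℂ) × (Fin m → ℂ) => P (p.1, κ p.2)) (Set.univ ×ˢ V) := by
    intro P hP
    induction hP using Algebra.adjoin_induction with
    | mem x hx =>
      obtain ⟨i | f, rfl⟩ := hx
      · exact ((contDiff_apply ℂ ℂ i).comp contDiff_fst).contDiffOn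
      · have h1 : ContDiffOn ℂ 1 ((fun y => f (κ y)) ∘
            (fun p : (Fin r → ℂ) × (Fin m → ℂ) => p.2)) (Set.univ ×ˢ V) :=
          (hc.smooth f).comp contDiff_snd.contDiffOn fun p hp => hp.2
        exact h1
    | algebraMap r => exact contDiffOn_const
    | add x y _ _ hx hy => exact hx.add hy
    | mul x y _ _ hx hy => exact hx.mul hy
  refine wei (isOpen_univ.prod hc.opn) _ fun K hKV hK ε hε => ?_
  have hθ : ContinuousOn (fun p : (Fin r → ℂ) × (Fin m → ℂ) => (p.1, κ p.2)) K :=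
    continuous_fst.continuousOn.prodMk
      (hc.cont.comp continuous_snd.continuousOn fun p hp => (hKV hp).2)
  obtain ⟨P, hPm, h1⟩ := Psi_mem hO h f _ (hK.image_of_continuousOn hθ) ε hε
  exact ⟨_, hP P hPm, fun p hp => h1 _ ⟨p, hp, rfl⟩⟩

theorem Psi_entire (hO : IsClosedAlg O) (h : ∀ i, IsFlow (W i) (Φ i)) (f : O) (x : X) :
    ContDiff ℂ 1 (fun t : Fin r → ℂ => f (Psi Φ t x)) := by
  have hP : ∀ P ∈ Algebra.adjoin ℂ (Set.range fun i => (parG hO r i :
      (Fin r → ℂ) × X → ℂ)), ContDiff ℂ 1 (fun t : Fin r → ℂ => P (t, x)) := by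
    intro P hP
    induction hP using Algebra.adjoin_induction with
    | mem y hy =>
      obtain ⟨i | f, rfl⟩ := hy
      · exact contDiff_apply ℂ ℂ i
      · exact contDiff_const (c := f x)
    | algebraMap c => exact contDiff_const (c := c)
    | add x y _ _ hx hy => exact hx.add hy
    | mul x y _ _ hx hy => exact hx.mul hy
  rw [← contDiffOn_univ]
  refine wei isOpen_univ _ fun K _ hK ε hε => ?_
  obtain ⟨P, hPm, h1⟩ := Psi_mem hO h f (K ×ˢ {x}) (hK.prod isCompact_singleton) ε hε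
  exact ⟨_, (hP P hPm).contDiffOn, fun t ht => h1 (t, x) ⟨ht, rfl⟩⟩

theorem Psi_deriv (hO : IsClosedAlg O) (h : ∀ i, IsFlow (W i) (Φ i)) (f : O) (x : X) :
    HasFDerivAt (fun t : Fin r → ℂ => f (Psi Φ t x))
      (∑ i, ((W i f) x) • (ContinuousLinearMap.proj i : (Fin r → ℂ) →L[ℂ] ℂ)) 0 := by
  classical
  have hd : DifferentiableAt ℂ (fun t : Fin r → ℂ => f (Psi Φ t x)) 0 :=
    (Psi_entire hO h f x).differentiable (by norm_num) 0
  have h1 := hd.hasFDerivAt
  have h2 : fderiv ℂ (fun t : Fin r → ℂ => f (Psi Φ t x)) 0 =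
      ∑ i, ((W i f) x) • (ContinuousLinearMap.proj i : (Fin r → ℂ) →L[ℂ] ℂ) := by
    have hs : ∀ i, fderiv ℂ (fun t : Fin r → ℂ => f (Psi Φ t x)) 0 (Pi.single i 1) =
        (W i f) x := by
      intro i
      have hu : HasDerivAt (fun s : ℂ => (Function.update (0 : Fin r → ℂ) i s)) (Pi.single i 1) 0 := by
        exact hasDerivAt_update (0 : Fin r → ℂ) i 0
      have h0 : Function.update (0 : Fin r → ℂ) i (0 : ℂ) = 0 := by simp
      have h3 : HasDerivAt (fun s : ℂ => f (Psi Φ (Function.update (0 : Fin r → ℂ) i s) x))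
          (fderiv ℂ (fun t : Fin r → ℂ => f (Psi Φ t x)) 0 (Pi.single i 1)) 0 := by
        have h1' := h1
        rw [← h0] at h1'
        have := h1'.comp_hasDerivAt (0 : ℂ) hu
        rw [h0] at this
        exact this
      have h4 : HasDerivAt (fun s : ℂ => f (Psi Φ (Function.update (0 : Fin r → ℂ) i s) x))
          ((W i f) x) 0 := by
        have h5 := (h i).deriv f x 0
        rw [(h i).zero] at h5
        refine h5.congr_of_eventuallyEq (Filter.Eventually.of_forall fun s => ?_)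
        show f (Psi Φ (Function.update (0 : Fin r → ℂ) i s) x) = f (Φ i s x)
        rw [Psi_update h]
      exact h3.unique h4
    refine ContinuousLinearMap.ext fun v => ?_
    have hv : v = ∑ i, v i • (Pi.single i 1 : Fin r → ℂ) := by
      funext j
      simp [Finset.sum_apply, Pi.single_apply]
    conv_lhs => rw [hv]
    rw [map_sum, ContinuousLinearMap.sum_apply]
    refine Finset.sum_congr rfl fun i _ => ?_
    rw [map_smul, hs i]
    show v i * (W i f) x = (W i f) x * v i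
    ring
  rw [← h2]
  exact h1

theorem Psi_taylor (hO : IsClosedAlg O) (h : ∀ i, IsFlow (W i) (Φ i)) (f : O) {K : Set X}
    (hK : IsCompact K) : ∃ B : ℝ, ∀ t : Fin r → ℂ, ‖t‖ ≤ 1 → ∀ x ∈ K,
      ‖f (Psi Φ t x) - f x - ∑ i, t i * (W i f) x‖ ≤ B * ‖t‖ ^ 2 := by
  obtain ⟨B, hB⟩ := ((isCompact_closedBall (0 : Fin r → ℂ) 2).prod hK).exists_bound_of_continuousOn
    ((hO.cont f f.2).comp (Psi_cont h)).continuousOn
  refine ⟨|B| / 2, fun t ht x hx => ?_⟩
  rcases eq_or_ne t 0 with rfl | ht0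
  · rw [Psi_zero h]
    simp
  have hn : 0 < ‖t‖ := norm_pos_iff.mpr ht0
  set u : Fin r → ℂ := ((‖t‖ : ℂ)⁻¹) • t with hu
  have hun : ‖u‖ = 1 := by
    rw [hu, norm_smul, norm_inv, Complex.norm_of_nonneg hn.le, inv_mul_cancel₀ hn.ne']
  have htu : (‖t‖ : ℂ) • u = t := by
    rw [hu, smul_smul, mul_inv_cancel₀ (by exact_mod_cast hn.ne'), one_smul]
  set g : ℂ → ℂ := fun l => f (Psi Φ (l • u) x) with hg
  have hgd : Differentiable ℂ g := by
    have h1 := (Psi_entire hO h f x).differentiable (by norm_num)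
    exact h1.comp (differentiable_id.smul_const u)
  have hgb : ∀ l : ℂ, ‖l‖ ≤ 2 → ‖g l‖ ≤ |B| := by
    intro l hl
    refine (hB (l • u, x) ⟨?_, hx⟩).trans (le_abs_self B)
    rw [mem_closedBall_zero_iff, norm_smul, hun, mul_one]
    exact hl
  have hg0 : g 0 = f x := by
    show f (Psi Φ ((0 : ℂ) • u) x) = f x
    rw [zero_smul, Psi_zero h]
  have hg1 : deriv g 0 = ∑ i, u i * (W i f) x := by
    have h1 := Psi_deriv hO h f x
    have h2 : HasDerivAt (fun l : ℂ => l • u) u 0 := by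
      simpa using (hasDerivAt_id (0 : ℂ)).smul_const u
    have h3 : HasDerivAt g ((∑ i, ((W i f) x) •
        (ContinuousLinearMap.proj i : (Fin r → ℂ) →L[ℂ] ℂ)) u) 0 := by
      have h1' := h1
      have h0 : (0 : ℂ) • u = 0 := zero_smul _ _
      rw [← h0] at h1'
      exact h1'.comp_hasDerivAt (0 : ℂ) h2
    rw [h3.deriv, ContinuousLinearMap.sum_apply]
    refine Finset.sum_congr rfl fun i _ => ?_
    show (W i f) x * u i = u i * (W i f) x
    ring
  have hcoef : ∀ n : ℕ, ‖(n.factorial : ℂ)⁻¹ • ((‖t‖ : ℂ) - 0) ^ n • iteratedDeriv n g 0‖ ≤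
      |B| * (‖t‖ / 2) ^ n := by
    intro n
    have h1 := Complex.norm_iteratedDeriv_le_of_forall_mem_sphere_norm_le (c := 0) (R := 2)
      (C := |B|) (f := g) n two_pos hgd.diffContOnCl (fun z hz => hgb z (by
        rw [mem_sphere_iff_norm, sub_zero] at hz
        exact hz.le))
    have hpos : (0 : ℝ) < n.factorial := by exact_mod_cast Nat.factorial_pos n
    rw [norm_smul, norm_smul, norm_inv, Complex.norm_natCast, sub_zero, norm_pow,
      Complex.norm_of_nonneg hn.le]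
    calc (n.factorial : ℝ)⁻¹ * (‖t‖ ^ n * ‖iteratedDeriv n g 0‖)
        ≤ (n.factorial : ℝ)⁻¹ * (‖t‖ ^ n * (n.factorial * |B| / 2 ^ n)) := by gcongr
      _ = |B| * (‖t‖ / 2) ^ n := by
          rw [div_pow]
          field_simp
  have h1 := Complex.hasSum_taylorSeries_of_entire hgd 0 (‖t‖ : ℂ)
  have h2 := norm_sub_le_of_geometric_bound_of_hasSum (by linarith : ‖t‖ / 2 < 1) hcoef h1 2
  rw [Finset.sum_range_succ, Finset.sum_range_succ, Finset.sum_range_zero] at h2
  simp only [Nat.factorial_zero, Nat.cast_one, inv_one, pow_zero, one_smul, iteratedDeriv_zero,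
    zero_add, Nat.factorial_one, pow_one, iteratedDeriv_one, sub_zero] at h2
  rw [hg0, hg1] at h2
  have h3 : g (‖t‖ : ℂ) = f (Psi Φ t x) := by
    show f (Psi Φ ((‖t‖ : ℂ) • u) x) = _
    rw [htu]
  have h4 : (‖t‖ : ℂ) • ∑ i, u i * (W i f) x = ∑ i, t i * (W i f) x := by
    rw [smul_eq_mul, Finset.mul_sum]
    refine Finset.sum_congr rfl fun i _ => ?_
    rw [← mul_assoc]
    congr 1
    exact congrFun htu i
  rw [h3, h4, norm_sub_rev, ← sub_sub] at h2
  refine h2.trans ?_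
  have h5 : 1 / 2 ≤ 1 - ‖t‖ / 2 := by linarith
  rw [div_le_iff₀ (by linarith)]
  have h6 : (‖t‖ / 2) ^ 2 = ‖t‖ ^ 2 / 4 := by ring
  rw [h6]
  have h7 : 0 ≤ |B| * ‖t‖ ^ 2 := by positivity
  nlinarith

end Pool.Agent.MP_fe3720.RR
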