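import Pool.Agent.Work.MP_fe3720_an.Wei

/-! # EC2: holomorphic functions are `C²`

By `contDiffOn_succ_iff_fderiv_of_isOpen`-like lemmas it is enough that `y ↦ fderiv ℂ g y` is `C¹` on `V`, i.e. (finite
dimension) that `y ↦ fderiv ℂ g y (Pi.single i 1)` is `C¹` for all `i`: it is the limit, uniformly on the compact subsets of `V`, of
`y ↦ (g (y + h e_i) - g y)/h` (`h → 0`, mean value and uniform continuity of `fderiv ℂ g` on compact sets), which are `C¹` near the compact set; use
`wei` (its hypothesis asks for approximants which are `C¹` on the open set `V`: apply it on a smaller relatively compact open set, and use that `ContDiffOn` is local). -/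

namespace Pool.Agent.MP_fe3720.RR

open Topology

theorem contDiffOn_two {m : ℕ} {V : Set (Fin m → ℂ)} (hV : IsOpen V) {g : (Fin m → ℂ) → ℂ}
    (hg : ContDiffOn ℂ 1 g V) : ContDiffOn ℂ 2 g V := by
  have hd : ∀ y ∈ V, DifferentiableAt ℂ g y := fun y hy =>
    (hg.contDiffAt (hV.mem_nhds hy)).differentiableAt (by norm_num)
  have hfc : ContinuousOn (fderiv ℂ g) V := hg.continuousOn_fderiv_of_isOpen hV (by norm_num)
  have key : ∀ v, ContDiffOn ℂ 1 (fun y => fderiv ℂ g y v) V := by
    intro v x₀ hx₀
    obtain ⟨R, hR, hball⟩ := Metric.isOpen_iff.mp hV x₀ hx₀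
    set r := R / 3 with hr
    have hrpos : 0 < r := by positivity
    have hsub : Metric.closedBall x₀ (2 * r) ⊆ V := fun y hy => hball (by
      rw [Metric.mem_closedBall] at hy
      rw [Metric.mem_ball]
      have : 2 * r < R := by rw [hr]; linarith
      linarith)
    have main : ContDiffOn ℂ 1 (fun y => fderiv ℂ g y v) (Metric.ball x₀ r) := by
      apply wei Metric.isOpen_ball
      intro K hK hKc ε hε
      have huc : UniformContinuousOn (fderiv ℂ g) (Metric.closedBall x₀ (2 * r)) :=
        (isCompact_closedBall _ _).uniformContinuousOn_of_continuous (hfc.mono hsub)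
      have hv1 : 0 < ‖v‖ + 1 := by positivity
      obtain ⟨δ, hδ, hδ'⟩ := Metric.uniformContinuousOn_iff.mp huc (ε / (2 * (‖v‖ + 1)))
        (by positivity)
      set h : ℝ := min δ r / (2 * (‖v‖ + 1)) with hh
      have hhpos : 0 < h := by
        rw [hh]
        have : 0 < min δ r := lt_min hδ hrpos
        positivity
      have hhv : h * ‖v‖ < min δ r := by
        have h1 : h * (2 * (‖v‖ + 1)) = min δ r := by
          rw [hh]
          field_simp
        have : 0 < h * ‖v‖ + 2 * h := by positivity
        nlinarith
      have hnorm : ‖((h : ℂ)) • v‖ = h * ‖v‖ := by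
        rw [norm_smul, Complex.norm_real, Real.norm_of_nonneg hhpos.le]
      have hmem : ∀ y ∈ Metric.ball x₀ r, ∀ w : Fin m → ℂ, ‖w‖ ≤ h * ‖v‖ →
          y + w ∈ Metric.closedBall x₀ (2 * r) := by
        intro y hy w hw
        rw [Metric.mem_ball, dist_eq_norm] at hy
        rw [Metric.mem_closedBall, dist_eq_norm]
        have h1 : y + w - x₀ = (y - x₀) + w := by abel
        rw [h1]
        have h2 := norm_add_le (y - x₀) w
        have h3 := min_le_right δ r
        linarith
      refine ⟨fun y => ((h : ℂ))⁻¹ * (g (y + (h : ℂ) • v) - g y), ?_, ?_⟩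
      · refine contDiffOn_const.mul (ContDiffOn.sub ?_ ?_)
        · have h1 : ContDiffOn ℂ 1 (fun y : Fin m → ℂ => y + (h : ℂ) • v) (Metric.ball x₀ r) :=
            contDiffOn_id.add contDiffOn_const
          exact hg.comp h1 fun y hy => hsub (hmem y hy _ hnorm.le)
        · refine hg.mono fun y hy => hsub ?_
          have := hmem y hy 0 (by rw [norm_zero]; positivity)
          rwa [add_zero] at this
      · intro x hx
        have hxb := hK hx
        have hxc : x ∈ Metric.closedBall x₀ (2 * r) := by
          have := hmem x hxb 0 (by rw [norm_zero]; positivity)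
          rwa [add_zero] at this
        have hb := Convex.norm_image_sub_le_of_norm_fderiv_le' (𝕜 := ℂ) (f := g)
          (C := ε / (2 * (‖v‖ + 1))) (s := Metric.closedBall x (h * ‖v‖)) (x := x)
          (y := x + (h : ℂ) • v) (φ := fderiv ℂ g x)
          (fun y hy => by
            have h1 := hmem x hxb (y - x) (by
              rwa [Metric.mem_closedBall, dist_eq_norm] at hy)
            rw [add_sub_cancel] at h1
            exact hd y (hsub h1))
          (fun y hy => by
            have h0 : ‖y - x‖ ≤ h * ‖v‖ := by
              rwa [Metric.mem_closedBall, dist_eq_norm] at hy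
            have h1 := hmem x hxb (y - x) h0
            rw [add_sub_cancel] at h1
            have h2 := hδ' y h1 x hxc (by
              rw [dist_eq_norm]
              exact (h0.trans_lt hhv).trans_le (min_le_left _ _))
            rw [dist_eq_norm] at h2
            exact h2.le)
          (convex_closedBall _ _) (Metric.mem_closedBall_self (by positivity))
          (by rw [Metric.mem_closedBall, dist_eq_norm, add_sub_cancel_left, hnorm])
        rw [add_sub_cancel_left, hnorm, map_smul, smul_eq_mul] at hb
        have hhc : (h : ℂ) ≠ 0 := by exact_mod_cast hhpos.ne'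
        have e1 : fderiv ℂ g x v - ((h : ℂ))⁻¹ * (g (x + (h : ℂ) • v) - g x) =
            -(((h : ℂ))⁻¹ * (g (x + (h : ℂ) • v) - g x - (h : ℂ) * fderiv ℂ g x v)) := by
          field_simp
          ring
        rw [e1, norm_neg, norm_mul, norm_inv, Complex.norm_real, Real.norm_of_nonneg hhpos.le]
        have h3 : h⁻¹ * ‖g (x + (h : ℂ) • v) - g x - (h : ℂ) * fderiv ℂ g x v‖ ≤
            h⁻¹ * (ε / (2 * (‖v‖ + 1)) * (h * ‖v‖)) := by gcongr
        refine h3.trans_lt ?_
        have h4 : h⁻¹ * (ε / (2 * (‖v‖ + 1)) * (h * ‖v‖)) = ε * (‖v‖ / (2 * (‖v‖ + 1))) := by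
          field_simp
        rw [h4]
        have h5 : ‖v‖ / (2 * (‖v‖ + 1)) < 1 := by
          rw [div_lt_one (by positivity)]
          have := norm_nonneg v
          linarith
        nlinarith
    exact (main.contDiffAt (Metric.ball_mem_nhds x₀ hrpos)).contDiffWithinAt
  rw [show (2 : WithTop ℕ∞) = 1 + 1 from by norm_num, contDiffOn_succ_iff_fderiv_of_isOpen hV]
  refine ⟨fun y hy => (hd y hy).differentiableWithinAt, by simp, ?_⟩
  rw [contDiffOn_clm_apply]
  exact key

end Pool.Agent.MP_fe3720.RR
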