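import Mathlib

/-! # ELocA: the superlevel set near a regular point is connected (Mathlib only)

Let `e` with `fderiv ℝ u y₀ e > 0` and a ball `B(y₀, R) ⊆ U` on which `u` is differentiable with `fderiv ℝ u y e > 0`. Let `H` be the
kernel of `fderiv ℝ u y₀` (a complement of `ℝ e`); `W = {y₀ + s e + w : |s| ≤ a, w ∈ H, |w| ≤ b}`, with `a` small and then
`b` small such that `u (y₀ + a e + w) > u y₀` for `|w| ≤ b` (continuity, `u (y₀ + a e) > u y₀`). `W` is a neighbourhood of `y₀`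
(the map `(s, w) ↦ s e + w` is a linear homeomorphism). Each point `y₀ + s e + w` of `W` with `u > u y₀` is joined in `{u > u y₀}` by the segment
to `y₀ + a e + w` (`u` is increasing in `s`), and the top `{y₀ + a e + w : |w| ≤ b}` is convex. So the set is
preconnected (`isPreconnected_of_forall`, union of connected sets through the top). -/

namespace Pool.Agent.MP_fe3720.RR

open Topology

private theorem locA_mono {E : Type} [NormedAddCommGroup E] [NormedSpace ℝ E]
    (u : E → ℝ) (y e : E) (τ : ℝ)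
    (h1 : ∀ t ∈ Set.Icc (0 : ℝ) τ, DifferentiableAt ℝ u (y + t • e))
    (h2 : ∀ t ∈ Set.Icc (0 : ℝ) τ, 0 < fderiv ℝ u (y + t • e) e) :
    StrictMonoOn (fun t : ℝ => u (y + t • e)) (Set.Icc 0 τ) := by
  have hd : ∀ t ∈ Set.Icc (0 : ℝ) τ, HasDerivAt (fun t : ℝ => u (y + t • e))
      (fderiv ℝ u (y + t • e) e) t := by
    intro t ht
    have g1 : HasDerivAt (fun t : ℝ => y + t • e) e t := by
      have := ((hasDerivAt_id t).smul_const e).const_add y
      simpa using this
    exact (h1 t ht).hasFDerivAt.comp_hasDerivAt t g1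
  apply strictMonoOn_of_deriv_pos (convex_Icc 0 τ)
  · intro t ht
    exact (hd t ht).continuousAt.continuousWithinAt
  · intro t ht
    have ht' := interior_subset ht
    rw [(hd t ht').deriv]
    exact h2 t ht'

theorem locA {E : Type} [NormedAddCommGroup E] [NormedSpace ℝ E] [FiniteDimensional ℝ E]
    (u : E → ℝ) (y₀ : E) (hu : ContDiffAt ℝ 1 u y₀) (h : fderiv ℝ u y₀ ≠ 0) {U : Set E}
    (hU : U ∈ 𝓝 y₀) : ∃ W ∈ 𝓝 y₀, W ⊆ U ∧ IsPreconnected {y ∈ W | u y₀ < u y} := by
  obtain ⟨e, he⟩ : ∃ e, fderiv ℝ u y₀ e = 1 := by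
    obtain ⟨x, hx⟩ : ∃ x, fderiv ℝ u y₀ x ≠ 0 := by
      by_contra hcon
      push Not at hcon
      exact h (ContinuousLinearMap.ext hcon)
    exact ⟨(fderiv ℝ u y₀ x)⁻¹ • x, by rw [map_smul, smul_eq_mul, inv_mul_cancel₀ hx]⟩
  set ℓ := fderiv ℝ u y₀ with hℓ
  have hd : ∀ᶠ y in 𝓝 y₀, DifferentiableAt ℝ u y := by
    filter_upwards [hu.eventually (by simp)] with y hy
    exact hy.differentiableAt (by simp)
  have hc : ContinuousAt (fun y => fderiv ℝ u y e) y₀ := by
    have h1 : ContDiffAt ℝ 0 (fderiv ℝ u) y₀ := hu.fderiv_right (by simp)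
    exact h1.continuousAt.clm_apply continuousAt_const
  have hp : ∀ᶠ y in 𝓝 y₀, 0 < fderiv ℝ u y e := by
    apply hc.eventually_const_lt
    show 0 < fderiv ℝ u y₀ e
    rw [← hℓ, he]
    exact one_pos
  obtain ⟨R, hR, hball⟩ := Metric.eventually_nhds_iff.mp ((hd.and hp).and hU)
  -- the height `a`
  set a : ℝ := R / (2 * (‖e‖ + 1)) with ha
  have hen : 0 ≤ ‖e‖ := norm_nonneg e
  have ha0 : 0 < a := by positivity
  have hae : a * ‖e‖ < R / 2 := by
    rw [ha, div_mul_eq_mul_div, div_lt_div_iff₀ (by positivity) (by positivity)]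
    nlinarith
  have hin : ∀ (s : ℝ) (w : E), |s| ≤ a → ‖w‖ ≤ R / 2 → dist (y₀ + (s • e + w)) y₀ < R := by
    intro s w hs hw
    rw [dist_eq_norm, add_sub_cancel_left]
    calc ‖s • e + w‖ ≤ ‖s • e‖ + ‖w‖ := norm_add_le _ _
      _ = |s| * ‖e‖ + ‖w‖ := by rw [norm_smul, Real.norm_eq_abs]
      _ ≤ a * ‖e‖ + R / 2 := by gcongr
      _ < R := by linarith
  have hmono : ∀ (s : ℝ) (w : E), |s| ≤ a → ‖w‖ ≤ R / 2 →
      StrictMonoOn (fun t : ℝ => u (y₀ + (s • e + w) + t • e)) (Set.Icc 0 (a - s)) := by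
    intro s w hs hw
    have hb : ∀ t ∈ Set.Icc (0 : ℝ) (a - s), dist (y₀ + (s • e + w) + t • e) y₀ < R := by
      intro t ht
      have e1 : y₀ + (s • e + w) + t • e = y₀ + ((s + t) • e + w) := by module
      rw [e1]
      apply hin (s + t) w _ hw
      rw [abs_le] at hs ⊢
      constructor <;> linarith [ht.1, ht.2]
    exact locA_mono u _ e (a - s) (fun t ht => (hball (hb t ht)).1.1)
      (fun t ht => (hball (hb t ht)).1.2)
  have htop0 : u y₀ < u (y₀ + a • e) := by
    have h1 := hmono 0 0 (by simpa using ha0.le) (by rw [norm_zero]; positivity)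
    have h2 := h1 (show (0 : ℝ) ∈ Set.Icc 0 (a - 0) from ⟨le_rfl, by linarith⟩)
      (show a ∈ Set.Icc 0 (a - 0) from ⟨ha0.le, by linarith⟩) ha0
    simpa using h2
  obtain ⟨b, hb0, hb⟩ : ∃ b > 0, ∀ w : E, ‖w‖ ≤ b → u y₀ < u (y₀ + (a • e + w)) := by
    have hcont : ContinuousAt (fun w : E => u (y₀ + (a • e + w))) 0 := by
      have h1 : DifferentiableAt ℝ u (y₀ + a • e) := by
        have := hball (hin a 0 (by rw [abs_of_pos ha0]) (by rw [norm_zero]; positivity))
        simpa using this.1.1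
      apply ContinuousAt.comp (g := u) (f := fun w : E => y₀ + (a • e + w))
      · simpa using h1.continuousAt
      · fun_prop
    have h2 : ∀ᶠ w in 𝓝 (0 : E), u y₀ < u (y₀ + (a • e + w)) := by
      apply hcont.eventually_const_lt
      simpa using htop0
    obtain ⟨b, hb0, hb⟩ := Metric.eventually_nhds_iff.mp h2
    refine ⟨b / 2, by positivity, fun w hw => hb ?_⟩
    rw [dist_zero_right]
    linarith
  set b' : ℝ := min b (R / 2) with hb'
  have hb'0 : 0 < b' := lt_min hb0 (by positivity)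
  have hb'1 : b' ≤ b := min_le_left _ _
  have hb'2 : b' ≤ R / 2 := min_le_right _ _
  set ψ : E → E := fun y => (y - y₀) - ℓ (y - y₀) • e with hψ
  have hψc : Continuous ψ := by
    rw [hψ]
    have : Continuous ℓ := ℓ.continuous
    fun_prop
  set W : Set E := {y | |ℓ (y - y₀)| ≤ a ∧ ‖ψ y‖ ≤ b'} with hW
  have hdec : ∀ y, y = y₀ + (ℓ (y - y₀) • e + ψ y) := by
    intro y
    rw [hψ]
    module
  have hψ0 : ∀ y, ℓ (ψ y) = 0 := by
    intro y
    rw [hψ]
    simp only [map_sub, map_smul, he, smul_eq_mul, mul_one]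
    ring
  have hWU : W ⊆ U := by
    rintro y ⟨h1, h2⟩
    have := hball (hin (ℓ (y - y₀)) (ψ y) h1 (h2.trans hb'2))
    rw [← hdec y] at this
    exact this.2
  have hWn : W ∈ 𝓝 y₀ := by
    have c1 : Continuous (fun y => |ℓ (y - y₀)|) := by
      have : Continuous ℓ := ℓ.continuous
      fun_prop
    have c2 : Continuous (fun y => ‖ψ y‖) := hψc.norm
    have g1 : ∀ᶠ y in 𝓝 y₀, |ℓ (y - y₀)| < a := by
      apply c1.continuousAt.eventually_lt_const
      simpa using ha0
    have g2 : ∀ᶠ y in 𝓝 y₀, ‖ψ y‖ < b' := by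
      apply c2.continuousAt.eventually_lt_const
      simpa [hψ] using hb'0
    filter_upwards [g1, g2] with y h1 h2
    exact ⟨h1.le, h2.le⟩
  have hmem : ∀ (s : ℝ) (w : E), |s| ≤ a → ℓ w = 0 → ‖w‖ ≤ b' → y₀ + (s • e + w) ∈ W := by
    intro s w hs hw hwb
    have e1 : ℓ (y₀ + (s • e + w) - y₀) = s := by
      rw [add_sub_cancel_left, map_add, map_smul, he, hw]
      simp
    have e2 : ψ (y₀ + (s • e + w)) = w := by
      rw [hψ]
      simp only
      rw [e1, add_sub_cancel_left, add_sub_cancel_left]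
    exact ⟨by rw [e1]; exact hs, by rw [e2]; exact hwb⟩
  refine ⟨W, hWn, hWU, ?_⟩
  -- the top
  set Tp : Set E := {y | ∃ w : E, ℓ w = 0 ∧ ‖w‖ ≤ b' ∧ y = y₀ + (a • e + w)} with hTp
  have hTc : Convex ℝ Tp := by
    rintro _ ⟨w1, h1, h1', rfl⟩ _ ⟨w2, h2, h2', rfl⟩ p q hp hq hpq
    refine ⟨p • w1 + q • w2, ?_, ?_, ?_⟩
    · rw [map_add, map_smul, map_smul, h1, h2]
      simp
    · calc ‖p • w1 + q • w2‖ ≤ ‖p • w1‖ + ‖q • w2‖ := norm_add_le _ _
        _ = p * ‖w1‖ + q * ‖w2‖ := by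
            rw [norm_smul, norm_smul, Real.norm_of_nonneg hp, Real.norm_of_nonneg hq]
        _ ≤ p * b' + q * b' := by gcongr
        _ = b' := by rw [← add_mul, hpq, one_mul]
    · have e1 : p • y₀ + q • y₀ = y₀ := by rw [← add_smul, hpq, one_smul]
      have e2 : p • (a • e) + q • (a • e) = a • e := by rw [← add_smul, hpq, one_smul]
      calc p • (y₀ + (a • e + w1)) + q • (y₀ + (a • e + w2)) =
          (p • y₀ + q • y₀) + ((p • (a • e) + q • (a • e)) + (p • w1 + q • w2)) := by module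
        _ = _ := by rw [e1, e2]
  have hTsub : Tp ⊆ {y ∈ W | u y₀ < u y} := by
    rintro _ ⟨w, h1, h2, rfl⟩
    exact ⟨hmem a w (by rw [abs_of_pos ha0]) h1 h2, hb w (h2.trans hb'1)⟩
  apply isPreconnected_of_forall (y₀ + (a • e + 0))
  rintro y ⟨⟨hy1, hy2⟩, hyu⟩
  set s := ℓ (y - y₀) with hs
  have hyd := hdec y
  rw [← hs] at hyd
  have hsa : s ≤ a := (abs_le.mp hy1).2
  have hsa' : -a ≤ s := (abs_le.mp hy1).1
  have htopm : y₀ + (a • e + ψ y) ∈ Tp := ⟨ψ y, hψ0 y, hy2, rfl⟩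
  refine ⟨segment ℝ y (y₀ + (a • e + ψ y)) ∪ Tp, ?_, ?_, ?_, ?_⟩
  · apply Set.union_subset _ hTsub
    rw [segment_eq_image']
    rintro _ ⟨t, ht, rfl⟩
    have e1 : y + t • (y₀ + (a • e + ψ y) - y) = y₀ + ((s + t * (a - s)) • e + ψ y) := by
      conv_lhs => rw [hyd]
      rw [← hyd]
      have e2 : y₀ + (a • e + ψ y) - y = (a - s) • e := by
        conv_lhs => rw [hyd]
        rw [← hyd]
        module
      rw [e2]
      conv_lhs => rw [hyd]
      rw [← hyd]
      module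
    have hts : 0 ≤ t * (a - s) := mul_nonneg ht.1 (by linarith)
    have hts' : t * (a - s) ≤ a - s := mul_le_of_le_one_left (by linarith) ht.2
    simp only
    rw [e1]
    refine ⟨hmem _ _ ?_ (hψ0 y) hy2, ?_⟩
    · rw [abs_le]
      constructor <;> linarith
    · have h1 := (hmono s (ψ y) hy1 (hy2.trans hb'2)).monotoneOn
        (show (0 : ℝ) ∈ Set.Icc 0 (a - s) from ⟨le_rfl, by linarith⟩)
        (show t * (a - s) ∈ Set.Icc 0 (a - s) from ⟨hts, hts'⟩) hts
      simp only [zero_smul, add_zero] at h1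
      rw [← hyd] at h1
      have e3 : y + (t * (a - s)) • e = y₀ + ((s + t * (a - s)) • e + ψ y) := by
        conv_lhs => rw [hyd]
        rw [← hyd]
        module
      rw [e3] at h1
      exact lt_of_lt_of_le hyu h1
  · right
    exact ⟨0, by simp, by simpa using hb'0.le, rfl⟩
  · left
    exact left_mem_segment ℝ _ _
  · exact IsPreconnected.union _ (right_mem_segment ℝ _ _) htopm
      (convex_segment _ _).isPreconnected hTc.isPreconnected

end Pool.Agent.MP_fe3720.RR
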