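import Mathlib

/-! # ELocB: the superlevel set near a critical point with a positive plane is connected (Mathlib only)

`P = range ι` is a real plane on which the second derivative `B = fderiv ℝ (fderiv ℝ u) y₀` is positive definite: `B p p ≥ 4 c |p|²`, `c > 0` (compact circle). For
`y` in a ball `B(y₀, R) ⊆ U`: `fderiv ℝ (fderiv ℝ u) y p p ≥ 2 c |p|²` (continuity). Let `H` be a complement of `P` and
`W = {y₀ + ι z + w : |z| ≤ a, w ∈ H, |w| ≤ b}` contained in the ball. As `fderiv ℝ u y₀ = 0`, `u (y₀ + ι z) ≥ u y₀ + c |ι z|²` (Taylor along the segment), so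
for `b` small `u (y₀ + ι z + w) > u y₀` for `|z| = a`, `|w| ≤ b` (compactness of the circle). Let `y = y₀ + ι z + w ∈ W` with `u y > u y₀ =: κ`. Claim: `y` is
joined to the circle part `T = {y₀ + ι z + w : |z| = a, |w| ≤ b}` inside `{y ∈ W | κ < u y}`. If for this `w` no `z'` with `|z'| ≤ a` has
`u (y₀ + ι z' + w) ≤ κ`, take any segment to the circle. Otherwise let `z'` be such a point; the function `t ↦ u (y₀ + ι (z' + t (z - z')) + w)` is convex (second
derivative `≥ 0`) on the interval where `|z' + t (z - z')| ≤ a`, is `≤ κ` at `t = 0`, `> κ` at `t = 1`, so `> κ` for all `t ≥ 1` of the interval: the segment from `z` to the exit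
point on the circle works. Finally `T` is preconnected (image of circle × ball, `isPreconnected_sphere` for `ℂ` over `ℝ`: rank `2`). -/

namespace Pool.Agent.MP_fe3720.RR

open Topology

private theorem locB_deriv {E : Type} [NormedAddCommGroup E] [NormedSpace ℝ E]
    (u : E → ℝ) (y d : E) (t : ℝ) (h1 : ContDiffAt ℝ 2 u (y + t • d)) :
    HasDerivAt (fun t : ℝ => u (y + t • d)) (fderiv ℝ u (y + t • d) d) t ∧
    HasDerivAt (fun t : ℝ => fderiv ℝ u (y + t • d) d)
      (fderiv ℝ (fun y => fderiv ℝ u y) (y + t • d) d d) t := by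
  have g1 : HasDerivAt (fun t : ℝ => y + t • d) d t := by
    have := ((hasDerivAt_id t).smul_const d).const_add y
    simpa using this
  constructor
  · exact (h1.differentiableAt (by simp)).hasFDerivAt.comp_hasDerivAt t g1
  · have h2 : ContDiffAt ℝ 1 (fderiv ℝ u) (y + t • d) := h1.fderiv_right (by norm_num)
    have h3 : HasDerivAt (fun t : ℝ => fderiv ℝ u (y + t • d))
        (fderiv ℝ (fderiv ℝ u) (y + t • d) d) t :=
      (h2.differentiableAt (by simp)).hasFDerivAt.comp_hasDerivAt t g1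
    have h4 := h3.clm_apply (hasDerivAt_const t d)
    simpa using h4

private theorem locB_convex {E : Type} [NormedAddCommGroup E] [NormedSpace ℝ E]
    (u : E → ℝ) (y d : E) (h1 : ∀ t ∈ Set.Icc (0 : ℝ) 1, ContDiffAt ℝ 2 u (y + t • d))
    (h2 : ∀ t ∈ Set.Icc (0 : ℝ) 1, 0 ≤ fderiv ℝ (fun y => fderiv ℝ u y) (y + t • d) d d) :
    ConvexOn ℝ (Set.Icc 0 1) (fun t : ℝ => u (y + t • d)) := by
  have hmono : MonotoneOn (fun t : ℝ => fderiv ℝ u (y + t • d) d) (Set.Icc 0 1) := by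
    apply monotoneOn_of_deriv_nonneg (convex_Icc 0 1)
    · intro t ht
      exact (locB_deriv u y d t (h1 t ht)).2.continuousAt.continuousWithinAt
    · intro t ht
      exact (locB_deriv u y d t (h1 t (interior_subset ht))).2.differentiableAt.differentiableWithinAt
    · intro t ht
      rw [(locB_deriv u y d t (h1 t (interior_subset ht))).2.deriv]
      exact h2 t (interior_subset ht)
  apply MonotoneOn.convexOn_of_deriv (convex_Icc 0 1)
  · intro t ht
    exact (locB_deriv u y d t (h1 t ht)).1.continuousAt.continuousWithinAt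
  · intro t ht
    exact (locB_deriv u y d t (h1 t (interior_subset ht))).1.differentiableAt.differentiableWithinAt
  · intro s hs t ht hst
    rw [(locB_deriv u y d s (h1 s (interior_subset hs))).1.deriv,
      (locB_deriv u y d t (h1 t (interior_subset ht))).1.deriv]
    exact hmono (interior_subset hs) (interior_subset ht) hst

private theorem locB_strict {E : Type} [NormedAddCommGroup E] [NormedSpace ℝ E]
    (u : E → ℝ) (y d : E) (h1 : ∀ t ∈ Set.Icc (0 : ℝ) 1, ContDiffAt ℝ 2 u (y + t • d))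
    (h2 : ∀ t ∈ Set.Icc (0 : ℝ) 1, 0 < fderiv ℝ (fun y => fderiv ℝ u y) (y + t • d) d d)
    (h0 : fderiv ℝ u y d = 0) : u y < u (y + d) := by
  have hmono : StrictMonoOn (fun t : ℝ => fderiv ℝ u (y + t • d) d) (Set.Icc 0 1) := by
    apply strictMonoOn_of_deriv_pos (convex_Icc 0 1)
    · intro t ht
      exact (locB_deriv u y d t (h1 t ht)).2.continuousAt.continuousWithinAt
    · intro t ht
      rw [(locB_deriv u y d t (h1 t (interior_subset ht))).2.deriv]
      exact h2 t (interior_subset ht)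
  have hmono2 : StrictMonoOn (fun t : ℝ => u (y + t • d)) (Set.Icc 0 1) := by
    apply strictMonoOn_of_deriv_pos (convex_Icc 0 1)
    · intro t ht
      exact (locB_deriv u y d t (h1 t ht)).1.continuousAt.continuousWithinAt
    · intro t ht
      rw [(locB_deriv u y d t (h1 t (interior_subset ht))).1.deriv]
      rw [interior_Icc] at ht
      have := hmono (show (0 : ℝ) ∈ Set.Icc 0 1 from ⟨le_rfl, zero_le_one⟩)
        (show t ∈ Set.Icc 0 1 from ⟨ht.1.le, ht.2.le⟩) ht.1
      simp only [zero_smul, add_zero] at this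
      rwa [h0] at this
  have := hmono2 (show (0 : ℝ) ∈ Set.Icc 0 1 from ⟨le_rfl, zero_le_one⟩)
    (show (1 : ℝ) ∈ Set.Icc 0 1 from ⟨zero_le_one, le_rfl⟩) one_pos
  simpa using this

/-- exit point of a ray from a disc -/
private theorem locB_exit (a : ℝ) (z z' : ℂ) (hz : ‖z‖ ≤ a) (hne : z ≠ z') :
    ∃ t : ℝ, 1 ≤ t ∧ ‖z' + (t : ℂ) * (z - z')‖ = a := by
  have ha : 0 ≤ a := (norm_nonneg z).trans hz
  have hd : 0 < ‖z - z'‖ := norm_pos_iff.mpr (sub_ne_zero.mpr hne)
  set N : ℝ → ℝ := fun t => ‖z' + (t : ℂ) * (z - z')‖ with hN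
  have hNc : Continuous N := by
    rw [hN]
    fun_prop
  set t₁ : ℝ := 1 + 2 * a / ‖z - z'‖ with ht₁
  have h1 : 1 ≤ t₁ := by
    have : 0 ≤ 2 * a / ‖z - z'‖ := by positivity
    linarith
  have h2 : a ≤ N t₁ := by
    have e1 : z' + (t₁ : ℂ) * (z - z') = z + ((t₁ - 1 : ℝ) : ℂ) * (z - z') := by
      push_cast
      ring
    rw [hN]
    simp only
    rw [e1]
    have e2 : ‖((t₁ - 1 : ℝ) : ℂ) * (z - z')‖ = 2 * a := by
      rw [norm_mul, Complex.norm_real, Real.norm_of_nonneg (by linarith), ht₁]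
      field_simp
      ring
    have e3 : ‖((t₁ - 1 : ℝ) : ℂ) * (z - z')‖ ≤ ‖z + ((t₁ - 1 : ℝ) : ℂ) * (z - z')‖ + ‖z‖ := by
      have := norm_sub_le (z + ((t₁ - 1 : ℝ) : ℂ) * (z - z')) z
      rwa [add_sub_cancel_left] at this
    linarith
  have h3 : N 1 ≤ a := by
    rw [hN]
    simp only
    have : z' + ((1 : ℝ) : ℂ) * (z - z') = z := by push_cast; ring
    rw [this]
    exact hz
  obtain ⟨t, ht, hta⟩ := intermediate_value_Icc h1 hNc.continuousOn ⟨h3, h2⟩
  exact ⟨t, ht.1, hta⟩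

theorem locB {E : Type} [NormedAddCommGroup E] [NormedSpace ℝ E] [FiniteDimensional ℝ E]
    (u : E → ℝ) (y₀ : E) (hu : ContDiffAt ℝ 2 u y₀) (h : fderiv ℝ u y₀ = 0) (ι : ℂ →ₗ[ℝ] E)
    (hι : Function.Injective ι)
    (hpos : ∀ z, z ≠ 0 → 0 < fderiv ℝ (fun y => fderiv ℝ u y) y₀ (ι z) (ι z)) {U : Set E}
    (hU : U ∈ 𝓝 y₀) : ∃ W ∈ 𝓝 y₀, W ⊆ U ∧ IsPreconnected {y ∈ W | u y₀ < u y} := by
  have hιc : Continuous ι := ι.continuous_of_finiteDimensional
  obtain ⟨π, hπ⟩ := LinearMap.exists_leftInverse_of_injective ι (LinearMap.ker_eq_bot.mpr hι)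
  have hπι : ∀ z, π (ι z) = z := fun z => LinearMap.congr_fun hπ z
  have hπc : Continuous π := π.continuous_of_finiteDimensional
  obtain ⟨K, hK0, hK⟩ : ∃ K : ℝ, 0 ≤ K ∧ ∀ z, ‖ι z‖ ≤ K * ‖z‖ :=
    ⟨‖LinearMap.toContinuousLinearMap ι‖, norm_nonneg _,
      fun z => (LinearMap.toContinuousLinearMap ι).le_opNorm z⟩
  -- a good ball
  have hBc : ContinuousAt (fun y => fderiv ℝ (fun y => fderiv ℝ u y) y) y₀ := by
    have h1 : ContDiffAt ℝ 1 (fderiv ℝ u) y₀ := hu.fderiv_right (by norm_num)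
    have h2 : ContDiffAt ℝ 0 (fderiv ℝ (fderiv ℝ u)) y₀ := h1.fderiv_right (by simp)
    exact h2.continuousAt
  have hgood1 : ∀ᶠ y in 𝓝 y₀, ∀ z ∈ Metric.sphere (0 : ℂ) 1,
      0 < fderiv ℝ (fun y => fderiv ℝ u y) y (ι z) (ι z) := by
    apply (isCompact_sphere (0 : ℂ) 1).eventually_forall_of_forall_eventually
    intro z hz
    have hz0 : z ≠ 0 := by
      rintro rfl
      simp at hz
    have hcont : ContinuousAt (fun p : E × ℂ => fderiv ℝ (fun y => fderiv ℝ u y) p.1 (ι p.2)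
        (ι p.2)) (y₀, z) := by
      have c1 : ContinuousAt (fun p : E × ℂ => fderiv ℝ (fun y => fderiv ℝ u y) p.1) (y₀, z) :=
        ContinuousAt.comp (g := fun y => fderiv ℝ (fun y => fderiv ℝ u y) y)
          (f := fun p : E × ℂ => p.1) hBc continuousAt_fst
      have c2 : ContinuousAt (fun p : E × ℂ => ι p.2) (y₀, z) :=
        (hιc.comp continuous_snd).continuousAt
      exact (c1.clm_apply c2).clm_apply c2
    exact hcont.eventually_const_lt (hpos z hz0)
  have hgood2 : ∀ᶠ y in 𝓝 y₀, ∀ z : ℂ, z ≠ 0 →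
      0 < fderiv ℝ (fun y => fderiv ℝ u y) y (ι z) (ι z) := by
    filter_upwards [hgood1] with y hy z hz
    have hn : 0 < ‖z‖ := norm_pos_iff.mpr hz
    have h1 := hy ((‖z‖⁻¹ : ℝ) • z) (by
      rw [mem_sphere_zero_iff_norm, norm_smul, Real.norm_of_nonneg (by positivity),
        inv_mul_cancel₀ hn.ne'])
    rw [map_smul, map_smul, map_smul, smul_apply, smul_eq_mul, smul_eq_mul] at h1
    have h2 : 0 < ‖z‖⁻¹ := by positivity
    exact (mul_pos_iff_of_pos_left h2).mp ((mul_pos_iff_of_pos_left h2).mp h1)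
  have hgood3 : ∀ᶠ y in 𝓝 y₀, ContDiffAt ℝ 2 u y := hu.eventually (by simp)
  obtain ⟨R, hR, hball⟩ := Metric.eventually_nhds_iff.mp ((hgood3.and hgood2).and hU)
  set a : ℝ := R / (2 * (K + 1)) with ha
  have ha0 : 0 < a := by positivity
  have haK : K * a < R / 2 := by
    rw [ha, mul_div_assoc', div_lt_div_iff₀ (by positivity) (by positivity)]
    nlinarith
  have hin : ∀ (z : ℂ) (w : E), ‖z‖ ≤ a → ‖w‖ ≤ R / 2 → dist (y₀ + (ι z + w)) y₀ < R := by
    intro z w hz hw
    rw [dist_eq_norm, add_sub_cancel_left]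
    calc ‖ι z + w‖ ≤ ‖ι z‖ + ‖w‖ := norm_add_le _ _
      _ ≤ K * a + R / 2 := by
          have := hK z
          have : K * ‖z‖ ≤ K * a := by gcongr
          linarith
      _ < R := by linarith
  -- the circle
  have hcirc : ∀ z ∈ Metric.sphere (0 : ℂ) a, u y₀ < u (y₀ + (ι z + 0)) := by
    intro z hz
    rw [mem_sphere_zero_iff_norm] at hz
    rw [add_zero]
    have hz0 : z ≠ 0 := by
      rintro rfl
      rw [norm_zero] at hz
      linarith
    have hb : ∀ t ∈ Set.Icc (0 : ℝ) 1, dist (y₀ + t • ι z) y₀ < R := by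
      intro t ht
      have := hin (t • z) 0 (by
        rw [norm_smul, Real.norm_of_nonneg ht.1, hz]
        exact mul_le_of_le_one_left ha0.le ht.2) (by rw [norm_zero]; positivity)
      rwa [map_smul, add_zero] at this
    exact locB_strict u y₀ (ι z) (fun t ht => (hball (hb t ht)).1.1)
      (fun t ht => (hball (hb t ht)).1.2 z hz0) (by rw [h]; rfl)
  obtain ⟨b, hb0, hb⟩ : ∃ b > 0, ∀ w : E, ‖w‖ ≤ b → ∀ z : ℂ, ‖z‖ = a →
      u y₀ < u (y₀ + (ι z + w)) := by
    have h2 : ∀ᶠ w in 𝓝 (0 : E), ∀ z ∈ Metric.sphere (0 : ℂ) a, u y₀ < u (y₀ + (ι z + w)) := by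
      apply (isCompact_sphere (0 : ℂ) a).eventually_forall_of_forall_eventually
      intro z hz
      have hz' := hz
      rw [mem_sphere_zero_iff_norm] at hz'
      have h1 : DifferentiableAt ℝ u (y₀ + (ι z + 0)) :=
        (hball (hin z 0 hz'.le (by rw [norm_zero]; positivity))).1.1.differentiableAt (by simp)
      have hcont : ContinuousAt (fun p : E × ℂ => u (y₀ + (ι p.2 + p.1))) (0, z) := by
        apply ContinuousAt.comp (g := u) (f := fun p : E × ℂ => y₀ + (ι p.2 + p.1))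
        · exact h1.continuousAt
        · have : Continuous (fun p : E × ℂ => y₀ + (ι p.2 + p.1)) := by fun_prop
          exact this.continuousAt
      exact hcont.eventually_const_lt (hcirc z hz)
    obtain ⟨b, hb0, hb⟩ := Metric.eventually_nhds_iff.mp h2
    refine ⟨b / 2, by positivity, fun w hw z hz => hb ?_ z (by rwa [mem_sphere_zero_iff_norm])⟩
    rw [dist_zero_right]
    linarith
  set b' : ℝ := min b (R / 2) with hb'
  have hb'0 : 0 < b' := lt_min hb0 (by positivity)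
  have hb'1 : b' ≤ b := min_le_left _ _
  have hb'2 : b' ≤ R / 2 := min_le_right _ _
  set ψ : E → E := fun y => (y - y₀) - ι (π (y - y₀)) with hψ
  have hψc : Continuous ψ := by
    rw [hψ]
    fun_prop
  set W : Set E := {y | ‖π (y - y₀)‖ ≤ a ∧ ‖ψ y‖ ≤ b'} with hW
  have hdec : ∀ y, y = y₀ + (ι (π (y - y₀)) + ψ y) := by
    intro y
    rw [hψ]
    module
  have hψ0 : ∀ y, π (ψ y) = 0 := by
    intro y
    rw [hψ]
    simp only
    rw [map_sub, hπι, sub_self]
  have hWU : W ⊆ U := by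
    rintro y ⟨h1, h2⟩
    have := hball (hin (π (y - y₀)) (ψ y) h1 (h2.trans hb'2))
    rw [← hdec y] at this
    exact this.2
  have hWn : W ∈ 𝓝 y₀ := by
    have c1 : Continuous (fun y => ‖π (y - y₀)‖) := by fun_prop
    have c2 : Continuous (fun y => ‖ψ y‖) := hψc.norm
    have g1 : ∀ᶠ y in 𝓝 y₀, ‖π (y - y₀)‖ < a := by
      apply c1.continuousAt.eventually_lt_const
      simpa using ha0
    have g2 : ∀ᶠ y in 𝓝 y₀, ‖ψ y‖ < b' := by
      apply c2.continuousAt.eventually_lt_const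
      simpa [hψ] using hb'0
    filter_upwards [g1, g2] with y h1 h2
    exact ⟨h1.le, h2.le⟩
  have hmem : ∀ (z : ℂ) (w : E), ‖z‖ ≤ a → π w = 0 → ‖w‖ ≤ b' → y₀ + (ι z + w) ∈ W := by
    intro z w hz hw hwb
    have e1 : π (y₀ + (ι z + w) - y₀) = z := by
      rw [add_sub_cancel_left, map_add, hπι, hw, add_zero]
    have e2 : ψ (y₀ + (ι z + w)) = w := by
      rw [hψ]
      simp only
      rw [e1, add_sub_cancel_left, add_sub_cancel_left]
    exact ⟨by rw [e1]; exact hz, by rw [e2]; exact hwb⟩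
  refine ⟨W, hWn, hWU, ?_⟩
  -- the circle part
  set Tp : Set E := {y | ∃ (z : ℂ) (w : E), ‖z‖ = a ∧ π w = 0 ∧ ‖w‖ ≤ b' ∧ y = y₀ + (ι z + w)}
    with hTp
  have hTc : IsPreconnected Tp := by
    have h1 : IsPreconnected (Metric.sphere (0 : ℂ) a) := by
      apply isPreconnected_sphere
      rw [Complex.rank_real_complex]
      norm_num
    have h2 : Convex ℝ {w : E | π w = 0 ∧ ‖w‖ ≤ b'} := by
      rintro w1 ⟨h1, h1'⟩ w2 ⟨h2, h2'⟩ p q hp hq hpq
      refine ⟨?_, ?_⟩
      · rw [map_add, map_smul, map_smul, h1, h2]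
        simp
      · calc ‖p • w1 + q • w2‖ ≤ ‖p • w1‖ + ‖q • w2‖ := norm_add_le _ _
          _ = p * ‖w1‖ + q * ‖w2‖ := by
              rw [norm_smul, norm_smul, Real.norm_of_nonneg hp, Real.norm_of_nonneg hq]
          _ ≤ p * b' + q * b' := by gcongr
          _ = b' := by rw [← add_mul, hpq, one_mul]
    have h3 : Tp = (fun p : ℂ × E => y₀ + (ι p.1 + p.2)) ''
        (Metric.sphere (0 : ℂ) a ×ˢ {w : E | π w = 0 ∧ ‖w‖ ≤ b'}) := by
      ext y
      constructor
      · rintro ⟨z, w, g1, g2, g3, rfl⟩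
        exact ⟨(z, w), ⟨by rwa [mem_sphere_zero_iff_norm], g2, g3⟩, rfl⟩
      · rintro ⟨⟨z, w⟩, ⟨g1, g2, g3⟩, rfl⟩
        exact ⟨z, w, by rwa [mem_sphere_zero_iff_norm] at g1, g2, g3, rfl⟩
    rw [h3]
    apply (h1.prod h2.isPreconnected).image
    have : Continuous (fun p : ℂ × E => y₀ + (ι p.1 + p.2)) := by fun_prop
    exact this.continuousOn
  have hTsub : Tp ⊆ {y ∈ W | u y₀ < u y} := by
    rintro _ ⟨z, w, h1, h2, h3, rfl⟩
    exact ⟨hmem z w h1.le h2 h3, hb w (h3.trans hb'1) z h1⟩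
  -- convexity along segments of the disc
  have hconv : ∀ (w : E), ‖w‖ ≤ b' → ∀ z1 z2 : ℂ, ‖z1‖ ≤ a → ‖z2‖ ≤ a → ∀ s : ℝ, 0 ≤ s → s ≤ 1 →
      u (y₀ + (ι (z1 + (s : ℂ) * (z2 - z1)) + w)) ≤
        (1 - s) * u (y₀ + (ι z1 + w)) + s * u (y₀ + (ι z2 + w)) := by
    intro w hw z1 z2 hz1 hz2 s hs0 hs1
    by_cases hz : z2 - z1 = 0
    · have : z2 = z1 := sub_eq_zero.mp hz
      rw [this]
      simp only [sub_self, mul_zero, add_zero]
      linarith
    have e1 : ∀ t : ℝ, y₀ + (ι z1 + w) + t • ι (z2 - z1) =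
        y₀ + (ι (z1 + (t : ℂ) * (z2 - z1)) + w) := by
      intro t
      have : (t : ℂ) * (z2 - z1) = t • (z2 - z1) := by rw [Complex.real_smul]
      rw [this, map_add, map_smul]
      module
    have hbd : ∀ t ∈ Set.Icc (0 : ℝ) 1, dist (y₀ + (ι z1 + w) + t • ι (z2 - z1)) y₀ < R := by
      intro t ht
      rw [e1]
      apply hin _ _ _ (hw.trans hb'2)
      have e2 : z1 + (t : ℂ) * (z2 - z1) = ((1 - t : ℝ) : ℂ) * z1 + (t : ℂ) * z2 := by
        push_cast; ring
      rw [e2]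
      calc _ ≤ ‖((1 - t : ℝ) : ℂ) * z1‖ + ‖(t : ℂ) * z2‖ := norm_add_le _ _
        _ = (1 - t) * ‖z1‖ + t * ‖z2‖ := by
            rw [norm_mul, norm_mul, Complex.norm_real, Complex.norm_real,
              Real.norm_of_nonneg (by linarith [ht.2]), Real.norm_of_nonneg ht.1]
        _ ≤ (1 - t) * a + t * a := by
            have := ht.1
            have : 0 ≤ 1 - t := by linarith [ht.2]
            gcongr
        _ = a := by ring
    have hc := locB_convex u (y₀ + (ι z1 + w)) (ι (z2 - z1))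
      (fun t ht => (hball (hbd t ht)).1.1) (fun t ht => ((hball (hbd t ht)).1.2 _ hz).le)
    have h3 := hc.2 (show (0 : ℝ) ∈ Set.Icc 0 1 from ⟨le_rfl, zero_le_one⟩)
      (show (1 : ℝ) ∈ Set.Icc 0 1 from ⟨zero_le_one, le_rfl⟩)
      (show 0 ≤ 1 - s by linarith) hs0 (by ring)
    simp only [smul_eq_mul, mul_zero, mul_one, zero_add] at h3
    rw [e1, e1, e1] at h3
    simpa using h3
  apply isPreconnected_of_forall (y₀ + (ι (a : ℂ) + 0))
  rintro y ⟨⟨hy1, hy2⟩, hyu⟩
  set z := π (y - y₀) with hz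
  have hyd := hdec y
  rw [← hz] at hyd
  rw [hyd] at hyu
  -- a good point on the circle
  obtain ⟨z₁, hz₁, hseg⟩ : ∃ z₁ : ℂ, ‖z₁‖ = a ∧ ∀ z'' ∈ segment ℝ z z₁,
      u y₀ < u (y₀ + (ι z'' + ψ y)) := by
    by_cases hex : ∃ z' : ℂ, ‖z'‖ ≤ a ∧ u (y₀ + (ι z' + ψ y)) ≤ u y₀
    · obtain ⟨z', hz'a, hz'⟩ := hex
      have hne : z ≠ z' := by
        intro he
        rw [← he] at hz'
        exact absurd hyu (not_lt.mpr hz')
      obtain ⟨t, ht1, hta⟩ := locB_exit a z z' hy1 hne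
      refine ⟨_, hta, ?_⟩
      rw [segment_eq_image']
      rintro _ ⟨θ, hθ, rfl⟩
      -- the point is `z' + τ (z - z')` with `1 ≤ τ`
      set τ : ℝ := 1 + θ * (t - 1) with hτ
      have hτ1 : 1 ≤ τ := by
        have : 0 ≤ θ * (t - 1) := mul_nonneg hθ.1 (by linarith)
        linarith
      have e1 : z + θ • (z' + (t : ℂ) * (z - z') - z) = z' + (τ : ℂ) * (z - z') := by
        rw [Complex.real_smul, hτ]
        push_cast
        ring
      simp only
      rw [e1]
      have hna : ‖z' + (τ : ℂ) * (z - z')‖ ≤ a := by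
        rw [← e1]
        have h4 : z + θ • (z' + (t : ℂ) * (z - z') - z) ∈ Metric.closedBall (0 : ℂ) a := by
          have h5 : z + θ • (z' + (t : ℂ) * (z - z') - z) ∈
              segment ℝ z (z' + (t : ℂ) * (z - z')) := by
            rw [segment_eq_image']
            exact ⟨θ, hθ, rfl⟩
          exact (convex_closedBall (0 : ℂ) a).segment_subset
            (by rw [mem_closedBall_zero_iff]; exact hy1)
            (by rw [mem_closedBall_zero_iff]; exact hta.le) h5
        rwa [mem_closedBall_zero_iff] at h4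
      by_contra hcon
      push Not at hcon
      have hτ0 : 0 < τ := by linarith
      have h6 := hconv (ψ y) hy2 z' (z' + (τ : ℂ) * (z - z')) hz'a hna τ⁻¹ (by positivity)
        (inv_le_one_of_one_le₀ hτ1)
      have e2 : z' + ((τ⁻¹ : ℝ) : ℂ) * (z' + (τ : ℂ) * (z - z') - z') = z := by
        have : (τ : ℂ) ≠ 0 := by exact_mod_cast hτ0.ne'
        push_cast
        field_simp
        ring
      rw [e2] at h6
      have h7 : 0 ≤ 1 - τ⁻¹ := by
        have := inv_le_one_of_one_le₀ hτ1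
        linarith
      have h8 : 0 ≤ τ⁻¹ := by positivity
      have h9 : (1 - τ⁻¹) * u (y₀ + (ι z' + ψ y)) + τ⁻¹ * u (y₀ + (ι (z' + (τ : ℂ) * (z - z')) +
          ψ y)) ≤ (1 - τ⁻¹) * u y₀ + τ⁻¹ * u y₀ := by gcongr
      have h10 : (1 - τ⁻¹) * u y₀ + τ⁻¹ * u y₀ = u y₀ := by ring
      linarith
    · push Not at hex
      refine ⟨(a : ℂ), by rw [Complex.norm_real, Real.norm_of_nonneg ha0.le], ?_⟩
      intro z'' hz''
      apply hex
      have h4 := (convex_closedBall (0 : ℂ) a).segment_subset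
        (show z ∈ Metric.closedBall (0 : ℂ) a by rw [mem_closedBall_zero_iff]; exact hy1)
        (show (a : ℂ) ∈ Metric.closedBall (0 : ℂ) a by
          rw [mem_closedBall_zero_iff, Complex.norm_real, Real.norm_of_nonneg ha0.le]) hz''
      rwa [mem_closedBall_zero_iff] at h4
  have htopm : y₀ + (ι z₁ + ψ y) ∈ Tp := ⟨z₁, ψ y, hz₁, hψ0 y, hy2, rfl⟩
  refine ⟨(fun z'' : ℂ => y₀ + (ι z'' + ψ y)) '' segment ℝ z z₁ ∪ Tp, ?_, ?_, ?_, ?_⟩
  · apply Set.union_subset _ hTsub
    rintro _ ⟨z'', hz'', rfl⟩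
    refine ⟨hmem z'' (ψ y) ?_ (hψ0 y) hy2, hseg z'' hz''⟩
    have h4 := (convex_closedBall (0 : ℂ) a).segment_subset
      (show z ∈ Metric.closedBall (0 : ℂ) a by rw [mem_closedBall_zero_iff]; exact hy1)
      (show z₁ ∈ Metric.closedBall (0 : ℂ) a by
        rw [mem_closedBall_zero_iff]; exact hz₁.le) hz''
    rwa [mem_closedBall_zero_iff] at h4
  · right
    exact ⟨(a : ℂ), 0, by rw [Complex.norm_real, Real.norm_of_nonneg ha0.le], by simp,
      by simpa using hb'0.le, rfl⟩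
  · left
    exact ⟨z, left_mem_segment ℝ _ _, hyd.symm⟩
  · refine IsPreconnected.union (y₀ + (ι z₁ + ψ y)) ⟨z₁, right_mem_segment ℝ _ _, rfl⟩ htopm
      ?_ hTc
    apply (convex_segment _ _).isPreconnected.image
    have : Continuous (fun z'' : ℂ => y₀ + (ι z'' + ψ y)) := by fun_prop
    exact this.continuousOn

end Pool.Agent.MP_fe3720.RR
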