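import Mathlib

/-! # EMP: a mountain pass lemma (topology, Mathlib only)

Suppose `{c < ρ} ` is not preconnected. Then there are `a, b ∈ {c < ρ}` in different components. For `μ ∈ ℝ` let `R μ a b` mean that there is a
preconnected set `T ⊆ {μ < ρ}` with `a, b ∈ T`. `R` is decreasing in `μ`; `R μ a b` for `μ < min ρ` (`X` is preconnected; `ρ` is bounded below as its
sublevel sets are compact), and not `R c a b`. Let `μ = sup {μ' | R μ' a b} ≤ c`.
(1) not `R μ a b`: otherwise let `T` be as above, `T` connected; `T` is contained in the open set `{μ < ρ}`; the relation (`x ~ y` iff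
`∃ μ' > μ, R μ' x y`) on `{μ < ρ}` has open classes (`X` is locally connected), so `T` is in one class (`IsPreconnected.induction₂` or
clopen), contradiction with the definition of `μ`.
(2) Let `A` be the component of `a` in the open set `{μ < ρ}`, open, and `B = {μ < ρ} \ A`, open; `b ∈ B`. Let `L = {ρ = μ}`, compact. For `p ∈ L`, `W p` given by `hloc`
(may be replaced by its interior for neighbourhoods), `{x ∈ W p | μ < ρ x}` is preconnected, so contained in `A` or in `B`; `L_A`, `L_B`. `L_A` and `L_B` are open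
in `L` (if `p' ∈ L` is in the interior of `W p`, then by `hmax` there are points of `W p ∩ W p'` with `ρ > μ`), disjoint (`hmax`), so compact. Let `N_A ⊇ L_A`, `N_B ⊇ L_B` be disjoint open sets
(`SeparatedNhds` of compact sets), intersected with the union of the interiors of the `W p`, `p ∈ L_A` (resp. `L_B`): `N_A ∩ B = ∅`, `N_B ∩ A = ∅`. `A' = A ∪ N_A`, `B' = B ∪ N_B` are open, disjoint,
and contain `{μ ≤ ρ}`. The set `{ρ ≤ μ} \ (A' ∪ B')` is compact and `ρ < μ` on it, so `ρ ≤ μ₁ < μ` on it, and `{μ₁ < ρ} ⊆ A' ∪ B'`: a preconnected set in `{μ₁ < ρ}` containing `a` and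
`b` is impossible, but `R μ' a b` for some `μ' > μ₁`. -/

namespace Pool.Agent.MP_fe3720.RR

open Topology

private theorem emp_union {X : Type} [TopologicalSpace X] (ρ : X → ℝ) {μ₁ μ₂ μ₃ : ℝ} {x y z : X}
    (h1 : μ₃ ≤ μ₁) (h2 : μ₃ ≤ μ₂) (hy : y ∈ connectedComponentIn {x | μ₁ < ρ x} x)
    (hz : y ∈ connectedComponentIn {x | μ₂ < ρ x} z) :
    x ∈ connectedComponentIn {x | μ₃ < ρ x} z := by
  have hx0 : x ∈ {x | μ₁ < ρ x} := by
    by_contra hcon
    rw [connectedComponentIn_eq_empty hcon] at hy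
    exact hy
  have hz0 : z ∈ {x | μ₂ < ρ x} := by
    by_contra hcon
    rw [connectedComponentIn_eq_empty hcon] at hz
    exact hz
  have hU := IsPreconnected.union y hy hz isPreconnected_connectedComponentIn
    isPreconnected_connectedComponentIn
  have hsub : connectedComponentIn {x | μ₁ < ρ x} x ∪ connectedComponentIn {x | μ₂ < ρ x} z ⊆
      {x | μ₃ < ρ x} := by
    apply Set.union_subset
    · exact (connectedComponentIn_subset _ _).trans fun w hw => lt_of_le_of_lt h1 hw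
    · exact (connectedComponentIn_subset _ _).trans fun w hw => lt_of_le_of_lt h2 hw
  exact hU.subset_connectedComponentIn (Or.inr (mem_connectedComponentIn hz0)) hsub
    (Or.inl (mem_connectedComponentIn hx0))

/-- openness in the level -/
private theorem emp_open {X : Type} [TopologicalSpace X] [LocallyConnectedSpace X]
    (ρ : X → ℝ) (hρ : Continuous ρ) (μ : ℝ) (a b : X) (T : Set X) (hT : IsPreconnected T)
    (hTμ : T ⊆ {x | μ < ρ x}) (ha : a ∈ T) (hb : b ∈ T) :
    ∃ μ' > μ, ∃ T' : Set X, IsPreconnected T' ∧ T' ⊆ {x | μ' < ρ x} ∧ a ∈ T' ∧ b ∈ T' := by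
  have hop : ∀ ν : ℝ, IsOpen {x | ν < ρ x} := fun ν => isOpen_lt continuous_const hρ
  set U : Set X := {y | ∃ μ' > μ, y ∈ connectedComponentIn {x | μ' < ρ x} a} with hU
  have hUo : IsOpen U := by
    rw [isOpen_iff_mem_nhds]
    rintro y ⟨μ', hμ', hy⟩
    exact Filter.mem_of_superset ((hop μ').connectedComponentIn.mem_nhds hy)
      (fun z hz => ⟨μ', hμ', hz⟩)
  have hVo : IsOpen ({x | μ < ρ x} \ U) := by
    rw [isOpen_iff_mem_nhds]
    rintro y ⟨hy, hyU⟩
    obtain ⟨μ', h1, h2⟩ := exists_between (show μ < ρ y from hy)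
    have hy' : y ∈ connectedComponentIn {x | μ' < ρ x} y := mem_connectedComponentIn h2
    refine Filter.mem_of_superset ((hop μ').connectedComponentIn.mem_nhds hy') fun z hz => ?_
    have hz' : z ∈ {x | μ' < ρ x} := connectedComponentIn_subset _ _ hz
    have hz'' : μ' < ρ z := hz'
    refine ⟨h1.trans hz'', ?_⟩
    rintro ⟨μ₂, h3, h4⟩
    exact hyU ⟨min μ' μ₂, lt_min h1 h3, emp_union ρ (min_le_left _ _) (min_le_right _ _) hz h4⟩
  have haU : a ∈ U := by
    obtain ⟨μ', h1, h2⟩ := exists_between (show μ < ρ a from hTμ ha)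
    exact ⟨μ', h1, mem_connectedComponentIn h2⟩
  have hsub : T ⊆ U := by
    apply hT.subset_left_of_subset_union hUo hVo Set.disjoint_sdiff_right
    · intro x hx
      by_cases hxU : x ∈ U
      · exact Or.inl hxU
      · exact Or.inr ⟨hTμ hx, hxU⟩
    · exact ⟨a, ha, haU⟩
  obtain ⟨μ', hμ', hb'⟩ := hsub hb
  have ha0 : a ∈ {x | μ' < ρ x} := by
    by_contra hcon
    rw [connectedComponentIn_eq_empty hcon] at hb'
    exact hb'
  exact ⟨μ', hμ', connectedComponentIn {x | μ' < ρ x} a, isPreconnected_connectedComponentIn,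
    connectedComponentIn_subset _ _, mem_connectedComponentIn ha0, hb'⟩

theorem superlevel {X : Type} [TopologicalSpace X] [T2Space X] [LocallyConnectedSpace X]
    [PreconnectedSpace X] (ρ : X → ℝ) (hρ : Continuous ρ) (hK : ∀ c, IsCompact {x | ρ x ≤ c})
    (hloc : ∀ p, ∃ W ∈ 𝓝 p, IsPreconnected {x ∈ W | ρ p < ρ x})
    (hmax : ∀ p, ∀ W ∈ 𝓝 p, ∃ x ∈ W, ρ p < ρ x) (c : ℝ) : IsPreconnected {x | c < ρ x} := by
  have hop : ∀ ν : ℝ, IsOpen {x | ν < ρ x} := fun ν => isOpen_lt continuous_const hρ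
  apply isPreconnected_of_forall_pair
  intro a ha b hb
  by_contra hcon
  -- `R μ`: `a` and `b` are joined above the level `μ`
  set R : ℝ → Prop := fun μ => ∃ T : Set X, IsPreconnected T ∧ T ⊆ {x | μ < ρ x} ∧ a ∈ T ∧ b ∈ T
    with hR
  have hRc : ¬ R c := by
    rintro ⟨T, h1, h2, h3, h4⟩
    exact hcon ⟨T, h2, h3, h4, h1⟩
  have hRmono : ∀ μ μ' : ℝ, μ' ≤ μ → R μ → R μ' := by
    rintro μ μ' h ⟨T, h1, h2, h3, h4⟩
    exact ⟨T, h1, fun x hx => lt_of_le_of_lt h (h2 hx), h3, h4⟩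
  have hR0 : ∃ μ, R μ := by
    obtain ⟨x0, hx0, hmin⟩ := (hK (ρ a)).exists_isMinOn ⟨a, show ρ a ≤ ρ a from le_rfl⟩ hρ.continuousOn
    refine ⟨ρ x0 - 1, Set.univ, isPreconnected_univ, ?_, Set.mem_univ _, Set.mem_univ _⟩
    intro x _
    show ρ x0 - 1 < ρ x
    by_cases hx : ρ x ≤ ρ a
    · have := hmin hx
      simp only [Set.mem_ofPred_eq] at this
      linarith
    · push Not at hx
      have h0 : ρ x0 ≤ ρ a := hx0
      linarith
  have hbdd : BddAbove {μ | R μ} := by
    refine ⟨c, fun μ hμ => ?_⟩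
    by_contra hlt
    push Not at hlt
    exact hRc (hRmono μ c hlt.le hμ)
  set μ := sSup {μ | R μ} with hμ
  have hμc : μ ≤ c := by
    apply csSup_le hR0
    intro μ' hμ'
    by_contra hlt
    push Not at hlt
    exact hRc (hRmono μ' c hlt.le hμ')
  have hRμ : ¬ R μ := by
    rintro ⟨T, h1, h2, h3, h4⟩
    obtain ⟨μ', h5, h6⟩ := emp_open ρ hρ μ a b T h1 h2 h3 h4
    exact absurd (le_csSup hbdd (show μ' ∈ {μ | R μ} from h6)) (not_le.mpr h5)
  have hRlt : ∀ μ' < μ, R μ' := by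
    intro μ' h
    obtain ⟨ν, h1, h2⟩ := exists_lt_of_lt_csSup hR0 h
    exact hRmono ν μ' h2.le h1
  have haμ : μ < ρ a := lt_of_le_of_lt hμc ha
  have hbμ : μ < ρ b := lt_of_le_of_lt hμc hb
  set A : Set X := connectedComponentIn {x | μ < ρ x} a with hA
  have hAo : IsOpen A := (hop μ).connectedComponentIn
  have haA : a ∈ A := mem_connectedComponentIn haμ
  have hAμ : A ⊆ {x | μ < ρ x} := connectedComponentIn_subset _ _
  have hbA : b ∉ A := fun h => hRμ ⟨A, isPreconnected_connectedComponentIn, hAμ, haA, h⟩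
  set B : Set X := {x | μ < ρ x} \ A with hB
  have hBo : IsOpen B := by
    rw [isOpen_iff_mem_nhds]
    rintro y ⟨hy, hyA⟩
    have hy' : y ∈ connectedComponentIn {x | μ < ρ x} y := mem_connectedComponentIn hy
    refine Filter.mem_of_superset ((hop μ).connectedComponentIn.mem_nhds hy') fun z hz => ?_
    refine ⟨connectedComponentIn_subset _ _ hz, fun hzA => ?_⟩
    exact hyA (emp_union ρ le_rfl le_rfl hz hzA)
  have hbB : b ∈ B := ⟨hbμ, hbA⟩
  set OA : Set X := {x | ∀ᶠ y in 𝓝 x, μ < ρ y → y ∈ A} with hOA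
  set OB : Set X := {x | ∀ᶠ y in 𝓝 x, μ < ρ y → y ∈ B} with hOB
  have hOAo : IsOpen OA := isOpen_setOfPred_eventually_nhds
  have hOBo : IsOpen OB := isOpen_setOfPred_eventually_nhds
  have hOA1 : ∀ x ∈ OA, μ < ρ x → x ∈ A := fun x hx => hx.self_of_nhds
  have hOB1 : ∀ x ∈ OB, μ < ρ x → x ∈ B := fun x hx => hx.self_of_nhds
  set L : Set X := {x | ρ x = μ} with hL
  have hLc : IsCompact L := by
    apply (hK μ).of_isClosed_subset (isClosed_eq hρ continuous_const)
    intro x hx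
    exact le_of_eq hx
  have hLcov : ∀ p ∈ L, p ∈ OA ∨ p ∈ OB := by
    intro p hp
    obtain ⟨W, hW, hWp⟩ := hloc p
    rw [show ρ p = μ from hp] at hWp
    obtain ⟨x, hxW, hx⟩ := hmax p W hW
    rw [show ρ p = μ from hp] at hx
    have hcov : {x ∈ W | μ < ρ x} ⊆ A ∪ B := by
      rintro y ⟨_, hy⟩
      by_cases hyA : y ∈ A
      · exact Or.inl hyA
      · exact Or.inr ⟨hy, hyA⟩
    by_cases hxA : x ∈ A
    · left
      have := hWp.subset_left_of_subset_union hAo hBo Set.disjoint_sdiff_right hcov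
        ⟨x, ⟨hxW, hx⟩, hxA⟩
      exact Filter.mem_of_superset hW fun y hy hy' => this ⟨hy, hy'⟩
    · right
      have := hWp.subset_right_of_subset_union hAo hBo Set.disjoint_sdiff_right hcov
        ⟨x, ⟨hxW, hx⟩, hx, hxA⟩
      exact Filter.mem_of_superset hW fun y hy hy' => this ⟨hy, hy'⟩
  have hLdis : ∀ p ∈ L, p ∈ OA → p ∈ OB → False := by
    intro p hp h1 h2
    obtain ⟨x, hx, hx'⟩ := hmax p _ (Filter.inter_mem h1 h2)
    rw [show ρ p = μ from hp] at hx'
    exact (hx.2 hx').2 (hx.1 hx')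
  have hLA : IsCompact (L \ OB) := hLc.diff hOBo
  have hLB : IsCompact (L \ OA) := hLc.diff hOAo
  have hsep : Disjoint (L \ OB) (L \ OA) := by
    rw [Set.disjoint_left]
    rintro p ⟨h1, h2⟩ ⟨_, h3⟩
    rcases hLcov p h1 with h | h
    · exact h3 h
    · exact h2 h
  obtain ⟨NA, NB, hNAo, hNBo, hNA, hNB, hNd⟩ := SeparatedNhds.of_isCompact_isCompact hLA hLB hsep
  set A' : Set X := A ∪ (NA ∩ OA) with hA'
  set B' : Set X := B ∪ (NB ∩ OB) with hB'
  have hA'o : IsOpen A' := hAo.union (hNAo.inter hOAo)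
  have hB'o : IsOpen B' := hBo.union (hNBo.inter hOBo)
  have hAB : Disjoint A' B' := by
    rw [Set.disjoint_left]
    rintro x (h1 | ⟨h1, h1'⟩) (h2 | ⟨h2, h2'⟩)
    · exact h2.2 h1
    · exact (hOB1 x h2' (hAμ h1)).2 h1
    · exact h2.2 (hOA1 x h1' h2.1)
    · exact Set.disjoint_left.mp hNd h1 h2
  have hcover : ∀ x, μ ≤ ρ x → x ∈ A' ∪ B' := by
    intro x hx
    rcases hx.lt_or_eq with h | h
    · by_cases hxA : x ∈ A
      · exact Or.inl (Or.inl hxA)
      · exact Or.inr (Or.inl ⟨h, hxA⟩)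
    · have hxL : x ∈ L := h.symm
      by_cases hxB : x ∈ OB
      · right; right
        refine ⟨hNB ⟨hxL, fun h1 => hLdis x hxL h1 hxB⟩, hxB⟩
      · left; right
        rcases hLcov x hxL with h1 | h1
        · exact ⟨hNA ⟨hxL, hxB⟩, h1⟩
        · exact absurd h1 hxB
  -- a lower level
  have hlow : ∃ μ₁ < μ, ∀ x, μ₁ < ρ x → x ∈ A' ∪ B' := by
    have hKc : IsCompact ({x | ρ x ≤ μ} \ (A' ∪ B')) := (hK μ).diff (hA'o.union hB'o)
    rcases ({x | ρ x ≤ μ} \ (A' ∪ B')).eq_empty_or_nonempty with he | hne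
    · refine ⟨μ - 1, by linarith, fun x _ => ?_⟩
      by_contra hx
      by_cases hx' : ρ x ≤ μ
      · have : x ∈ ({x | ρ x ≤ μ} \ (A' ∪ B')) := ⟨hx', hx⟩
        rw [he] at this
        exact this
      · push Not at hx'
        exact hx (hcover x hx'.le)
    · obtain ⟨x1, hx1, hmax1⟩ := hKc.exists_isMaxOn hne hρ.continuousOn
      refine ⟨ρ x1, ?_, fun x hxx => ?_⟩
      · by_contra hlt
        push Not at hlt
        exact hx1.2 (hcover x1 hlt)
      · by_contra hx
        by_cases hx' : ρ x ≤ μ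
        · have := hmax1 (show x ∈ ({x | ρ x ≤ μ} \ (A' ∪ B')) from ⟨hx', hx⟩)
          simp only [Set.mem_ofPred_eq] at this
          linarith
        · push Not at hx'
          exact hx (hcover x hx'.le)
  obtain ⟨μ₁, hμ₁, hcov₁⟩ := hlow
  obtain ⟨T, hT1, hT2, hT3, hT4⟩ := hRlt μ₁ hμ₁
  have := hT1.subset_left_of_subset_union hA'o hB'o hAB (fun x hx => hcov₁ x (hT2 hx))
    ⟨a, hT3, Or.inl haA⟩
  exact Set.disjoint_left.mp hAB (this hT4) (Or.inl hbB)

end Pool.Agent.MP_fe3720.RR
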