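import Mathlib

/-! # EQuad: a complex quadratic form in two variables has nonnegative real part on a real plane
(Mathlib only)

`a = 0, b = 0`: `ι z = (z, 0)`, the form vanishes. `a = 0, b ≠ 0`: the form is `y (b x + c y)`; solve `y = conj z`,
`b x + c y = z`: `ι z = ((z - c conj z)/b, conj z)`, the form is `z conj z`. `a ≠ 0`: `a t² + b t + c = a (t - r)(t - s)` (`IsAlgClosed`, or a square root of the
discriminant), the form is `a (x - r y)(x - s y)`; if `r = s`: `ι z = (r z, z)`; if `r ≠ s` solve `a (x - r y) = z`, `x - s y = conj z`. -/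

namespace Pool.Agent.MP_fe3720.RR

/-- the real linear map `z ↦ (p z + p' conj z, q z + q' conj z)` -/
private noncomputable def mk4 (p p' q q' : ℂ) : ℂ →ₗ[ℝ] ℂ × ℂ where
  toFun z := (p * z + p' * (starRingEnd ℂ) z, q * z + q' * (starRingEnd ℂ) z)
  map_add' z w := by
    ext1
    · simp only [map_add, Prod.fst_add]; ring
    · simp only [map_add, Prod.snd_add]; ring
  map_smul' r z := by
    ext1
    · simp only [Complex.real_smul, map_mul, Complex.conj_ofReal, RingHom.id_apply, Prod.smul_fst]
      ring
    · simp only [Complex.real_smul, map_mul, Complex.conj_ofReal, RingHom.id_apply, Prod.smul_snd]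
      ring

private theorem mk4_apply (p p' q q' z : ℂ) : mk4 p p' q q' z =
    (p * z + p' * (starRingEnd ℂ) z, q * z + q' * (starRingEnd ℂ) z) := rfl

private theorem re_mul_conj_nonneg (z : ℂ) : 0 ≤ (z * (starRingEnd ℂ) z).re := by
  rw [Complex.mul_conj, Complex.ofReal_re]
  exact Complex.normSq_nonneg z

theorem exists_real_plane (a b c : ℂ) : ∃ ι : ℂ →ₗ[ℝ] ℂ × ℂ, Function.Injective ι ∧
    ∀ z, 0 ≤ (a * (ι z).1 ^ 2 + b * (ι z).1 * (ι z).2 + c * (ι z).2 ^ 2).re := by
  by_cases ha : a = 0
  · by_cases hb : b = 0
    · refine ⟨mk4 1 0 0 0, ?_, fun z => ?_⟩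
      · intro z w h
        rw [mk4_apply, mk4_apply] at h
        simpa using h
      · rw [mk4_apply]
        simp [ha, hb]
    · refine ⟨mk4 (1 / b) (-(c / b)) 0 1, ?_, fun z => ?_⟩
      · intro z w h
        rw [mk4_apply, mk4_apply] at h
        have h2 := (Prod.ext_iff.mp h).2
        simp only [zero_mul, zero_add, one_mul] at h2
        exact (starRingEnd ℂ).injective h2
      · rw [mk4_apply]
        have : a * (1 / b * z + -(c / b) * (starRingEnd ℂ) z) ^ 2 +
            b * (1 / b * z + -(c / b) * (starRingEnd ℂ) z) * (0 * z + 1 * (starRingEnd ℂ) z) +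
            c * (0 * z + 1 * (starRingEnd ℂ) z) ^ 2 = z * (starRingEnd ℂ) z := by
          rw [ha]
          field_simp
          ring
        rw [this]
        exact re_mul_conj_nonneg z
  · obtain ⟨d, hd⟩ := IsAlgClosed.exists_pow_nat_eq (b ^ 2 - 4 * a * c) (n := 2) (by norm_num)
    by_cases hd0 : d = 0
    · refine ⟨mk4 (-b / (2 * a)) 0 1 0, ?_, fun z => ?_⟩
      · intro z w h
        rw [mk4_apply, mk4_apply] at h
        have h2 := (Prod.ext_iff.mp h).2
        simpa using h2
      · rw [mk4_apply]
        have h1 : b ^ 2 = 4 * a * c := by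
          rw [hd0] at hd
          linear_combination -hd
        have : a * (-b / (2 * a) * z + 0 * (starRingEnd ℂ) z) ^ 2 +
            b * (-b / (2 * a) * z + 0 * (starRingEnd ℂ) z) * (1 * z + 0 * (starRingEnd ℂ) z) +
            c * (1 * z + 0 * (starRingEnd ℂ) z) ^ 2 = 0 := by
          field_simp
          linear_combination (-z ^ 2) * h1
        rw [this]
        simp
    · -- r = (-b + d) / (2a), s = (-b - d)/(2a), s - r = -d / a
      -- y = (z/a - conj z) / (s - r) = -(z - a conj z)/d ; x = conj z + s y
      set s : ℂ := (-b - d) / (2 * a) with hs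
      refine ⟨mk4 (s * (-1 / d)) (1 + s * (a / d)) (-1 / d) (a / d), ?_, fun z => ?_⟩
      · intro z w h
        rw [mk4_apply, mk4_apply] at h
        have h1 := (Prod.ext_iff.mp h).1
        have h2 := (Prod.ext_iff.mp h).2
        simp only at h1 h2
        have h3 : (starRingEnd ℂ) z = (starRingEnd ℂ) w := by
          linear_combination h1 - s * h2
        exact (starRingEnd ℂ).injective h3
      · rw [mk4_apply]
        have : a * (s * (-1 / d) * z + (1 + s * (a / d)) * (starRingEnd ℂ) z) ^ 2 +
            b * (s * (-1 / d) * z + (1 + s * (a / d)) * (starRingEnd ℂ) z) *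
              (-1 / d * z + a / d * (starRingEnd ℂ) z) +
            c * (-1 / d * z + a / d * (starRingEnd ℂ) z) ^ 2 = z * (starRingEnd ℂ) z := by
          have hc : c = (b ^ 2 - d ^ 2) / (4 * a) := by
            rw [hd]
            field_simp
            ring
          rw [hc, hs]
          field_simp
          ring
        rw [this]
        exact re_mul_conj_nonneg z

end Pool.Agent.MP_fe3720.RR
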