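import Pool.Agent.Work.MP_fe3720_an.R.OC
import Pool.Agent.Work.MP_fe3720_an.R.EQuad
import Pool.Agent.Work.MP_fe3720_an.R.EC2
import Pool.Agent.Work.MP_fe3720_an.R.ELocA
import Pool.Agent.Work.MP_fe3720_an.R.ELocB
import Pool.Agent.Work.MP_fe3720_an.R.EMP

/-! # ELoc: local properties of `ρ = ∑ |G i|²`

Chart `(q, κ, V)` at `p`, `y₀ = q p`, `g i = G i ∘ κ`, of class `C²` over `ℂ` on `V` (`contDiffOn_two`), hence over `ℝ` (`ContDiffOn.restrict_scalars`), and
`u = ρ ∘ κ = ∑ |g i|²`. `κ` is a homeomorphism from `V` onto the open set `κ '' V` (inverse `q`), so `loc_super` at `p` follows from the same statement for `u` at `y₀`,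
`U = V` (`W' = κ '' W`). If `fderiv ℝ u y₀ ≠ 0` use `locA`. Otherwise: second derivative of `u` at `y₀` in the direction `ξ` (complex vector):
`2 Re ∑ conj (g i y₀) * D² g i (ξ, ξ) + 2 ∑ |D g i ξ|²`. With `e₀, e₁` the first two basis vectors (`2 ≤ m`), `Q (x,y) = ∑ conj (g i y₀) D² g i (ξ,ξ)` for `ξ = x e₀ + y e₁` is a quadratic form
`a x² + b x y + c y²` (`D²` is complex bilinear); take `ι` of `exists_real_plane` composed with `(x,y) ↦ x e₀ + y e₁`. `∑ |D g i ξ|² > 0` for `ξ ≠ 0`: otherwise `D g i ξ = 0` for all `i`; but the chart is an immersion: the functions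
`q j ∘ κ` are the coordinates, and `|y j - y' j| = |q j (κ y) - q j (κ y')|`; need that `ξ ≠ 0 ⇒ D (G i ∘ κ) ξ ≠ 0` for some `i`: by `exists_fields` at `p` the field `D = ∑ ξ j E j` has `(D (q j)) p = ξ j`, and `(D (G i)) p = D g i ξ` (`hc.tan`); if all `(D (G i)) p = 0`
... use the hypothesis `himm`. To compute the second derivative it may be easier to differentiate `t ↦ u (y₀ + t ξ)` or to use `HasFDerivAt` of inner products:
`fderiv ℝ u y ξ = 2 Re ∑ conj (g i y) * (fderiv ℂ (g i) y ξ)`, and differentiate once more.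
`no_max`: if `ρ ≤ ρ p` near `p`, then the Euclidean norm of `(g i)_i : V → EuclideanSpace ℂ (Fin N)` has a local maximum at `y₀`, so `g` is constant near `y₀`
(`Complex.eventually_eq_of_isLocalMax_norm`), but `dist (κ y) (κ y₀) = |g y - g y₀|` and `κ` is injective on `V`, `m ≥ 1`: contradiction. -/

namespace Pool.Agent.MP_fe3720.RR

open Topology

/-! ### the second derivative of a sum of squared moduli -/

section Calc

variable {m N : ℕ} {V : Set (Fin m → ℂ)} {y₀ : Fin m → ℂ} {g : Fin N → (Fin m → ℂ) → ℂ}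

private theorem g_diff (hV : IsOpen V) (hg : ∀ i, ContDiffOn ℂ 2 (g i) V) (i : Fin N) {y : Fin m → ℂ}
    (hy : y ∈ V) : DifferentiableAt ℂ (g i) y :=
  ((hg i).contDiffAt (hV.mem_nhds hy)).differentiableAt (by norm_num)

private theorem u_hasF (hV : IsOpen V) (hg : ∀ i, ContDiffOn ℂ 2 (g i) V) {y : Fin m → ℂ}
    (hy : y ∈ V) : HasFDerivAt (𝕜 := ℝ) (fun y => ∑ i, ‖g i y‖ ^ 2)
      (∑ i, 2 • (innerSL ℝ) (g i y) ∘L (fderiv ℂ (g i) y).restrictScalars ℝ) y := by
  refine HasFDerivAt.fun_sum fun i _ => ?_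
  exact HasFDerivAt.norm_sq ((g_diff hV hg i hy).hasFDerivAt.restrictScalars ℝ)

private theorem u_contDiff (hV : IsOpen V) (hg : ∀ i, ContDiffOn ℂ 2 (g i) V) (hy : y₀ ∈ V) :
    ContDiffAt ℝ 2 (fun y => ∑ i, ‖g i y‖ ^ 2) y₀ := by
  refine ContDiffAt.sum fun i _ => ?_
  exact ContDiffAt.norm_sq ℝ (((hg i).restrict_scalars ℝ).contDiffAt (hV.mem_nhds hy))

private theorem second (hV : IsOpen V) (hg : ∀ i, ContDiffOn ℂ 2 (g i) V) (hy₀ : y₀ ∈ V)
    (ξ : Fin m → ℂ) :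
    fderiv ℝ (fun y => fderiv ℝ (fun y => ∑ i, ‖g i y‖ ^ 2) y) y₀ ξ ξ =
      2 * ∑ i, ‖fderiv ℂ (g i) y₀ ξ‖ ^ 2 +
        2 * (∑ i, (fderiv ℂ (fun y => fderiv ℂ (g i) y) y₀ ξ ξ) *
          (starRingEnd ℂ) (g i y₀)).re := by
  set u : (Fin m → ℂ) → ℝ := fun y => ∑ i, ‖g i y‖ ^ 2 with hu
  have hA : DifferentiableAt ℝ (fderiv ℝ u) y₀ :=
    ((u_contDiff hV hg hy₀).fderiv_right (m := 1) (by norm_num)).differentiableAt (by norm_num)
  -- evaluate at ξ
  have h1 : HasFDerivAt (fun y => fderiv ℝ u y ξ)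
      ((ContinuousLinearMap.apply ℝ ℝ ξ) ∘L (fderiv ℝ (fderiv ℝ u) y₀)) y₀ :=
    (ContinuousLinearMap.apply ℝ ℝ ξ).hasFDerivAt.comp y₀ hA.hasFDerivAt
  -- complex second derivatives
  have hB : ∀ i, HasFDerivAt (𝕜 := ℂ) (fun y => fderiv ℂ (g i) y ξ)
      ((ContinuousLinearMap.apply ℂ ℂ ξ) ∘L (fderiv ℂ (fderiv ℂ (g i)) y₀)) y₀ := by
    intro i
    have : DifferentiableAt ℂ (fderiv ℂ (g i)) y₀ :=
      ((((hg i).contDiffAt (hV.mem_nhds hy₀))).fderiv_right (m := 1)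
        (by norm_num)).differentiableAt (by norm_num)
    exact (ContinuousLinearMap.apply ℂ ℂ ξ).hasFDerivAt.comp y₀ this.hasFDerivAt
  have h2 : HasFDerivAt (𝕜 := ℝ)
      (fun y => ∑ i, (2 : ℝ) * inner ℝ (g i y) (fderiv ℂ (g i) y ξ))
      (∑ i, (2 : ℝ) • ((fderivInnerCLM ℝ (g i y₀, fderiv ℂ (g i) y₀ ξ)) ∘L
        (((fderiv ℂ (g i) y₀).restrictScalars ℝ).prod
          (((ContinuousLinearMap.apply ℂ ℂ ξ) ∘L
            (fderiv ℂ (fderiv ℂ (g i)) y₀)).restrictScalars ℝ)))) y₀ := by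
    refine HasFDerivAt.fun_sum fun i _ => ?_
    refine HasFDerivAt.const_mul ?_ (2 : ℝ)
    exact HasFDerivAt.inner ℝ ((g_diff hV hg i hy₀).hasFDerivAt.restrictScalars ℝ)
      ((hB i).restrictScalars ℝ)
  have h3 : (fun y => fderiv ℝ u y ξ) =ᶠ[𝓝 y₀]
      fun y => ∑ i, (2 : ℝ) * inner ℝ (g i y) (fderiv ℂ (g i) y ξ) := by
    filter_upwards [hV.mem_nhds hy₀] with y hy
    rw [(u_hasF hV hg hy).fderiv]
    rw [ContinuousLinearMap.sum_apply]
    refine Finset.sum_congr rfl fun i _ => ?_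
    simp [two_mul, two_smul]
  have h4 := (h1.congr_of_eventuallyEq h3.symm).unique h2
  have h5 := congrArg (fun L => L ξ) h4
  simp only [ContinuousLinearMap.comp_apply, ContinuousLinearMap.apply_apply,
    ContinuousLinearMap.sum_apply, ContinuousLinearMap.smul_apply, ContinuousLinearMap.prod_apply,
    ContinuousLinearMap.coe_restrictScalars', fderivInnerCLM_apply, smul_eq_mul] at h5
  change fderiv ℝ (fderiv ℝ u) y₀ ξ ξ = _
  rw [h5, Complex.re_sum, Finset.mul_sum, Finset.mul_sum, ← Finset.sum_add_distrib]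
  refine Finset.sum_congr rfl fun i _ => ?_
  rw [Complex.inner, real_inner_self_eq_norm_sq]
  ring

end Calc

variable {X : Type} [MetricSpace X] [ProperSpace X] {O : Subalgebra ℂ (X → ℂ)} {m N : ℕ}
  {G : Fin N → O}

/-- the charts are immersions -/
def Immersive (m : ℕ) (O : Subalgebra ℂ (X → ℂ)) {N : ℕ} (G : Fin N → O) : Prop :=
  ∀ (q : Fin m → O) (κ : (Fin m → ℂ) → X) (V : Set (Fin m → ℂ)), IsChart O q κ V → ∀ y ∈ V,
    ∀ ξ : Fin m → ℂ, (∀ i, fderiv ℂ (fun y => (G i) (κ y)) y ξ = 0) → ξ = 0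

/-- the exhaustion function `∑ |G i|²` -/
noncomputable def rho {N : ℕ} (G : Fin N → O) (x : X) : ℝ := ∑ i, ‖(G i) x‖ ^ 2

private theorem super_core {V : Set (Fin m → ℂ)} (hV : IsOpen V) {y₀ : Fin m → ℂ} (hy₀ : y₀ ∈ V)
    {g : Fin N → (Fin m → ℂ) → ℂ} (hg : ∀ i, ContDiffOn ℂ 2 (g i) V) (hm : 2 ≤ m)
    (himm : ∀ ξ : Fin m → ℂ, (∀ i, fderiv ℂ (g i) y₀ ξ = 0) → ξ = 0) :
    ∃ W ∈ 𝓝 y₀, W ⊆ V ∧ IsPreconnected {y ∈ W | (∑ i, ‖g i y₀‖ ^ 2) < ∑ i, ‖g i y‖ ^ 2} := by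
  set u : (Fin m → ℂ) → ℝ := fun y => ∑ i, ‖g i y‖ ^ 2 with hu
  have hc := u_contDiff hV hg hy₀
  by_cases h : fderiv ℝ u y₀ = 0
  · -- the two directions
    set e₀ : Fin m → ℂ := Pi.single ⟨0, by omega⟩ 1 with he₀
    set e₁ : Fin m → ℂ := Pi.single ⟨1, by omega⟩ 1 with he₁
    set B : Fin N → ((Fin m → ℂ) →L[ℂ] (Fin m → ℂ) →L[ℂ] ℂ) :=
      fun i => fderiv ℂ (fun y => fderiv ℂ (g i) y) y₀ with hB
    set c : Fin N → ℂ := fun i => (starRingEnd ℂ) (g i y₀) with hcdef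
    obtain ⟨ι, hι, hre⟩ := exists_real_plane (∑ i, B i e₀ e₀ * c i)
      (∑ i, (B i e₀ e₁ + B i e₁ e₀) * c i) (∑ i, B i e₁ e₁ * c i)
    let L : ℂ × ℂ →ₗ[ℝ] (Fin m → ℂ) :=
      { toFun := fun p => p.1 • e₀ + p.2 • e₁
        map_add' := by
          intro p q
          simp only [Prod.fst_add, Prod.snd_add, add_smul]
          abel
        map_smul' := by
          intro r p
          simp only [Prod.smul_fst, Prod.smul_snd, RingHom.id_apply, smul_add, smul_assoc] }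
    have hLapp : ∀ p, L p = p.1 • e₀ + p.2 • e₁ := fun p => rfl
    have hL : Function.Injective L := by
      intro p p' hpp
      rw [hLapp, hLapp] at hpp
      have h0 := congrFun hpp ⟨0, by omega⟩
      have h1 := congrFun hpp ⟨1, by omega⟩
      simp only [Pi.add_apply, Pi.smul_apply, smul_eq_mul, he₀, he₁, Pi.single_apply, Fin.mk.injEq,
        if_true, mul_one] at h0 h1
      norm_num at h0 h1
      exact Prod.ext h0 h1
    refine locB u y₀ hc h (L ∘ₗ ι) (hL.comp hι) ?_ (hV.mem_nhds hy₀)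
    intro z hz
    set p := ι z with hp
    set ξ : Fin m → ℂ := L p with hξ
    have hξ0 : ξ ≠ 0 := by
      intro h0
      apply hz
      apply hι
      apply hL
      rw [map_zero, map_zero]
      exact h0
    change 0 < fderiv ℝ (fun y => fderiv ℝ u y) y₀ ξ ξ
    rw [second hV hg hy₀ ξ]
    have hQ : (∑ i, (fderiv ℂ (fun y => fderiv ℂ (g i) y) y₀ ξ ξ) *
          (starRingEnd ℂ) (g i y₀)) = (∑ i, B i e₀ e₀ * c i) * p.1 ^ 2 +
        (∑ i, (B i e₀ e₁ + B i e₁ e₀) * c i) * p.1 * p.2 + (∑ i, B i e₁ e₁ * c i) * p.2 ^ 2 := by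
      rw [Finset.sum_mul, Finset.sum_mul, Finset.sum_mul, Finset.sum_mul,
        ← Finset.sum_add_distrib, ← Finset.sum_add_distrib]
      refine Finset.sum_congr rfl fun i _ => ?_
      change B i ξ ξ * c i = _
      rw [hξ, hLapp]
      simp only [map_add, map_smul, ContinuousLinearMap.add_apply, ContinuousLinearMap.smul_apply,
        smul_eq_mul]
      ring
    have h1 : 0 ≤ (∑ i, (fderiv ℂ (fun y => fderiv ℂ (g i) y) y₀ ξ ξ) *
          (starRingEnd ℂ) (g i y₀)).re := by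
      rw [hQ]
      exact hre z
    have h2 : 0 < ∑ i, ‖fderiv ℂ (g i) y₀ ξ‖ ^ 2 := by
      obtain ⟨i, hi⟩ : ∃ i, fderiv ℂ (g i) y₀ ξ ≠ 0 := by
        by_contra hcon
        push Not at hcon
        exact hξ0 (himm ξ hcon)
      refine Finset.sum_pos' (fun j _ => by positivity) ⟨i, Finset.mem_univ _, ?_⟩
      positivity
    linarith
  · exact locA u y₀ (hc.of_le (by norm_num)) h (hV.mem_nhds hy₀)

theorem loc_super (hS : SD0 m O G) (himm : Immersive m O G) (hm : 2 ≤ m) (p : X) :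
    ∃ W ∈ 𝓝 p, IsPreconnected {x ∈ W | rho G p < rho G x} := by
  obtain ⟨q, κ, V, hc, hV, hκ⟩ := hS.charts p
  set y₀ := fun j => (q j) p with hy₀
  obtain ⟨W, hW, hWV, hWp⟩ := super_core (g := fun i y => (G i) (κ y)) hc.opn hV
    (fun i => contDiffOn_two hc.opn (hc.smooth (G i))) hm (himm q κ V hc y₀ hV)
  refine ⟨κ '' W, ?_, ?_⟩
  · rw [← hκ, ← chart_map_nhds hS.alg hc hV]
    exact Filter.image_mem_map hW
  · have : {x ∈ κ '' W | rho G p < rho G x} =
        κ '' {y ∈ W | (∑ i, ‖(G i) (κ y₀)‖ ^ 2) < ∑ i, ‖(G i) (κ y)‖ ^ 2} := by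
      ext x
      constructor
      · rintro ⟨⟨y, hy, rfl⟩, hx⟩
        refine ⟨y, ⟨hy, ?_⟩, rfl⟩
        rw [hκ]
        exact hx
      · rintro ⟨y, ⟨hy, hlt⟩, rfl⟩
        refine ⟨⟨y, hy, rfl⟩, ?_⟩
        rw [hκ] at hlt
        exact hlt
    rw [this]
    exact hWp.image κ (hc.cont.mono fun y hy => hWV hy.1)

theorem no_max (hS : SD0 m O G) (hm : 1 ≤ m) (p : X) :
    ∀ W ∈ 𝓝 p, ∃ x ∈ W, rho G p < rho G x := by
  intro W hW
  by_contra hcon
  push Not at hcon
  obtain ⟨q, κ, V, hc, hV, hκ⟩ := hS.charts p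
  set y₀ := fun j => (q j) p with hy₀
  let F : (Fin m → ℂ) → EuclideanSpace ℂ (Fin N) := fun y => WithLp.toLp 2 fun i => (G i) (κ y)
  have hFd : ∀ y ∈ V, DifferentiableAt ℂ F y := by
    intro y hy
    have h1 : DifferentiableAt ℂ (fun y => (fun i => (G i) (κ y) : Fin N → ℂ)) y := by
      rw [differentiableAt_pi]
      intro i
      exact ((hc.smooth (G i)).contDiffAt (hc.opn.mem_nhds hy)).differentiableAt (by norm_num)
    exact (PiLp.continuousLinearEquiv 2 ℂ (fun _ : Fin N => ℂ)).symm.differentiableAt.comp y h1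
  have hnorm : ∀ y, ‖F y‖ = √(rho G (κ y)) := by
    intro y
    rw [EuclideanSpace.norm_eq]
    rfl
  have hmax : IsLocalMax (norm ∘ F) y₀ := by
    have h1 : κ ⁻¹' W ∈ 𝓝 y₀ := by
      have := chart_map_nhds hS.alg hc hV
      rw [hκ] at this
      rw [← this] at hW
      exact hW
    filter_upwards [h1] with y hy
    simp only [Function.comp_apply]
    rw [hnorm, hnorm, hκ]
    exact Real.sqrt_le_sqrt (hcon _ hy)
  have hev := Complex.eventually_eq_of_isLocalMax_norm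
    (by filter_upwards [hc.opn.mem_nhds hV] with y hy using hFd y hy) hmax
  have hev2 : ∀ᶠ y in 𝓝 y₀, y = y₀ := by
    filter_upwards [hev, hc.opn.mem_nhds hV] with y hy hyV
    apply chart_injOn hc hyV hV
    apply eq_of_G hS
    intro i
    have := congrArg (fun v : EuclideanSpace ℂ (Fin N) => v.ofLp i) hy
    exact this
  obtain ⟨R, hR, hB⟩ := Metric.eventually_nhds_iff.mp hev2
  have h1 := hB (y := y₀ + fun _ => ((R / 2 : ℝ) : ℂ)) (by
    rw [dist_eq_norm, add_sub_cancel_left]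
    refine lt_of_le_of_lt ((pi_norm_le_iff_of_nonneg (r := R / 2) (by positivity)).mpr ?_)
      (by linarith)
    intro i
    rw [Complex.norm_real, Real.norm_of_nonneg (by positivity)])
  have h2 := congrFun h1 ⟨0, by omega⟩
  simp only [Pi.add_apply, add_eq_left] at h2
  have h3 : (R / 2 : ℝ) = 0 := by exact_mod_cast h2
  linarith

theorem ends_of [PreconnectedSpace X] (hS : SD0 m O G) (himm : Immersive m O G) (hm : 2 ≤ m) :
    ∀ K : Set X, IsCompact K → ∃ S : Set X, IsPreconnected S ∧ Disjoint S K ∧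
      Bornology.IsBounded Sᶜ := by
  intro K hK
  have hcont : Continuous (rho G) := by
    unfold rho
    exact continuous_finset_sum _ fun i _ => ((cont hS (G i)).norm.pow 2)
  have hcpt : ∀ c, IsCompact {x | rho G x ≤ c} := by
    intro c
    refine (isCompact_KK hS (√c)).of_isClosed_subset (isClosed_le hcont continuous_const) ?_
    intro x hx i
    refine Real.le_sqrt_of_sq_le ?_
    refine le_trans ?_ hx
    exact Finset.single_le_sum (f := fun i => ‖(G i) x‖ ^ 2) (fun j _ => by positivity)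
      (Finset.mem_univ i)
  have := locallyConnected hS
  obtain ⟨c, hc⟩ : ∃ c, ∀ x ∈ K, rho G x ≤ c := by
    obtain ⟨c, hc⟩ := (hK.image hcont).bddAbove
    exact ⟨c, fun x hx => hc ⟨x, hx, rfl⟩⟩
  refine ⟨{x | c < rho G x}, superlevel (rho G) hcont hcpt (loc_super hS himm hm)
    (no_max hS (by omega)) c, ?_, ?_⟩
  · rw [Set.disjoint_left]
    intro x hx hxK
    exact absurd (hc x hxK) (not_le.mpr hx)
  · have : {x | c < rho G x}ᶜ = {x | rho G x ≤ c} := by
      ext x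
      simp
    rw [this]
    exact (hcpt c).isBounded

end Pool.Agent.MP_fe3720.RR
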