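import Pool.Agent.Work.MP_fe3720_an.Cl
import Pool.Agent.Work.MP_fe3720_an.Push
import Pool.Agent.Work.MP_fe3720_an.Closed
import Pool.Agent.Work.MP_fe3720_an.Wei
import Pool.Agent.Work.MP_fe3720_an.ParB

/-! # Part R (density property and (RR4) imply RR): common definitions (FIXED: do not change)

`X` is a connected Stein manifold of dimension `m`, with a proper metric; `O` is the algebra of the
holomorphic functions and `G : Fin N → O` is a closed isometric embedding into `ℂ^N`. -/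

namespace Pool.Agent.MP_fe3720.RR

open Topology

/-- a holomorphic chart of dimension `m`: `q` are holomorphic functions on `X`, `κ` is the inverse of `q`
on the open set `κ '' V`, and every vector field is given in the chart by its coordinates. -/
structure IsChart {X : Type} [TopologicalSpace X] {m : ℕ} (O : Subalgebra ℂ (X → ℂ))
    (q : Fin m → O) (κ : (Fin m → ℂ) → X) (V : Set (Fin m → ℂ)) : Prop where
  opn : IsOpen V
  cont : ContinuousOn κ V
  inv : ∀ y ∈ V, ∀ j, (q j) (κ y) = y j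
  img : IsOpen (κ '' V)
  smooth : ∀ f : O, ContDiffOn ℂ 1 (fun y => f (κ y)) V
  tan : ∀ D : Derivation ℂ O O, IsVF D → ∀ f : O, ∀ y ∈ V,
    (D f) (κ y) = fderiv ℂ (fun y => f (κ y)) y (fun j => (D (q j)) (κ y))

/-- there are enough vector fields -/
def HasFields {X : Type} [TopologicalSpace X] (m : ℕ) (O : Subalgebra ℂ (X → ℂ)) : Prop :=
  ∀ x₀ : X, ∃ E : Fin m → Derivation ℂ O O, (∀ i, IsVF (E i)) ∧
    LinearIndependent ℂ (fun i => fun f : O => (E i f) x₀)

variable {X : Type} [MetricSpace X]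

/-- the setting, without the condition at infinity -/
structure SD0 (m : ℕ) {N : ℕ} (O : Subalgebra ℂ (X → ℂ)) (G : Fin N → O) : Prop where
  alg : IsClosedAlg O
  dist_eq : ∀ x y : X, dist x y = ‖(fun i => (G i) x - (G i) y : Fin N → ℂ)‖
  charts : ∀ x₀ : X, ∃ (q : Fin m → O) (κ : (Fin m → ℂ) → X) (V : Set (Fin m → ℂ)),
    IsChart O q κ V ∧ (fun j => (q j) x₀) ∈ V ∧ κ (fun j => (q j) x₀) = x₀
  fields : HasFields m O

/-- the setting -/
structure SD (m : ℕ) {N : ℕ} (O : Subalgebra ℂ (X → ℂ)) (G : Fin N → O) : Prop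
    extends SD0 m O G where
  ends : ∀ K : Set X, IsCompact K → ∃ S : Set X, IsPreconnected S ∧ Disjoint S K ∧
    Bornology.IsBounded Sᶜ

variable {O : Subalgebra ℂ (X → ℂ)}

/-- the compact sets `|G i| ≤ r` -/
def KK {N : ℕ} (G : Fin N → O) (r : ℝ) : Set X := {x | ∀ i, ‖(G i) x‖ ≤ r}

/-- `Φ` is the flow of the complete vector field `D` -/
structure IsFlow (D : Derivation ℂ O O) (Φ : ℂ → HolAut O) : Prop where
  cont : Continuous (fun p : ℂ × X => Φ p.1 p.2)
  zero : ∀ x, Φ 0 x = x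
  add : ∀ s t x, Φ (s + t) x = Φ s (Φ t x)
  deriv : ∀ (f : O) (x : X) (t : ℂ), HasDerivAt (fun s => f (Φ s x)) ((D f) (Φ t x)) t
  approx : ∀ (f : O) (K : Set (ℂ × X)), IsCompact K → ∀ ε > 0, ∃ (n : ℕ) (a : ℕ → O),
    ∀ p ∈ K, ‖f (Φ p.1 p.2) - ∑ k ∈ Finset.range n, p.1 ^ k * (a k) p.2‖ < ε

/-- the identity -/
def idAut (O : Subalgebra ℂ (X → ℂ)) : HolAut O := ⟨Homeomorph.refl X, fun _ h => h, fun _ h => h⟩

/-- Composition of flows: `Psi Φ t = Φ 0 (t 0) ∘ Φ 1 (t 1) ∘ ⋯`. -/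
def Psi : {r : ℕ} → (Fin r → ℂ → HolAut O) → (Fin r → ℂ) → HolAut O
  | 0, _, _ => idAut O
  | _ + 1, Φ, t => (Φ 0 (t 0)).comp (Psi (Fin.tail Φ) (Fin.tail t))

/-- `O`-convex compact sets -/
def OConv (O : Subalgebra ℂ (X → ℂ)) (C : Set X) : Prop :=
  IsCompact C ∧ ∀ x ∉ C, ∃ h : O, (∀ y ∈ C, ‖h y‖ < 1) ∧ h x = 1

/-- `ψ` and its inverse are `ε`-close to the identity on the set `C`. -/
def Near (C : Set X) (ε : ℝ) (ψ : HolAut O) : Prop :=
  ∀ x ∈ C, dist (ψ x) x ≤ ε ∧ dist (ψ.symm x) x ≤ ε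

/-- `v` does not vanish at `x` -/
def NZ (v : Derivation ℂ O O) (x : X) : Prop := ∃ h : O, (v h) x ≠ 0

end Pool.Agent.MP_fe3720.RR
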