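import Pool.Agent.Work.MP_fe3720_an.ChartHol
import Pool.Agent.Work.MP_fe3720_an.R.Base

/-! # FieldsZ: vector fields on a Stein submanifold

Let `p ∈ Z`, `F : Fin (N-d) → ` entire functions as in `hZ.smooth p`. Choose linear forms `ℓ : Fin d → (ℂ^N →L[ℂ] ℂ)` such that the `fderiv (F i) p` and the `ℓ j` form a basis of
the dual. Let `A z` be the `N × N` matrix of the functionals `fderiv (F i) z`, `ℓ j`, and `w_j z` the column `j` of
the adjugate of `A z`, a vector field with entire coefficients. It is tangent to `Z`: for every entire function `G`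
vanishing on `Z`, `fderiv G z (w_j z)` is the determinant of `A z` with the row of `ℓ j` replaced by `fderiv G z`,
a matrix with a nonzero kernel vector tangent to `Z`. An entire vector field tangent to `Z` gives a
derivation of `hol Z`: in a chart at `z₀` the derivative of a polynomial `H` along `w` is the derivative of
`H ∘ κ` in a direction depending continuously on the point; use Cauchy's estimate. -/

namespace Pool.Agent.MP_fe3720.RR

open Topology

variable {N d : ℕ} {Z : Set (Fin N → ℂ)}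

theorem fz_fderiv_poly (P : (Fin N → ℂ) → ℂ) (hP : P ∈ polyOn (Fin N)) (v : Fin N → ℂ) :
    (fun z => fderiv ℂ P z v) ∈ polyOn (Fin N) := by
  have key : Differentiable ℂ P ∧ (fun z => fderiv ℂ P z v) ∈ polyOn (Fin N) := by
    unfold polyOn at hP
    induction hP using Algebra.adjoin_induction with
    | mem x hx =>
      obtain ⟨i, rfl⟩ := hx
      refine ⟨(contDiff_apply ℂ ℂ i (n := 1)).differentiable (by norm_num), ?_⟩
      have h1 : (fun z : Fin N → ℂ => fderiv ℂ (fun z : Fin N → ℂ => z i) z v) =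
          algebraMap ℂ ((Fin N → ℂ) → ℂ) (v i) := by
        funext z
        have h1 : HasFDerivAt (fun z : Fin N → ℂ => z i)
            (ContinuousLinearMap.proj (R := ℂ) (φ := fun _ : Fin N => ℂ) i) z :=
          (ContinuousLinearMap.proj (R := ℂ) (φ := fun _ : Fin N => ℂ) i).hasFDerivAt
        rw [h1.fderiv]
        rfl
      rw [h1]
      exact Subalgebra.algebraMap_mem _ _
    | algebraMap r =>
      refine ⟨differentiable_const r, ?_⟩
      have h1 : (fun z : Fin N → ℂ => fderiv ℂ (algebraMap ℂ ((Fin N → ℂ) → ℂ) r) z v) = 0 := by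
        funext z
        have h2 : fderiv ℂ (algebraMap ℂ ((Fin N → ℂ) → ℂ) r) z = 0 :=
          (hasFDerivAt_const r _).fderiv
        rw [h2]
        rfl
      rw [h1]
      exact Subalgebra.zero_mem _
    | add x y hx hy h1 h2 =>
      obtain ⟨d1, e1⟩ := h1
      obtain ⟨d2, e2⟩ := h2
      refine ⟨d1.add d2, ?_⟩
      have h3 : (fun z : Fin N → ℂ => fderiv ℂ (x + y) z v) =
          (fun z => fderiv ℂ x z v) + fun z => fderiv ℂ y z v := by
        funext z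
        rw [fderiv_add (d1 _) (d2 _)]
        rfl
      rw [h3]
      exact Subalgebra.add_mem _ e1 e2
    | mul x y hx hy h1 h2 =>
      obtain ⟨d1, e1⟩ := h1
      obtain ⟨d2, e2⟩ := h2
      refine ⟨d1.mul d2, ?_⟩
      have h3 : (fun z : Fin N → ℂ => fderiv ℂ (x * y) z v) =
          x * (fun z => fderiv ℂ y z v) + y * fun z => fderiv ℂ x z v := by
        funext z
        rw [fderiv_mul (d1 _) (d2 _)]
        rfl
      rw [h3]
      exact Subalgebra.add_mem _ (Subalgebra.mul_mem _ hx e2) (Subalgebra.mul_mem _ hy e1)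
  exact key.2

theorem fz_fderiv_entire (F : (Fin N → ℂ) → ℂ) (hF : F ∈ entireOn (Fin N)) (v : Fin N → ℂ) :
    (fun z => fderiv ℂ F z v) ∈ entireOn (Fin N) := by
  intro K hK ε hε
  obtain ⟨R, hR⟩ := hK.isBounded.subset_closedBall (0 : Fin N → ℂ)
  obtain ⟨P, hP, h⟩ := entireOn_approx F hF (Metric.closedBall 0 (R + 1))
    (isCompact_closedBall _ _) (ε / (‖v‖ + 1)) (by positivity)
  refine ⟨fun z => fderiv ℂ P z v, fz_fderiv_poly P hP v, fun x hx => ?_⟩
  have hFd : Differentiable ℂ F := (entire_contDiff F hF).differentiable (by norm_num)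
  have hPd : Differentiable ℂ P := (polyOn_contDiff P hP).differentiable (by norm_num)
  have h4 := cauchy_fderiv (fun z => F z - P z) x 1 (ε / (‖v‖ + 1)) one_pos
    (fun y _ => (hFd y).sub (hPd y))
    (fun y hy => (h y (by
      have h5 := hR hx
      rw [Metric.mem_closedBall] at h5 hy ⊢
      have := dist_triangle y x 0
      linarith)).le)
  rw [div_one, fderiv_fun_sub (hFd x) (hPd x)] at h4
  have h5 := (fderiv ℂ F x - fderiv ℂ P x).le_opNorm v
  have h6 : ‖fderiv ℂ F x v - fderiv ℂ P x v‖ ≤ ε / (‖v‖ + 1) * ‖v‖ := by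
    refine h5.trans ?_
    gcongr
  refine h6.trans_lt ?_
  rw [div_mul_eq_mul_div, div_lt_iff₀ (by positivity)]
  have := norm_nonneg v
  nlinarith

/-- charts by linear coordinates -/
theorem fz_chart (hZ : IsSteinSubmanifold N d Z) (x₀ : Z) :
    ∃ (ℓ : Fin d → ((Fin N → ℂ) →L[ℂ] ℂ)) (κ : (Fin d → ℂ) → Z) (V : Set (Fin d → ℂ))
      (lam : (Fin d → ℂ) → Fin N → ℂ) (G : Fin (N - d) → (Fin N → ℂ) → ℂ),
      IsOpen V ∧ (fun j => ℓ j x₀.1) ∈ V ∧ κ (fun j => ℓ j x₀.1) = x₀ ∧ ContinuousOn κ V ∧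
      ContDiffOn ℂ 1 lam V ∧ (∀ y ∈ V, (κ y).1 = lam y) ∧ IsOpen (κ '' V) ∧
      (∀ y ∈ V, ∀ j, ℓ j (lam y) = y j) ∧
      (∀ f : hol Z, ContDiffOn ℂ 1 (fun y => f (κ y)) V) ∧
      (∀ i, G i ∈ entire N) ∧ (∀ i, ∀ z ∈ Z, G i z = 0) ∧
      (∀ y ∈ V, ∀ ξ, (∀ i, fderiv ℂ (G i) (lam y) ξ = 0) →
        ξ = fderiv ℂ lam y (fun j => ℓ j ξ)) := by
  obtain ⟨F, hF, hF0, hind, U, hU, hUr⟩ := hZ.smooth x₀.1 x₀.2
  obtain ⟨ℓ, N', V, lam, hN, haN, hNU, hV, hlam, hlamV, hNa, htan⟩ := implicit d (N - d)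
    (by rw [Module.finrank_fin_fun]; have := hZ.le; omega) F (fun i => entire_contDiff _ (hF i))
    x₀.1 (fun i => hF0 i x₀.1 x₀.2) hind U hU
  have hκex : ∀ y : Fin d → ℂ, ∃ x : Z, y ∈ V → x.1 = lam y := by
    intro y
    by_cases hy : y ∈ V
    · obtain ⟨h1, h2, -⟩ := hlamV y hy
      exact ⟨⟨lam y, hUr _ (hNU h1) h2⟩, fun _ => rfl⟩
    · exact ⟨x₀, fun h => absurd h hy⟩
  choose κ hκ using hκex
  have hbase := hNa x₀.1 haN (fun i => hF0 i x₀.1 x₀.2)
  have himage : κ '' V = Subtype.val ⁻¹' N' := by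
    ext x
    constructor
    · rintro ⟨y, hy, rfl⟩
      show (κ y).1 ∈ N'
      rw [hκ y hy]
      exact (hlamV y hy).1
    · intro hx
      obtain ⟨h1, h2⟩ := hNa x.1 hx (fun i => hF0 i x.1 x.2)
      refine ⟨_, h1, Subtype.ext ?_⟩
      rw [hκ _ h1, h2]
  have hκc : ContinuousOn κ V := by
    rw [Topology.IsEmbedding.subtypeVal.isInducing.continuousOn_iff]
    exact hlam.continuousOn.congr fun y hy => hκ y hy
  refine ⟨ℓ, κ, V, lam, F, hV, hbase.1, ?_, hκc, hlam, hκ, ?_, fun y hy => (hlamV y hy).2.2, ?_,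
    hF, hF0, htan⟩
  · refine Subtype.ext ?_
    rw [hκ _ hbase.1]
    exact hbase.2
  · rw [himage]
    exact hN.preimage continuous_subtype_val
  · intro f
    refine wei hV _ fun K hKV hK ε hε => ?_
    obtain ⟨P, hP, h1⟩ := f.2 (κ '' K) (hK.image_of_continuousOn (hκc.mono hKV)) ε hε
    obtain ⟨H, hH, rfl⟩ := adjoin_eq_poly _ P hP
    refine ⟨fun y => H (κ y).1, ?_, fun y hy => h1 _ ⟨y, hy, rfl⟩⟩
    have h2 : ContDiffOn ℂ 1 (fun y => H (lam y)) V :=
      (polyOn_contDiff H hH).comp_contDiffOn hlam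
    exact h2.congr fun y hy => by rw [hκ y hy]

/-- the derivative of a function along the vector field `w` in a chart -/
theorem fz_chart_deriv {κ : (Fin d → ℂ) → Z} {V : Set (Fin d → ℂ)}
    {lam : (Fin d → ℂ) → Fin N → ℂ} (hV : IsOpen V) (hlam : ContDiffOn ℂ 1 lam V)
    (hκ : ∀ y ∈ V, (κ y).1 = lam y) {y : Fin d → ℂ} (hy : y ∈ V) (H : (Fin N → ℂ) → ℂ)
    (hH : Differentiable ℂ H) (ξ : Fin N → ℂ) (η : Fin d → ℂ) (hξ : ξ = fderiv ℂ lam y η) :
    fderiv ℂ H (lam y) ξ = fderiv ℂ (fun y => H (κ y).1) y η := by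
  have h4 : (fun y => H (κ y).1) =ᶠ[𝓝 y] fun y => H (lam y) := by
    filter_upwards [hV.mem_nhds hy] with y' hy'
    rw [hκ y' hy']
  rw [h4.fderiv_eq]
  have h5 : HasFDerivAt (fun y => H (lam y)) ((fderiv ℂ H (lam y)).comp (fderiv ℂ lam y)) y :=
    HasFDerivAt.comp y (hH (lam y)).hasFDerivAt
      ((hlam.contDiffAt (hV.mem_nhds hy)).differentiableAt (by norm_num)).hasFDerivAt
  rw [h5.fderiv, hξ]
  rfl

theorem fz_lc (hZ : IsSteinSubmanifold N d Z) : LocallyCompactSpace Z :=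
  (isClosed_of_submanifold hZ).isClosedEmbedding_subtypeVal.locallyCompactSpace

theorem fz_rest (hZ : IsSteinSubmanifold N d Z) (H : (Fin N → ℂ) → ℂ)
    (hH : H ∈ entireOn (Fin N)) : (fun x : Z => H x.1) ∈ hol Z := by
  have := fz_lc hZ
  exact entire_comp_mem (X := Z) (fun i : Fin N =>
    ⟨fun z : Z => z.1 i, (continuous_apply i).comp continuous_subtype_val⟩) H hH

theorem fz_poly_entire (H : (Fin N → ℂ) → ℂ) (hH : H ∈ polyOn (Fin N)) : H ∈ entireOn (Fin N) :=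
  adjoin_mem _ H hH

/-- the functional at a point -/
theorem fz_point (hZ : IsSteinSubmanifold N d Z) (w : (Fin N → ℂ) → Fin N → ℂ)
    (ht : ∀ G ∈ entire N, (∀ z ∈ Z, G z = 0) → ∀ z ∈ Z, fderiv ℂ G z (w z) = 0) (x : Z) :
    ∃ τ : hol Z →ₗ[ℂ] ℂ, (∀ f g : hol Z, τ (f * g) = f x * τ g + g x * τ f) ∧
      (∃ L : Set Z, IsCompact L ∧ ∃ C : ℝ, 0 ≤ C ∧ ∀ (f : hol Z) (M : ℝ),
        (∀ y ∈ L, ‖f y‖ ≤ M) → ‖τ f‖ ≤ C * M) ∧
      ∀ (H : (Fin N → ℂ) → ℂ) (hH : H ∈ entireOn (Fin N)),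
        τ ⟨_, fz_rest hZ H hH⟩ = fderiv ℂ H x.1 (w x.1) := by
  obtain ⟨ℓ, κ, V, lam, G, hV, hyV, hκx, hκc, hlam, hκ, -, hℓ, hf, hG, hG0, htan⟩ :=
    fz_chart hZ x
  set y₀ : Fin d → ℂ := fun j => ℓ j x.1 with hy₀
  have hlx : lam y₀ = x.1 := by rw [← hκ y₀ hyV, hκx]
  set ζ : Fin d → ℂ := fun j => ℓ j (w x.1) with hζ
  have hwζ : w x.1 = fderiv ℂ lam y₀ ζ := by
    refine htan y₀ hyV (w x.1) fun i => ?_
    rw [hlx]
    exact ht (G i) (hG i) (hG0 i) x.1 x.2
  have hd : ∀ f : hol Z, ∀ z ∈ V, DifferentiableAt ℂ (fun y => f (κ y)) z := fun f z hz =>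
    ((hf f).contDiffAt (hV.mem_nhds hz)).differentiableAt (by norm_num)
  obtain ⟨r, hr, hball⟩ := Metric.nhds_basis_closedBall.mem_iff.mp (hV.mem_nhds hyV)
  refine ⟨{
    toFun := fun f => fderiv ℂ (fun y => f (κ y)) y₀ ζ
    map_add' := fun f g => ?_
    map_smul' := fun c f => ?_ }, fun f g => ?_, ⟨κ '' Metric.closedBall y₀ r,
      (isCompact_closedBall _ _).image_of_continuousOn (hκc.mono hball), ‖ζ‖ / r, by positivity,
      fun f M hM => ?_⟩, fun H hH => ?_⟩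
  · have h1 : (fun y => (f + g) (κ y)) = fun y => f (κ y) + g (κ y) := rfl
    show fderiv ℂ (fun y => (f + g) (κ y)) y₀ ζ = _
    rw [h1, fderiv_fun_add (hd f y₀ hyV) (hd g y₀ hyV)]
    rfl
  · have h1 : (fun y => (c • f) (κ y)) = fun y => c • f (κ y) := rfl
    show fderiv ℂ (fun y => (c • f) (κ y)) y₀ ζ = _
    rw [h1, fderiv_fun_const_smul (hd f y₀ hyV)]
    rfl
  · have h1 : (fun y => (f * g) (κ y)) = fun y => f (κ y) * g (κ y) := rfl
    show fderiv ℂ (fun y => (f * g) (κ y)) y₀ ζ = _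
    rw [h1, fderiv_fun_mul (hd f y₀ hyV) (hd g y₀ hyV), hκx]
    rfl
  · have h1 := cauchy_fderiv (fun y => f (κ y)) y₀ r M hr (fun y hy => hd f y (hball hy))
      (fun y hy => hM _ ⟨y, hy, rfl⟩)
    have h2 := (fderiv ℂ (fun y => f (κ y)) y₀).le_opNorm ζ
    show ‖fderiv ℂ (fun y => f (κ y)) y₀ ζ‖ ≤ _
    calc ‖fderiv ℂ (fun y => f (κ y)) y₀ ζ‖ ≤ ‖fderiv ℂ (fun y => f (κ y)) y₀‖ * ‖ζ‖ := h2
      _ ≤ M / r * ‖ζ‖ := by gcongr
      _ = ‖ζ‖ / r * M := by ring
  · have h1 := fz_chart_deriv hV hlam hκ hyV H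
      ((entire_contDiff H hH).differentiable (by norm_num)) (w x.1) ζ hwζ
    rw [hlx] at h1
    exact h1.symm

/-- the local estimate -/
theorem fz_local (hZ : IsSteinSubmanifold N d Z) (w : (Fin N → ℂ) → Fin N → ℂ)
    (hw : Continuous w)
    (ht : ∀ G ∈ entire N, (∀ z ∈ Z, G z = 0) → ∀ z ∈ Z, fderiv ℂ G z (w z) = 0) (x : Z) :
    ∃ W ∈ 𝓝 x, ∃ L : Set Z, IsCompact L ∧ ∃ C : ℝ, 0 ≤ C ∧
      ∀ H : (Fin N → ℂ) → ℂ, Differentiable ℂ H → ∀ M : ℝ, 0 ≤ M → (∀ y ∈ L, ‖H y.1‖ ≤ M) →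
        ∀ z ∈ W, ‖fderiv ℂ H z.1 (w z.1)‖ ≤ C * M := by
  obtain ⟨ℓ, κ, V, lam, G, hV, hyV, hκx, hκc, hlam, hκ, himg, hℓ, hf, hG, hG0, htan⟩ :=
    fz_chart hZ x
  set y₀ : Fin d → ℂ := fun j => ℓ j x.1 with hy₀
  obtain ⟨R, hR, hball⟩ := Metric.nhds_basis_closedBall.mem_iff.mp (hV.mem_nhds hyV)
  set r := R / 2 with hr
  have hr0 : 0 < r := by positivity
  have hcont : ContinuousOn (fun y => (fun j => ℓ j (w (lam y)) : Fin d → ℂ))
      (Metric.closedBall y₀ R) := by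
    refine continuousOn_pi.mpr fun j => ?_
    exact (ℓ j).continuous.comp_continuousOn (hw.comp_continuousOn (hlam.continuousOn.mono hball))
  obtain ⟨C', hC'⟩ := (isCompact_closedBall y₀ R).exists_bound_of_continuousOn hcont
  refine ⟨κ '' V ∩ {z : Z | (fun j => ℓ j z.1 : Fin d → ℂ) ∈ Metric.ball y₀ r}, ?_,
    κ '' Metric.closedBall y₀ R,
    (isCompact_closedBall _ _).image_of_continuousOn (hκc.mono hball), |C'| / r, by positivity, ?_⟩
  · refine Filter.inter_mem (himg.mem_nhds ⟨y₀, hyV, hκx⟩) ?_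
    have hc : Continuous (fun z : Z => (fun j => ℓ j z.1 : Fin d → ℂ)) :=
      continuous_pi fun j => (ℓ j).continuous.comp continuous_subtype_val
    exact (Metric.isOpen_ball.preimage hc).mem_nhds (Metric.mem_ball_self hr0)
  · rintro H hH M hM0 hM z ⟨⟨y, hy, rfl⟩, hz⟩
    have hyl : (fun j => ℓ j (κ y).1 : Fin d → ℂ) = y := by
      funext j
      rw [hκ y hy, hℓ y hy]
    have hz' : y ∈ Metric.ball y₀ r := by
      have : (fun j => ℓ j (κ y).1 : Fin d → ℂ) ∈ Metric.ball y₀ r := hz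
      rwa [hyl] at this
    rw [Metric.mem_ball] at hz'
    have hsub : Metric.closedBall y r ⊆ Metric.closedBall y₀ R := by
      intro y' hy'
      rw [Metric.mem_closedBall] at hy' ⊢
      have := dist_triangle y' y y₀
      have : r + r = R := by rw [hr]; ring
      linarith
    set ζ : Fin d → ℂ := fun j => ℓ j (w (lam y)) with hζ
    have hwζ : w (lam y) = fderiv ℂ lam y ζ := by
      refine htan y hy (w (lam y)) fun i => ?_
      refine ht (G i) (hG i) (hG0 i) (lam y) ?_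
      rw [← hκ y hy]
      exact (κ y).2
    have h1 := fz_chart_deriv hV hlam hκ hy H hH (w (lam y)) ζ hwζ
    rw [hκ y hy, h1]
    have hd : ∀ y' ∈ V, DifferentiableAt ℂ (fun y => H (κ y).1) y' := by
      intro y' hy'
      have h4 : (fun y => H (κ y).1) =ᶠ[𝓝 y'] fun y => H (lam y) := by
        filter_upwards [hV.mem_nhds hy'] with y'' hy''
        rw [hκ y'' hy'']
      refine DifferentiableAt.congr_of_eventuallyEq ?_ h4
      exact DifferentiableAt.comp y' (hH (lam y'))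
        ((hlam.contDiffAt (hV.mem_nhds hy')).differentiableAt (by norm_num))
    have h2 := cauchy_fderiv (fun y => H (κ y).1) y r M hr0 (fun y' hy' => hd y' (hball (hsub hy')))
      (fun y' hy' => hM _ ⟨y', hsub hy', rfl⟩)
    have h3 := (fderiv ℂ (fun y => H (κ y).1) y).le_opNorm ζ
    have h5 : ‖ζ‖ ≤ |C'| := (hC' y (hsub (Metric.mem_closedBall_self hr0.le))).trans (le_abs_self _)
    calc ‖fderiv ℂ (fun y => H (κ y).1) y ζ‖ ≤ ‖fderiv ℂ (fun y => H (κ y).1) y‖ * ‖ζ‖ := h3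
      _ ≤ M / r * |C'| := by gcongr
      _ = |C'| / r * M := by ring

/-- the estimate on a compact set -/
theorem fz_compact (hZ : IsSteinSubmanifold N d Z) (w : (Fin N → ℂ) → Fin N → ℂ)
    (hw : Continuous w)
    (ht : ∀ G ∈ entire N, (∀ z ∈ Z, G z = 0) → ∀ z ∈ Z, fderiv ℂ G z (w z) = 0) (K : Set Z)
    (hK : IsCompact K) :
    ∃ L : Set Z, IsCompact L ∧ ∃ C : ℝ, 0 ≤ C ∧
      ∀ H : (Fin N → ℂ) → ℂ, Differentiable ℂ H → ∀ M : ℝ, 0 ≤ M → (∀ y ∈ L, ‖H y.1‖ ≤ M) →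
        ∀ z ∈ K, ‖fderiv ℂ H z.1 (w z.1)‖ ≤ C * M := by
  refine hK.induction_on ?_ ?_ ?_ ?_
  · exact ⟨∅, isCompact_empty, 0, le_rfl, fun _ _ _ _ _ z hz => absurd hz (Set.notMem_empty z)⟩
  · rintro s t hst ⟨L, hL, C, hC, h⟩
    exact ⟨L, hL, C, hC, fun H hH M hM0 hM z hz => h H hH M hM0 hM z (hst hz)⟩
  · rintro s t ⟨L, hL, C, hC, h⟩ ⟨L', hL', C', hC', h'⟩
    refine ⟨L ∪ L', hL.union hL', C + C', by positivity, fun H hH M hM0 hM z hz => ?_⟩
    rcases hz with hz | hz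
    · refine (h H hH M hM0 (fun y hy => hM y (Or.inl hy)) z hz).trans ?_
      gcongr
      linarith
    · refine (h' H hH M hM0 (fun y hy => hM y (Or.inr hy)) z hz).trans ?_
      gcongr
      linarith
  · intro x _
    obtain ⟨W, hW, h⟩ := fz_local hZ w hw ht x
    exact ⟨W, mem_nhdsWithin_of_mem_nhds hW, h⟩

theorem fz_vf (hZ : IsSteinSubmanifold N d Z) (w : (Fin N → ℂ) → Fin N → ℂ)
    (hw : ∀ a, (fun z => w z a) ∈ entireOn (Fin N))
    (ht : ∀ G ∈ entire N, (∀ z ∈ Z, G z = 0) → ∀ z ∈ Z, fderiv ℂ G z (w z) = 0) :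
    ∃ D : Derivation ℂ (hol Z) (hol Z), IsVF D ∧
      ∀ (H : (Fin N → ℂ) → ℂ) (hH : H ∈ entireOn (Fin N)) (x : Z),
        (D ⟨_, fz_rest hZ H hH⟩) x = fderiv ℂ H x.1 (w x.1) := by
  have hwc : Continuous w := continuous_pi fun a =>
    (entire_contDiff _ (hw a)).continuous
  choose τ hτ1 hτ2 hτ3 using fz_point hZ w ht
  have := fz_lc hZ
  -- the main estimate
  have key : ∀ K : Set Z, IsCompact K → ∃ L : Set Z, IsCompact L ∧ ∃ C : ℝ, 0 ≤ C ∧
      ∀ (f : hol Z) (M : ℝ), 0 ≤ M → (∀ y ∈ L, ‖f y‖ ≤ M) → ∀ z ∈ K, ‖τ z f‖ ≤ C * M := by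
    intro K hK
    obtain ⟨L, hL, C, hC, h⟩ := fz_compact hZ w hwc ht K hK
    refine ⟨L, hL, C, hC, fun f M hM0 hM z hz => ?_⟩
    obtain ⟨L', hL', C', hC', h'⟩ := hτ2 z
    refine le_of_forall_pos_le_add fun ε hε => ?_
    set δ := ε / (C + C' + 1) with hδ
    have hδ0 : 0 < δ := by positivity
    obtain ⟨P, hP, h1⟩ := f.2 (L ∪ L') (hL.union hL') δ hδ0
    obtain ⟨H, hH, rfl⟩ := adjoin_eq_poly _ P hP
    have h2 := h' (f - ⟨_, fz_rest hZ H (fz_poly_entire H hH)⟩) δ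
      (fun y hy => (h1 y (Or.inr hy)).le)
    rw [map_sub, hτ3 _ _ (fz_poly_entire H hH)] at h2
    have h3 := h H ((polyOn_contDiff H hH).differentiable (by norm_num)) (M + δ) (by positivity)
      (fun y hy => by
        have h4 := h1 y (Or.inl hy)
        have h5 := hM y hy
        have h6 : H y.1 = f y - (f y - H y.1) := by ring
        rw [h6]
        refine (norm_sub_le _ _).trans ?_
        have h7 : ‖f y - H y.1‖ < δ := h4
        linarith) z hz
    have h8 : τ z f = (τ z f - fderiv ℂ H z.1 (w z.1)) + fderiv ℂ H z.1 (w z.1) := by ring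
    rw [h8]
    refine (norm_add_le _ _).trans ?_
    have h9 : C * δ + C' * δ ≤ ε := by
      have : (C + C' + 1) * δ = ε := by rw [hδ]; field_simp
      nlinarith
    nlinarith
  have hmem : ∀ f : hol Z, (fun z => τ z f) ∈ hol Z := by
    intro f
    refine (closedAlg_isClosedAlg _).closed _ fun K hK ε hε => ?_
    obtain ⟨L, hL, C, hC, h⟩ := key K hK
    obtain ⟨P, hP, h1⟩ := f.2 L hL (ε / (C + 1)) (by positivity)
    obtain ⟨H, hH, rfl⟩ := adjoin_eq_poly _ P hP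
    have hDH : (fun z => fderiv ℂ H z (w z)) ∈ entireOn (Fin N) := by
      have h2 : (fun z => fderiv ℂ H z (w z)) =
          ∑ a : Fin N, (fun z => w z a) * (fun z => fderiv ℂ H z (Pi.single a 1)) := by
        funext z
        rw [Finset.sum_apply]
        have h3 : w z = ∑ a : Fin N, w z a • (Pi.single a 1 : Fin N → ℂ) := by
          funext l
          simp [Finset.sum_apply, Pi.single_apply]
        conv_lhs => rw [h3]
        rw [map_sum]
        refine Finset.sum_congr rfl fun a _ => ?_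
        rw [map_smul, smul_eq_mul]
        rfl
      rw [h2]
      exact Subalgebra.sum_mem _ fun a _ => Subalgebra.mul_mem _ (hw a)
        (fz_poly_entire _ (fz_fderiv_poly H hH _))
    refine ⟨_, fz_rest hZ _ hDH, fun z hz => ?_⟩
    have h4 := h (f - ⟨_, fz_rest hZ H (fz_poly_entire H hH)⟩) (ε / (C + 1)) (by positivity)
      (fun y hy => (h1 y hy).le) z hz
    rw [map_sub, hτ3 _ _ (fz_poly_entire H hH)] at h4
    refine h4.trans_lt ?_
    rw [mul_div_assoc', div_lt_iff₀ (by positivity)]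
    nlinarith
  refine ⟨Derivation.mk' {
    toFun := fun f => ⟨fun z => τ z f, hmem f⟩
    map_add' := fun f g => ?_
    map_smul' := fun c f => ?_ } (fun f g => ?_), ?_, fun H hH x => hτ3 x H hH⟩
  · apply Subtype.ext
    funext z
    exact map_add (τ z) f g
  · apply Subtype.ext
    funext z
    exact map_smul (τ z) c f
  · apply Subtype.ext
    funext z
    exact hτ1 z f g
  · intro K hK ε hε
    obtain ⟨L, hL, C, hC, h⟩ := key K hK
    refine ⟨L, hL, ε / (C + 1), by positivity, fun f hf z hz => ?_⟩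
    have h1 := h f (ε / (C + 1)) (by positivity) (fun y hy => (hf y hy).le) z hz
    refine lt_of_le_of_lt h1 ?_
    rw [mul_div_assoc', div_lt_iff₀ (by positivity)]
    nlinarith

section Det

variable {k : ℕ}

/-- the matrix of the functionals `α i`, `ℓ j` -/
noncomputable def fzMat (e : Fin k ⊕ Fin d ≃ Fin N) (α : Fin k → ((Fin N → ℂ) →L[ℂ] ℂ))
    (ℓ : Fin d → ((Fin N → ℂ) →L[ℂ] ℂ)) : Matrix (Fin k ⊕ Fin d) (Fin k ⊕ Fin d) ℂ :=
  Matrix.of fun r c => (Sum.elim α ℓ r) (Pi.single (e c) 1)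

/-- the vector with coordinates the column `inr j` of the adjugate -/
noncomputable def fzVec (e : Fin k ⊕ Fin d ≃ Fin N) (α : Fin k → ((Fin N → ℂ) →L[ℂ] ℂ))
    (ℓ : Fin d → ((Fin N → ℂ) →L[ℂ] ℂ)) (j : Fin d) : Fin N → ℂ :=
  fun a => (fzMat e α ℓ).adjugate (e.symm a) (Sum.inr j)

theorem fz_apply (e : Fin k ⊕ Fin d ≃ Fin N) (φ : (Fin N → ℂ) →L[ℂ] ℂ) (v : Fin N → ℂ) :
    φ v = ∑ c, v (e c) * φ (Pi.single (e c) 1) := by
  have h3 : v = ∑ a : Fin N, v a • (Pi.single a 1 : Fin N → ℂ) := by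
    funext l
    simp [Finset.sum_apply, Pi.single_apply]
  conv_lhs => rw [h3]
  rw [map_sum, ← e.sum_comp]
  refine Finset.sum_congr rfl fun a _ => ?_
  rw [map_smul, smul_eq_mul]

theorem fz_vec_apply (e : Fin k ⊕ Fin d ≃ Fin N) (α : Fin k → ((Fin N → ℂ) →L[ℂ] ℂ))
    (ℓ : Fin d → ((Fin N → ℂ) →L[ℂ] ℂ)) (j : Fin d) (φ : (Fin N → ℂ) →L[ℂ] ℂ) :
    φ (fzVec e α ℓ j) =
      ((fzMat e α ℓ).updateRow (Sum.inr j) (fun c => φ (Pi.single (e c) 1))).det := by
  rw [← Matrix.cramer_transpose_apply, Matrix.cramer_eq_adjugate_mulVec, fz_apply e φ,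
    ← Matrix.adjugate_transpose]
  unfold Matrix.mulVec dotProduct
  refine Finset.sum_congr rfl fun c _ => ?_
  unfold fzVec
  rw [e.symm_apply_apply]
  rfl

theorem fz_vec_l (e : Fin k ⊕ Fin d ≃ Fin N) (α : Fin k → ((Fin N → ℂ) →L[ℂ] ℂ))
    (ℓ : Fin d → ((Fin N → ℂ) →L[ℂ] ℂ)) (j l : Fin d) :
    ℓ l (fzVec e α ℓ j) = if l = j then (fzMat e α ℓ).det else 0 := by
  rw [fz_vec_apply]
  split_ifs with h
  · subst h
    have h1 : (fun c => ℓ l (Pi.single (e c) 1)) = fzMat e α ℓ (Sum.inr l) := rfl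
    rw [h1, Matrix.updateRow_eq_self]
  · refine Matrix.det_zero_of_row_eq (i := Sum.inr l) (j := Sum.inr j) ?_ ?_
    · intro h2
      exact h (Sum.inr_injective h2)
    · rw [Matrix.updateRow_self, Matrix.updateRow_ne (fun h2 => h (Sum.inr_injective h2))]
      rfl

theorem fz_det_ne (e : Fin k ⊕ Fin d ≃ Fin N) (α : Fin k → ((Fin N → ℂ) →L[ℂ] ℂ))
    (ℓ : Fin d → ((Fin N → ℂ) →L[ℂ] ℂ))
    (h : ∀ v : Fin N → ℂ, (∀ i, α i v = 0) → (∀ j, ℓ j v = 0) → v = 0) :
    (fzMat e α ℓ).det ≠ 0 := by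
  intro h0
  obtain ⟨v, hv, hv0⟩ := Matrix.exists_mulVec_eq_zero_iff.mpr h0
  have h1 : ∀ r, (Sum.elim α ℓ r) (fun a => v (e.symm a)) = 0 := by
    intro r
    rw [fz_apply e]
    have h2 := congrFun hv0 r
    refine Eq.trans (Finset.sum_congr rfl fun c _ => ?_) h2
    rw [e.symm_apply_apply, mul_comm]
    rfl
  have h3 := h (fun a => v (e.symm a)) (fun i => h1 (Sum.inl i)) (fun j => h1 (Sum.inr j))
  apply hv
  funext c
  have h4 := congrFun h3 (e c)
  rw [e.symm_apply_apply] at h4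
  exact h4

/-- the tangency -/
theorem fz_tan (e : Fin k ⊕ Fin d ≃ Fin N) (α : Fin k → ((Fin N → ℂ) →L[ℂ] ℂ))
    (ℓ : Fin d → ((Fin N → ℂ) →L[ℂ] ℂ)) (j : Fin d) (φ : (Fin N → ℂ) →L[ℂ] ℂ)
    (T : (Fin d → ℂ) →ₗ[ℂ] (Fin N → ℂ)) (hT : Function.Injective T)
    (hα : ∀ i η, α i (T η) = 0) (hφ : ∀ η, φ (T η) = 0) : φ (fzVec e α ℓ j) = 0 := by
  rw [fz_vec_apply]
  refine Matrix.exists_mulVec_eq_zero_iff.mp ?_
  -- a vector `η` with `ℓ l (T η) = 0` for `l ≠ j`
  let S : (Fin d → ℂ) →ₗ[ℂ] ({l : Fin d // l ≠ j} → ℂ) :=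
    LinearMap.pi fun l => (ℓ l.1).toLinearMap ∘ₗ T
  have hS : LinearMap.ker S ≠ ⊥ := by
    refine LinearMap.ker_ne_bot_of_finrank_lt ?_
    rw [Module.finrank_fintype_fun_eq_card, Module.finrank_fintype_fun_eq_card,
      Fintype.card_subtype_compl, Fintype.card_fin]
    simp
    exact Nat.pos_of_ne_zero fun h => by subst h; exact j.elim0
  obtain ⟨η, hη, hη0⟩ := (Submodule.ne_bot_iff _).mp hS
  refine ⟨fun c => T η (e c), ?_, ?_⟩
  · intro h
    apply hη0
    apply hT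
    rw [map_zero]
    funext a
    have := congrFun h (e.symm a)
    simpa using this
  · have hrow : ∀ ψ : (Fin N → ℂ) →L[ℂ] ℂ, ψ (T η) = 0 →
        dotProduct (fun c => ψ (Pi.single (e c) 1)) (fun c => T η (e c)) = 0 := by
      intro ψ hψ
      rw [fz_apply e] at hψ
      rw [← hψ]
      exact Finset.sum_congr rfl fun c _ => mul_comm _ _
    funext r
    show dotProduct _ _ = 0
    by_cases hr : r = Sum.inr j
    · subst hr
      rw [Matrix.updateRow_self]
      exact hrow φ (hφ η)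
    · rw [Matrix.updateRow_ne hr]
      rcases r with i | l
      · exact hrow (α i) (hα i η)
      · have hl : l ≠ j := fun h => hr (by rw [h])
        exact hrow (ℓ l) (congrFun hη ⟨l, hl⟩)

end Det

theorem hasFields_hol (hZ : IsSteinSubmanifold N d Z) : HasFields d (hol Z) := by
  intro p
  obtain ⟨F, hF, hF0, hind, -⟩ := hZ.smooth p.1 p.2
  obtain ⟨ℓ, hbij⟩ := complete_coords d (N - d)
    (by rw [Module.finrank_fin_fun]; have := hZ.le; omega) _ hind
  have hcard : N - d + d = N := Nat.sub_add_cancel hZ.le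
  let e : Fin (N - d) ⊕ Fin d ≃ Fin N := finSumFinEquiv.trans (finCongr hcard)
  set w : Fin d → (Fin N → ℂ) → Fin N → ℂ :=
    fun j z => fzVec e (fun i => fderiv ℂ (F i) z) ℓ j with hw
  have hent : ∀ j a, (fun z => w j z a) ∈ entireOn (Fin N) := by
    intro j a
    have hentry : ∀ r c, (fun z => fzMat e (fun i => fderiv ℂ (F i) z) ℓ r c) ∈
        entireOn (Fin N) := by
      intro r c
      rcases r with i | l
      · exact fz_fderiv_entire (F i) (hF i) _
      · exact (entireOn (Fin N)).algebraMap_mem (ℓ l (Pi.single (e c) 1))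
    have h1 : (fun z => w j z a) = ∑ σ : Equiv.Perm (Fin (N - d) ⊕ Fin d),
        (Equiv.Perm.sign σ : ℤ) • ∏ c, (fun z =>
          ((fzMat e (fun i => fderiv ℂ (F i) z) ℓ).updateRow (Sum.inr j)
            (Pi.single (e.symm a) 1)) (σ c) c) := by
      funext z
      show (fzMat e (fun i => fderiv ℂ (F i) z) ℓ).adjugate (e.symm a) (Sum.inr j) = _
      rw [Matrix.adjugate_apply, Matrix.det_apply, Finset.sum_apply]
      refine Finset.sum_congr rfl fun σ _ => ?_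
      rw [Pi.smul_apply, Finset.prod_apply]
      rfl
    rw [h1]
    refine Subalgebra.sum_mem _ fun σ _ => ?_
    refine Subalgebra.zsmul_mem _ (Subalgebra.prod_mem _ fun c _ => ?_) _
    by_cases hc : σ c = Sum.inr j
    · have h2 : (fun z => ((fzMat e (fun i => fderiv ℂ (F i) z) ℓ).updateRow (Sum.inr j)
            (Pi.single (e.symm a) 1)) (σ c) c) =
          algebraMap ℂ ((Fin N → ℂ) → ℂ)
            ((Pi.single (e.symm a) 1 : Fin (N - d) ⊕ Fin d → ℂ) c) := by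
        funext z
        rw [hc, Matrix.updateRow_self]
        rfl
      rw [h2]
      exact (entireOn (Fin N)).algebraMap_mem _
    · have h2 : (fun z => ((fzMat e (fun i => fderiv ℂ (F i) z) ℓ).updateRow (Sum.inr j)
            (Pi.single (e.symm a) 1)) (σ c) c) =
          fun z => fzMat e (fun i => fderiv ℂ (F i) z) ℓ (σ c) c := by
        funext z
        rw [Matrix.updateRow_ne hc]
      rw [h2]
      exact hentry _ _
  have htan : ∀ j, ∀ G ∈ entire N, (∀ z ∈ Z, G z = 0) → ∀ z ∈ Z, fderiv ℂ G z (w j z) = 0 := by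
    intro j G hG hG0 z hz
    obtain ⟨ℓ', κ, V, lam, -, hV, hyV, hκx, -, hlam, hκ, -, hℓ, -, -, -, -⟩ :=
      fz_chart hZ ⟨z, hz⟩
    set y₀ : Fin d → ℂ := fun j => ℓ' j z with hy₀
    have hlx : lam y₀ = z := by
      rw [← hκ y₀ hyV, hκx]
    have hld : DifferentiableAt ℂ lam y₀ :=
      (hlam.contDiffAt (hV.mem_nhds hyV)).differentiableAt (by norm_num)
    have hvan : ∀ H : (Fin N → ℂ) → ℂ, H ∈ entireOn (Fin N) → (∀ z ∈ Z, H z = 0) → ∀ η,
        fderiv ℂ H z (fderiv ℂ lam y₀ η) = 0 := by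
      intro H hH hH0 η
      have h1 := fz_chart_deriv hV hlam hκ hyV H
        ((entire_contDiff H hH).differentiable (by norm_num)) _ η rfl
      rw [hlx] at h1
      rw [h1]
      have h2 : (fun y => H (κ y).1) = fun _ => 0 := funext fun y => hH0 _ (κ y).2
      rw [h2]
      simp
    refine fz_tan e _ ℓ j (fderiv ℂ G z) (fderiv ℂ lam y₀ : (Fin d → ℂ) →L[ℂ] (Fin N → ℂ)) ?_
      (fun i => hvan (F i) (hF i) (hF0 i)) (hvan G hG hG0)
    rw [injective_iff_map_eq_zero]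
    intro η hη
    funext l
    have h3 : HasFDerivAt (fun y => ℓ' l (lam y)) ((ℓ' l).comp (fderiv ℂ lam y₀)) y₀ :=
      (ℓ' l).hasFDerivAt.comp y₀ hld.hasFDerivAt
    have h4 : HasFDerivAt (fun y : Fin d → ℂ => y l)
        (ContinuousLinearMap.proj (R := ℂ) (φ := fun _ : Fin d => ℂ) l) y₀ :=
      (ContinuousLinearMap.proj (R := ℂ) (φ := fun _ : Fin d => ℂ) l).hasFDerivAt
    have h5 : (fun y => ℓ' l (lam y)) =ᶠ[𝓝 y₀] fun y => y l := by
      filter_upwards [hV.mem_nhds hyV] with y hy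
      exact hℓ y hy l
    have h6 := h3.unique (h4.congr_of_eventuallyEq h5)
    have h7 := DFunLike.congr_fun h6 η
    have h8 : fderiv ℂ lam y₀ η = 0 := hη
    rw [ContinuousLinearMap.comp_apply, h8, map_zero] at h7
    exact h7.symm
  choose D hD1 hD2 using fun j => fz_vf hZ (w j) (hent j) (htan j)
  refine ⟨D, hD1, ?_⟩
  rw [Fintype.linearIndependent_iff]
  intro c hc l
  have h1 := congrFun hc ⟨_, fz_rest hZ (ℓ l) (fz_poly_entire _ (clm_mem_poly (ℓ l)))⟩
  rw [Finset.sum_apply] at h1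
  have hdet : (fzMat e (fun i => fderiv ℂ (F i) p.1) ℓ).det ≠ 0 := by
    refine fz_det_ne e _ ℓ fun v hv1 hv2 => ?_
    apply hbij.1
    refine Prod.ext ?_ ?_
    · funext i
      show fderiv ℂ (F i) p.1 v = fderiv ℂ (F i) p.1 0
      rw [map_zero]
      exact hv1 i
    · funext j
      show ℓ j v = ℓ j 0
      rw [map_zero]
      exact hv2 j
  have h2 : ∀ j, (c j • fun f : hol Z => (D j f) p)
      ⟨_, fz_rest hZ (ℓ l) (fz_poly_entire _ (clm_mem_poly (ℓ l)))⟩ =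
      c j * if l = j then (fzMat e (fun i => fderiv ℂ (F i) p.1) ℓ).det else 0 := by
    intro j
    rw [← fz_vec_l e (fun i => fderiv ℂ (F i) p.1) ℓ j l]
    have h4 := hD2 j _ (fz_poly_entire _ (clm_mem_poly (ℓ l))) p
    rw [(ℓ l).fderiv] at h4
    exact congrArg (fun t => c j * t) h4
  rw [Finset.sum_congr rfl fun j _ => h2 j] at h1
  simp only [mul_ite, mul_zero, Finset.sum_ite_eq, Finset.mem_univ, if_true] at h1
  have h3 : c l * (fzMat e (fun i => fderiv ℂ (F i) p.1) ℓ).det = 0 := h1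
  exact (mul_eq_zero.mp h3).resolve_right hdet

end Pool.Agent.MP_fe3720.RR
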