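import Pool.Agent.Work.MP_fe3720_an.R.Final
import Pool.Agent.Work.MP_fe3720_an.R.ELoc
import Pool.Agent.Work.MP_fe3720_an.R.FieldsZ
import Pool.Agent.Work.MP_fe3720_an.R.Ident
import Pool.Agent.Work.MP_fe3720_an.Bridge

/-! # MainR: the case of a connected Stein submanifold of `ℂ^N` -/

namespace Pool.Agent.MP_fe3720.RR

open Topology

variable {N d : ℕ} {Z : Set (Fin N → ℂ)}

/-- the coordinates as elements of `hol Z` -/
noncomputable def coord (Z : Set (Fin N → ℂ)) (i : Fin N) : hol Z := ⟨fun z : Z => z.1 i, gen_mem _ i⟩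

theorem sd0_hol (hZ : IsSteinSubmanifold N d Z) : SD0 d (hol Z) (coord Z) := by
  have := fz_lc hZ
  refine ⟨closedAlg_isClosedAlg _, fun x y => ?_, fun x₀ => ?_, hasFields_hol hZ⟩
  · rw [Subtype.dist_eq, dist_eq_norm]
    rfl
  · obtain ⟨q, κ, V, h1, h2, h3, h4, h5, h6, h7, h8⟩ := hasCharts_hol hZ x₀
    exact ⟨q, κ, V, ⟨h1, h4, h5, h6, h7, h8⟩, h2, h3⟩

theorem immersive_hol (hZ : IsSteinSubmanifold N d Z) : Immersive d (hol Z) (coord Z) := by
  have := fz_lc hZ
  intro q κ V hc y hy ξ hξ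
  have hdf : ∀ f : hol Z, ∀ z ∈ V, DifferentiableAt ℂ (fun y => f (κ y)) z := fun f z hz =>
    ((hc.smooth f).contDiffAt (hc.opn.mem_nhds hz)).differentiableAt (by norm_num)
  -- polynomials
  have hpoly : ∀ H ∈ polyOn (Fin N), (∀ z ∈ V, DifferentiableAt ℂ (fun y => H (κ y).1) z) ∧
      fderiv ℂ (fun y => H (κ y).1) y ξ = 0 := by
    intro H hH
    have hHd : Differentiable ℂ H := (polyOn_contDiff H hH).differentiable (by norm_num)
    have hl : ∀ z ∈ V, HasFDerivAt (fun y => (κ y).1)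
        (ContinuousLinearMap.pi fun i => fderiv ℂ (fun y => (coord Z i) (κ y)) z) z := by
      intro z hz
      exact hasFDerivAt_pi.mpr fun i => (hdf (coord Z i) z hz).hasFDerivAt
    have hcomp : ∀ z ∈ V, HasFDerivAt (fun y => H (κ y).1)
        ((fderiv ℂ H (κ z).1).comp
          (ContinuousLinearMap.pi fun i => fderiv ℂ (fun y => (coord Z i) (κ y)) z)) z :=
      fun z hz => HasFDerivAt.comp z (hHd _).hasFDerivAt (hl z hz)
    refine ⟨fun z hz => (hcomp z hz).differentiableAt, ?_⟩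
    rw [(hcomp y hy).fderiv, ContinuousLinearMap.comp_apply]
    have h1 : (ContinuousLinearMap.pi fun i => fderiv ℂ (fun y => (coord Z i) (κ y)) y) ξ = 0 :=
      funext hξ
    rw [h1, map_zero]
  -- all functions
  have hall : ∀ f : hol Z, fderiv ℂ (fun y => f (κ y)) y ξ = 0 := by
    intro f
    obtain ⟨r, hr, hball⟩ := Metric.nhds_basis_closedBall.mem_iff.mp (hc.opn.mem_nhds hy)
    have h0 : ‖fderiv ℂ (fun y => f (κ y)) y ξ‖ ≤ 0 := by
      refine le_of_forall_pos_le_add fun ε hε => ?_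
      obtain ⟨P, hP, h1⟩ := f.2 (κ '' Metric.closedBall y r)
        ((isCompact_closedBall _ _).image_of_continuousOn (hc.cont.mono hball))
        (ε * r / (‖ξ‖ + 1)) (by positivity)
      obtain ⟨H, hH, rfl⟩ := adjoin_eq_poly _ P hP
      obtain ⟨h2, h3⟩ := hpoly H hH
      have h4 := cauchy_fderiv (fun z => f (κ z) - H (κ z).1) y r (ε * r / (‖ξ‖ + 1)) hr
        (fun z hz => (hdf f z (hball hz)).sub (h2 z (hball hz)))
        (fun z hz => (h1 _ ⟨z, hz, rfl⟩).le)
      rw [fderiv_fun_sub (hdf f y hy) (h2 y hy)] at h4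
      have h5 := (fderiv ℂ (fun y => f (κ y)) y - fderiv ℂ (fun y => H (κ y).1) y).le_opNorm ξ
      rw [sub_apply, h3, sub_zero] at h5
      rw [zero_add]
      refine h5.trans ?_
      calc ‖fderiv ℂ (fun y => f (κ y)) y - fderiv ℂ (fun y => H (κ y).1) y‖ * ‖ξ‖
          ≤ ε * r / (‖ξ‖ + 1) / r * (‖ξ‖ + 1) := by
            gcongr
            linarith
        _ = ε := by field_simp
    exact norm_le_zero_iff.mp h0
  funext j
  have h1 := hall (q j)
  have h2 : (fun y => (q j) (κ y)) =ᶠ[𝓝 y] fun y => y j := by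
    filter_upwards [hc.opn.mem_nhds hy] with z hz
    exact hc.inv z hz j
  have h3 : HasFDerivAt (fun y : Fin d → ℂ => y j)
      (ContinuousLinearMap.proj (R := ℂ) (φ := fun _ : Fin d => ℂ) j) y :=
    (ContinuousLinearMap.proj (R := ℂ) (φ := fun _ : Fin d => ℂ) j).hasFDerivAt
  rw [h2.fderiv_eq, h3.fderiv] at h1
  exact h1

theorem mainR (hZ : IsSteinSubmanifold N d Z) (hconn : IsConnected Z)
    (h4 : DensityRR.RR4 (hol Z)) (hDP : DensityRR.DensityProperty (hol Z)) :
    DensityRR.IsRR (hol Z) := by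
  rw [DensityRR.rr_iff]
  obtain ⟨v, hv, hv0, f, hfc, hvf⟩ := h4
  have hcl := isClosed_of_submanifold hZ
  have : ProperSpace Z := ProperSpace.of_isClosed hcl
  have : PreconnectedSpace Z := Subtype.preconnectedSpace hconn.isPreconnected
  have hS0 := sd0_hol hZ
  have hvf' : (show Derivation ℂ (hol Z) (hol Z) from v) f = 0 := Subtype.ext hvf
  have hm : 2 ≤ d := dim_two hS0 (v := v) hv.1 hv0 hvf' hfc
  have hS : SD d (hol Z) (coord Z) := ⟨hS0, ends_of hS0 (immersive_hol hZ) hm⟩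
  exact isRR_of_density hS ((DensityRR.density_iff _).mp hDP) (v := v) hv hv0 hvf' hfc

end Pool.Agent.MP_fe3720.RR
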