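import Pool.Agent.Work.MP_fe3720_an.R.LocalMove

/-! # Chain: moving a point in a chart

Let `η > 0` with: every point at distance `≤ η` from `C` is in `C₁` (`IsCompact.exists_cthickening_subset_open`). Let `L = dist y y' + 1`,
`ε₁ = min ε η / L`. Call `Ch ℓ ψ` (inductive predicate): `Near C₁ ℓ ψ → Ch ℓ ψ`, and `Ch ℓ ψ → Ch ℓ' ψ' → Ch (ℓ + ℓ') (ψ'.comp ψ)`. If `Ch ℓ ψ`
(`ℓ ≥ 0` at each step) and all the points at distance `≤ ℓ` from `x` are in `C₁` then `dist (ψ x) x ≤ ℓ` and `dist (ψ.symm x) x ≤ ℓ` (induction). Let `ξ s = y + s (y' - y)`, `s ∈ [0,1]`, in the ball. By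
`local_move` (for `C₁`, `ε₁`) each `s` has a neighbourhood in which for all `s', s''` there is `ψ` with `ψ (κ (ξ s')) = κ (ξ s'')`,
`Near C₁ (ε₁ * |s' - s''| * dist y y') ψ`. With `exists_monotone_Icc_subset_open_cover_Icc` get `0 = t 0 ≤ t 1 ≤ ⋯`, `t n = 1` for large
`n`, and by induction on `n` some `ψ` with `Ch (ε₁ * t n * dist y y') ψ` and `ψ (κ y) = κ (ξ (t n))`. -/

namespace Pool.Agent.MP_fe3720.RR

open Topology

variable {X : Type} [MetricSpace X] [ProperSpace X] {O : Subalgebra ℂ (X → ℂ)} {m N : ℕ}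
  {G : Fin N → O}

/-- `ψ` moves the points whose `ℓ`-ball is in `C₁` by at most `ℓ` -/
def MoveP (C₁ : Set X) (ℓ : ℝ) (ψ : HolAut O) : Prop :=
  ∀ x, Metric.closedBall x ℓ ⊆ C₁ → dist (ψ x) x ≤ ℓ ∧ dist (ψ.symm x) x ≤ ℓ

omit [ProperSpace X] in
theorem MoveP.of_near {C₁ : Set X} {ℓ : ℝ} (hℓ : 0 ≤ ℓ) {ψ : HolAut O} (h : Near C₁ ℓ ψ) :
    MoveP C₁ ℓ ψ := fun x hx => h x (hx (Metric.mem_closedBall_self hℓ))

omit [ProperSpace X] in
theorem MoveP.comp {C₁ : Set X} {ℓ ℓ' : ℝ} (hℓ : 0 ≤ ℓ) (hℓ' : 0 ≤ ℓ') {ψ ψ' : HolAut O}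
    (h : MoveP C₁ ℓ ψ) (h' : MoveP C₁ ℓ' ψ') : MoveP C₁ (ℓ + ℓ') (ψ'.comp ψ) := by
  intro x hx
  constructor
  · have h1 := (h x ((Metric.closedBall_subset_closedBall (by linarith)).trans hx)).1
    have h2 : Metric.closedBall (ψ x) ℓ' ⊆ Metric.closedBall x (ℓ + ℓ') :=
      Metric.closedBall_subset_closedBall' (by linarith)
    have h3 := (h' (ψ x) (h2.trans hx)).1
    rw [HolAut.comp_apply]
    have h4 := dist_triangle (ψ' (ψ x)) (ψ x) x
    linarith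
  · have h1 := (h' x ((Metric.closedBall_subset_closedBall (by linarith)).trans hx)).2
    have h2 : Metric.closedBall (ψ'.symm x) ℓ ⊆ Metric.closedBall x (ℓ + ℓ') :=
      Metric.closedBall_subset_closedBall' (by linarith)
    have h3 := (h (ψ'.symm x) (h2.trans hx)).2
    have h5 : (ψ'.comp ψ).symm x = ψ.symm (ψ'.symm x) := rfl
    rw [h5]
    have h4 := dist_triangle (ψ.symm (ψ'.symm x)) (ψ'.symm x) x
    linarith

theorem chain_move (hS : SD0 m O G) (hDP : LT O) {q : Fin m → O}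
    {κ : (Fin m → ℂ) → X} {V : Set (Fin m → ℂ)} (hc : IsChart O q κ V) {C C₁ : Set X}
    (hC : IsCompact C) (hC₁ : OConv O C₁) (hCC : C ⊆ interior C₁) {y₀ : Fin m → ℂ} {R : ℝ}
    (hV : Metric.ball y₀ R ⊆ V) (hd : ∀ y ∈ Metric.ball y₀ R, κ y ∉ C₁) {y y' : Fin m → ℂ}
    (hy : y ∈ Metric.ball y₀ R) (hy' : y' ∈ Metric.ball y₀ R) {ε : ℝ} (hε : 0 < ε) :
    ∃ ψ : HolAut O, ψ (κ y) = κ y' ∧ Near C ε ψ := by
  obtain ⟨η, hη, hηC⟩ := hC.exists_cthickening_subset_open isOpen_interior hCC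
  set D : ℝ := dist y y' with hD
  have hD0 : 0 ≤ D := dist_nonneg
  set ε₁ : ℝ := min ε η / (D + 1) with hε₁
  have hmin : 0 < min ε η := lt_min hε hη
  have hε₁0 : 0 < ε₁ := by positivity
  have hε₁D : ε₁ * D ≤ min ε η := by
    rw [hε₁, div_mul_eq_mul_div, div_le_iff₀ (by positivity)]
    nlinarith
  set ξ : ℝ → (Fin m → ℂ) := fun s => AffineMap.lineMap y y' s with hξ
  have hξc : Continuous ξ := AffineMap.lineMap_continuous
  have hξd : ∀ a b : ℝ, dist (ξ a) (ξ b) = |a - b| * D := by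
    intro a b
    rw [hξ]
    simp only [dist_lineMap_lineMap, Real.dist_eq]
    rfl
  have hξb : ∀ s ∈ Set.Icc (0 : ℝ) 1, ξ s ∈ Metric.ball y₀ R := by
    intro s hs
    exact (convex_ball y₀ R).lineMap_mem hy hy' hs
  have hloc : ∀ s : Set.Icc (0 : ℝ) 1, ∃ δ > 0, ∀ z ∈ Metric.ball (ξ s) δ,
      ∀ z' ∈ Metric.ball (ξ s) δ, ∃ ψ : HolAut O, ψ (κ z) = κ z' ∧
        Near C₁ (ε₁ * dist z z') ψ := fun s =>
    local_move hS hDP hc hC₁ (hV (hξb s s.2)) (hd _ (hξb s s.2)) hε₁0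
  choose δ hδ hloc using hloc
  obtain ⟨t, ht0, htm, ⟨n₁, hn₁⟩, htc⟩ := exists_monotone_Icc_subset_open_cover_Icc
    (zero_le_one : (0 : ℝ) ≤ 1) (c := fun s : Set.Icc (0 : ℝ) 1 =>
      {s' : Set.Icc (0 : ℝ) 1 | dist (ξ s') (ξ s) < δ s})
    (fun s => isOpen_lt ((hξc.comp continuous_subtype_val).dist continuous_const)
      continuous_const) (fun s _ => Set.mem_iUnion.2 ⟨s, by
        show dist (ξ s) (ξ s) < δ s
        rw [dist_self]
        exact hδ s⟩)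
  have key : ∀ n : ℕ, ∃ ψ : HolAut O, ψ (κ y) = κ (ξ (t n)) ∧
      MoveP C₁ (ε₁ * ((t n : ℝ) * D)) ψ := by
    intro n
    induction n with
    | zero =>
      refine ⟨idAut O, ?_, ?_⟩
      · have h1 : ξ (t 0) = y := by
          rw [ht0]
          simp [hξ]
        rw [h1]
        rfl
      · rw [ht0]
        refine MoveP.of_near (by simp) fun x _ => ?_
        have h1 : (idAut O) x = x := rfl
        have h2 : (idAut O).symm x = x := rfl
        rw [h1, h2, dist_self]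
        simp
    | succ n ih =>
      obtain ⟨ψ, hψ1, hψ2⟩ := ih
      obtain ⟨s, hs⟩ := htc n
      have hle : t n ≤ t (n + 1) := htm (Nat.le_succ n)
      have ha : t n ∈ Set.Icc (t n) (t (n + 1)) := ⟨le_rfl, hle⟩
      have hb : t (n + 1) ∈ Set.Icc (t n) (t (n + 1)) := ⟨hle, le_rfl⟩
      obtain ⟨ψ', h1, h2⟩ := hloc s (ξ (t n)) (hs ha) (ξ (t (n + 1))) (hs hb)
      have hle' : (t n : ℝ) ≤ t (n + 1) := hle
      have htn0 : (0 : ℝ) ≤ t n := (t n).2.1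
      rw [hξd, abs_sub_comm, abs_of_nonneg (sub_nonneg.2 hle')] at h2
      refine ⟨ψ'.comp ψ, ?_, ?_⟩
      · rw [HolAut.comp_apply, hψ1, h1]
      · have h3 := MoveP.comp (by positivity) (mul_nonneg hε₁0.le
          (mul_nonneg (sub_nonneg.2 hle') hD0)) hψ2 (MoveP.of_near (mul_nonneg hε₁0.le
          (mul_nonneg (sub_nonneg.2 hle') hD0)) h2)
        have h4 : ε₁ * ((t n : ℝ) * D) + ε₁ * (((t (n + 1) : ℝ) - t n) * D) =
            ε₁ * ((t (n + 1) : ℝ) * D) := by ring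
        rwa [h4] at h3
  obtain ⟨ψ, hψ1, hψ2⟩ := key n₁
  rw [hn₁ n₁ le_rfl] at hψ1 hψ2
  have h1 : ξ ((⟨1, by simp⟩ : Set.Icc (0 : ℝ) 1) : ℝ) = y' := by simp [hξ]
  refine ⟨ψ, ?_, fun x hx => ?_⟩
  · rw [hψ1]
    exact congrArg κ h1
  · have h2 : Metric.closedBall x (ε₁ * (1 * D)) ⊆ C₁ := by
      intro z hz
      refine interior_subset (hηC (Metric.mem_cthickening_of_dist_le z x η C hx ?_))
      rw [Metric.mem_closedBall, one_mul] at hz
      exact hz.trans (hε₁D.trans (min_le_right _ _))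
    have h3 := hψ2 x h2
    have h4 : ε₁ * (1 * D) ≤ ε := by
      rw [one_mul]
      exact hε₁D.trans (min_le_left _ _)
    exact ⟨h3.1.trans h4, h3.2.trans h4⟩

end Pool.Agent.MP_fe3720.RR
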