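import Pool.Agent.Work.MP_fe3720_an.R.OC

/-! # Compl: the complement of an O-convex compact set is connected

`X` is locally connected (charts). Let `x ∉ C` and `U` the connected component of `x` in `Cᶜ`, which is open. Assume `U` is
bounded. Its boundary is contained in `C` (a boundary point of `U` not in `C` has a connected neighbourhood
in `Cᶜ` meeting `U`, so is in `U`). If the boundary of `U` is empty, `U` is closed and open, so `U = X = Cᶜ`, connected.
Otherwise let `h ∈ O` with `h x = 1`, `|h| < 1` on `C`. `|h|` has a maximum on the compact `closure U` at a point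
`z`, `|h z| ≥ 1`, so `z ∉ C` and `z ∈ U`. The set `{z' ∈ U | |h z'| = |h z|}` is closed in `U`, open by the maximum principle in a chart
(`Complex.norm_eventually_eq_of_isLocalMax`), nonempty, so equal to `U`; by continuity `|h| = |h z| ≥ 1` on the boundary of `U`, contained in `C`:
contradiction. So (if `Cᶜ` is not connected) all the components of `Cᶜ` are unbounded. With `S` given by `hS.ends C`: `S ⊆ Cᶜ`
is preconnected and every component of `Cᶜ`, being unbounded, meets `S`. Hence `Cᶜ` is preconnected. -/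

namespace Pool.Agent.MP_fe3720.RR

open Topology

variable {X : Type} [MetricSpace X] [ProperSpace X] [PreconnectedSpace X]
  {O : Subalgebra ℂ (X → ℂ)} {m N : ℕ} {G : Fin N → O}

omit [ProperSpace X] [PreconnectedSpace X] in
/-- the maximum principle on `X` -/
private theorem cmpl_max (hS : SD0 m O G) (h : O) {w : X}
    (hw : ∀ᶠ z in 𝓝 w, ‖h z‖ ≤ ‖h w‖) : ∀ᶠ z in 𝓝 w, ‖h z‖ = ‖h w‖ := by
  obtain ⟨q, κ, V, hc, hV, hκ⟩ := hS.charts w
  set y := fun j => (q j) w with hy
  have hmap : Filter.map κ (𝓝 y) = 𝓝 w := by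
    have := chart_map_nhds hS.alg hc hV
    rwa [hκ] at this
  have hd : ∀ᶠ z in 𝓝 y, DifferentiableAt ℂ (fun y => h (κ y)) z := by
    filter_upwards [hc.opn.mem_nhds hV] with z hz
    exact ((hc.smooth h).differentiableOn one_ne_zero).differentiableAt (hc.opn.mem_nhds hz)
  have hm : IsLocalMax (norm ∘ fun y => h (κ y)) y := by
    have h1 : ∀ᶠ z in Filter.map κ (𝓝 y), ‖h z‖ ≤ ‖h w‖ := by rwa [hmap]
    have h2 : ∀ᶠ z in 𝓝 y, ‖h (κ z)‖ ≤ ‖h w‖ := h1
    filter_upwards [h2] with z hz
    show ‖h (κ z)‖ ≤ ‖h (κ y)‖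
    rwa [hκ]
  have h3 := Complex.norm_eventually_eq_of_isLocalMax hd hm
  rw [← hmap]
  show ∀ᶠ z in 𝓝 y, ‖h (κ z)‖ = ‖h w‖
  filter_upwards [h3] with z hz
  rwa [hκ] at hz

/-- a bounded component of the complement is everything -/
private theorem cmpl_bdd (hS : SD0 m O G) {C : Set X} (hC : OConv O C) {x : X} (hx : x ∈ Cᶜ)
    (hb : Bornology.IsBounded (connectedComponentIn Cᶜ x)) :
    connectedComponentIn Cᶜ x = Set.univ := by
  have := locallyConnected hS
  have hCo : IsOpen Cᶜ := hC.1.isClosed.isOpen_compl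
  set U := connectedComponentIn Cᶜ x with hU
  have hUo : IsOpen U := hCo.connectedComponentIn
  have hxU : x ∈ U := mem_connectedComponentIn hx
  have hUC : U ⊆ Cᶜ := connectedComponentIn_subset _ _
  have hcl : ∀ z ∈ closure U, z ∉ C → z ∈ U := by
    intro z hz hzC
    have h1 : IsOpen (connectedComponentIn Cᶜ z) := hCo.connectedComponentIn
    obtain ⟨w, hw1, hw2⟩ := mem_closure_iff.mp hz _ h1 (mem_connectedComponentIn hzC)
    have h2 := connectedComponentIn_eq hw1
    have h3 := connectedComponentIn_eq hw2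
    rw [hU, h3, ← h2]
    exact mem_connectedComponentIn hzC
  have hcomp : IsCompact (closure U) := hb.isCompact_closure
  obtain ⟨h, h1, h2⟩ := hC.2 x hx
  obtain ⟨z, hz, hmax⟩ := hcomp.exists_isMaxOn ⟨x, subset_closure hxU⟩
    (cont hS h).norm.continuousOn
  have hz1 : 1 ≤ ‖h z‖ := by
    have : ‖h x‖ ≤ ‖h z‖ := hmax (subset_closure hxU)
    rwa [h2, norm_one] at this
  have hzU : z ∈ U := hcl z hz fun hzC => absurd (h1 z hzC) (not_lt.mpr hz1)
  have hAo : IsOpen {w | w ∈ U ∧ ‖h w‖ = ‖h z‖} := by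
    rw [isOpen_iff_mem_nhds]
    rintro w ⟨hwU, hw⟩
    have h3 : ∀ᶠ v in 𝓝 w, ‖h v‖ ≤ ‖h w‖ := by
      filter_upwards [hUo.mem_nhds hwU] with v hv
      rw [hw]
      exact hmax (subset_closure hv)
    filter_upwards [hUo.mem_nhds hwU, cmpl_max hS h h3] with v hv hv2
    exact ⟨hv, hv2.trans hw⟩
  have hBo : IsOpen {w | ‖h w‖ ≠ ‖h z‖} := isOpen_ne_fun (cont hS h).norm continuous_const
  have hall : ∀ w ∈ U, ‖h w‖ = ‖h z‖ := by
    intro w hw
    by_contra hne
    have hpre : IsPreconnected U := isPreconnected_connectedComponentIn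
    obtain ⟨v, hv, hv1, hv2⟩ := hpre _ _ hAo hBo (fun v hv => by
      by_cases hh : ‖h v‖ = ‖h z‖
      · exact Or.inl ⟨hv, hh⟩
      · exact Or.inr hh) ⟨z, hzU, hzU, rfl⟩ ⟨w, hw, hne⟩
    exact hv2 hv1.2
  have hall' : ∀ w ∈ closure U, ‖h w‖ = ‖h z‖ := by
    intro w hw
    have hcl : IsClosed {w | ‖h w‖ = ‖h z‖} := isClosed_eq (cont hS h).norm continuous_const
    exact closure_minimal (fun v hv => hall v hv) hcl hw
  have hUcl : IsClosed U := by
    rw [← closure_eq_iff_isClosed]
    refine Set.Subset.antisymm (fun w hw => hcl w hw fun hwC => ?_) subset_closure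
    have := h1 w hwC
    rw [hall' w hw] at this
    linarith
  exact IsClopen.eq_univ ⟨hUcl, hUo⟩ ⟨x, hxU⟩

theorem oconv_compl (hS : SD m O G) {C : Set X} (hC : OConv O C) : IsPreconnected Cᶜ := by
  rcases (Cᶜ).eq_empty_or_nonempty with he | ⟨x₀, hx₀⟩
  · rw [he]
    exact isPreconnected_empty
  by_cases hex : ∃ x ∈ Cᶜ, Bornology.IsBounded (connectedComponentIn Cᶜ x)
  · obtain ⟨x, hx, hb⟩ := hex
    have h1 := cmpl_bdd hS.toSD0 hC hx hb
    have h2 : Cᶜ = connectedComponentIn Cᶜ x := by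
      refine Set.Subset.antisymm ?_ (connectedComponentIn_subset _ _)
      rw [h1]
      exact Set.subset_univ _
    rw [h2]
    exact isPreconnected_connectedComponentIn
  · push Not at hex
    obtain ⟨S, hSp, hSd, hSb⟩ := hS.ends C hC.1
    have hSC : S ⊆ Cᶜ := fun y hy hyC => Set.disjoint_left.mp hSd hy hyC
    have key : ∀ x ∈ Cᶜ, ∃ p ∈ S, connectedComponentIn Cᶜ x = connectedComponentIn Cᶜ p := by
      intro x hx
      by_contra hcon
      push Not at hcon
      refine hex x hx (hSb.subset fun p hp hpS => ?_)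
      exact hcon p hpS (connectedComponentIn_eq hp)
    obtain ⟨p₀, hp₀, he₀⟩ := key x₀ hx₀
    have hsub : Cᶜ ⊆ connectedComponentIn Cᶜ p₀ := by
      intro x hx
      obtain ⟨p, hp, he⟩ := key x hx
      have h1 : p ∈ connectedComponentIn Cᶜ p₀ := hSp.subset_connectedComponentIn hp₀ hSC hp
      rw [connectedComponentIn_eq h1, ← he]
      exact mem_connectedComponentIn hx
    rw [Set.Subset.antisymm hsub (connectedComponentIn_subset _ _)]
    exact isPreconnected_connectedComponentIn

end Pool.Agent.MP_fe3720.RR
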