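import Pool.Agent.Work.MP_fe3720_an.R.Word

/-! # Span: with the density property, sums of complete fields are dense -/

namespace Pool.Agent.MP_fe3720.RR

open Topology

variable {X : Type} [MetricSpace X] {O : Subalgebra ℂ (X → ℂ)} {m N : ℕ}
  {G : Fin N → O}

/-- closure of a set of derivations -/
def clM (M : Set (Derivation ℂ O O)) : Set (Derivation ℂ O O) :=
  {D | IsVF D ∧ ∀ (S : Finset O) (K : Set X), IsCompact K → ∀ ε > 0,
    ∃ U ∈ M, ∀ f ∈ S, ∀ x ∈ K, ‖(D f) x - (U f) x‖ < ε}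

theorem clM_idem {M : Set (Derivation ℂ O O)} {D : Derivation ℂ O O} (hD : IsVF D)
    (h : ∀ (S : Finset O) (K : Set X), IsCompact K → ∀ ε > 0,
      ∃ U ∈ clM M, ∀ f ∈ S, ∀ x ∈ K, ‖(D f) x - (U f) x‖ < ε) : D ∈ clM M := by
  refine ⟨hD, fun S K hK ε hε => ?_⟩
  obtain ⟨U, hU, h1⟩ := h S K hK (ε / 2) (by positivity)
  obtain ⟨V, hV, h2⟩ := hU.2 S K hK (ε / 2) (by positivity)
  refine ⟨V, hV, fun f hf x hx => ?_⟩
  have a1 := h1 f hf x hx
  have a2 := h2 f hf x hx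
  have h3 : (D f) x - (V f) x = ((D f) x - (U f) x) + ((U f) x - (V f) x) := by ring
  rw [h3]
  have := norm_add_le ((D f) x - (U f) x) ((U f) x - (V f) x)
  linarith

theorem clM_add {M : Submodule ℂ (Derivation ℂ O O)} {D E : Derivation ℂ O O}
    (hD : D ∈ clM (M : Set (Derivation ℂ O O))) (hE : E ∈ clM (M : Set (Derivation ℂ O O))) :
    D + E ∈ clM (M : Set (Derivation ℂ O O)) := by
  refine ⟨hD.1.add hE.1, fun S K hK ε hε => ?_⟩
  obtain ⟨U, hU, h1⟩ := hD.2 S K hK (ε / 2) (by positivity)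
  obtain ⟨V, hV, h2⟩ := hE.2 S K hK (ε / 2) (by positivity)
  refine ⟨U + V, M.add_mem hU hV, fun f hf x hx => ?_⟩
  have a1 := h1 f hf x hx
  have a2 := h2 f hf x hx
  show ‖((D f) x + (E f) x) - ((U f) x + (V f) x)‖ < ε
  have h3 : ((D f) x + (E f) x) - ((U f) x + (V f) x) =
      ((D f) x - (U f) x) + ((E f) x - (V f) x) := by ring
  rw [h3]
  have := norm_add_le ((D f) x - (U f) x) ((E f) x - (V f) x)
  linarith

theorem clM_smul {M : Submodule ℂ (Derivation ℂ O O)} {D : Derivation ℂ O O}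
    (hD : D ∈ clM (M : Set (Derivation ℂ O O))) (c : ℂ) :
    c • D ∈ clM (M : Set (Derivation ℂ O O)) := by
  refine ⟨hD.1.csmul c, fun S K hK ε hε => ?_⟩
  obtain ⟨U, hU, h1⟩ := hD.2 S K hK (ε / (‖c‖ + 1)) (by positivity)
  refine ⟨c • U, M.smul_mem c hU, fun f hf x hx => ?_⟩
  have a1 := h1 f hf x hx
  show ‖c * (D f) x - c * (U f) x‖ < ε
  rw [← mul_sub, norm_mul]
  rw [lt_div_iff₀ (by positivity)] at a1
  have := norm_nonneg ((D f) x - (U f) x)
  nlinarith [norm_nonneg c]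

theorem clM_zero {M : Submodule ℂ (Derivation ℂ O O)} :
    (0 : Derivation ℂ O O) ∈ clM (M : Set (Derivation ℂ O O)) :=
  ⟨isVF_zero, fun _ _ _ ε hε => ⟨0, M.zero_mem, fun f _ x _ => by simpa using hε⟩⟩

/-- brackets of the closure, if brackets of elements of `M` are in the closure -/
theorem clM_lie {M : Submodule ℂ (Derivation ℂ O O)} (hMvf : ∀ D ∈ M, IsVF D)
    (hM : ∀ D ∈ M, ∀ E ∈ M, ⁅D, E⁆ ∈ clM (M : Set (Derivation ℂ O O))) {D E : Derivation ℂ O O}
    (hD : D ∈ clM (M : Set (Derivation ℂ O O))) (hE : E ∈ clM (M : Set (Derivation ℂ O O))) :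
    ⁅D, E⁆ ∈ clM (M : Set (Derivation ℂ O O)) := by
  classical
  -- first for `E ∈ M`
  have aux : ∀ D ∈ clM (M : Set (Derivation ℂ O O)), ∀ E ∈ M,
      ⁅D, E⁆ ∈ clM (M : Set (Derivation ℂ O O)) := by
    intro D hD E hE
    have hEv := hMvf E hE
    refine clM_idem (hD.1.lie hEv) fun S K hK ε hε => ?_
    obtain ⟨K1, hK1, δ1, hδ1, h1⟩ := hEv K hK (ε / 2) (by positivity)
    obtain ⟨U, hU, h2⟩ := hD.2 (S ∪ S.image E) (K ∪ K1) (hK.union hK1) (min δ1 (ε / 2))
      (lt_min hδ1 (by positivity))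
    refine ⟨⁅U, E⁆, hM U hU E hE, fun f hf x hx => ?_⟩
    rw [Derivation.commutator_apply, Derivation.commutator_apply]
    have a1 := h2 (E f) (Finset.mem_union_right _ (Finset.mem_image_of_mem _ hf)) x (Or.inl hx)
    have a2 := h1 (D f - U f) (fun y hy =>
      (h2 f (Finset.mem_union_left _ hf) y (Or.inr hy)).trans_le (min_le_left _ _)) x hx
    rw [map_sub] at a2
    have a3 : ‖(E (D f)) x - (E (U f)) x‖ < ε / 2 := a2
    have a4 : ‖(D (E f)) x - (U (E f)) x‖ < ε / 2 := a1.trans_le (min_le_right _ _)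
    show ‖((D (E f)) x - (E (D f)) x) - ((U (E f)) x - (E (U f)) x)‖ < ε
    have h3 : ((D (E f)) x - (E (D f)) x) - ((U (E f)) x - (E (U f)) x) =
        ((D (E f)) x - (U (E f)) x) - ((E (D f)) x - (E (U f)) x) := by ring
    rw [h3]
    have := norm_sub_le ((D (E f)) x - (U (E f)) x) ((E (D f)) x - (E (U f)) x)
    linarith
  refine clM_idem (hD.1.lie hE.1) fun S K hK ε hε => ?_
  obtain ⟨K1, hK1, δ1, hδ1, h1⟩ := hD.1 K hK (ε / 2) (by positivity)
  obtain ⟨U, hU, h2⟩ := hE.2 (S ∪ S.image D) (K ∪ K1) (hK.union hK1) (min δ1 (ε / 2))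
    (lt_min hδ1 (by positivity))
  refine ⟨⁅D, U⁆, aux D hD U hU, fun f hf x hx => ?_⟩
  rw [Derivation.commutator_apply, Derivation.commutator_apply]
  have a1 := h2 (D f) (Finset.mem_union_right _ (Finset.mem_image_of_mem _ hf)) x (Or.inl hx)
  have a2 := h1 (E f - U f) (fun y hy =>
    (h2 f (Finset.mem_union_left _ hf) y (Or.inr hy)).trans_le (min_le_left _ _)) x hx
  rw [map_sub] at a2
  have a3 : ‖(D (E f)) x - (D (U f)) x‖ < ε / 2 := a2
  have a4 : ‖(E (D f)) x - (U (D f)) x‖ < ε / 2 := a1.trans_le (min_le_right _ _)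
  show ‖((D (E f)) x - (E (D f)) x) - ((D (U f)) x - (U (D f)) x)‖ < ε
  have h3 : ((D (E f)) x - (E (D f)) x) - ((D (U f)) x - (U (D f)) x) =
      ((D (E f)) x - (D (U f)) x) - ((E (D f)) x - (U (D f)) x) := by ring
  rw [h3]
  have := norm_sub_le ((D (E f)) x - (D (U f)) x) ((E (D f)) x - (U (D f)) x)
  linarith

/-- second order Taylor estimate along a flow -/
theorem flow_taylor_two (hO : IsClosedAlg O) {D : Derivation ℂ O O} {Φ : ℂ → HolAut O}
    (h : IsFlow D Φ) (f : O) {K : Set X} (hK : IsCompact K) :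
    ∃ B : ℝ, 0 ≤ B ∧ ∀ t : ℂ, ‖t‖ ≤ 1 → ∀ x ∈ K,
      ‖f (Φ t x) - f x - t * (D f) x‖ ≤ B * ‖t‖ ^ 2 := by
  obtain ⟨B, hB⟩ := Psi_taylor hO (W := fun _ : Fin 1 => D) (Φ := fun _ : Fin 1 => Φ)
    (fun _ => h) f hK
  refine ⟨|B|, abs_nonneg _, fun t ht x hx => ?_⟩
  have hn : ‖(fun _ : Fin 1 => t)‖ = ‖t‖ := pi_norm_const t
  have h1 := hB (fun _ => t) (by rw [hn]; exact ht) x hx
  rw [hn, Fin.sum_univ_one] at h1
  have h2 : Psi (fun _ : Fin 1 => Φ) (fun _ => t) x = Φ t x := rfl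
  rw [h2] at h1
  refine h1.trans ?_
  gcongr
  exact le_abs_self B

theorem flow_lip (hO : IsClosedAlg O) {D : Derivation ℂ O O} {Φ : ℂ → HolAut O}
    (h : IsFlow D Φ) (f : O) {K : Set X} (hK : IsCompact K) :
    ∃ B : ℝ, 0 ≤ B ∧ ∀ t : ℂ, ‖t‖ ≤ 1 → ∀ x ∈ K, ‖f (Φ t x) - f x‖ ≤ B * ‖t‖ := by
  obtain ⟨B, hB0, hB⟩ := flow_taylor_two hO h f hK
  obtain ⟨C, hC⟩ := hK.exists_bound_of_continuousOn (hO.cont _ (D f).2).continuousOn
  refine ⟨B + |C|, by positivity, fun t ht x hx => ?_⟩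
  have h1 := hB t ht x hx
  have h2 := (hC x hx).trans (le_abs_self C)
  have h3 : f (Φ t x) - f x = (f (Φ t x) - f x - t * (D f) x) + t * (D f) x := by ring
  rw [h3]
  refine (norm_add_le _ _).trans ?_
  rw [norm_mul]
  have h4 : B * ‖t‖ ^ 2 ≤ B * ‖t‖ := by
    have := norm_nonneg t
    have : ‖t‖ ^ 2 ≤ ‖t‖ := by nlinarith
    gcongr
  have h5 : ‖t‖ * ‖(D f) x‖ ≤ |C| * ‖t‖ := by
    rw [mul_comm]
    gcongr
  linarith

/-- linear form of the continuity of a field -/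
theorem IsVF.bound {E : Derivation ℂ O O} (hE : IsVF E) {K : Set X} (hK : IsCompact K) :
    ∃ K' : Set X, IsCompact K' ∧ ∃ C : ℝ, 0 ≤ C ∧ ∀ (h : O) (b : ℝ), 0 ≤ b →
      (∀ x ∈ K', ‖h x‖ ≤ b) → ∀ x ∈ K, ‖(E h) x‖ ≤ C * b := by
  obtain ⟨K', hK', δ, hδ, h1⟩ := hE K hK 1 one_pos
  refine ⟨K', hK', 2 / δ, by positivity, fun h b hb hh x hx => ?_⟩
  refine le_of_forall_pos_le_add fun η hη => ?_
  have hbη : 0 < b + η * δ / 2 := by positivity
  set c : ℝ := δ / (2 * (b + η * δ / 2)) with hc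
  have hcpos : 0 < c := by positivity
  have h2 := h1 ((c : ℂ) • h) (fun y hy => by
    show ‖(c : ℂ) * h y‖ < δ
    rw [norm_mul, Complex.norm_of_nonneg hcpos.le]
    have a1 := hh y hy
    have a2 : c * ‖h y‖ ≤ c * (b + η * δ / 2) := by
      gcongr
      have : 0 ≤ η * δ / 2 := by positivity
      linarith
    have a3 : c * (b + η * δ / 2) = δ / 2 := by
      rw [hc]
      field_simp
    linarith) x hx
  rw [Derivation.map_smul] at h2
  have h3 : ‖(c : ℂ) * (E h) x‖ < 1 := h2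
  rw [norm_mul, Complex.norm_of_nonneg hcpos.le] at h3
  have h4 : ‖(E h) x‖ < 1 / c := by
    rw [lt_div_iff₀ hcpos]
    linarith
  have h5 : 1 / c = 2 / δ * b + η := by
    rw [hc]
    field_simp
  linarith

theorem complete_mem_span {E : Derivation ℂ O O} (hE : IsCompleteVF E) :
    E ∈ Submodule.span ℂ {U : Derivation ℂ O O | IsCompleteVF U} :=
  Submodule.subset_span hE

theorem quot_mem_span {E F : Derivation ℂ O O} (hE : IsCompleteVF E) (hF : IsCompleteVF F)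
    (c : ℂ) : c • (E - F) ∈ Submodule.span ℂ {U : Derivation ℂ O O | IsCompleteVF U} := by
  have e : E - F = E + (-1 : ℂ) • F := by
    apply Derivation.ext
    intro f
    apply Subtype.ext
    funext x
    show (E f) x - (F f) x = (E f) x + (-1) * ((F f) x)
    ring
  rw [e]
  exact Submodule.smul_mem _ c (Submodule.add_mem _ (complete_mem_span hE)
    (Submodule.smul_mem _ _ (complete_mem_span hF)))

/-- the bracket of two complete fields is a limit of sums of complete fields -/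
theorem lie_complete [ProperSpace X] (hS : SD0 m O G) {D E : Derivation ℂ O O}
    (hD : IsCompleteVF D) (hE : IsCompleteVF E) :
    ⁅D, E⁆ ∈ clM (Submodule.span ℂ {U : Derivation ℂ O O | IsCompleteVF U} :
      Set (Derivation ℂ O O)) := by
  obtain ⟨Φ, hΦ⟩ := exists_flow hS hD
  refine ⟨hD.1.lie hE.1, fun S K hK ε hε => ?_⟩
  -- the compact set `K₁`
  set K₁ : Set X := (fun p : ℂ × X => Φ p.1 p.2) '' (Metric.closedBall 0 1 ×ˢ K) with hK₁
  have hK₁c : IsCompact K₁ := ((isCompact_closedBall _ _).prod hK).image hΦ.cont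
  have hmem : ∀ t : ℂ, ‖t‖ ≤ 1 → ∀ x ∈ K, Φ (-t) x ∈ K₁ := fun t ht x hx =>
    ⟨(-t, x), ⟨by rw [mem_closedBall_zero_iff, norm_neg]; exact ht, hx⟩, rfl⟩
  obtain ⟨K₂, hK₂, C, hC0, hC⟩ := IsVF.bound hE.1 hK₁c
  -- the estimate for one function
  have key : ∀ f : O, ∃ B : ℝ, 0 ≤ B ∧ ∀ t : ℂ, t ≠ 0 → ‖t‖ ≤ 1 → ∀ x ∈ K,
      ‖(⁅D, E⁆ f) x - t⁻¹ * ((E f) x - ((Φ t).push E f) x)‖ ≤ B * ‖t‖ := by
    intro f
    obtain ⟨B₁, hB₁0, hB₁⟩ := flow_taylor_two hS.alg hΦ f hK₂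
    obtain ⟨B₂, hB₂0, hB₂⟩ := flow_taylor_two hS.alg hΦ (E f) hK
    obtain ⟨B₃, hB₃0, hB₃⟩ := flow_lip hS.alg hΦ (E (D f)) hK
    refine ⟨C * B₁ + B₂ + B₃, by positivity, fun t ht0 ht x hx => ?_⟩
    have hnt : 0 < ‖t‖ := norm_pos_iff.mpr ht0
    set ρ : O := (Φ t).pull f - f - t • D f with hρ
    have hρb : ∀ y ∈ K₂, ‖ρ y‖ ≤ B₁ * ‖t‖ ^ 2 := fun y hy => hB₁ t ht y hy
    have h1 := hC ρ (B₁ * ‖t‖ ^ 2) (by positivity) hρb (Φ (-t) x) (hmem t ht x hx)
    have h2 := hB₂ (-t) (by rwa [norm_neg]) x hx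
    have h3 := hB₃ (-t) (by rwa [norm_neg]) x hx
    rw [norm_neg] at h2 h3
    have h4 : ((Φ t).push E f) x = (E f) (Φ (-t) x) + t * (E (D f)) (Φ (-t) x) +
        (E ρ) (Φ (-t) x) := by
      rw [HolAut.push_apply', hΦ.symm_apply]
      have : (Φ t).pull f = f + t • D f + ρ := by
        rw [hρ]
        abel
      rw [this, map_add, map_add, Derivation.map_smul]
      rfl
    have h5 : (⁅D, E⁆ f) x - t⁻¹ * ((E f) x - ((Φ t).push E f) x) =
        t⁻¹ * (((E f) (Φ (-t) x) - (E f) x - (-t) * (D (E f)) x) +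
          t * ((E (D f)) (Φ (-t) x) - (E (D f)) x) + (E ρ) (Φ (-t) x)) := by
      rw [h4, Derivation.commutator_apply]
      show (D (E f)) x - (E (D f)) x - _ = _
      field_simp
      ring
    rw [h5, norm_mul, norm_inv]
    have h6 : ‖((E f) (Φ (-t) x) - (E f) x - (-t) * (D (E f)) x) +
          t * ((E (D f)) (Φ (-t) x) - (E (D f)) x) + (E ρ) (Φ (-t) x)‖ ≤
        B₂ * ‖t‖ ^ 2 + ‖t‖ * (B₃ * ‖t‖) + C * (B₁ * ‖t‖ ^ 2) := by
      refine (norm_add_le _ _).trans (add_le_add ((norm_add_le _ _).trans (add_le_add h2 ?_)) h1)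
      rw [norm_mul]
      gcongr
    calc ‖t‖⁻¹ * _ ≤ ‖t‖⁻¹ * (B₂ * ‖t‖ ^ 2 + ‖t‖ * (B₃ * ‖t‖) + C * (B₁ * ‖t‖ ^ 2)) := by
          gcongr
      _ = (C * B₁ + B₂ + B₃) * ‖t‖ := by
          field_simp
          ring
  choose B hB0 hB using key
  obtain ⟨η, hη, hη1, hηS⟩ : ∃ η : ℝ, 0 < η ∧ η ≤ 1 ∧ ∀ f ∈ S, B f * η < ε := by
    set Bs : ℝ := ∑ f ∈ S, B f with hBs
    have hBs0 : 0 ≤ Bs := Finset.sum_nonneg fun f _ => hB0 f
    refine ⟨min 1 (ε / (2 * (Bs + 1))), lt_min one_pos (by positivity), min_le_left _ _,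
      fun f hf => ?_⟩
    have a1 : B f ≤ Bs := Finset.single_le_sum (fun f _ => hB0 f) hf
    have a2 : B f * min 1 (ε / (2 * (Bs + 1))) ≤ (Bs + 1) * (ε / (2 * (Bs + 1))) := by
      gcongr
      · linarith
      · exact min_le_right _ _
    have a3 : (Bs + 1) * (ε / (2 * (Bs + 1))) = ε / 2 := by field_simp
    linarith
  have hη0 : (η : ℂ) ≠ 0 := by exact_mod_cast hη.ne'
  have hηn : ‖(η : ℂ)‖ = η := Complex.norm_of_nonneg hη.le
  refine ⟨(η : ℂ)⁻¹ • (E - (Φ η).push E), ?_, fun f hf x hx => ?_⟩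
  · exact quot_mem_span hE ((Φ η).isComplete_push hE) _
  · have h1 := hB f η hη0 (by rw [hηn]; exact hη1) x hx
    rw [hηn] at h1
    exact lt_of_le_of_lt h1 (hηS f hf)

/-- scalar multiples of complete fields are complete -/
theorem complete_smul {D : Derivation ℂ O O} (hD : IsCompleteVF D) (c : ℂ) :
    IsCompleteVF (c • D) := by
  refine ⟨hD.1.csmul c, fun x => ?_⟩
  obtain ⟨γ, hγ, h0, hd⟩ := hD.2 x
  refine ⟨fun t => γ (c * t), hγ.comp (by fun_prop), by simpa using h0, fun f t => ?_⟩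
  have h1 : HasDerivAt (fun s : ℂ => c * s) c t := by
    simpa using (hasDerivAt_id t).const_mul c
  have h2 := (hd f (c * t)).comp t h1
  have h3 : ((c • D) f) (γ (c * t)) = (D f) (γ (c * t)) * c := mul_comm _ _
  rw [h3]
  exact h2

/-- elements of the span are finite sums -/
theorem span_sum {U : Derivation ℂ O O}
    (hU : U ∈ Submodule.span ℂ {U : Derivation ℂ O O | IsCompleteVF U}) :
    ∃ (r : ℕ) (W : Fin r → Derivation ℂ O O), (∀ i, IsCompleteVF (W i)) ∧ U = ∑ i, W i := by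
  induction hU using Submodule.span_induction with
  | mem U h => exact ⟨1, fun _ => U, fun _ => h, by simp⟩
  | zero => exact ⟨0, fun i => i.elim0, fun i => i.elim0, by simp⟩
  | add U V _ _ h1 h2 =>
    obtain ⟨r, W, hW, rfl⟩ := h1
    obtain ⟨r', W', hW', rfl⟩ := h2
    refine ⟨r + r', Fin.append W W', fun i => ?_, by simp [Fin.sum_univ_add]⟩
    refine Fin.addCases (fun i => ?_) (fun i => ?_) i
    · rw [Fin.append_left]
      exact hW i
    · rw [Fin.append_right]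
      exact hW' i
  | smul c U _ h1 =>
    obtain ⟨r, W, hW, rfl⟩ := h1
    exact ⟨r, fun i => c • W i, fun i => complete_smul (hW i) c, Finset.smul_sum⟩

theorem span_vf {U : Derivation ℂ O O}
    (hU : U ∈ Submodule.span ℂ {U : Derivation ℂ O O | IsCompleteVF U}) : IsVF U := by
  induction hU using Submodule.span_induction with
  | mem U h => exact h.1
  | zero => exact isVF_zero
  | add U V _ _ h1 h2 => exact h1.add h2
  | smul c U _ h1 => exact h1.csmul c

theorem span_lie [ProperSpace X] (hS : SD0 m O G) {U V : Derivation ℂ O O}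
    (hU : U ∈ Submodule.span ℂ {U : Derivation ℂ O O | IsCompleteVF U})
    (hV : V ∈ Submodule.span ℂ {U : Derivation ℂ O O | IsCompleteVF U}) :
    ⁅U, V⁆ ∈ clM (Submodule.span ℂ {U : Derivation ℂ O O | IsCompleteVF U} :
      Set (Derivation ℂ O O)) := by
  induction hU using Submodule.span_induction with
  | mem U h =>
    induction hV using Submodule.span_induction with
    | mem V h' => exact lie_complete hS h h'
    | zero =>
      have e : ⁅U, (0 : Derivation ℂ O O)⁆ = 0 := by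
        apply Derivation.ext
        intro f
        rw [Derivation.commutator_apply]
        simp
      rw [e]; exact clM_zero
    | add V V' _ _ h1 h2 =>
      have e : ⁅U, V + V'⁆ = ⁅U, V⁆ + ⁅U, V'⁆ := lie_add U V V'
      rw [e]; exact clM_add h1 h2
    | smul c V _ h1 =>
      have e : ⁅U, c • V⁆ = c • ⁅U, V⁆ := lie_smul c U V
      rw [e]; exact clM_smul h1 c
  | zero =>
    have e : ⁅(0 : Derivation ℂ O O), V⁆ = 0 := by
      apply Derivation.ext
      intro f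
      rw [Derivation.commutator_apply]
      simp
    rw [e]; exact clM_zero
  | add U U' _ _ h1 h2 =>
    have e : ⁅U + U', V⁆ = ⁅U, V⁆ + ⁅U', V⁆ := add_lie U U' V
    rw [e]; exact clM_add h1 h2
  | smul c U _ h1 =>
    have e : ⁅c • U, V⁆ = c • ⁅U, V⁆ := smul_lie c U V
    rw [e]; exact clM_smul h1 c

theorem dp_span [ProperSpace X] (hS : SD0 m O G) (hDP : DensityProperty O)
    {D : Derivation ℂ O O} (hD : IsVF D)
    (S : Finset O) {K : Set X} (hK : IsCompact K) {ε : ℝ} (hε : 0 < ε) :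
    ∃ (r : ℕ) (W : Fin r → Derivation ℂ O O), (∀ i, IsCompleteVF (W i)) ∧
      ∀ f ∈ S, ∀ x ∈ K, ‖(D f) x - ∑ i, (W i f) x‖ < ε := by
  set M : Submodule ℂ (Derivation ℂ O O) :=
    Submodule.span ℂ {U : Derivation ℂ O O | IsCompleteVF U} with hM
  let L : LieSubalgebra ℂ (Derivation ℂ O O) :=
    { carrier := clM (M : Set (Derivation ℂ O O))
      add_mem' := fun h1 h2 => clM_add h1 h2
      zero_mem' := clM_zero
      smul_mem' := fun c _ h => clM_smul h c
      lie_mem' := fun h1 h2 => clM_lie (fun _ h => span_vf h)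
        (fun _ h _ h' => span_lie hS h h') h1 h2 }
  have hL : completeLie O ≤ L := LieSubalgebra.lieSpan_le.mpr fun U hU =>
    ⟨hU.1, fun _ _ _ ε hε => ⟨U, Submodule.subset_span hU, fun f _ x _ => by simpa using hε⟩⟩
  have h1 : D ∈ clM (M : Set (Derivation ℂ O O)) := by
    refine clM_idem hD fun S K hK ε hε => ?_
    obtain ⟨U, hU, h⟩ := hDP D hD S K hK ε hε
    exact ⟨U, hL hU, h⟩
  obtain ⟨U, hU, h2⟩ := h1.2 S K hK ε hε
  obtain ⟨r, W, hW, rfl⟩ := span_sum hU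
  refine ⟨r, W, hW, fun f hf x hx => ?_⟩
  have h3 := h2 f hf x hx
  have h4 : ((∑ i, W i) f) x = ∑ i, (W i f) x := by
    have : ∀ s : Finset (Fin r), ((∑ i ∈ s, W i) f) x = ∑ i ∈ s, (W i f) x := by
      classical
      intro s
      induction s using Finset.induction with
      | empty => rfl
      | insert i s hi ih =>
        rw [Finset.sum_insert hi, Finset.sum_insert hi, ← ih]
        rfl
    exact this _
  rwa [h4] at h3

end Pool.Agent.MP_fe3720.RR
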