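import Pool.Agent.Work.MP_fe3720_an.R.LC

/-! # OC: O-convex compact sets -/

namespace Pool.Agent.MP_fe3720.RR

open Topology

variable {X : Type} [MetricSpace X] {O : Subalgebra ℂ (X → ℂ)} {m N : ℕ}
  {G : Fin N → O}

theorem isClosed_KK (hS : SD0 m O G) (r : ℝ) : IsClosed (KK G r) := by
  have : KK G r = ⋂ i, {x | ‖(G i) x‖ ≤ r} := by
    ext x
    simp [KK]
  rw [this]
  exact isClosed_iInter fun i => isClosed_le (cont hS (G i)).norm continuous_const

theorem isCompact_KK [ProperSpace X] (hS : SD0 m O G) (r : ℝ) : IsCompact (KK G r) := by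
  rcases (KK G r).eq_empty_or_nonempty with h | ⟨x₀, hx₀⟩
  · rw [h]
    exact isCompact_empty
  refine Metric.isCompact_of_isClosed_isBounded (isClosed_KK hS r) ?_
  refine (Metric.isBounded_closedBall (x := x₀) (r := 2 * |r|)).subset fun y hy => ?_
  rw [Metric.mem_closedBall]
  refine dist_le_of hS (by positivity) fun i => ?_
  have h1 := hy i
  have h2 := hx₀ i
  have h3 := norm_sub_le ((G i) y) ((G i) x₀)
  have h4 := le_abs_self r
  linarith

theorem KK_mono {r s : ℝ} (h : r ≤ s) : KK G r ⊆ KK G s := fun _ hx i => (hx i).trans h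

theorem exists_KK (hS : SD0 m O G) {K : Set X} (hK : IsCompact K) :
    ∃ r₀ : ℝ, 0 < r₀ ∧ ∀ r, r₀ ≤ r → K ⊆ interior (KK G r) := by
  have h : ∀ i, ∃ B : ℝ, ∀ x ∈ K, ‖(G i) x‖ ≤ B := fun i =>
    hK.exists_bound_of_continuousOn (cont hS (G i)).continuousOn
  choose B hB using h
  have hsum : ∀ i, B i ≤ ∑ j, |B j| := fun i =>
    (le_abs_self _).trans (Finset.single_le_sum (fun j _ => abs_nonneg (B j)) (Finset.mem_univ i))
  refine ⟨∑ j, |B j| + 1, by positivity, fun r hr x hx => ?_⟩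
  rw [mem_interior]
  refine ⟨⋂ i, {x | ‖(G i) x‖ < r}, ?_, ?_, ?_⟩
  · intro y hy i
    have := Set.mem_iInter.mp hy i
    exact le_of_lt this
  · exact isOpen_iInter_of_finite fun i => isOpen_lt (cont hS (G i)).norm continuous_const
  · refine Set.mem_iInter.mpr fun i => ?_
    have h1 := hB i x hx
    have h2 := hsum i
    show ‖(G i) x‖ < r
    linarith

/-- points within distance `δ` -/
theorem KK_dist (hS : SD0 m O G) {r δ : ℝ} {x y : X} (hx : x ∈ KK G r) (h : dist y x ≤ δ) :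
    y ∈ KK G (r + δ) := by
  intro i
  have h1 := hx i
  have h2 := norm_G_le hS y x i
  have h3 : (G i) y = (G i) x + ((G i) y - (G i) x) := by ring
  rw [h3]
  have := norm_add_le ((G i) x) ((G i) y - (G i) x)
  linarith

theorem sep (hS : SD0 m O G) {x y : X} (h : x ≠ y) : ∃ l : O, l x = 1 ∧ l y = 0 := by
  obtain ⟨i, hi⟩ : ∃ i, (G i) x ≠ (G i) y := by
    by_contra hcon
    push Not at hcon
    exact h (eq_of_G hS hcon)
  refine ⟨((G i) x - (G i) y)⁻¹ • (G i - algebraMap ℂ O ((G i) y)), ?_, ?_⟩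
  · show ((G i) x - (G i) y)⁻¹ * ((G i) x - (G i) y) = 1
    exact inv_mul_cancel₀ (sub_ne_zero.mpr hi)
  · show ((G i) x - (G i) y)⁻¹ * ((G i) y - (G i) y) = 0
    rw [sub_self, mul_zero]

theorem oconv_empty : OConv O (∅ : Set X) :=
  ⟨isCompact_empty, fun _ _ => ⟨1, fun _ hy => absurd hy (Set.notMem_empty _), rfl⟩⟩

theorem oconv_KK [ProperSpace X] (hS : SD0 m O G) (r : ℝ) : OConv O (KK G r) := by
  refine ⟨isCompact_KK hS r, fun x hx => ?_⟩
  obtain ⟨i, hi⟩ : ∃ i, r < ‖(G i) x‖ := by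
    by_contra hcon
    push Not at hcon
    exact hx hcon
  rcases lt_or_ge r 0 with hr | hr
  · refine ⟨1, fun y hy => ?_, rfl⟩
    have := hy i
    have := norm_nonneg ((G i) y)
    linarith
  · have hpos : 0 < ‖(G i) x‖ := lt_of_le_of_lt hr hi
    refine ⟨((G i) x)⁻¹ • G i, fun y hy => ?_, ?_⟩
    · show ‖((G i) x)⁻¹ * (G i) y‖ < 1
      rw [norm_mul, norm_inv, inv_mul_lt_iff₀ hpos, mul_one]
      exact lt_of_le_of_lt (hy i) hi
    · show ((G i) x)⁻¹ * (G i) x = 1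
      exact inv_mul_cancel₀ (norm_pos_iff.mp hpos)

/-- a function `< 1` on a compact set is bounded by some `ρ < 1` -/
theorem bound_lt_one (hO : IsClosedAlg O) {C : Set X} (hC : IsCompact C) {h : O}
    (hh : ∀ y ∈ C, ‖h y‖ < 1) : ∃ ρ : ℝ, 0 ≤ ρ ∧ ρ < 1 ∧ ∀ y ∈ C, ‖h y‖ ≤ ρ := by
  rcases C.eq_empty_or_nonempty with he | hne
  · exact ⟨0, le_rfl, one_pos, fun y hy => by rw [he] at hy; exact absurd hy (Set.notMem_empty _)⟩
  · obtain ⟨y₀, hy₀, hmax⟩ := hC.exists_isMaxOn hne (hO.cont _ h.2).norm.continuousOn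
    exact ⟨‖h y₀‖, norm_nonneg _, hh y₀ hy₀, fun y hy => hmax hy⟩

theorem oconv_insert (hS : SD0 m O G) {C : Set X} (hC : OConv O C) (p : X) :
    OConv O (insert p C) := by
  refine ⟨hC.1.insert p, fun x hx => ?_⟩
  rw [Set.mem_insert_iff, not_or] at hx
  obtain ⟨h, h1, h2⟩ := hC.2 x hx.2
  obtain ⟨l, hl1, hl2⟩ := sep hS hx.1
  obtain ⟨ρ, hρ0, hρ1, hρ⟩ := bound_lt_one hS.alg hC.1 h1
  obtain ⟨B, hB⟩ := hC.1.exists_bound_of_continuousOn (cont hS l).continuousOn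
  obtain ⟨n, hn⟩ := exists_pow_lt_of_lt_one (show (0 : ℝ) < 1 / (|B| + 1) by positivity) hρ1
  refine ⟨h ^ n * l, fun y hy => ?_, ?_⟩
  · show ‖h y ^ n * l y‖ < 1
    rcases hy with rfl | hy
    · rw [hl2, mul_zero, norm_zero]
      exact one_pos
    · rw [norm_mul, norm_pow]
      have a1 : ‖h y‖ ^ n ≤ ρ ^ n := by
        gcongr
        exact hρ y hy
      have a2 : ‖l y‖ ≤ |B| := (hB y hy).trans (le_abs_self B)
      have a3 : ‖h y‖ ^ n * ‖l y‖ ≤ ρ ^ n * |B| := by gcongr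
      have a4 : ρ ^ n * |B| ≤ ρ ^ n * (|B| + 1) := by
        have := pow_nonneg hρ0 n
        nlinarith
      have a5 : ρ ^ n * (|B| + 1) < 1 := by
        rw [lt_div_iff₀ (by positivity)] at hn
        exact hn
      linarith
  · show h x ^ n * l x = 1
    rw [h2, hl1, one_pow, mul_one]

theorem oconv_union (hS : SD0 m O G) {C F : Set X} (hC : OConv O C) (hF : F.Finite) :
    OConv O (C ∪ F) := by
  induction F, hF using Set.Finite.induction_on with
  | empty => rwa [Set.union_empty]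
  | @insert a s _ _ ih =>
    rw [Set.union_insert]
    exact oconv_insert hS ih a

theorem oconv_nhds [ProperSpace X] (hS : SD0 m O G) {C U : Set X} (hC : OConv O C)
    (hU : IsOpen U) (hCU : C ⊆ U) : ∃ C₁, OConv O C₁ ∧ C ⊆ interior C₁ ∧ C₁ ⊆ U := by
  obtain ⟨r, hr0, hr⟩ := exists_KK hS hC.1
  have hCr := hr r le_rfl
  have hKc : IsCompact (KK G r \ U) := (isCompact_KK hS r).diff hU
  -- the functions
  have hfun : ∀ x ∈ KK G r \ U, ∃ h : O, (∀ y ∈ C, ‖h y‖ < 1) ∧ 1 < ‖h x‖ := by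
    intro x hx
    obtain ⟨h, h1, h2⟩ := hC.2 x fun hxC => hx.2 (hCU hxC)
    obtain ⟨ρ, hρ0, hρ1, hρ⟩ := bound_lt_one hS.alg hC.1 h1
    have hs : 0 < (1 + ρ) / 2 := by positivity
    have hs1 : (1 + ρ) / 2 < 1 := by linarith
    refine ⟨((((1 + ρ) / 2 : ℝ) : ℂ)⁻¹) • h, fun y hy => ?_, ?_⟩
    · show ‖((((1 + ρ) / 2 : ℝ) : ℂ)⁻¹) * h y‖ < 1
      rw [norm_mul, norm_inv, Complex.norm_of_nonneg hs.le, inv_mul_lt_iff₀ hs, mul_one]
      have := hρ y hy
      linarith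
    · show 1 < ‖((((1 + ρ) / 2 : ℝ) : ℂ)⁻¹) * h x‖
      rw [norm_mul, norm_inv, Complex.norm_of_nonneg hs.le, h2, norm_one, mul_one]
      exact (one_lt_inv₀ hs).mpr hs1
  choose! h h1 h2 using hfun
  obtain ⟨t, htK, ht⟩ := hKc.elim_nhds_subcover (fun x => {z | 1 < ‖(h x) z‖}) (fun x hx =>
    (isOpen_lt continuous_const (cont hS (h x)).norm).mem_nhds (h2 x hx))
  refine ⟨KK G r ∩ ⋂ x ∈ t, {z | ‖(h x) z‖ ≤ 1}, ⟨?_, ?_⟩, ?_, ?_⟩
  · refine (isCompact_KK hS r).inter_right ?_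
    exact isClosed_biInter fun x _ => isClosed_le (cont hS (h x)).norm continuous_const
  · intro x hx
    by_cases hxr : x ∈ KK G r
    · have h3 : ∃ y ∈ t, 1 < ‖(h y) x‖ := by
        by_contra hcon
        push Not at hcon
        exact hx ⟨hxr, Set.mem_iInter₂.mpr hcon⟩
      obtain ⟨y, hyt, hy⟩ := h3
      have hpos : 0 < ‖(h y) x‖ := lt_trans one_pos hy
      refine ⟨((h y) x)⁻¹ • h y, fun z hz => ?_, ?_⟩
      · show ‖((h y) x)⁻¹ * (h y) z‖ < 1
        rw [norm_mul, norm_inv, inv_mul_lt_iff₀ hpos, mul_one]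
        exact lt_of_le_of_lt (Set.mem_iInter₂.mp hz.2 y hyt) hy
      · show ((h y) x)⁻¹ * (h y) x = 1
        exact inv_mul_cancel₀ (norm_pos_iff.mp hpos)
    · obtain ⟨k, hk1, hk2⟩ := (oconv_KK hS r).2 x hxr
      exact ⟨k, fun y hy => hk1 y hy.1, hk2⟩
  · intro x hx
    rw [mem_interior_iff_mem_nhds]
    refine Filter.inter_mem (mem_interior_iff_mem_nhds.mp (hCr hx)) ?_
    rw [Filter.biInter_finset_mem]
    intro y hy
    have : {z | ‖(h y) z‖ < 1} ∈ 𝓝 x :=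
      (isOpen_lt (cont hS (h y)).norm continuous_const).mem_nhds (h1 y (htK y hy) x hx)
    filter_upwards [this] with z hz
    exact le_of_lt hz
  · intro x hx
    by_contra hxU
    have h3 := ht ⟨hx.1, hxU⟩
    rw [Set.mem_iUnion₂] at h3
    obtain ⟨y, hyt, hy⟩ := h3
    have h4 : ‖(h y) x‖ ≤ 1 := Set.mem_iInter₂.mp hx.2 y hyt
    have h5 : 1 < ‖(h y) x‖ := hy
    linarith

end Pool.Agent.MP_fe3720.RR
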