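import Pool.Agent.Work.MP_fe3720_an.R.Span
import Pool.Agent.Work.MP_fe3720_an.R.OC

/-! # LT: approximate transitivity

`AT O`: for every holomorphically convex compact set `C` and every `p ∉ C` some elements of the Lie
algebra generated by the complete fields are small on `C` and close to a given field at `p`.
`LT O`: the same for sums of complete fields. -/

namespace Pool.Agent.MP_fe3720.RR

open Topology

variable {X : Type} [MetricSpace X] {O : Subalgebra ℂ (X → ℂ)} {m N : ℕ}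
  {G : Fin N → O}

/-- approximate transitivity, for the Lie algebra generated by the complete fields -/
def AT {X : Type} [MetricSpace X] (O : Subalgebra ℂ (X → ℂ)) : Prop :=
  ∀ C : Set X, OConv O C → ∀ p ∉ C, ∀ D : Derivation ℂ O O, IsVF D → ∀ (S : Finset O),
    ∀ ε > 0, ∃ U ∈ completeLie O, ∀ f ∈ S, ‖(D f) p - (U f) p‖ < ε ∧ ∀ x ∈ C, ‖(U f) x‖ < ε

/-- approximate transitivity, for sums of complete fields -/
def LT {X : Type} [MetricSpace X] (O : Subalgebra ℂ (X → ℂ)) : Prop :=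
  ∀ C : Set X, OConv O C → ∀ p ∉ C, ∀ D : Derivation ℂ O O, IsVF D → ∀ (S : Finset O),
    ∀ ε > 0, ∃ (r : ℕ) (W : Fin r → Derivation ℂ O O), (∀ i, IsCompleteVF (W i)) ∧
      ∀ f ∈ S, ‖(D f) p - ∑ i, (W i f) p‖ < ε ∧ ∀ x ∈ C, ‖∑ i, (W i f) x‖ < ε

/-- the Lie algebra generated by the complete fields is in the closure of the sums of complete
fields -/
theorem lie_span [ProperSpace X] (hS : SD0 m O G) {U : Derivation ℂ O O} (hU : U ∈ completeLie O)
    (S : Finset O) {K : Set X} (hK : IsCompact K) {ε : ℝ} (hε : 0 < ε) :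
    ∃ (r : ℕ) (W : Fin r → Derivation ℂ O O), (∀ i, IsCompleteVF (W i)) ∧
      ∀ f ∈ S, ∀ x ∈ K, ‖(U f) x - ∑ i, (W i f) x‖ < ε := by
  set M : Submodule ℂ (Derivation ℂ O O) :=
    Submodule.span ℂ {U : Derivation ℂ O O | IsCompleteVF U} with hM
  let L : LieSubalgebra ℂ (Derivation ℂ O O) :=
    { carrier := clM (M : Set (Derivation ℂ O O))
      add_mem' := fun h1 h2 => clM_add h1 h2
      zero_mem' := clM_zero
      smul_mem' := fun c _ h => clM_smul h c
      lie_mem' := fun h1 h2 => clM_lie (fun _ h => span_vf h)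
        (fun _ h _ h' => span_lie hS h h') h1 h2 }
  have hL : completeLie O ≤ L := LieSubalgebra.lieSpan_le.mpr fun U hU =>
    ⟨hU.1, fun _ _ _ ε hε => ⟨U, Submodule.subset_span hU, fun f _ x _ => by simpa using hε⟩⟩
  obtain ⟨V, hV, h2⟩ := (hL hU : U ∈ clM (M : Set (Derivation ℂ O O))).2 S K hK ε hε
  obtain ⟨r, W, hW, rfl⟩ := span_sum hV
  refine ⟨r, W, hW, fun f hf x hx => ?_⟩
  have h3 := h2 f hf x hx
  have h4 : ((∑ i, W i) f) x = ∑ i, (W i f) x := by
    have : ∀ s : Finset (Fin r), ((∑ i ∈ s, W i) f) x = ∑ i ∈ s, (W i f) x := by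
      classical
      intro s
      induction s using Finset.induction with
      | empty => rfl
      | insert i s hi ih =>
        rw [Finset.sum_insert hi, Finset.sum_insert hi, ← ih]
        rfl
    exact this _
  rwa [h4] at h3

theorem lt_of_at [ProperSpace X] (hS : SD0 m O G) (h : AT O) : LT O := by
  intro C hC p hp D hD S ε hε
  obtain ⟨U, hU, h1⟩ := h C hC p hp D hD S (ε / 2) (by positivity)
  obtain ⟨r, W, hW, h2⟩ := lie_span hS hU S (hC.1.insert p) (ε := ε / 2) (by positivity)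
  refine ⟨r, W, hW, fun f hf => ⟨?_, fun x hx => ?_⟩⟩
  · have a1 := (h1 f hf).1
    have a2 := h2 f hf p (Set.mem_insert _ _)
    have a3 : (D f) p - ∑ i, (W i f) p = ((D f) p - (U f) p) + ((U f) p - ∑ i, (W i f) p) := by
      ring
    rw [a3]
    have := norm_add_le ((D f) p - (U f) p) ((U f) p - ∑ i, (W i f) p)
    linarith
  · have a1 := (h1 f hf).2 x hx
    have a2 := h2 f hf x (Set.mem_insert_of_mem _ hx)
    have a3 : ∑ i, (W i f) x = (U f) x - ((U f) x - ∑ i, (W i f) x) := by ring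
    rw [a3]
    have := norm_sub_le ((U f) x) ((U f) x - ∑ i, (W i f) x)
    linarith

theorem at_of_dp [ProperSpace X] (hS : SD0 m O G) (h : DensityProperty O) : AT O := by
  intro C hC p hp D hD S ε hε
  obtain ⟨g, hg1, hg2⟩ := hC.2 p hp
  obtain ⟨ρ, hρ0, hρ1, hρ⟩ := bound_lt_one hS.alg hC.1 hg1
  have hB : ∀ f : O, ∃ B, ∀ x ∈ C, ‖(D f) x‖ ≤ B := fun f =>
    hC.1.exists_bound_of_continuousOn (cont hS (D f)).continuousOn
  choose B hB using hB
  set B0 : ℝ := ∑ f ∈ S, |B f| with hB0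
  have hB00 : 0 ≤ B0 := Finset.sum_nonneg fun f _ => abs_nonneg _
  have hBle : ∀ f ∈ S, B f ≤ B0 := fun f hf =>
    (le_abs_self _).trans (Finset.single_le_sum (f := fun f => |B f|) (fun _ _ => abs_nonneg _) hf)
  obtain ⟨n, hn⟩ := exists_pow_lt_of_lt_one (show 0 < ε / 2 / (B0 + 1) by positivity) hρ1
  have hn2 : ρ ^ n * B0 < ε / 2 := by
    have h1 : ρ ^ n * (B0 + 1) < ε / 2 := by
      rwa [lt_div_iff₀ (by positivity)] at hn
    have := pow_nonneg hρ0 n
    nlinarith
  have hvf : IsVF ((g ^ n) • D) := hD.fsmul hS.alg.cont (g ^ n)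
  have ha : ∀ (f : O) (x : X), (((g ^ n) • D) f) x = (g x) ^ n * (D f) x := fun f x => rfl
  obtain ⟨U, hU, h1⟩ := h _ hvf S _ (hC.1.insert p) (ε / 2) (by positivity)
  refine ⟨U, hU, fun f hf => ⟨?_, fun x hx => ?_⟩⟩
  · have a1 := h1 f hf p (Set.mem_insert _ _)
    rw [ha, hg2, one_pow, one_mul] at a1
    linarith
  · have a1 := h1 f hf x (Set.mem_insert_of_mem _ hx)
    have a2 : ‖(((g ^ n) • D) f) x‖ ≤ ρ ^ n * B0 := by
      rw [ha, norm_mul, norm_pow]
      exact mul_le_mul (pow_le_pow_left₀ (norm_nonneg _) (hρ x hx) n)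
        ((hB f x hx).trans (hBle f hf)) (norm_nonneg _) (pow_nonneg hρ0 n)
    have a3 : (U f) x = (((g ^ n) • D) f) x - ((((g ^ n) • D) f) x - (U f) x) := by ring
    rw [a3]
    have := norm_sub_le ((((g ^ n) • D) f) x) ((((g ^ n) • D) f) x - (U f) x)
    linarith

end Pool.Agent.MP_fe3720.RR
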