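import Pool.Agent.Work.MP_fe3720_an.R.Word
import Pool.Agent.Work.MP_fe3720_an.R.Span
import Pool.Agent.Work.MP_fe3720_an.R.LT
import Pool.Agent.Work.MP_fe3720_an.R.Val

/-! # WSum: words of complete fields approximating a finite family of fields (used in Corr, LocalMove) -/

namespace Pool.Agent.MP_fe3720.RR

open Topology Filter

variable {X : Type} [MetricSpace X] [ProperSpace X] {O : Subalgebra ℂ (X → ℂ)} {m N : ℕ}
  {G : Fin N → O} {r : ℕ} {W : Fin r → Derivation ℂ O O} {Φ : Fin r → ℂ → HolAut O}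

theorem wsum_exists (hS : SD0 m O G) (hLT : LT O) {ι : Type} [Fintype ι]
    [DecidableEq ι] (V : ι → Derivation ℂ O O) (hV : ∀ j, IsVF (V j)) (C : ι → Set X)
    (hC : ∀ j, OConv O (C j)) (p : ι → X) (hp : ∀ j, p j ∉ C j) (S : Finset O) {ε : ℝ}
    (hε : 0 < ε) :
    ∃ (r : ℕ) (W : Fin r → Derivation ℂ O O) (Φ : Fin r → ℂ → HolAut O) (c : Fin r → ι),
      (∀ i, IsFlow (W i) (Φ i)) ∧ ∀ j, ∀ f ∈ S,
        ‖(V j f) (p j) - ∑ i, (if c i = j then (W i f) (p j) else 0)‖ < ε ∧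
        ∀ x ∈ C j, ‖∑ i, (if c i = j then (W i f) x else 0)‖ < ε := by
  have h : ∀ j, ∃ (r : ℕ) (W : Fin r → Derivation ℂ O O), (∀ i, IsCompleteVF (W i)) ∧
      ∀ f ∈ S, ‖(V j f) (p j) - ∑ i, (W i f) (p j)‖ < ε ∧ ∀ x ∈ C j, ‖∑ i, (W i f) x‖ < ε :=
    fun j => hLT (C j) (hC j) (p j) (hp j) (V j) (hV j) S ε hε
  choose rr WW hW1 hW2 using h
  have hfl : ∀ j i, ∃ Φ : ℂ → HolAut O, IsFlow (WW j i) Φ := fun j i => exists_flow hS (hW1 j i)
  choose FF hFF using hfl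
  set e := (Fintype.equivFin (Σ j, Fin (rr j))).symm with he
  have h1 : ∀ (j : ι) (f : O) (x : X),
      ∑ i, (if (e i).1 = j then (WW (e i).1 (e i).2 f) x else 0) = ∑ i, (WW j i f) x := by
    intro j f x
    rw [Equiv.sum_comp e (fun s : Σ j, Fin (rr j) => if s.1 = j then (WW s.1 s.2 f) x else 0),
      Fintype.sum_sigma, Finset.sum_eq_single j]
    · exact Finset.sum_congr rfl fun i _ => if_pos rfl
    · intro b _ hb
      exact Finset.sum_eq_zero fun i _ => if_neg hb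
    · intro hj
      exact absurd (Finset.mem_univ j) hj
  refine ⟨Fintype.card (Σ j, Fin (rr j)), fun i => WW (e i).1 (e i).2,
    fun i => FF (e i).1 (e i).2, fun i => (e i).1, fun i => hFF _ _, fun j f hf => ⟨?_, ?_⟩⟩
  · rw [h1]
    exact (hW2 j f hf).1
  · intro x hx
    rw [h1]
    exact (hW2 j f hf).2 x hx

/-- the linear map which repeats the coordinates -/
noncomputable def wsumM {ι : Type} [Fintype ι] (c : Fin r → ι) : (ι → ℂ) →L[ℂ] (Fin r → ℂ) :=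
  ContinuousLinearMap.pi fun i => ContinuousLinearMap.proj (c i)

theorem wsumM_apply {ι : Type} [Fintype ι] (c : Fin r → ι) (σ : ι → ℂ) (i : Fin r) :
    wsumM c σ i = σ (c i) := rfl

theorem wsumM_norm {ι : Type} [Fintype ι] (c : Fin r → ι) (σ : ι → ℂ) : ‖wsumM c σ‖ ≤ ‖σ‖ := by
  rw [pi_norm_le_iff_of_nonneg (norm_nonneg _)]
  intro i
  rw [wsumM_apply]
  exact norm_le_pi_norm σ (c i)

theorem wsum_swap {ι : Type} [Fintype ι] [DecidableEq ι] (c : Fin r → ι) (a : Fin r → ℂ)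
    (σ : ι → ℂ) : ∑ i, σ (c i) * a i = ∑ j, σ j * ∑ i, (if c i = j then a i else 0) := by
  simp_rw [Finset.mul_sum]
  rw [Finset.sum_comm]
  refine Finset.sum_congr rfl fun i _ => ?_
  rw [Finset.sum_eq_single (c i)]
  · rw [if_pos rfl]
  · intro j _ hj
    rw [if_neg (Ne.symm hj), mul_zero]
  · intro hj
    exact absurd (Finset.mem_univ _) hj

theorem wsum_inv {ι : Type} [Fintype ι] (A : (ι → ℂ) →L[ℂ] (ι → ℂ))
    (hA : ∀ σ, ‖A σ - σ‖ ≤ ‖σ‖ / 2) : ∃ R : A.NonlinearRightInverse, R.nnnorm = 2 := by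
  have hlow : ∀ σ, ‖σ‖ ≤ 2 * ‖A σ‖ := by
    intro σ
    have h1 := hA σ
    have h2 : ‖σ‖ ≤ ‖A σ‖ + ‖A σ - σ‖ := by
      have h3 := norm_sub_le (A σ) (A σ - σ)
      rwa [sub_sub_cancel] at h3
    linarith
  have hinj : Function.Injective (A : (ι → ℂ) →ₗ[ℂ] (ι → ℂ)) := by
    rw [injective_iff_map_eq_zero]
    intro σ hσ
    have h1 := hlow σ
    have h2 : A σ = 0 := hσ
    rw [h2, norm_zero, mul_zero] at h1
    exact norm_le_zero_iff.1 h1
  have hsurj := LinearMap.injective_iff_surjective.1 hinj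
  choose g hg using hsurj
  refine ⟨⟨g, 2, fun y => ?_, hg⟩, rfl⟩
  have h1 := hlow (g y)
  have h2 : A (g y) = y := hg y
  rw [h2] at h1
  exact h1

theorem wsum_mat {ι : Type} [Fintype ι] [DecidableEq ι] (D : ι → ι → ℂ) {η : ℝ}
    (h : ∀ j l, ‖D j l - (if j = l then 1 else 0)‖ ≤ η) (hη : Fintype.card ι * η ≤ 1 / 2)
    (σ : ι → ℂ) : ‖(fun l => ∑ j, σ j * D j l) - σ‖ ≤ ‖σ‖ / 2 := by
  rw [pi_norm_le_iff_of_nonneg (by positivity)]
  intro l
  have e : ((fun l => ∑ j, σ j * D j l) - σ) l =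
      ∑ j, σ j * (D j l - (if j = l then 1 else 0)) := by
    rw [Pi.sub_apply]
    simp_rw [mul_sub]
    rw [Finset.sum_sub_distrib]
    congr 1
    rw [Finset.sum_eq_single l]
    · rw [if_pos rfl, mul_one]
    · intro j _ hj
      rw [if_neg hj, mul_zero]
    · intro hj
      exact absurd (Finset.mem_univ _) hj
  rw [e]
  refine (norm_sum_le _ _).trans ?_
  have h1 : ∀ j ∈ Finset.univ, ‖σ j * (D j l - (if j = l then 1 else 0))‖ ≤ ‖σ‖ * η := by
    intro j _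
    rw [norm_mul]
    exact mul_le_mul (norm_le_pi_norm σ j) (h j l) (norm_nonneg _) (norm_nonneg _)
  refine (Finset.sum_le_sum h1).trans ?_
  rw [Finset.sum_const, Finset.card_univ, nsmul_eq_mul]
  have h2 := mul_le_mul_of_nonneg_left hη (norm_nonneg σ)
  linarith

/-- the derivative of the word with respect to the parameters -/
noncomputable def wsumA {ι : Type} [Fintype ι] (c : Fin r → ι) (W : Fin r → Derivation ℂ O O)
    (f : ι → O) (x : ι → X) : (ι → ℂ) →L[ℂ] (ι → ℂ) :=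
  ContinuousLinearMap.pi fun l =>
    (∑ i, ((W i (f l)) (x l)) • (ContinuousLinearMap.proj i : (Fin r → ℂ) →L[ℂ] ℂ)).comp (wsumM c)

theorem wsumA_apply {ι : Type} [Fintype ι] [DecidableEq ι] (c : Fin r → ι)
    (W : Fin r → Derivation ℂ O O) (f : ι → O) (x : ι → X) (σ : ι → ℂ) :
    wsumA c W f x σ = fun l => ∑ j, σ j * ∑ i, (if c i = j then (W i (f l)) (x l) else 0) := by
  funext l
  rw [← wsum_swap]
  have h1 : wsumA c W f x σ l =
      (∑ i, ((W i (f l)) (x l)) • (ContinuousLinearMap.proj i : (Fin r → ℂ) →L[ℂ] ℂ))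
        (wsumM c σ) := rfl
  rw [h1, ContinuousLinearMap.sum_apply]
  refine Finset.sum_congr rfl fun i _ => ?_
  rw [ContinuousLinearMap.smul_apply, smul_eq_mul, mul_comm]
  rfl

theorem wsum_deriv (hO : IsClosedAlg O) (h : ∀ i, IsFlow (W i) (Φ i)) {ι : Type} [Fintype ι]
    (c : Fin r → ι) (f : ι → O) (x : ι → X) :
    HasFDerivAt (fun σ : ι → ℂ => fun l => f l (Psi Φ (wsumM c σ) (x l))) (wsumA c W f x) 0 := by
  rw [hasFDerivAt_pi']
  intro l
  have h1 := Psi_deriv hO h (f l) (x l)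
  have h2 : HasFDerivAt (fun σ : ι → ℂ => wsumM c σ) (wsumM c) 0 := (wsumM c).hasFDerivAt
  have h3 : wsumM c (0 : ι → ℂ) = 0 := map_zero _
  rw [← h3] at h1
  exact h1.comp 0 h2

theorem Psi_zero_symm (h : ∀ i, IsFlow (W i) (Φ i)) (x : X) : (Psi Φ 0).symm x = x := by
  have h1 := HolAut.symm_apply_self (Psi Φ 0) x
  rwa [Psi_zero h] at h1

theorem wsum_near (h : ∀ i, IsFlow (W i) (Φ i)) {K : Set X} (hK : IsCompact K) {ε : ℝ}
    (hε : 0 < ε) : ∀ᶠ t in 𝓝 (0 : Fin r → ℂ), Near K ε (Psi Φ t) := by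
  refine hK.eventually_forall_of_forall_eventually fun x _ => ?_
  have c1 : Continuous (fun z : (Fin r → ℂ) × X => dist (Psi Φ z.1 z.2) z.2) :=
    (Psi_cont h).dist continuous_snd
  have c2 : Continuous (fun z : (Fin r → ℂ) × X => dist ((Psi Φ z.1).symm z.2) z.2) :=
    (Psi_symm_cont h).dist continuous_snd
  have e1 : dist (Psi Φ ((0 : Fin r → ℂ), x).1 ((0 : Fin r → ℂ), x).2) ((0 : Fin r → ℂ), x).2 < ε := by
    show dist (Psi Φ 0 x) x < ε
    rw [Psi_zero h, dist_self]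
    exact hε
  have e2 : dist ((Psi Φ ((0 : Fin r → ℂ), x).1).symm ((0 : Fin r → ℂ), x).2)
      ((0 : Fin r → ℂ), x).2 < ε := by
    show dist ((Psi Φ 0).symm x) x < ε
    rw [Psi_zero_symm h, dist_self]
    exact hε
  filter_upwards [c1.continuousAt.eventually_lt continuousAt_const e1,
    c2.continuousAt.eventually_lt continuousAt_const e2] with z h1 h2
  exact ⟨h1.le, h2.le⟩

theorem near_symm {K : Set X} {ε : ℝ} {ψ : HolAut O} (h : Near K ε ψ) : Near K ε ψ.symm :=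
  fun x hx => ⟨(h x hx).2, (h x hx).1⟩

theorem IsChart.eq_of {q : Fin m → O} {κ : (Fin m → ℂ) → X} {V : Set (Fin m → ℂ)}
    (hc : IsChart O q κ V) {a b : X} (ha : a ∈ κ '' V) (hb : b ∈ κ '' V)
    (h : ∀ j, (q j) a = (q j) b) : a = b := by
  obtain ⟨y, hy, rfl⟩ := ha
  obtain ⟨y', hy', rfl⟩ := hb
  have e : y = y' := by
    funext j
    have h1 := h j
    rwa [hc.inv y hy, hc.inv y' hy'] at h1
  rw [e]

end Pool.Agent.MP_fe3720.RR
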