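import Pool.Agent.Work.MP_fe3720_an.R.Word
import Pool.Agent.Work.MP_fe3720_an.R.Span
import Pool.Agent.Work.MP_fe3720_an.R.Val
import Pool.Agent.Work.MP_fe3720_an.R.WSum

/-! # Corr: local interpolation

Charts `(q i, κ i, V i)` at the points `x i`, fields `E i j` with `E i j (q i l) (x i) = δ_{jl}` (`exists_fields`), bumps
`b i` (`exists_bump`): the fields `V_{ij} = b i • E i j` satisfy `V_{ij} (q a l) (x a) = δ_{ia} δ_{jl}`. Approximate them by sums of complete fields
(`dp_span`, functions `q a l`, compact set the range of `x`), error `≤ 1/(2 k m + 2)`. Concatenate all complete fields (index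
type a sigma type, transport to `Fin r` by an equivalence): flows `Φ`, word `Psi Φ`, and the linear map
`M : (Fin k × Fin m → ℂ) → (Fin r → ℂ)`. The map `E(σ) = (a, l) ↦ q a l (Psi Φ (M σ) (x a))` is `C¹` with derivative at `0` the matrix
`((a,l),(i,j)) ↦ ∑ W (q a l) (x a)`, close to the identity, so invertible. Inverse function theorem (open mapping:
`HasStrictFDerivAt.map_nhds_eq_of_equiv` / surj): for `z` close to `x` there is a small `σ` with `E(σ) = (q a l (z a))`; as
`Psi Φ (M σ) (x a)` and `z a` are both in `κ a '' V a` (open), they are equal. Take `ψ = (Psi Φ (M σ)).symm`. `Near K ε ψ` for `σ` small: continuity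
of `(t,x) ↦ Psi Φ t x`, `(Psi Φ t).symm x` and compactness of `K` (at `t = 0` the identity). -/

namespace Pool.Agent.MP_fe3720.RR

open Topology Filter

variable {X : Type} [MetricSpace X] [ProperSpace X] {O : Subalgebra ℂ (X → ℂ)} {m N : ℕ}
  {G : Fin N → O}

theorem corr (hS : SD0 m O G) (hDP : LT O) {k : ℕ} (x : Fin k → X)
    (hx : Function.Injective x) {K : Set X} (hK : IsCompact K) {ε : ℝ} (hε : 0 < ε) :
    ∃ δ > 0, ∀ z : Fin k → X, (∀ i, dist (z i) (x i) ≤ δ) →
      ∃ ψ : HolAut O, (∀ i, ψ (z i) = x i) ∧ Near K ε ψ := by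
  classical
  have hch : ∀ i, ∃ (q : Fin m → O) (κ : (Fin m → ℂ) → X) (V : Set (Fin m → ℂ)),
      IsChart O q κ V ∧ (fun j => (q j) (x i)) ∈ V ∧ κ (fun j => (q j) (x i)) = x i := fun i =>
    hS.charts (x i)
  choose q κ V hc hV hκ using hch
  have hE : ∀ i, ∃ E : Fin m → Derivation ℂ O O, (∀ j, IsVF (E j)) ∧
      ∀ j l, (E j (q i l)) (x i) = if j = l then 1 else 0 := by
    intro i
    obtain ⟨E, h1, h2⟩ := exists_fields hS (hc i) (hV i)
    rw [hκ i] at h2
    exact ⟨E, h1, h2⟩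
  choose E hE1 hE2 using hE
  have hO := hS.alg
  -- the fields
  set f : Fin k × Fin m → O := fun t => q t.1 t.2 with hf
  set xx : Fin k × Fin m → X := fun t => x t.1 with hxx
  set η : ℝ := 1 / (2 * (Fintype.card (Fin k × Fin m) + 1)) with hη
  have hη0 : 0 < η := by positivity
  have hη1 : (Fintype.card (Fin k × Fin m) : ℝ) * η ≤ 1 / 2 := by
    rw [hη, mul_one_div, div_le_div_iff₀ (by positivity) (by norm_num)]
    linarith
  obtain ⟨r, W, Φ, c, hfl, hap'⟩ := wsum_exists hS hDP (fun s : Fin k × Fin m => E s.1 s.2)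
    (fun s => hE1 s.1 s.2) (fun s => x '' {a | a ≠ s.1}) (fun s => by
      have h1 := oconv_union hS (C := ∅) oconv_empty
        ((Set.toFinite {a : Fin k | a ≠ s.1}).image x)
      rwa [Set.empty_union] at h1) (fun s => x s.1) (fun s => by
      rintro ⟨a, ha, hax⟩
      exact ha (hx hax)) (Finset.univ.image f) hη0
  have hap : ∀ s t : Fin k × Fin m,
      ‖(if s = t then (1 : ℂ) else 0) - ∑ i, (if c i = s then (W i (f t)) (xx t) else 0)‖ ≤ η := by
    intro s t
    have hft : f t ∈ Finset.univ.image f := Finset.mem_image_of_mem _ (Finset.mem_univ _)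
    by_cases h2 : t.1 = s.1
    · have h3 := (hap' s (f t) hft).1
      have h4 : (E s.1 s.2 (f t)) (x s.1) = if s = t then (1 : ℂ) else 0 := by
        show (E s.1 s.2 (q t.1 t.2)) (x s.1) = _
        rw [h2, hE2]
        by_cases h3 : s.2 = t.2
        · rw [if_pos h3, if_pos (Prod.ext h2.symm h3)]
        · rw [if_neg h3, if_neg (fun h => h3 (congrArg Prod.snd h))]
      have h5 : xx t = x s.1 := congrArg x h2
      rw [h4] at h3
      rw [h5]
      exact h3.le
    · have h3 := (hap' s (f t) hft).2 (xx t) ⟨t.1, h2, rfl⟩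
      rw [if_neg (fun h => h2 (congrArg Prod.fst h).symm), zero_sub, norm_neg]
      exact h3.le
  have hA := wsum_deriv hO hfl c f xx
  -- the derivative is invertible
  have hAn : ∀ σ, ‖wsumA c W f xx σ - σ‖ ≤ ‖σ‖ / 2 := by
    intro σ
    rw [wsumA_apply]
    refine wsum_mat (fun j l => ∑ i, (if c i = j then (W i (f l)) (xx l) else 0)) (η := η)
      (fun j l => ?_) hη1 σ
    rw [norm_sub_rev]
    exact hap j l
  obtain ⟨R, -⟩ := wsum_inv _ hAn
  have hsurj : (wsumA c W f xx).range = ⊤ := by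
    rw [LinearMap.range_eq_top]
    intro y
    exact ⟨R y, R.right_inv y⟩
  have hC1 : ContDiffAt ℂ 1 (fun σ : Fin k × Fin m → ℂ => fun l =>
      f l (Psi Φ (wsumM c σ) (xx l))) 0 := by
    refine ContDiff.contDiffAt ?_
    rw [contDiff_pi]
    intro l
    exact (Psi_entire hO hfl (f l) (xx l)).comp (wsumM c).contDiff
  have hstr : HasStrictFDerivAt (fun σ : Fin k × Fin m → ℂ => fun l =>
      f l (Psi Φ (wsumM c σ) (xx l))) (wsumA c W f xx) 0 :=
    hC1.hasStrictFDerivAt' hA one_ne_zero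
  have hmap := hstr.map_nhds_eq_of_surj hsurj
  have hM0 : Tendsto (fun σ : Fin k × Fin m → ℂ => wsumM c σ) (𝓝 0) (𝓝 (0 : Fin r → ℂ)) := by
    have h1 := (wsumM c).continuous.tendsto (0 : Fin k × Fin m → ℂ)
    rwa [map_zero] at h1
  -- the conditions on the parameter
  have hev1 : ∀ᶠ σ in 𝓝 (0 : Fin k × Fin m → ℂ), Near K ε (Psi Φ (wsumM c σ)) :=
    hM0.eventually (wsum_near hfl hK hε)
  have hxV : ∀ a, x a ∈ κ a '' V a := fun a => ⟨_, hV a, hκ a⟩
  have hev2 : ∀ᶠ σ in 𝓝 (0 : Fin k × Fin m → ℂ), ∀ a, Psi Φ (wsumM c σ) (x a) ∈ κ a '' V a := by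
    rw [eventually_all]
    intro a
    have c1 : Continuous (fun t : Fin r → ℂ => Psi Φ t (x a)) :=
      (Psi_cont hfl).comp (continuous_id.prodMk continuous_const)
    have h1 : Tendsto (fun t : Fin r → ℂ => Psi Φ t (x a)) (𝓝 0) (𝓝 (x a)) := by
      have h2 := c1.tendsto 0
      rwa [Psi_zero hfl] at h2
    exact (h1.comp hM0).eventually ((hc a).img.mem_nhds (hxV a))
  have himg : (fun σ : Fin k × Fin m → ℂ => fun l => f l (Psi Φ (wsumM c σ) (xx l))) ''
      {σ | Near K ε (Psi Φ (wsumM c σ)) ∧ ∀ a, Psi Φ (wsumM c σ) (x a) ∈ κ a '' V a} ∈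
      𝓝 (fun l => f l (xx l)) := by
    have h1 := image_mem_map (f := 𝓝 (0 : Fin k × Fin m → ℂ))
      (m := fun σ : Fin k × Fin m → ℂ => fun l => f l (Psi Φ (wsumM c σ) (xx l)))
      (hev1.and hev2)
    rw [hmap] at h1
    have h2 : (fun l => f l (Psi Φ (wsumM c (0 : Fin k × Fin m → ℂ)) (xx l))) =
        fun l => f l (xx l) := by
      funext l
      rw [map_zero, Psi_zero hfl]
    rw [h2] at h1
    exact h1
  have hz1 : ∀ᶠ z in 𝓝 x, (fun l : Fin k × Fin m => f l (z l.1)) ∈
      (fun σ : Fin k × Fin m → ℂ => fun l => f l (Psi Φ (wsumM c σ) (xx l))) ''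
      {σ | Near K ε (Psi Φ (wsumM c σ)) ∧ ∀ a, Psi Φ (wsumM c σ) (x a) ∈ κ a '' V a} := by
    have h1 : Continuous (fun z : Fin k → X => fun l : Fin k × Fin m => f l (z l.1)) := by
      refine continuous_pi fun l => ?_
      exact (hO.cont _ (f l).2).comp (continuous_apply l.1)
    exact h1.continuousAt.eventually himg
  have hz2 : ∀ᶠ z in 𝓝 x, ∀ a, z a ∈ κ a '' V a := by
    rw [eventually_all]
    intro a
    exact (continuous_apply a).continuousAt.eventually ((hc a).img.mem_nhds (hxV a))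
  obtain ⟨δ, hδ, hball⟩ := Metric.eventually_nhds_iff.1 (hz1.and hz2)
  refine ⟨δ / 2, by positivity, fun z hz => ?_⟩
  have hzd : dist z x < δ := by
    refine lt_of_le_of_lt ((dist_pi_le_iff (by positivity)).2 hz) (by linarith)
  obtain ⟨⟨σ, ⟨hσ1, hσ2⟩, hσ3⟩, hz4⟩ := hball hzd
  refine ⟨(Psi Φ (wsumM c σ)).symm, fun a => ?_, near_symm hσ1⟩
  have h1 : Psi Φ (wsumM c σ) (x a) = z a := by
    refine (hc a).eq_of (hσ2 a) (hz4 a) fun j => ?_
    exact congrFun hσ3 (a, j)
  rw [← h1]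
  exact HolAut.symm_apply_self _ _

end Pool.Agent.MP_fe3720.RR
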