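import Pool.Agent.Work.MP_fe3720_an.R.Ident
import Pool.Agent.Work.MP_fe3720_an.R.Span
import Pool.Agent.Work.MP_fe3720_an.R.LT

/-! # Large: a sequence with `f → ∞`, `v ≠ 0`

`exists_large`: `f` is not constant, so `D f ≠ 0` for some vector field `D` (otherwise, by `HasFields` and `hc.tan`, the derivative of `f ∘ κ`
vanishes in all charts, `f` is locally constant, so constant), and by `dp_span` `w f ≠ 0` for some complete `w`. Let `h` with `v h ≠ 0`
(`v ≠ 0`). By `ident_mul` there is `x` with `(w f) x ≠ 0`, with flow `Ψ` of `w`; `fun_unbounded`: some `t` with `|f (Ψ t x)| > M`. The set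
`{|f| > M}` is open nonempty, so contains a point where `v h ≠ 0` (`ident_mul` with `g = 1`).
`exists_seq`: choose `a n` recursively with `|f (a (n+1))| > |f (a n)| + 1`. -/

namespace Pool.Agent.MP_fe3720.RR

open Topology Filter

variable {X : Type} [MetricSpace X] [ProperSpace X] [PreconnectedSpace X]
  {O : Subalgebra ℂ (X → ℂ)} {m N : ℕ} {G : Fin N → O}

private theorem lg_fderiv (hF : HasFields m O) {q : Fin m → O} {κ : (Fin m → ℂ) → X}
    {V : Set (Fin m → ℂ)} (hc : IsChart O q κ V) {f : O}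
    (h : ∀ D : Derivation ℂ O O, IsVF D → D f = 0) {y : Fin m → ℂ} (hy : y ∈ V) :
    fderiv ℂ (fun y => f (κ y)) y = 0 := by
  obtain ⟨E, hE, hli⟩ := hF (κ y)
  set w : Fin m → (Fin m → ℂ) := fun i j => (E i (q j)) (κ y) with hw
  have hwli : LinearIndependent ℂ w := by
    rw [Fintype.linearIndependent_iff] at hli ⊢
    intro g hg i
    refine hli g ?_ i
    funext F
    rw [Finset.sum_apply]
    have h1 : ∀ i, (g i • fun f : O => (E i f) (κ y)) F =
        g i • fderiv ℂ (fun y => F (κ y)) y (w i) := by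
      intro i
      rw [Pi.smul_apply, hc.tan (E i) (hE i) F y hy]
    rw [Finset.sum_congr rfl fun i _ => h1 i]
    have h2 : ∑ i, g i • fderiv ℂ (fun y => F (κ y)) y (w i) =
        fderiv ℂ (fun y => F (κ y)) y (∑ i, g i • w i) := by
      rw [map_sum]
      exact Finset.sum_congr rfl fun i _ => by rw [map_smul]
    rw [h2, hg, map_zero]
    rfl
  have hspan : Submodule.span ℂ (Set.range w) = ⊤ := by
    refine hwli.span_eq_top_of_card_eq_finrank' ?_
    rw [Module.finrank_fin_fun, Fintype.card_fin]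
  have hzero : ∀ i, fderiv ℂ (fun y => f (κ y)) y (w i) = 0 := by
    intro i
    rw [← hc.tan (E i) (hE i) f y hy, h (E i) (hE i)]
    rfl
  apply ContinuousLinearMap.ext
  intro z
  have hz : z ∈ Submodule.span ℂ (Set.range w) := by rw [hspan]; trivial
  induction hz using Submodule.span_induction with
  | mem x hx =>
    obtain ⟨i, rfl⟩ := hx
    exact hzero i
  | zero => simp
  | add a b _ _ ha hb => rw [map_add, ha, hb]; simp
  | smul c a _ ha => rw [map_smul, ha]; simp

theorem lg_const (hS : SD0 m O G) {f : O}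
    (h : ∀ D : Derivation ℂ O O, IsVF D → D f = 0) (x y : X) : f x = f y := by
  have hloc : IsLocallyConstant (fun x => f x) := by
    rw [IsLocallyConstant.iff_eventually_eq]
    intro x₀
    obtain ⟨q, κ, V, hc, hV, hκ⟩ := hS.charts x₀
    set y₀ := fun j => (q j) x₀ with hy₀
    obtain ⟨r, hr, hB⟩ := Metric.isOpen_iff.mp hc.opn y₀ hV
    have hconst : ∀ y ∈ Metric.ball y₀ r, f (κ y) = f (κ y₀) := by
      intro y hy
      have hd : DifferentiableOn ℂ (fun y => f (κ y)) (Metric.ball y₀ r) :=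
        ((hc.smooth f).differentiableOn (by norm_num)).mono hB
      exact (convex_ball y₀ r).is_const_of_fderivWithin_eq_zero hd (fun z hz => by
        rw [fderivWithin_of_isOpen Metric.isOpen_ball hz]
        exact lg_fderiv hS.fields hc h (hB hz)) hy (Metric.mem_ball_self hr)
    have hopen := chart_image_open hS.alg hc Metric.isOpen_ball hB
    filter_upwards [hopen.mem_nhds ⟨y₀, Metric.mem_ball_self hr, hκ⟩] with x hx
    obtain ⟨y, hy, rfl⟩ := hx
    rw [hconst y hy, hκ]
  exact hloc.apply_eq_of_preconnectedSpace x y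

theorem exists_large (hS : SD0 m O G) (hDP : LT O) {v : Derivation ℂ O O}
    (hv0 : v ≠ 0) {f : O} (hfc : ∃ x y, f x ≠ f y) (M : ℝ) : ∃ a, M < ‖f a‖ ∧ NZ v a := by
  obtain ⟨x1, x2, hx12⟩ := hfc
  have h1 : ∃ D : Derivation ℂ O O, IsVF D ∧ D f ≠ 0 := by
    by_contra hcon
    push Not at hcon
    exact hx12 (lg_const hS hcon x1 x2)
  obtain ⟨D, hD, hDf⟩ := h1
  have h2 : ∃ x, (D f) x ≠ 0 := by
    by_contra hcon
    push Not at hcon
    exact hDf (Subtype.ext (funext hcon))
  obtain ⟨x, hx⟩ := h2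
  obtain ⟨r, W, hW, hWf⟩ := hDP ∅ oconv_empty x (Set.notMem_empty x) D hD {f} _
    (norm_pos_iff.mpr hx)
  have h3 := (hWf f (Finset.mem_singleton_self f)).1
  have h4 : ∃ i, (W i f) x ≠ 0 := by
    by_contra hcon
    push Not at hcon
    rw [Finset.sum_eq_zero fun i _ => hcon i, sub_zero] at h3
    exact lt_irrefl _ h3
  obtain ⟨i, hi⟩ := h4
  obtain ⟨Ψ, hΨ⟩ := exists_flow hS (hW i)
  obtain ⟨t, ht⟩ := fun_unbounded hΨ hi M
  have h5 : ∃ h, v h ≠ 0 := by
    by_contra hcon
    push Not at hcon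
    exact hv0 (Derivation.ext hcon)
  obtain ⟨h, hh⟩ := h5
  have hopen : IsOpen {a : X | M < ‖f a‖} :=
    isOpen_lt continuous_const (cont hS f).norm
  obtain ⟨a, ha, hva, -⟩ := ident_mul hS hh hh hopen ⟨Ψ t x, ht⟩
  exact ⟨a, ha, h, hva⟩

theorem exists_seq (hS : SD0 m O G) (hDP : LT O) {v : Derivation ℂ O O}
    (hv0 : v ≠ 0) {f : O} (hfc : ∃ x y, f x ≠ f y) :
    ∃ a : ℕ → X, Function.Injective (fun n => f (a n)) ∧
      Tendsto (fun n => ‖f (a n)‖) atTop atTop ∧ ∀ n, NZ v (a n) := by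
  choose c hc1 hc2 using exists_large hS hDP hv0 hfc
  set a : ℕ → X := fun n => Nat.rec (c 0) (fun _ b => c (‖f b‖ + 1)) n with ha
  have ha1 : ∀ n, ‖f (a n)‖ + 1 < ‖f (a (n + 1))‖ := fun n => hc1 _
  have hmono : StrictMono fun n => ‖f (a n)‖ :=
    strictMono_nat_of_lt_succ fun n => by have := ha1 n; linarith
  refine ⟨a, fun n k h => hmono.injective (by simp only [h]), ?_, ?_⟩
  · have hge : ∀ n : ℕ, (n : ℝ) ≤ ‖f (a n)‖ := by
      intro n
      induction n with
      | zero => simp
      | succ n ih => have := ha1 n; push_cast; linarith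
    exact tendsto_atTop_mono hge tendsto_natCast_atTop_atTop
  · intro n
    cases n with
    | zero => exact hc2 _
    | succ n => exact hc2 _

end Pool.Agent.MP_fe3720.RR
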