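import Pool.Agent.Work.MP_fe3720_an.R.IL
import Pool.Agent.Work.MP_fe3720_an.R.Large

/-! # Family: a countable family of automorphisms

For `x ≠ y`: choose `x'` with `NZ v x'`, `s₀` with `Φ s₀ x' ≠ x'` (`orbit_unbounded` for `{x'}`), `y'` with `f y' ≠ f x'`, and `x''` with
`f x'' ≠ f x`, `NZ v x''`, `x'' ≠ x, y` (`ident_mul` on the open set `{x,y}ᶜ`, or on the complement of `{y}`). The triples
`u = (x, y, x'')`, `u' = (x', y', Φ s₀ x')` are injective. For `n ≥ N₀` large `f (a n)` is different from all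
`f (u i)`, `f (u' i)` (`|f (a n)| → ∞`), so `interpolate` with the sequences `n ↦ a (n + N₀)` (twice) gives `β`
with `β x = x'`, `β y = y'`, `β x'' = Φ s₀ x'`, `β (a n) = a n` for `n ≥ N₀`. Then `β.symm (Φ s₀ (β x)) = x''`. The set of the pairs
`(x, y)` for which `β` satisfies the three conditions is open in `X × X` (the conditions `∃ t` are open as
`x ↦ β.symm (Φ t (β x))` is continuous and `NZ v` is open). By Lindelöf (`TopologicalSpace.isOpen_iUnion_countable`, or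
`IsLindelof`, `SecondCountableTopology` of a proper metric space) countably many `β` suffice for the
complement of the diagonal (enumerate a countable nonempty set: `Set.Countable.exists_eq_range`); put the identity first (`β 0`). -/

namespace Pool.Agent.MP_fe3720.RR

open Topology Filter

variable {X : Type} [MetricSpace X] [ProperSpace X] [PreconnectedSpace X]
  {O : Subalgebra ℂ (X → ℂ)} {m N : ℕ} {G : Fin N → O}

/-- the property of the countable family -/
def Fam (v : Derivation ℂ O O) (Φ : ℂ → HolAut O) (f : O) (β : ℕ → HolAut O) : Prop :=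
  (∀ x, β 0 x = x) ∧ ∀ x y, x ≠ y → ∃ k, f (β k x) ≠ f (β k y) ∧
    (∃ t, f ((β k).symm (Φ t (β k x))) ≠ f x) ∧ ∃ t, NZ v ((β k).symm (Φ t (β k x)))

/-- the three conditions for one automorphism -/
private def Good (v : Derivation ℂ O O) (Φ : ℂ → HolAut O) (f : O) (β : HolAut O) (x y : X) :
    Prop :=
  f (β x) ≠ f (β y) ∧ (∃ t, f (β.symm (Φ t (β x))) ≠ f x) ∧ ∃ t, NZ v (β.symm (Φ t (β x)))

omit [ProperSpace X] [PreconnectedSpace X] in
private theorem fam_cont (hS : SD0 m O G) (f : O) : Continuous (fun x => f x) :=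
  hS.alg.cont f.1 f.2

omit [ProperSpace X] [PreconnectedSpace X] in
private theorem fam_cont_aut (φ : HolAut O) : Continuous (fun x => φ x) := φ.toHomeo.continuous

omit [ProperSpace X] [PreconnectedSpace X] in
private theorem fam_open (hS : SD0 m O G) (v : Derivation ℂ O O) (Φ : ℂ → HolAut O) (f : O)
    (β : HolAut O) : IsOpen {p : X × X | Good v Φ f β p.1 p.2} := by
  have hf := fam_cont hS f
  have hβ := fam_cont_aut β
  have hβs := fam_cont_aut β.symm
  have hcomp : ∀ t, Continuous (fun x => β.symm (Φ t (β x))) := fun t =>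
    hβs.comp ((fam_cont_aut (Φ t)).comp hβ)
  have h1 : IsOpen {p : X × X | f (β p.1) ≠ f (β p.2)} :=
    isOpen_ne_fun (hf.comp (hβ.comp continuous_fst)) (hf.comp (hβ.comp continuous_snd))
  have h2 : IsOpen {p : X × X | ∃ t, f (β.symm (Φ t (β p.1))) ≠ f p.1} := by
    rw [Set.ofPred_exists]
    refine isOpen_iUnion fun t => ?_
    exact isOpen_ne_fun (hf.comp ((hcomp t).comp continuous_fst)) (hf.comp continuous_fst)
  have h3 : IsOpen {p : X × X | ∃ t, NZ v (β.symm (Φ t (β p.1)))} := by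
    rw [Set.ofPred_exists]
    refine isOpen_iUnion fun t => ?_
    unfold NZ
    rw [Set.ofPred_exists]
    refine isOpen_iUnion fun h => ?_
    exact isOpen_ne_fun ((fam_cont hS (v h)).comp ((hcomp t).comp continuous_fst)) continuous_const
  exact h1.inter (h2.inter h3)

private theorem fam_one (hS : SD m O G) (hDP : LT O) {v : Derivation ℂ O O}
    (hv : IsVF v) (hv0 : v ≠ 0) {Φ : ℂ → HolAut O} (hΦ : IsFlow v Φ) {f : O} (hf : v f = 0)
    (hfc : ∃ x y, f x ≠ f y) {a : ℕ → X} (ha : Gen v f a) (x y : X) (hxy : x ≠ y) :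
    ∃ β : HolAut O, (∃ n₀ : ℕ, ∀ n, n₀ ≤ n → β (a n) = a n) ∧ Good v Φ f β x y := by
  -- a function h with v h ≠ 0
  obtain ⟨h, hh⟩ : ∃ h : O, v h ≠ 0 := by
    by_contra hcon
    push Not at hcon
    exact hv0 (Derivation.ext hcon)
  obtain ⟨x', hx'⟩ : ∃ x', NZ v x' := ⟨a 0, ha.nz 0⟩
  obtain ⟨s₀, hs₀⟩ := orbit_unbounded hS.toSD0 hΦ hx' (isCompact_singleton (x := x'))
  have hs₀' : Φ s₀ x' ≠ x' := fun h => hs₀ (Set.mem_singleton_iff.2 h)
  obtain ⟨y', hy'⟩ : ∃ y', f y' ≠ f x' := by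
    obtain ⟨p, q, hpq⟩ := hfc
    by_cases hp : f p = f x'
    · exact ⟨q, fun hq => hpq (hp.trans hq.symm)⟩
    · exact ⟨p, hp⟩
  -- the point x''
  set g : O := f - algebraMap ℂ O (f x) with hg
  have hgv : ∀ z, g z = f z - f x := fun z => rfl
  have hg0 : g ≠ 0 := by
    intro hcon
    obtain ⟨p, q, hpq⟩ := hfc
    have h1 : ∀ z, f z = f x := by
      intro z
      have := hgv z
      rw [hcon] at this
      have h2 : (0 : O) z = 0 := rfl
      rw [h2] at this
      exact (sub_eq_zero.1 this.symm)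
    exact hpq ((h1 p).trans (h1 q).symm)
  obtain ⟨x'', hx''y, hx''g, hx''h⟩ := ident_mul hS.toSD0 hg0 hh
    (isOpen_compl_singleton (x := y)) ⟨x, hxy⟩
  have hx''f : f x'' ≠ f x := by
    rw [hgv] at hx''g
    exact sub_ne_zero.1 hx''g
  have hx''x : x'' ≠ x := fun h => hx''f (by rw [h])
  have hx''y' : x'' ≠ y := hx''y
  -- the triples
  have hfinv : f (Φ s₀ x') = f x' := hΦ.inv hf s₀ x'
  let u : Fin 3 → X := ![x, y, x'']
  let u' : Fin 3 → X := ![x', y', Φ s₀ x']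
  have hu : Function.Injective u := by
    intro i j hij
    fin_cases i <;> fin_cases j <;> simp [u] at hij ⊢ <;>
      first
      | exact hxy hij
      | exact hxy hij.symm
      | exact hx''x hij
      | exact hx''x hij.symm
      | exact hx''y' hij
      | exact hx''y' hij.symm
  have hy'x' : y' ≠ x' := fun h => hy' (by rw [h])
  have hy'Φ : y' ≠ Φ s₀ x' := fun h => hy' (by rw [h, hfinv])
  have hu' : Function.Injective u' := by
    intro i j hij
    fin_cases i <;> fin_cases j <;> simp [u'] at hij ⊢ <;>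
      first
      | exact hy'x' hij
      | exact hy'x' hij.symm
      | exact hy'Φ hij
      | exact hy'Φ hij.symm
      | exact hs₀' hij
      | exact hs₀' hij.symm
  -- N₀
  obtain ⟨N₀, hN₀⟩ : ∃ N₀ : ℕ, ∀ n, N₀ ≤ n → (∀ i, f (u i) ≠ f (a n)) ∧
      ∀ i, f (u' i) ≠ f (a n) := by
    have h1 := (tendsto_atTop.1 ha.large (1 + ∑ i, ‖f (u i)‖ + ∑ i, ‖f (u' i)‖))
    obtain ⟨N₀, hN₀⟩ := eventually_atTop.1 h1
    refine ⟨N₀, fun n hn => ⟨fun i hi => ?_, fun i hi => ?_⟩⟩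
    · have h2 := hN₀ n hn
      rw [← hi] at h2
      have h3 : ‖f (u i)‖ ≤ ∑ i, ‖f (u i)‖ :=
        Finset.single_le_sum (f := fun i => ‖f (u i)‖) (fun i _ => norm_nonneg _) (Finset.mem_univ i)
      have h4 : 0 ≤ ∑ i, ‖f (u' i)‖ := Finset.sum_nonneg fun i _ => norm_nonneg _
      linarith
    · have h2 := hN₀ n hn
      rw [← hi] at h2
      have h3 : ‖f (u' i)‖ ≤ ∑ i, ‖f (u' i)‖ :=
        Finset.single_le_sum (f := fun i => ‖f (u' i)‖) (fun i _ => norm_nonneg _) (Finset.mem_univ i)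
      have h4 : 0 ≤ ∑ i, ‖f (u i)‖ := Finset.sum_nonneg fun i _ => norm_nonneg _
      linarith
  have ha' : Gen v f (fun n => a (n + N₀)) :=
    { inj := fun i j hij => by
        have := ha.inj hij
        omega
      large := ha.large.comp (tendsto_add_atTop_nat N₀)
      nz := fun n => ha.nz _ }
  obtain ⟨β, hβu, hβa⟩ := interpolate hS hDP hv hΦ hf ha' ha' u u' hu hu'
    (fun i n => (hN₀ (n + N₀) (by omega)).1 i) (fun i n => (hN₀ (n + N₀) (by omega)).2 i)
  have hb0 : β x = x' := hβu 0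
  have hb1 : β y = y' := hβu 1
  have hb2 : β x'' = Φ s₀ x' := hβu 2
  have hback : β.symm (Φ s₀ (β x)) = x'' := by
    rw [hb0, ← hb2]
    exact HolAut.symm_apply_self β x''
  refine ⟨β, ⟨N₀, fun n hn => ?_⟩, ?_, ⟨s₀, ?_⟩, ⟨s₀, ?_⟩⟩
  · have := hβa (n - N₀)
    rwa [Nat.sub_add_cancel hn] at this
  · rw [hb0, hb1]
    exact fun h => hy' h.symm
  · rw [hback]
    exact hx''f
  · rw [hback]
    exact ⟨h, hx''h⟩

theorem exists_family (hS : SD m O G) (hDP : LT O) {v : Derivation ℂ O O}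
    (hv : IsVF v) (hv0 : v ≠ 0) {Φ : ℂ → HolAut O} (hΦ : IsFlow v Φ) {f : O} (hf : v f = 0)
    (hfc : ∃ x y, f x ≠ f y) {a : ℕ → X} (ha : Gen v f a) :
    ∃ (β : ℕ → HolAut O) (n₀ : ℕ → ℕ), Fam v Φ f β ∧ ∀ k n, n₀ k ≤ n → β k (a n) = a n := by
  let ι : Type := {β : HolAut O // ∃ n₀ : ℕ, ∀ n, n₀ ≤ n → β (a n) = a n}
  let id0 : ι := ⟨idAut O, 0, fun n _ => rfl⟩
  obtain ⟨T, hT, hTU⟩ := TopologicalSpace.isOpen_iUnion_countable
    (fun β : ι => {p : X × X | Good v Φ f β.1 p.1 p.2}) (fun β => fam_open hS.toSD0 v Φ f β.1)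
  obtain ⟨e, he⟩ := (hT.insert id0).exists_eq_range ⟨id0, Set.mem_insert _ _⟩
  let b : ℕ → ι := fun k => Nat.casesOn k id0 e
  refine ⟨fun k => (b k).1, fun k => (b k).2.choose, ⟨fun x => rfl, fun x y hxy => ?_⟩,
    fun k n hn => (b k).2.choose_spec n hn⟩
  obtain ⟨β, hβ1, hβ2⟩ := fam_one hS hDP hv hv0 hΦ hf hfc ha x y hxy
  have h1 : (x, y) ∈ ⋃ β : ι, {p : X × X | Good v Φ f β.1 p.1 p.2} :=
    Set.mem_iUnion.2 ⟨⟨β, hβ1⟩, hβ2⟩
  rw [← hTU] at h1
  obtain ⟨β', hβ'T, hβ'⟩ := Set.mem_iUnion₂.1 h1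
  have h2 : β' ∈ Set.range e := by
    rw [← he]
    exact Set.mem_insert_of_mem _ hβ'T
  obtain ⟨k, hk⟩ := h2
  refine ⟨k + 1, ?_⟩
  have h3 : b (k + 1) = β' := hk
  show Good v Φ f (b (k + 1)).1 x y
  rw [h3]
  exact hβ'

end Pool.Agent.MP_fe3720.RR
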