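import Pool.Agent.Work.MP_fe3720_an.R.Family

/-! # StageTwo: general position by small shears

The states are pairs `(P, W)` with `P ∈ Aut` and `W` a closed neighbourhood of the sequence `P ∘ D` in `ℕ → X` (product topology), with
`|f (P (D l)) - f (D l)| < 1` for all `l` and `|f (β k (P (D l)))| → ∞` for all `k`. In the step number `j`, for the pair `(n, m') = Nat.unpair j`, `n ≠ m'`,
we compose `P` with a small automorphism `α s` which moves only finitely many points of the sequence, such that `f (d n) ≠ f (d m')` and `NZ v (d n)` for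
the new sequence `d`, and shrink `W`, so that all the sequences in `W` have this property. -/

namespace Pool.Agent.MP_fe3720.RR

open Topology Filter

variable {X : Type} [MetricSpace X] [ProperSpace X] [PreconnectedSpace X]
  {O : Subalgebra ℂ (X → ℂ)} {m N : ℕ} {G : Fin N → O}

private theorem st2_ne_zero {F : ℂ → ℂ} (hF : Differentiable ℂ F) {t : ℂ} (ht : F t ≠ 0) :
    ∀ᶠ s in 𝓝[≠] (0 : ℂ), F s ≠ 0 := by
  rcases (hF.analyticAt 0).eventually_eq_zero_or_eventually_ne_zero with h | h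
  · exfalso
    have h1 : AnalyticOnNhd ℂ F Set.univ := fun z _ => hF.analyticAt z
    have h2 : AnalyticOnNhd ℂ (fun _ : ℂ => (0 : ℂ)) Set.univ := fun z _ => analyticAt_const
    have h3 := h1.eq_of_eventuallyEq h2 (z₀ := 0) h
    exact ht (congrFun h3 t)
  · exact h

private theorem st2_isOpen_NZ (hS : SD0 m O G) (v : Derivation ℂ O O) : IsOpen {x : X | NZ v x} := by
  have : {x : X | NZ v x} = ⋃ h : O, {x | (v h) x ≠ 0} := by
    ext x
    simp [NZ]
  rw [this]
  exact isOpen_iUnion fun h => isOpen_ne_fun (cont hS (v h)) continuous_const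

/-- the family of the small automorphisms -/
private theorem st2_family (hS : SD0 m O G) {v : Derivation ℂ O O} (hv : IsVF v)
    {Φ : ℂ → HolAut O} (hΦ : IsFlow v Φ) {f : O} (hf : v f = 0) {β : ℕ → HolAut O}
    (hβ : Fam v Φ f β) (d : ℕ → X)
    (hprop : ∀ k, Tendsto (fun n => ‖f (β k (d n))‖) atTop atTop) {n n' : ℕ}
    (hd : d n ≠ d n') :
    ∃ α : ℂ → HolAut O, (∀ x, α 0 x = x) ∧ (∀ x, (α 0).symm x = x) ∧
      Continuous (fun p : ℂ × X => α p.1 p.2) ∧
      Continuous (fun p : ℂ × X => (α p.1).symm p.2) ∧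
      (∃ L : Set ℕ, L.Finite ∧ ∀ l ∉ L, ∀ s, α s (d l) = d l) ∧
      ∀ᶠ s in 𝓝[≠] (0 : ℂ), f (α s (d n)) ≠ f (α s (d n')) ∧ NZ v (α s (d n)) := by
  obtain ⟨k, hk1, ⟨t₁, ht₁⟩, ⟨t₂, h₂, ht₂⟩⟩ := hβ.2 _ _ hd
  set b : HolAut O := β k with hb
  have hfin : ∀ R : ℝ, {l : ℕ | ‖f (b (d l))‖ ≤ R}.Finite := by
    intro R
    have h1 := (hprop k).eventually_gt_atTop R
    rw [← Nat.cofinite_eq_atTop, Filter.eventually_cofinite] at h1
    refine h1.subset fun l hl => ?_
    exact not_lt.mpr hl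
  obtain ⟨g, hg, hgw⟩ := interp (Set.range fun l => f (b (d l)))
    (fun R => by
      refine ((hfin R).image fun l => f (b (d l))).subset ?_
      rintro _ ⟨⟨l, rfl⟩, hl⟩
      exact ⟨l, by simpa using hl, rfl⟩)
    (fun z => if z = f (b (d n)) then 1 else 0)
  have hg1 : g (f (b (d n))) = 1 := by
    rw [hgw _ ⟨n, rfl⟩, if_pos rfl]
  have hg0 : ∀ l, f (b (d l)) ≠ f (b (d n)) → g (f (b (d l))) = 0 := by
    intro l hl
    rw [hgw _ ⟨l, rfl⟩, if_neg hl]
  obtain ⟨Γ, hΓ, hΓs⟩ := shear hS hv hΦ hf hg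
  have hα : ∀ s x, (b.symm.comp ((Γ s).comp b)) x = b.symm (Φ (s * g (f (b x))) (b x)) := by
    intro s x
    show b.symm (Γ s (b x)) = _
    rw [hΓ]
  have hαs : ∀ s x, (b.symm.comp ((Γ s).comp b)).symm x =
      b.symm (Φ (-(s * g (f (b x)))) (b x)) := by
    intro s x
    show b.symm ((Γ s).symm (b x)) = _
    rw [hΓs]
  have hbc : Continuous (fun x => b x) := b.toHomeo.continuous
  have hbsc : Continuous (fun x => b.symm x) := b.toHomeo.symm.continuous
  have hgc : Continuous (fun p : ℂ × X => p.1 * g (f (b p.2))) :=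
    continuous_fst.mul (hg.continuous.comp ((cont hS f).comp (hbc.comp continuous_snd)))
  refine ⟨fun s => b.symm.comp ((Γ s).comp b), ?_, ?_, ?_, ?_, ?_, ?_⟩
  · intro x
    show (b.symm.comp ((Γ 0).comp b)) x = x
    rw [hα, zero_mul, hΦ.zero, HolAut.symm_apply_self]
  · intro x
    show (b.symm.comp ((Γ 0).comp b)).symm x = x
    rw [hαs, zero_mul, neg_zero, hΦ.zero, HolAut.symm_apply_self]
  · have : (fun p : ℂ × X => (b.symm.comp ((Γ p.1).comp b)) p.2) =
        fun p : ℂ × X => b.symm (Φ (p.1 * g (f (b p.2))) (b p.2)) := by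
      funext p
      exact hα _ _
    rw [this]
    exact hbsc.comp (hΦ.cont.comp (hgc.prodMk (hbc.comp continuous_snd)))
  · have : (fun p : ℂ × X => (b.symm.comp ((Γ p.1).comp b)).symm p.2) =
        fun p : ℂ × X => b.symm (Φ (-(p.1 * g (f (b p.2)))) (b p.2)) := by
      funext p
      exact hαs _ _
    rw [this]
    exact hbsc.comp (hΦ.cont.comp (hgc.neg.prodMk (hbc.comp continuous_snd)))
  · refine ⟨{l | ‖f (b (d l))‖ ≤ ‖f (b (d n))‖}, hfin _, fun l hl s => ?_⟩
    show (b.symm.comp ((Γ s).comp b)) (d l) = d l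
    rw [hα, hg0 l (fun h => hl (by show ‖f (b (d l))‖ ≤ _; rw [h])), mul_zero, hΦ.zero,
      HolAut.symm_apply_self]
  · have hy : ∀ s, (b.symm.comp ((Γ s).comp b)) (d n') = d n' := by
      intro s
      rw [hα, hg0 n' (Ne.symm hk1), mul_zero, hΦ.zero, HolAut.symm_apply_self]
    have hx : ∀ s, (b.symm.comp ((Γ s).comp b)) (d n) = b.symm (Φ s (b (d n))) := by
      intro s
      rw [hα, hg1, mul_one]
    have hdiff : ∀ h : O, Differentiable ℂ (fun s => h (b.symm (Φ s (b (d n))))) := fun h s =>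
      (hΦ.deriv (b.symm.pull h) (b (d n)) s).differentiableAt
    have h1 : ∀ᶠ s in 𝓝[≠] (0 : ℂ), f (b.symm (Φ s (b (d n)))) - f (d n') ≠ 0 := by
      by_cases hc : f (b.symm (Φ t₁ (b (d n)))) = f (d n')
      · refine st2_ne_zero (F := fun s => f (b.symm (Φ s (b (d n)))) - f (d n'))
          ((hdiff f).sub_const _) (t := 0) ?_
        show f (b.symm (Φ 0 (b (d n)))) - f (d n') ≠ 0
        rw [hΦ.zero, HolAut.symm_apply_self, sub_ne_zero]
        intro h
        exact ht₁ (hc.trans h.symm)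
      · exact st2_ne_zero (F := fun s => f (b.symm (Φ s (b (d n)))) - f (d n'))
          ((hdiff f).sub_const _) (t := t₁) (sub_ne_zero.mpr hc)
    have h2 : ∀ᶠ s in 𝓝[≠] (0 : ℂ), (v h₂) (b.symm (Φ s (b (d n)))) ≠ 0 :=
      st2_ne_zero (F := fun s => (v h₂) (b.symm (Φ s (b (d n))))) (hdiff (v h₂)) (t := t₂) ht₂
    filter_upwards [h1, h2] with s hs1 hs2
    refine ⟨?_, h₂, ?_⟩
    · show f ((b.symm.comp ((Γ s).comp b)) (d n)) ≠ f ((b.symm.comp ((Γ s).comp b)) (d n'))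
      rw [hx, hy]
      exact sub_ne_zero.mp hs1
    · show (v h₂) ((b.symm.comp ((Γ s).comp b)) (d n)) ≠ 0
      rw [hx]
      exact hs2

/-- closeness to the identity for small parameters -/
private theorem st2_near {α : ℂ → X → X} (h0 : ∀ x, α 0 x = x)
    (hc : Continuous (fun p : ℂ × X => α p.1 p.2)) {K : Set X} (hK : IsCompact K) {ε : ℝ}
    (hε : 0 < ε) : ∀ᶠ s in 𝓝 (0 : ℂ), ∀ x ∈ K, dist (α s x) x ≤ ε := by
  refine hK.eventually_forall_of_forall_eventually ?_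
  intro x _
  have h1 : Continuous (fun p : ℂ × X => dist (α p.1 p.2) p.2) :=
    hc.dist continuous_snd
  have h2 : Tendsto (fun p : ℂ × X => dist (α p.1 p.2) p.2) (𝓝 (0, x)) (𝓝 0) := by
    have := h1.tendsto ((0 : ℂ), x)
    simpa only [h0, dist_self] using this
  exact (h2.eventually_lt_const hε).mono fun p hp => le_of_lt hp

/-- the invariants -/
private def St2Inv (f : O) (β : ℕ → HolAut O) (D : ℕ → X) (p : HolAut O × Set (ℕ → X)) : Prop :=
  IsClosed p.2 ∧ p.2 ∈ 𝓝 (fun l => p.1 (D l)) ∧ (∀ l, ‖f (p.1 (D l)) - f (D l)‖ < 1) ∧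
    ∀ k, Tendsto (fun n => ‖f (β k (p.1 (D n)))‖) atTop atTop

private theorem st2_step (hS : SD0 m O G) {v : Derivation ℂ O O} (hv : IsVF v)
    {Φ : ℂ → HolAut O} (hΦ : IsFlow v Φ) {f : O} (hf : v f = 0) {β : ℕ → HolAut O}
    (hβ : Fam v Φ f β) (D : ℕ → X) (hD : Function.Injective D) (j : ℕ)
    (p : HolAut O × Set (ℕ → X)) (hp : St2Inv f β D p) :
    ∃ q : HolAut O × Set (ℕ → X), St2Inv f β D q ∧ q.2 ⊆ p.2 ∧
      ((Nat.unpair j).1 ≠ (Nat.unpair j).2 → ∀ d ∈ q.2,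
        f (d (Nat.unpair j).1) ≠ f (d (Nat.unpair j).2) ∧ NZ v (d (Nat.unpair j).1)) ∧
      ∀ x ∈ KK G (j : ℝ), dist (q.1 x) (p.1 x) ≤ (1 / 2) ^ j ∧
        dist (q.1.symm x) (p.1.symm x) ≤ (1 / 2) ^ j := by
  by_cases hj : (Nat.unpair j).1 = (Nat.unpair j).2
  · refine ⟨p, hp, subset_rfl, fun h => absurd hj h, fun x _ => ?_⟩
    rw [dist_self, dist_self]
    exact ⟨by positivity, by positivity⟩
  generalize (Nat.unpair j).1 = n at hj ⊢
  generalize (Nat.unpair j).2 = n' at hj ⊢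
  obtain ⟨P, W⟩ := p
  obtain ⟨hp1, hp2, hp3, hp4⟩ := hp
  simp only at hp1 hp2 hp3 hp4 ⊢
  have hne : P (D n) ≠ P (D n') := fun h => hj (hD (P.toHomeo.injective h))
  obtain ⟨α, hα0, hαs0, hαc, hαsc, ⟨L, hL, hLα⟩, hgen⟩ :=
    st2_family hS hv hΦ hf hβ (fun l => P (D l)) hp4 (n := n) (n' := n') hne
  obtain ⟨η, hη, hstep⟩ := limit_step hS P (isCompact_KK hS (j : ℝ))
    (show (0 : ℝ) < (1 / 2) ^ j by positivity)
  have hKc : IsCompact (KK G (j : ℝ) ∪ P '' KK G (j : ℝ)) :=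
    (isCompact_KK hS _).union ((isCompact_KK hS _).image P.toHomeo.continuous)
  have e1 := st2_near (α := fun s x => α s x) hα0 hαc hKc hη
  have e2 := st2_near (α := fun s x => (α s).symm x) hαs0 hαsc hKc hη
  have hcα : ∀ l, Continuous (fun s => α s (P (D l))) := fun l =>
    hαc.comp (continuous_id.prodMk continuous_const)
  have e3 : ∀ᶠ s in 𝓝 (0 : ℂ), W ∈ 𝓝 (fun l => α s (P (D l))) := by
    have h1 : Tendsto (fun s => fun l => α s (P (D l))) (𝓝 (0 : ℂ)) (𝓝 (fun l => P (D l))) := by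
      have : Continuous (fun s => fun l => α s (P (D l))) := continuous_pi hcα
      have h2 := this.tendsto (0 : ℂ)
      simpa only [hα0] using h2
    exact h1.eventually (eventually_mem_nhds_iff.mpr hp2)
  have e4 : ∀ᶠ s in 𝓝 (0 : ℂ), ∀ l ∈ L, ‖f (α s (P (D l))) - f (D l)‖ < 1 := by
    rw [Filter.eventually_all_finite hL]
    intro l _
    have h1 : Continuous (fun s => ‖f (α s (P (D l))) - f (D l)‖) :=
      (((cont hS f).comp (hcα l)).sub continuous_const).norm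
    have h2 : Tendsto (fun s => ‖f (α s (P (D l))) - f (D l)‖) (𝓝 (0 : ℂ))
        (𝓝 ‖f (P (D l)) - f (D l)‖) := by
      have h2 := h1.tendsto (0 : ℂ)
      simpa only [hα0] using h2
    exact h2.eventually_lt_const (hp3 l)
  have hall := (((e1.and e2).and (e3.and e4)).filter_mono
    (nhdsWithin_le_nhds (s := {(0 : ℂ)}ᶜ))).and hgen
  obtain ⟨s, ⟨⟨hs1, hs2⟩, hs3, hs4⟩, hs5, hs6⟩ := hall.exists
  -- the open set
  have hopen : IsOpen {d : ℕ → X | f (d n) ≠ f (d n') ∧ NZ v (d n)} := by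
    have h1 : IsOpen {d : ℕ → X | f (d n) ≠ f (d n')} :=
      isOpen_ne_fun ((cont hS f).comp (continuous_apply n)) ((cont hS f).comp (continuous_apply n'))
    have hcn : Continuous (fun d : ℕ → X => d n) := continuous_apply n
    have h2 : IsOpen {d : ℕ → X | NZ v (d n)} := (st2_isOpen_NZ hS v).preimage hcn
    exact h1.inter h2
  obtain ⟨W', hW', hW'c, hW's⟩ := exists_mem_nhds_isClosed_subset
    (Filter.inter_mem hs3 (hopen.mem_nhds ⟨hs5, hs6⟩))
  refine ⟨((α s).comp P, W'), ⟨hW'c, hW', ?_, ?_⟩, fun d hd => (hW's hd).1, ?_, ?_⟩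
  · intro l
    show ‖f (α s (P (D l))) - f (D l)‖ < 1
    by_cases hl : l ∈ L
    · exact hs4 l hl
    · rw [hLα l hl]
      exact hp3 l
  · intro k
    refine (hp4 k).congr' ?_
    have h1 : ∀ᶠ l in atTop, l ∉ L := by
      rw [← Nat.cofinite_eq_atTop]
      exact hL.compl_mem_cofinite
    filter_upwards [h1] with l hl
    show ‖f (β k (P (D l)))‖ = ‖f (β k (α s (P (D l))))‖
    rw [hLα l hl]
  · intro _ d hd
    exact (hW's hd).2
  · intro x hx
    exact hstep (α s) (fun z hz => ⟨hs1 z hz, hs2 z hz⟩) x hx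

theorem stage_two (hS : SD0 m O G) {v : Derivation ℂ O O} (hv : IsVF v) {Φ : ℂ → HolAut O}
    (hΦ : IsFlow v Φ) {f : O} (hf : v f = 0) {β : ℕ → HolAut O} (hβ : Fam v Φ f β) (D : ℕ → X)
    (hD : Function.Injective D)
    (hprop : ∀ k, Tendsto (fun n => ‖f (β k (D n))‖) atTop atTop) :
    ∃ Θ : HolAut O, Gen v f (fun n => Θ (D n)) := by
  classical
  have h0 : St2Inv f β D (idAut O, Set.univ) := by
    refine ⟨isClosed_univ, Filter.univ_mem, fun l => ?_, fun k => hprop k⟩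
    show ‖f (D l) - f (D l)‖ < 1
    simp
  choose F hF1 hF2 hF3 hF4 using
    fun (j : ℕ) (p : {p : HolAut O × Set (ℕ → X) // St2Inv f β D p}) =>
      st2_step hS hv hΦ hf hβ D hD j p.1 p.2
  set S : ℕ → {p : HolAut O × Set (ℕ → X) // St2Inv f β D p} := fun j =>
    Nat.rec ⟨(idAut O, Set.univ), h0⟩ (fun j p => ⟨F j p, hF1 j p⟩) j with hSdef
  have hSs : ∀ j, (S (j + 1)).1 = F j (S j) := fun j => rfl
  obtain ⟨Θ, hΘ, -⟩ := limit_aut hS (fun j => (S j).1.1) (fun j => (j : ℝ))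
    tendsto_natCast_atTop_atTop (fun a b h => by simpa using h) (fun j x hx => hF4 j (S j) x hx)
  have hanti : Antitone (fun j => (S j).1.2) :=
    antitone_nat_of_succ_le fun j => hF2 j (S j)
  have hlim : Tendsto (fun j => fun l => (S j).1.1 (D l)) atTop (𝓝 (fun l => Θ (D l))) :=
    tendsto_pi_nhds.mpr fun l => hΘ (D l)
  have hmem : ∀ j, (fun l => Θ (D l)) ∈ (S j).1.2 := by
    intro j
    refine (S j).2.1.mem_of_tendsto hlim ?_
    filter_upwards [eventually_ge_atTop j] with i hi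
    exact hanti hi (mem_of_mem_nhds (S i).2.2.1)
  have hkey : ∀ n n', n ≠ n' → f (Θ (D n)) ≠ f (Θ (D n')) ∧ NZ v (Θ (D n)) := by
    intro n n' hn
    have h1 := hF3 (Nat.pair n n') (S (Nat.pair n n'))
    rw [Nat.unpair_pair] at h1
    exact h1 hn _ (hmem (Nat.pair n n' + 1))
  refine ⟨Θ, ?_, ?_, ?_⟩
  · intro n n' h
    by_contra hn
    exact (hkey n n' hn).1 h
  · have h1 : Tendsto (fun n => ‖f (D n)‖) atTop atTop := by
      have := hprop 0
      simpa only [hβ.1] using this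
    have h2 : ∀ l, ‖f (Θ (D l)) - f (D l)‖ ≤ 1 := by
      intro l
      have h3 : Tendsto (fun j => ‖f ((S j).1.1 (D l)) - f (D l)‖) atTop
          (𝓝 ‖f (Θ (D l)) - f (D l)‖) :=
        ((((cont hS f).tendsto _).comp (hΘ (D l))).sub tendsto_const_nhds).norm
      exact le_of_tendsto' h3 fun j => le_of_lt ((S j).2.2.2.1 l)
    refine tendsto_atTop_mono (f := fun n => ‖f (D n)‖ - 1) (fun l => ?_)
      (tendsto_atTop_add_const_right _ (-1) h1)
    have h4 := h2 l
    have h5 := norm_sub_norm_le (f (D l)) (f (Θ (D l)))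
    rw [norm_sub_rev] at h5
    show ‖f (D l)‖ - 1 ≤ ‖f (Θ (D l))‖
    linarith
  · intro n
    exact (hkey n (n + 1) (Nat.succ_ne_self n).symm).2

end Pool.Agent.MP_fe3720.RR
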