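import Pool.Agent.Work.MP_fe3720_an.R.StageOneC
import Pool.Agent.Work.MP_fe3720_an.R.StageTwo

/-! # Final: the density property and (RR4) imply RR

`T = {φ '' range x | φ ∈ Aut, Gen v f x}`. -/

namespace Pool.Agent.MP_fe3720.RR

open Topology Filter

variable {X : Type} [MetricSpace X] [ProperSpace X] [PreconnectedSpace X]
  {O : Subalgebra ℂ (X → ℂ)} {m N : ℕ} {G : Fin N → O}

/-- a sequence which leaves all compact sets has closed and discrete range -/
private theorem fin_closed_discrete {u : ℕ → X}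
    (hu : ∀ K : Set X, IsCompact K → {n | u n ∈ K}.Finite) :
    IsClosed (Set.range u) ∧ DiscreteTopology (Set.range u) := by
  have key : ∀ x, Disjoint (𝓝[≠] x) (𝓟 (Set.range u)) := by
    intro x
    have h1 : ((u '' {n | u n ∈ Metric.closedBall x 1}) \ {x}).Finite :=
      ((hu _ (isCompact_closedBall x 1)).image u).diff
    have h2 : ((u '' {n | u n ∈ Metric.closedBall x 1}) \ {x})ᶜ ∈ 𝓝 x :=
      h1.isClosed.isOpen_compl.mem_nhds (by simp)
    rw [Filter.disjoint_principal_right, mem_nhdsWithin_iff_eventually]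
    filter_upwards [h2, Metric.ball_mem_nhds x one_pos] with y hy1 hy2 hyx
    rintro ⟨n, rfl⟩
    exact hy1 ⟨⟨n, Metric.ball_subset_closedBall hy2, rfl⟩, hyx⟩
  have h := isClosed_and_discrete_iff.mpr key
  exact ⟨h.1, h.2.to_subtype⟩

private theorem fin_finite {g : ℕ → ℝ} (hg : Tendsto g atTop atTop) (M : ℝ) :
    {n | g n ≤ M}.Finite := by
  have h1 := hg.eventually_gt_atTop M
  rw [← Nat.cofinite_eq_atTop, Filter.eventually_cofinite] at h1
  refine h1.subset fun l hl => ?_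
  exact not_lt.mpr hl

private theorem fin_tendsto {g : ℕ → ℝ} (h : ∀ M : ℝ, {n | g n ≤ M}.Finite) :
    Tendsto g atTop atTop := by
  rw [tendsto_atTop]
  intro M
  rw [← Nat.cofinite_eq_atTop, Filter.eventually_cofinite]
  refine (h M).subset fun l hl => ?_
  exact le_of_not_ge hl

theorem isRR_of_lt (hS : SD m O G) (hDP : LT O) {v : Derivation ℂ O O}
    (hv : IsCompleteVF v) (hv0 : v ≠ 0) {f : O} (hf : v f = 0) (hfc : ∃ x y, f x ≠ f y) :
    IsRR O := by
  have hS0 : SD0 m O G := hS.toSD0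
  obtain ⟨Φ, hΦ⟩ := exists_flow hS0 hv
  refine ⟨{D | ∃ (φ : HolAut O) (x : ℕ → X), Gen v f x ∧ D = φ '' Set.range x}, ?_, ?_, ?_, ?_,
    v, hv, hv0, f, hfc, hf⟩
  · rintro _ ⟨φ, x, hx, rfl⟩
    have hinj : Function.Injective (fun n => φ (x n)) := by
      intro n n' h
      exact hx.inj (congrArg f.1 (φ.toHomeo.injective h))
    have hr : (φ '' Set.range x : Set X) = Set.range (fun n => φ (x n)) := by
      rw [← Set.range_comp]
      rfl
    have hfin : ∀ K : Set X, IsCompact K → {n | φ (x n) ∈ K}.Finite := by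
      intro K hK
      obtain ⟨B, hB⟩ := (hK.image φ.toHomeo.symm.continuous).exists_bound_of_continuousOn
        (cont hS0 f).continuousOn
      refine (fin_finite hx.large B).subset fun n hn => ?_
      exact hB (x n) ⟨φ (x n), hn, φ.symm_apply_self (x n)⟩
    have h1 := fin_closed_discrete hfin
    rw [hr]
    exact ⟨Set.infinite_range_of_injective hinj, h1⟩
  · rintro _ ⟨φ, x, hx, rfl⟩ _ ⟨ψ, y, hy, rfl⟩ ι hι hinj
    have hmem : ∀ n, φ (x n) ∈ (φ '' Set.range x : Set X) := fun n => ⟨x n, ⟨n, rfl⟩, rfl⟩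
    have h1 : ∀ n, ∃ k, ψ (y k) = ι (φ (x n)) := by
      intro n
      obtain ⟨_, ⟨k, rfl⟩, hk⟩ := hι (hmem n)
      exact ⟨k, hk⟩
    choose σ hσ using h1
    have hσi : Function.Injective σ := by
      intro n n' h
      have h2 : ι (φ (x n)) = ι (φ (x n')) := by rw [← hσ, ← hσ, h]
      exact hx.inj (congrArg f.1 (φ.toHomeo.injective (hinj (hmem n) (hmem n') h2)))
    have hz : Gen v f (fun n => y (σ n)) :=
      ⟨hy.inj.comp hσi, hy.large.comp hσi.nat_tendsto_atTop, fun n => hy.nz _⟩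
    obtain ⟨β, -, hβ⟩ := interpolate hS hDP hv.1 hΦ hf hx hz (k := 0) (fun i => i.elim0)
      (fun i => i.elim0) (fun i => i.elim0) (fun i => i.elim0) (fun i => i.elim0)
      (fun i => i.elim0)
    refine ⟨ψ.comp (β.comp φ.symm), ?_⟩
    rintro _ ⟨_, ⟨n, rfl⟩, rfl⟩
    rw [HolAut.comp_apply, HolAut.comp_apply, HolAut.symm_apply_self, hβ]
    exact hσ n
  · obtain ⟨a, ha1, ha2, ha3⟩ := exists_seq hS0 hDP hv0 hfc
    obtain ⟨β, n₀, hβ, hβa⟩ := exists_family hS hDP hv.1 hv0 hΦ hf hfc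
      (a := a) ⟨ha1, ha2, ha3⟩
    obtain ⟨R, hR0, hRu, hR⟩ := stage_one hS hDP ha1 ha2 hβa
    refine ⟨fun x => ‖(fun i => (G i) x : Fin N → ℂ)‖, ?_, fun x => norm_nonneg _, fun c => ?_,
      R, hR0, hRu, fun D hDi hDR => ?_⟩
    · exact (continuous_pi fun i => cont hS0 (G i)).norm
    · refine (isCompact_KK hS0 c).of_isClosed_subset ?_ fun x hx i => ?_
      · exact isClosed_le (continuous_pi fun i => cont hS0 (G i)).norm continuous_const
      · exact (norm_le_pi_norm (fun i => (G i) x : Fin N → ℂ) i).trans hx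
    · obtain ⟨Θ, hΘ⟩ := hR D hDR
      have hcount : D.Countable := by
        have h1 : D ⊆ ⋃ M : ℕ, {x ∈ D | ‖f (β 0 (Θ x))‖ ≤ M} := by
          intro x hx
          obtain ⟨M, hM⟩ := exists_nat_ge ‖f (β 0 (Θ x))‖
          exact Set.mem_iUnion.mpr ⟨M, hx, hM⟩
        exact (Set.countable_iUnion fun M : ℕ => (hΘ 0 M).countable).mono h1
      have : Countable D := hcount.to_subtype
      have : Infinite D := hDi.to_subtype
      obtain ⟨e⟩ : Nonempty (ℕ ≃ D) := by
        obtain ⟨h⟩ := nonempty_denumerable D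
        exact ⟨(Denumerable.eqv D).symm⟩
      obtain ⟨Θ', hΘ'⟩ := stage_two hS0 hv.1 hΦ hf hβ (fun n => Θ (e n))
        (fun n n' h => e.injective (Subtype.ext (Θ.toHomeo.injective h)))
        (fun k => fin_tendsto fun M => by
          refine Set.Finite.preimage (f := fun n => (e n : X))
            ((Subtype.val_injective.comp e.injective).injOn) (hΘ k M) |>.subset fun n hn => ?_
          exact ⟨(e n).2, hn⟩)
      refine ⟨(Θ'.comp Θ).symm, _, hΘ', ?_⟩
      ext x
      constructor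
      · intro hx
        refine ⟨Θ' (Θ x), ⟨e.symm ⟨x, hx⟩, ?_⟩, ?_⟩
        · show Θ' (Θ (e (e.symm ⟨x, hx⟩))) = _
          rw [e.apply_symm_apply]
        · exact (Θ'.comp Θ).symm_apply_self x
      · rintro ⟨_, ⟨n, rfl⟩, rfl⟩
        have h1 : (Θ'.comp Θ).symm (Θ' (Θ (e n))) = (e n : X) :=
          (Θ'.comp Θ).symm_apply_self (e n : X)
        show (Θ'.comp Θ).symm (Θ' (Θ (e n))) ∈ D
        rw [h1]
        exact (e n).2
  · rintro φ _ ⟨φ', x, hx, rfl⟩
    refine ⟨φ.comp φ', x, hx, ?_⟩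
    rw [← Set.image_comp]
    rfl

theorem isRR_of_density (hS : SD m O G) (hDP : DensityProperty O) {v : Derivation ℂ O O}
    (hv : IsCompleteVF v) (hv0 : v ≠ 0) {f : O} (hf : v f = 0) (hfc : ∃ x y, f x ≠ f y) :
    IsRR O :=
  isRR_of_lt hS (lt_of_at hS.toSD0 (at_of_dp hS.toSD0 hDP)) hv hv0 hf hfc

end Pool.Agent.MP_fe3720.RR
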