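import Pool.Agent.Work.MP_fe3720_an.R.LC

/-! # FlowA: Taylor series along integral curves, uniqueness -/

namespace Pool.Agent.MP_fe3720.RR

open Topology

variable {X : Type} [MetricSpace X] {O : Subalgebra ℂ (X → ℂ)}

/-- `γ` is an integral curve of `D` -/
def IsCurve (D : Derivation ℂ O O) (γ : ℂ → X) : Prop :=
  ∀ (f : O) (t : ℂ), HasDerivAt (fun s => f (γ s)) ((D f) (γ t)) t

theorem iter_deriv {D : Derivation ℂ O O} {γ : ℂ → X} (hγ : IsCurve D γ) (f : O) (n : ℕ)
    (t : ℂ) : iteratedDeriv n (fun s => f (γ s)) t = (((fun g : O => D g)^[n]) f) (γ t) := by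
  induction n generalizing t with
  | zero => simp
  | succ n ih =>
    rw [iteratedDeriv_succ]
    have h1 : iteratedDeriv n (fun s => f (γ s)) = fun s => (((fun g : O => D g)^[n]) f) (γ s) :=
      funext ih
    rw [h1, (hγ _ t).deriv, Function.iterate_succ_apply']

theorem IsCurve.differentiable {D : Derivation ℂ O O} {γ : ℂ → X} (hγ : IsCurve D γ) (f : O) :
    Differentiable ℂ (fun s => f (γ s)) := fun t => (hγ f t).differentiableAt

theorem flow_taylor {D : Derivation ℂ O O} {γ : ℂ → X} (hγ : IsCurve D γ) (f : O) (s t : ℂ) :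
    HasSum (fun n : ℕ => t ^ n * (((n.factorial : ℂ)⁻¹ • ((fun g : O => D g)^[n]) f : O) (γ s)))
      (f (γ (s + t))) := by
  have h := Complex.hasSum_taylorSeries_of_entire (hγ.differentiable f) s (s + t)
  have e : (fun n : ℕ => (n.factorial : ℂ)⁻¹ • (s + t - s) ^ n •
      iteratedDeriv n (fun s => f (γ s)) s) =
      fun n : ℕ => t ^ n * (((n.factorial : ℂ)⁻¹ • ((fun g : O => D g)^[n]) f : O) (γ s)) := by
    funext n
    rw [iter_deriv hγ, add_sub_cancel_left]
    simp only [smul_eq_mul]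
    have h2 : (((n.factorial : ℂ)⁻¹ • ((fun g : O => D g)^[n]) f : O) (γ s)) =
        (n.factorial : ℂ)⁻¹ * (((fun g : O => D g)^[n]) f) (γ s) := rfl
    rw [h2]
    ring
  rw [e] at h
  exact h

/-- Cauchy's estimate along an integral curve -/
theorem flow_cauchy {D : Derivation ℂ O O} {γ : ℂ → X} (hγ : IsCurve D γ) (f : O) (s : ℂ)
    {τ B : ℝ} (hτ : 0 < τ) (hB : ∀ t, ‖t‖ ≤ τ → ‖f (γ (s + t))‖ ≤ B) (n : ℕ) :
    ‖((n.factorial : ℂ)⁻¹ • ((fun g : O => D g)^[n]) f : O) (γ s)‖ ≤ B / τ ^ n := by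
  have h := Complex.norm_iteratedDeriv_le_of_forall_mem_sphere_norm_le (c := s) (R := τ) (C := B)
    (f := fun s => f (γ s)) n hτ (hγ.differentiable f).diffContOnCl (fun z hz => by
      have := hB (z - s) (by
        rw [mem_sphere_iff_norm] at hz
        exact hz.le)
      simpa using this)
  rw [iter_deriv hγ] at h
  have h2 : (((n.factorial : ℂ)⁻¹ • ((fun g : O => D g)^[n]) f : O) (γ s)) =
      (n.factorial : ℂ)⁻¹ * (((fun g : O => D g)^[n]) f) (γ s) := rfl
  rw [h2, norm_mul, norm_inv, Complex.norm_natCast]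
  have hpos : (0 : ℝ) < n.factorial := by exact_mod_cast Nat.factorial_pos n
  calc (n.factorial : ℝ)⁻¹ * ‖(((fun g : O => D g)^[n]) f) (γ s)‖
      ≤ (n.factorial : ℝ)⁻¹ * (n.factorial * B / τ ^ n) := by gcongr
    _ = B / τ ^ n := by field_simp

theorem flow_unique (hsep : ∀ x y : X, (∀ f : O, f x = f y) → x = y) {D : Derivation ℂ O O}
    {γ γ' : ℂ → X} (hγ : IsCurve D γ) (hγ' : IsCurve D γ') (h0 : γ 0 = γ' 0) : γ = γ' := by
  funext t
  refine hsep _ _ fun f => ?_
  have h1 := flow_taylor hγ f 0 t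
  have h2 := flow_taylor hγ' f 0 t
  rw [h0] at h1
  rw [zero_add] at h1 h2
  exact h1.unique h2

theorem isCurve_shift {D : Derivation ℂ O O} {γ : ℂ → X} (hγ : IsCurve D γ) (s : ℂ) :
    IsCurve D (fun t => γ (t + s)) := by
  intro f t
  exact (hγ f (t + s)).comp_add_const t s

end Pool.Agent.MP_fe3720.RR
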