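import Pool.Agent.Work.MP_fe3720_an.R.FlowA
import Pool.Agent.Work.MP_fe3720_an.R.OC

/-! # FlowB: the flow of a complete field is jointly continuous -/

namespace Pool.Agent.MP_fe3720.RR

open Topology

variable {X : Type} [MetricSpace X] {O : Subalgebra ℂ (X → ℂ)} {m N : ℕ}
  {G : Fin N → O}

theorem curve_real_deriv {D : Derivation ℂ O O} {γ : ℂ → X} (hγ : IsCurve D γ) (f : O) (t : ℂ)
    (μ : ℝ) : HasDerivAt (fun μ : ℝ => f (γ (μ * t))) ((D f) (γ (μ * t)) * t) μ := by
  have h1 : HasDerivAt (fun z : ℂ => z * t) t (μ : ℂ) := by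
    simpa using (hasDerivAt_id (μ : ℂ)).mul_const t
  have h2 := (hγ f ((μ : ℂ) * t)).comp (μ : ℂ) h1
  exact h2.comp_ofReal

/-- short curves stay in a compact set -/
theorem curve_stay (hS : SD0 m O G) {D : Derivation ℂ O O} {γ : ℂ → X} (hc : Continuous γ)
    (hγ : IsCurve D γ) {r M : ℝ} (hM : 0 ≤ M)
    (hMb : ∀ i, ∀ x ∈ KK G (2 * r), ‖(D (G i)) x‖ ≤ M) (h0 : γ 0 ∈ KK G r) {t : ℂ}
    (ht : ‖t‖ * M < r) : γ t ∈ KK G (2 * r) := by
  have hr : 0 < r := lt_of_le_of_lt (by positivity) ht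
  set φ : ℝ → X := fun μ => γ (μ * t) with hφ
  have hφc : Continuous φ := hc.comp (by fun_prop)
  set s : Set ℝ := {l | ∀ μ ∈ Set.Icc 0 l, φ μ ∈ KK G (2 * r)} with hs
  have key : Set.Icc (0 : ℝ) 1 ⊆ s := by
    refine IsClosed.Icc_subset_of_forall_exists_gt ?_ ?_ ?_
    · -- closed
      have hcl : IsClosed (φ ⁻¹' KK G (2 * r)) := (isClosed_KK hS _).preimage hφc
      rw [← isOpen_compl_iff, isOpen_iff_mem_nhds]
      rintro l hl
      by_cases hl1 : l ∈ Set.Icc (0 : ℝ) 1
      · have hls : l ∉ s := fun h => hl ⟨h, hl1⟩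
        rw [hs, Set.mem_setOf_eq] at hls
        push Not at hls
        obtain ⟨μ, hμ, hμK⟩ := hls
        rcases hμ.2.lt_or_eq with hlt | heq
        · filter_upwards [lt_mem_nhds hlt] with l' hl' hcon
          exact hμK (hcon.1 μ ⟨hμ.1, hl'.le⟩)
        · subst heq
          have : (φ ⁻¹' KK G (2 * r))ᶜ ∈ 𝓝 μ := hcl.isOpen_compl.mem_nhds hμK
          filter_upwards [this] with l' hl' hcon
          exact hl' (hcon.1 l' ⟨hcon.2.1, le_rfl⟩)
      · filter_upwards [isClosed_Icc.isOpen_compl.mem_nhds hl1] with l' hl' hcon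
        exact hl' hcon.2
    · intro μ hμ
      have : μ = 0 := le_antisymm hμ.2 hμ.1
      rw [this]
      have h1 : φ 0 = γ 0 := by simp [hφ]
      rw [h1]
      exact KK_mono (by linarith) h0
    · rintro l ⟨hl, hl0, hl1⟩ y hy
      -- strict bound at `l`
      have hb : ∀ i, ‖(G i) (φ l)‖ < 2 * r := by
        intro i
        have h1 := norm_image_sub_le_of_norm_deriv_le_segment' (a := 0) (b := l)
          (f := fun μ : ℝ => (G i) (γ (μ * t))) (C := M * ‖t‖)
          (f' := fun μ : ℝ => (D (G i)) (γ (μ * t)) * t)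
          (fun μ _ => (curve_real_deriv hγ (G i) t μ).hasDerivWithinAt)
          (fun μ hμ => by
            rw [norm_mul]
            have := hMb i _ (hl μ ⟨hμ.1, hμ.2.le⟩)
            gcongr) l ⟨hl0, le_rfl⟩
        have h2 : ‖(G i) (γ (((0 : ℝ) : ℂ) * t))‖ ≤ r := by
          have : ((0 : ℝ) : ℂ) * t = 0 := by simp
          rw [this]
          exact h0 i
        have h3 : ‖(G i) (φ l)‖ ≤ ‖(G i) (φ l) - (G i) (γ (((0 : ℝ) : ℂ) * t))‖ +
            ‖(G i) (γ (((0 : ℝ) : ℂ) * t))‖ := by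
          have := norm_add_le ((G i) (φ l) - (G i) (γ (((0 : ℝ) : ℂ) * t)))
            ((G i) (γ (((0 : ℝ) : ℂ) * t)))
          simpa using this
        have h4 : M * ‖t‖ * (l - 0) ≤ M * ‖t‖ := by
          have : 0 ≤ M * ‖t‖ := by positivity
          nlinarith
        have h5 : ‖(G i) (φ l) - (G i) (γ (((0 : ℝ) : ℂ) * t))‖ ≤ M * ‖t‖ := h1.trans h4
        nlinarith
      have hev : ∀ᶠ μ in 𝓝 l, φ μ ∈ KK G (2 * r) := by
        have h6 : ∀ i, ∀ᶠ μ in 𝓝 l, ‖(G i) (φ μ)‖ < 2 * r := fun i =>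
          (((cont hS (G i)).comp hφc).norm.continuousAt).eventually_lt_const (hb i)
        filter_upwards [Filter.eventually_all.mpr h6] with μ hμ i
        exact (hμ i).le
      obtain ⟨δ, hδ, hδb⟩ := Metric.eventually_nhds_iff.mp hev
      refine ⟨min y (l + δ / 2), fun μ hμ => ?_, ⟨lt_min hy (by linarith), min_le_left _ _⟩⟩
      rcases le_or_gt μ l with h | h
      · exact hl μ ⟨hμ.1, h⟩
      · apply hδb
        rw [Real.dist_eq, abs_of_pos (by linarith)]
        have := hμ.2.trans (min_le_right _ _)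
        linarith
  have h1 := key (Set.right_mem_Icc.mpr zero_le_one) 1 ⟨zero_le_one, le_rfl⟩
  have h2 : φ 1 = γ t := by simp [hφ]
  rwa [h2] at h1

theorem flow_cont_local [ProperSpace X] (hS : SD0 m O G) {D : Derivation ℂ O O} (γ : X → ℂ → X)
    (hc : ∀ x, Continuous (γ x)) (h0 : ∀ x, γ x 0 = x) (hγ : ∀ x, IsCurve D (γ x)) {r : ℝ}
    (hr : 0 < r) : ∃ τ > 0, ContinuousOn (fun p : ℂ × X => γ p.2 p.1)
      (Metric.closedBall 0 τ ×ˢ KK G r) := by
  have hbd : ∀ i, ∃ B : ℝ, ∀ x ∈ KK G (2 * r), ‖(D (G i)) x‖ ≤ B := fun i =>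
    (isCompact_KK hS (2 * r)).exists_bound_of_continuousOn (cont hS (D (G i))).continuousOn
  choose B hB using hbd
  set M : ℝ := ∑ j, |B j| + 1 with hM
  have hMpos : 0 < M := by positivity
  have hMb : ∀ i, ∀ x ∈ KK G (2 * r), ‖(D (G i)) x‖ ≤ M := fun i x hx => by
    have h1 := hB i x hx
    have h2 := (le_abs_self _).trans (Finset.single_le_sum (fun j _ => abs_nonneg (B j))
      (Finset.mem_univ i))
    linarith
  set τ : ℝ := r / (2 * M) with hτ
  have hτpos : 0 < τ := by positivity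
  have hstay : ∀ x ∈ KK G r, ∀ t : ℂ, ‖t‖ ≤ τ → γ x t ∈ KK G (2 * r) := by
    intro x hx t ht
    refine curve_stay hS (hc x) (hγ x) hMpos.le hMb (by rw [h0]; exact hx) ?_
    have : ‖t‖ * M ≤ τ * M := by gcongr
    have h3 : τ * M = r / 2 := by rw [hτ]; field_simp
    linarith
  refine ⟨τ / 2, by positivity, continuousOn_of_G hS fun i => ?_⟩
  obtain ⟨C, hC⟩ := (isCompact_KK hS (2 * r)).exists_bound_of_continuousOn
    (cont hS (G i)).continuousOn
  have heq : ∀ p ∈ Metric.closedBall (0 : ℂ) (τ / 2) ×ˢ KK G r,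
      (G i) (γ p.2 p.1) = ∑' n : ℕ, p.1 ^ n *
        (((n.factorial : ℂ)⁻¹ • ((fun g : O => D g)^[n]) (G i) : O) p.2) := by
    intro p _
    have h1 := (flow_taylor (hγ p.2) (G i) 0 p.1).tsum_eq
    rw [zero_add, h0] at h1
    exact h1.symm
  refine ContinuousOn.congr ?_ heq
  refine continuousOn_tsum (u := fun n : ℕ => |C| * (1 / 2) ^ n) (fun n => ?_) ?_ ?_
  · exact ((continuous_fst.pow n).mul ((cont hS _).comp continuous_snd)).continuousOn
  · exact (summable_geometric_two).mul_left _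
  · rintro n p ⟨hp1, hp2⟩
    have h1 := flow_cauchy (hγ p.2) (G i) 0 hτpos (B := |C|) (fun t ht => by
      rw [zero_add]
      exact (hC _ (hstay p.2 hp2 t ht)).trans (le_abs_self C)) n
    rw [h0] at h1
    rw [norm_mul, norm_pow]
    have h2 : ‖p.1‖ ≤ τ / 2 := by simpa using hp1
    calc ‖p.1‖ ^ n * ‖(((n.factorial : ℂ)⁻¹ • ((fun g : O => D g)^[n]) (G i) : O) p.2)‖
        ≤ (τ / 2) ^ n * (|C| / τ ^ n) := by gcongr
      _ = |C| * (1 / 2) ^ n := by
          have hτn : τ ^ n ≠ 0 := pow_ne_zero n hτpos.ne'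
          have e1 : (τ / 2) ^ n = τ ^ n * (1 / 2) ^ n := by
            rw [← mul_pow]
            congr 1
            ring
          rw [e1, mul_comm (τ ^ n), mul_assoc, mul_div_cancel₀ _ hτn, mul_comm]

theorem flow_cont [ProperSpace X] (hS : SD0 m O G) {D : Derivation ℂ O O} (γ : X → ℂ → X)
    (hc : ∀ x, Continuous (γ x)) (h0 : ∀ x, γ x 0 = x) (hγ : ∀ x, IsCurve D (γ x)) :
    Continuous (fun p : ℂ × X => γ p.2 p.1) := by
  rw [continuous_iff_continuousAt]
  rintro ⟨t₀, x₀⟩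
  have hK : IsCompact ((fun l : ℝ => γ x₀ (l * t₀)) '' Set.Icc 0 1) :=
    isCompact_Icc.image ((hc x₀).comp (by fun_prop))
  obtain ⟨r, hr0, hr⟩ := exists_KK hS hK
  have hKr := hr r le_rfl
  obtain ⟨τ, hτ, hcont⟩ := flow_cont_local hS γ hc h0 hγ hr0
  obtain ⟨n, hn⟩ := exists_nat_gt (‖t₀‖ / τ)
  have hn0 : (0 : ℝ) < n := lt_of_le_of_lt (by positivity) hn
  have hn' : ‖t₀‖ / n < τ := by
    rw [div_lt_iff₀ hτ] at hn
    rw [div_lt_iff₀ hn0]
    linarith
  have hadd : ∀ x s t, γ x (s + t) = γ (γ x s) t := by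
    intro x s t
    have h1 := flow_unique (fun x y h => eq_of_G hS fun i => h (G i))
      (isCurve_shift (hγ x) s) (hγ (γ x s)) (by rw [h0, zero_add])
    have := congrFun h1 t
    rw [← this, add_comm]
  have hstep : ∀ y₀ ∈ interior (KK G r),
      ContinuousAt (fun p : ℂ × X => γ p.2 (p.1 / n)) (t₀, y₀) := by
    intro y₀ hy₀
    have h1 : ContinuousAt (fun p : ℂ × X => γ p.2 p.1) (t₀ / n, y₀) := by
      refine hcont.continuousAt ?_
      refine prod_mem_nhds ?_ (mem_interior_iff_mem_nhds.mp hy₀)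
      refine Filter.mem_of_superset (Metric.isOpen_ball.mem_nhds (x := t₀ / n) ?_)
        (Metric.ball_subset_closedBall (x := (0 : ℂ)) (ε := τ))
      rw [mem_ball_zero_iff, norm_div, Complex.norm_natCast]
      exact hn'
    have h2 : ContinuousAt (fun p : ℂ × X => (p.1 / n, p.2)) (t₀, y₀) := by
      refine Continuous.continuousAt ?_
      exact (continuous_fst.div_const _).prodMk continuous_snd
    exact ContinuousAt.comp (f := fun p : ℂ × X => (p.1 / n, p.2)) h1 h2
  have key : ∀ k : ℕ, k ≤ n → ContinuousAt (fun p : ℂ × X => γ p.2 (k * (p.1 / n))) (t₀, x₀) := by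
    intro k
    induction k with
    | zero =>
      intro _
      have : (fun p : ℂ × X => γ p.2 (((0 : ℕ) : ℂ) * (p.1 / n))) = fun p => p.2 := by
        funext p
        rw [Nat.cast_zero, zero_mul, h0]
      rw [this]
      exact continuousAt_snd
    | succ k ih =>
      intro hk
      have h1 := ih (by omega)
      have h2 : (fun p : ℂ × X => γ p.2 (((k + 1 : ℕ) : ℂ) * (p.1 / n))) =
          (fun p : ℂ × X => γ p.2 (p.1 / n)) ∘ (fun p => (p.1, γ p.2 (k * (p.1 / n)))) := by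
        funext p
        show γ p.2 _ = γ (γ p.2 (k * (p.1 / n))) (p.1 / n)
        rw [← hadd]
        congr 1
        push_cast
        ring
      rw [h2]
      refine ContinuousAt.comp ?_ (continuousAt_fst.prodMk h1)
      refine hstep _ (hKr ⟨k / n, ⟨by positivity, ?_⟩, ?_⟩)
      · rw [div_le_one hn0]
        exact_mod_cast (by omega : k ≤ n)
      · show γ x₀ _ = γ x₀ _
        congr 1
        push_cast
        ring
  have h1 := key n le_rfl
  have h2 : (fun p : ℂ × X => γ p.2 ((n : ℂ) * (p.1 / n))) = fun p => γ p.2 p.1 := by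
    funext p
    congr 1
    have : (n : ℂ) ≠ 0 := by
      have := hn0.ne'
      exact_mod_cast this
    field_simp
  rwa [h2] at h1

end Pool.Agent.MP_fe3720.RR
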