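import Mathlib

/-! # Interp: entire functions with prescribed values on a discrete set (Mathlib only)

Enlarge `S` by the natural numbers: it is infinite, countable, closed discrete; let `c : ℕ → ℂ` be an enumeration
(injective), `|c n| → ∞`. Construct polynomials `p n (z) = A n * ∏_{j < n} (z - c j) * (z / c n)^{k n}` (without the last factor if
`c n = 0`), where `A n` is chosen such that `(∑_{i ≤ n} p i) (c n) = w (c n)` and then `k n` so large that
`|p n| ≤ 2^{-n}` on `|z| ≤ |c n| / 2` (note that `A n` does not depend on `k n`). The series converges locally uniformly to an entire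
function (`differentiableOn_tsum_of_summable_norm` or `TendstoLocallyUniformlyOn.differentiableOn`), and its value at `c n` is the finite sum. -/

namespace Pool.Agent.MP_fe3720.RR

open Topology

private theorem interp_step (F : Finset ℂ) (x : ℂ) (hx : x ∉ F) (v : ℂ) (ε : ℝ) (hε : 0 < ε) :
    ∃ p : ℂ → ℂ, Differentiable ℂ p ∧ (∀ y ∈ F, p y = 0) ∧ p x = v ∧
      ∀ z, ‖z‖ < ‖x‖ / 2 → ‖p z‖ ≤ ε := by
  set Q : ℂ → ℂ := fun z => ∏ y ∈ F, (z - y) with hQ
  have hQd : Differentiable ℂ Q := by
    rw [hQ]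
    fun_prop
  have hQx : Q x ≠ 0 := by
    rw [hQ]
    simp only
    rw [Finset.prod_ne_zero_iff]
    intro y hy h0
    rw [sub_eq_zero] at h0
    exact hx (h0 ▸ hy)
  have hQF : ∀ y ∈ F, Q y = 0 := by
    intro y hy
    rw [hQ]
    exact Finset.prod_eq_zero hy (sub_self y)
  by_cases hx0 : x = 0
  · refine ⟨fun z => v / Q x * Q z, hQd.const_mul _, fun y hy => ?_, ?_, fun z hz => ?_⟩
    · simp only [hQF y hy, mul_zero]
    · field_simp
    · exfalso
      rw [hx0, norm_zero, zero_div] at hz
      exact absurd hz (not_lt.mpr (norm_nonneg z))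
  · have hcont : Continuous (fun z => v / Q x * Q z) := continuous_const.mul hQd.continuous
    obtain ⟨M, hM⟩ := (isCompact_closedBall (0 : ℂ) (‖x‖ / 2)).exists_bound_of_continuousOn
      hcont.continuousOn
    have hM0 : 0 ≤ M := (norm_nonneg _).trans (hM 0 (by
      simp only [Metric.mem_closedBall, dist_self]
      positivity))
    obtain ⟨k, hk⟩ := exists_pow_lt_of_lt_one (show 0 < ε / (M + 1) by positivity)
      (show (1 / 2 : ℝ) < 1 by norm_num)
    refine ⟨fun z => v / Q x * Q z * (z / x) ^ k, ?_, fun y hy => ?_, ?_, fun z hz => ?_⟩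
    · exact (hQd.const_mul _).mul ((differentiable_id.div_const x).pow k)
    · simp only [hQF y hy, mul_zero, zero_mul]
    · simp only
      rw [div_self hx0, one_pow, mul_one]
      field_simp
    · simp only
      rw [norm_mul, norm_pow, norm_div]
      have h1 := hM z (by rw [mem_closedBall_zero_iff]; exact hz.le)
      have hx1 : 0 < ‖x‖ := norm_pos_iff.mpr hx0
      have h2 : ‖z‖ / ‖x‖ ≤ 1 / 2 := by
        rw [div_le_iff₀ hx1]
        linarith
      calc _ ≤ M * (1 / 2) ^ k := by
            apply mul_le_mul h1 _ (by positivity) hM0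
            gcongr
        _ ≤ (M + 1) * (ε / (M + 1)) := by gcongr; linarith
        _ = ε := by field_simp

theorem interp (S : Set ℂ) (hS : ∀ R : ℝ, (S ∩ Metric.closedBall 0 R).Finite) (w : ℂ → ℂ) :
    ∃ g : ℂ → ℂ, Differentiable ℂ g ∧ ∀ z ∈ S, g z = w z := by
  set S' : Set ℂ := S ∪ Set.range (fun n : ℕ => (n : ℂ)) with hS'
  have hfin : ∀ R : ℝ, (S' ∩ Metric.closedBall 0 R).Finite := by
    intro R
    have h1 : (Set.range (fun n : ℕ => (n : ℂ)) ∩ Metric.closedBall 0 R) ⊆
        (fun n : ℕ => (n : ℂ)) '' (Finset.range (⌊R⌋₊ + 1) : Set ℕ) := by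
      rintro z ⟨⟨n, rfl⟩, hn⟩
      refine ⟨n, ?_, rfl⟩
      rw [mem_closedBall_zero_iff] at hn
      simp only [Complex.norm_natCast] at hn
      have := Nat.le_floor hn
      simp only [Finset.coe_range, Set.mem_Iio]
      omega
    rw [hS', Set.union_inter_distrib_right]
    exact (hS R).union ((Finset.finite_toSet _).image _ |>.subset h1)
  have hcount : S'.Countable := by
    have h1 : S' ⊆ ⋃ n : ℕ, (S' ∩ Metric.closedBall 0 (n : ℝ)) := by
      intro z hz
      obtain ⟨n, hn⟩ := exists_nat_ge ‖z‖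
      exact Set.mem_iUnion.mpr ⟨n, hz, by rw [mem_closedBall_zero_iff]; exact hn⟩
    exact (Set.countable_iUnion fun n : ℕ => (hfin (n : ℝ)).countable).mono h1
  have hinf : S'.Infinite := by
    apply Set.Infinite.mono Set.subset_union_right
    exact Set.infinite_range_of_injective Nat.cast_injective
  have : Countable S' := hcount.to_subtype
  have : Infinite S' := hinf.to_subtype
  obtain ⟨e⟩ := nonempty_equiv_of_countable (α := ℕ) (β := S')
  set c : ℕ → ℂ := fun n => (e n : ℂ) with hc
  have hcinj : Function.Injective c := fun a b h => e.injective (Subtype.ext h)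
  have hcsur : ∀ z ∈ S', ∃ n, c n = z := by
    intro z hz
    obtain ⟨n, hn⟩ := e.surjective ⟨z, hz⟩
    exact ⟨n, by rw [hc]; simp only [hn]⟩
  have hcfin : ∀ R : ℝ, {n | ‖c n‖ ≤ R}.Finite := by
    intro R
    have h1 : c '' {n | ‖c n‖ ≤ R} ⊆ S' ∩ Metric.closedBall 0 R := by
      rintro z ⟨n, hn, rfl⟩
      exact ⟨(e n).2, by rw [mem_closedBall_zero_iff]; exact hn⟩
    exact Set.Finite.of_finite_image ((hfin R).subset h1) hcinj.injOn
  -- the recursion
  have hstep : ∀ (n : ℕ) (f : ℂ → ℂ), ∃ p : ℂ → ℂ, Differentiable ℂ p ∧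
      (∀ j < n, p (c j) = 0) ∧ p (c n) = w (c n) - f (c n) ∧
      ∀ z, ‖z‖ < ‖c n‖ / 2 → ‖p z‖ ≤ (1 / 2 : ℝ) ^ n := by
    intro n f
    obtain ⟨p, h1, h2, h3, h4⟩ := interp_step ((Finset.range n).image c) (c n) (by
      rw [Finset.mem_image]
      rintro ⟨j, hj, hjn⟩
      have := hcinj hjn
      rw [Finset.mem_range] at hj
      omega) (w (c n) - f (c n)) ((1 / 2 : ℝ) ^ n) (by positivity)
    exact ⟨p, h1, fun j hj => h2 _ (Finset.mem_image.mpr ⟨j, Finset.mem_range.mpr hj, rfl⟩),
      h3, h4⟩
  choose P hP1 hP2 hP3 hP4 using hstep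
  set f : ℕ → ℂ → ℂ := fun n => Nat.rec (fun _ => 0) (fun n f => f + P n f) n with hf
  have hf0 : f 0 = fun _ => 0 := rfl
  have hfs : ∀ n, f (n + 1) = f n + P n (f n) := fun n => rfl
  set p : ℕ → ℂ → ℂ := fun n => P n (f n) with hp
  have hfsum : ∀ n z, f n z = ∑ i ∈ Finset.range n, p i z := by
    intro n z
    induction n with
    | zero => rw [hf0]; simp
    | succ n ih => rw [hfs, Finset.sum_range_succ, Pi.add_apply, ih]
  have hval : ∀ n, ∑' i, p i (c n) = w (c n) := by
    intro n
    rw [tsum_eq_sum (s := Finset.range (n + 1)) (fun i hi => by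
      rw [Finset.mem_range] at hi
      exact hP2 i (f i) n (by omega))]
    rw [← hfsum, hfs, Pi.add_apply, hP3]
    ring
  refine ⟨fun z => ∑' i, p i z, ?_, ?_⟩
  · intro z0
    set R : ℝ := ‖z0‖ + 1 with hR
    have hbd : ∀ i, ∃ M : ℝ, 0 ≤ M ∧ ∀ z ∈ Metric.closedBall (0 : ℂ) R, ‖p i z‖ ≤ M := by
      intro i
      obtain ⟨M, hM⟩ := (isCompact_closedBall (0 : ℂ) R).exists_bound_of_continuousOn
        (hP1 i (f i)).continuous.continuousOn
      exact ⟨M, (norm_nonneg _).trans (hM 0 (by
        rw [mem_closedBall_zero_iff, norm_zero]; positivity)), hM⟩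
    choose M hM0 hM using hbd
    have hsum : Summable (fun i => (1 / 2 : ℝ) ^ i + if ‖c i‖ ≤ 2 * R then M i else 0) := by
      apply Summable.add summable_geometric_two
      apply summable_of_hasFiniteSupport
      apply (hcfin (2 * R)).subset
      intro i hi
      by_contra hcon
      exact hi (if_neg hcon)
    have hd := Complex.differentiableOn_tsum_of_summable_norm (U := Metric.ball (0 : ℂ) R) hsum
      (fun i => (hP1 i (f i)).differentiableOn) Metric.isOpen_ball (F := p) (by
        intro i z hz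
        rw [mem_ball_zero_iff] at hz
        by_cases hci : ‖c i‖ ≤ 2 * R
        · rw [if_pos hci]
          have h1 := hM i z (by rw [mem_closedBall_zero_iff]; exact hz.le)
          have h2 : (0 : ℝ) ≤ (1 / 2) ^ i := by positivity
          linarith
        · rw [if_neg hci, add_zero]
          apply hP4 i (f i) z
          push Not at hci
          linarith)
    exact (hd z0 (by rw [mem_ball_zero_iff]; linarith)).differentiableAt
      (Metric.isOpen_ball.mem_nhds (by rw [mem_ball_zero_iff]; linarith))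
  · intro z hz
    obtain ⟨n, rfl⟩ := hcsur z (Set.mem_union_left _ hz)
    exact hval n

end Pool.Agent.MP_fe3720.RR
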