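import Pool.Agent.Work.MP_fe3720_an.R.OC

/-! # Limit: limits of automorphisms

For every `x`, `Φ n x` is a Cauchy sequence, uniformly on the compact sets `KK G (r n)` (which contain every
compact set for `n` large, `exists_KK`), so converges to a continuous map `Θ`; likewise the inverses converge to `Θ'`.
`Θ (Θ' x) = x`: `Φ n (Φ n⁻¹ x) = x`, `Φ n⁻¹ x → Θ' x`, and `Φ n → Θ` uniformly on a compact neighbourhood of `Θ' x`. For `f ∈ O`, `f ∘ Φ n → f ∘ Θ`
uniformly on compact sets (`f` is uniformly continuous on compact sets), so `f ∘ Θ ∈ O`. -/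

namespace Pool.Agent.MP_fe3720.RR

open Topology Filter

variable {X : Type} [MetricSpace X] [ProperSpace X] {O : Subalgebra ℂ (X → ℂ)} {m N : ℕ}
  {G : Fin N → O}

/-- locally uniform limit of a sequence of maps with summable differences -/
theorem limit_seq (hS : SD0 m O G) (P : ℕ → X → X) (hP : ∀ n, Continuous (P n)) (r : ℕ → ℝ)
    (hr : Tendsto r atTop atTop) (hmono : Monotone r)
    (h : ∀ n, ∀ x ∈ KK G (r n), dist (P (n + 1) x) (P n x) ≤ (1 / 2) ^ n) :
    ∃ Θ : X → X, Continuous Θ ∧ TendstoLocallyUniformly P Θ atTop := by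
  have hx : ∀ K : Set X, IsCompact K → ∃ n₀ : ℕ, ∀ n ≥ n₀, K ⊆ KK G (r n) := by
    intro K hK
    obtain ⟨r₀, _, hr₀⟩ := exists_KK hS hK
    obtain ⟨n₀, hn₀⟩ := (hr.eventually_ge_atTop r₀).exists
    exact ⟨n₀, fun n hn => (hr₀ _ (hn₀.trans (hmono hn))).trans interior_subset⟩
  have hstep : ∀ n, ∀ x ∈ KK G (r n), ∀ k, dist (P (n + k) x) (P (n + (k + 1)) x) ≤
      (1 / 2) ^ n * (1 / 2) ^ k := by
    intro n x hxn k
    have h1 := h (n + k) x (KK_mono (hmono (Nat.le_add_right n k)) hxn)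
    rw [dist_comm, ← pow_add]
    exact h1
  have hlim : ∀ x, ∃ y, Tendsto (fun n => P n x) atTop (𝓝 y) := by
    intro x
    obtain ⟨n₀, hn₀⟩ := hx {x} isCompact_singleton
    have hc := cauchySeq_of_le_geometric (1 / 2 : ℝ) ((1 / 2) ^ n₀) (by norm_num)
      (hstep n₀ x (hn₀ n₀ le_rfl rfl))
    obtain ⟨y, hy⟩ := cauchySeq_tendsto_of_complete hc
    refine ⟨y, ?_⟩
    have h2 : (fun k => P (n₀ + k) x) = fun k => (fun n => P n x) (k + n₀) := by
      funext k
      rw [add_comm n₀ k]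
    rw [h2] at hy
    exact (tendsto_add_atTop_iff_nat n₀).1 hy
  choose Θ hΘ using hlim
  have hest : ∀ n, ∀ x ∈ KK G (r n), dist (P n x) (Θ x) ≤ 2 * (1 / 2) ^ n := by
    intro n x hxn
    have h2 : Tendsto (fun k => P (n + k) x) atTop (𝓝 (Θ x)) := by
      have h3 : (fun k => P (n + k) x) = fun k => (fun n => P n x) (k + n) := by
        funext k
        rw [add_comm n k]
      rw [h3]
      exact (tendsto_add_atTop_iff_nat n).2 (hΘ x)
    have h4 := dist_le_of_le_geometric_of_tendsto₀ (1 / 2 : ℝ) ((1 / 2) ^ n) (by norm_num)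
      (hstep n x hxn) h2
    rw [add_zero] at h4
    refine h4.trans (le_of_eq ?_)
    ring
  have hunif : TendstoLocallyUniformly P Θ atTop := by
    rw [tendstoLocallyUniformly_iff_forall_isCompact]
    intro K hK
    rw [Metric.tendstoUniformlyOn_iff]
    intro ε hε
    obtain ⟨n₀, hn₀⟩ := hx K hK
    have h1 : Tendsto (fun n : ℕ => 2 * (1 / 2 : ℝ) ^ n) atTop (𝓝 (2 * 0)) :=
      (tendsto_pow_atTop_nhds_zero_of_lt_one (by norm_num) (by norm_num)).const_mul _
    rw [mul_zero] at h1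
    filter_upwards [h1.eventually_lt_const hε, eventually_ge_atTop n₀] with n hn hn' x hxK
    rw [dist_comm]
    exact (hest n x (hn₀ n hn' hxK)).trans_lt hn
  exact ⟨Θ, hunif.continuous (Frequently.of_forall hP), hunif⟩

/-- composition with a continuous function -/
theorem limit_fun {P : ℕ → X → X} {Θ : X → X} (hΘ : Continuous Θ)
    (h : TendstoLocallyUniformly P Θ atTop) {f : X → ℂ} (hf : Continuous f) {K : Set X}
    (hK : IsCompact K) {ε : ℝ} (hε : 0 < ε) : ∃ n, ∀ x ∈ K, ‖f (Θ x) - f (P n x)‖ < ε := by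
  have hL : IsCompact (Metric.cthickening 1 (Θ '' K)) := (hK.image hΘ).cthickening
  have hu := hL.uniformContinuousOn_of_continuous hf.continuousOn
  rw [Metric.uniformContinuousOn_iff] at hu
  obtain ⟨δ, hδ, hu⟩ := hu ε hε
  have h1 := tendstoLocallyUniformly_iff_forall_isCompact.1 h K hK
  rw [Metric.tendstoUniformlyOn_iff] at h1
  obtain ⟨n, hn⟩ := (h1 (min δ 1) (by positivity)).exists
  refine ⟨n, fun x hx => ?_⟩
  have h2 := hn x hx
  have h3 : Θ x ∈ Metric.cthickening 1 (Θ '' K) :=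
    Metric.self_subset_cthickening _ ⟨x, hx, rfl⟩
  have h4 : P n x ∈ Metric.cthickening 1 (Θ '' K) := by
    refine Metric.mem_cthickening_of_dist_le _ (Θ x) 1 _ ⟨x, hx, rfl⟩ ?_
    rw [dist_comm]
    exact (h2.trans_le (min_le_right _ _)).le
  have h5 := hu _ h3 _ h4 (h2.trans_le (min_le_left _ _))
  rwa [dist_eq_norm] at h5

theorem limit_aut (hS : SD0 m O G) (Φ : ℕ → HolAut O) (r : ℕ → ℝ) (hr : Tendsto r atTop atTop)
    (hmono : Monotone r)
    (h : ∀ n, ∀ x ∈ KK G (r n), dist (Φ (n + 1) x) (Φ n x) ≤ (1 / 2) ^ n ∧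
      dist ((Φ (n + 1)).symm x) ((Φ n).symm x) ≤ (1 / 2) ^ n) :
    ∃ Θ : HolAut O, (∀ x, Tendsto (fun n => Φ n x) atTop (𝓝 (Θ x))) ∧
      ∀ x, Tendsto (fun n => (Φ n).symm x) atTop (𝓝 (Θ.symm x)) := by
  obtain ⟨Θ, hc, hu⟩ := limit_seq hS (fun n x => Φ n x) (fun n => (Φ n).toHomeo.continuous) r hr
    hmono (fun n x hx => (h n x hx).1)
  obtain ⟨Θ', hc', hu'⟩ := limit_seq hS (fun n x => (Φ n).symm x)
    (fun n => (Φ n).toHomeo.symm.continuous) r hr hmono (fun n x hx => (h n x hx).2)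
  have ht : ∀ x, Tendsto (fun n => Φ n x) atTop (𝓝 (Θ x)) := fun x =>
    hu.tendsto_comp hc.continuousAt tendsto_const_nhds
  have ht' : ∀ x, Tendsto (fun n => (Φ n).symm x) atTop (𝓝 (Θ' x)) := fun x =>
    hu'.tendsto_comp hc'.continuousAt tendsto_const_nhds
  have h1 : ∀ x, Θ (Θ' x) = x := by
    intro x
    have h2 : Tendsto (fun n => Φ n ((Φ n).symm x)) atTop (𝓝 (Θ (Θ' x))) :=
      hu.tendsto_comp hc.continuousAt (ht' x)
    have h3 : (fun n => Φ n ((Φ n).symm x)) = fun _ => x := by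
      funext n
      exact HolAut.apply_symm (Φ n) x
    rw [h3] at h2
    exact (tendsto_nhds_unique h2 tendsto_const_nhds)
  have h2 : ∀ x, Θ' (Θ x) = x := by
    intro x
    have h2 : Tendsto (fun n => (Φ n).symm (Φ n x)) atTop (𝓝 (Θ' (Θ x))) :=
      hu'.tendsto_comp hc'.continuousAt (ht x)
    have h3 : (fun n => (Φ n).symm (Φ n x)) = fun _ => x := by
      funext n
      exact HolAut.symm_apply_self (Φ n) x
    rw [h3] at h2
    exact (tendsto_nhds_unique h2 tendsto_const_nhds)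
  refine ⟨⟨⟨⟨Θ, Θ', h2, h1⟩, hc, hc'⟩, ?_, ?_⟩, ht, ht'⟩
  · intro f hf
    refine hS.alg.closed _ fun K hK ε hε => ?_
    obtain ⟨n, hn⟩ := limit_fun hc hu (hS.alg.cont f hf) hK hε
    exact ⟨_, (Φ n).mem f hf, hn⟩
  · intro f hf
    refine hS.alg.closed _ fun K hK ε hε => ?_
    obtain ⟨n, hn⟩ := limit_fun hc' hu' (hS.alg.cont f hf) hK hε
    exact ⟨_, (Φ n).mem_symm f hf, hn⟩

/-- one step: how close to the identity `ψ` must be -/
theorem limit_step (hS : SD0 m O G) (Φ : HolAut O) {K : Set X} (hK : IsCompact K) {ε : ℝ}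
    (hε : 0 < ε) : ∃ η > 0, ∀ ψ : HolAut O, Near (K ∪ Φ '' K) η ψ → ∀ x ∈ K,
      dist ((ψ.comp Φ) x) (Φ x) ≤ ε ∧ dist ((ψ.comp Φ).symm x) (Φ.symm x) ≤ ε := by
  have _ := hS
  have hL : IsCompact (Metric.cthickening 1 K) := hK.cthickening
  have hu := hL.uniformContinuousOn_of_continuous (f := fun x => Φ.symm x)
    Φ.toHomeo.symm.continuous.continuousOn
  rw [Metric.uniformContinuousOn_iff] at hu
  obtain ⟨δ, hδ, hu⟩ := hu ε hε
  refine ⟨min ε (min 1 (δ / 2)), by positivity, fun ψ hψ x hx => ⟨?_, ?_⟩⟩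
  · exact (hψ (Φ x) (Or.inr ⟨x, hx, rfl⟩)).1.trans (min_le_left _ _)
  · have h1 := (hψ x (Or.inl hx)).2
    have h2 : dist (ψ.symm x) x ≤ 1 := h1.trans ((min_le_right _ _).trans (min_le_left _ _))
    have h3 : dist (ψ.symm x) x < δ := by
      have : dist (ψ.symm x) x ≤ δ / 2 := h1.trans ((min_le_right _ _).trans (min_le_right _ _))
      linarith
    have h4 := hu (ψ.symm x) (Metric.mem_cthickening_of_dist_le _ x 1 _ hx h2) x
      (Metric.self_subset_cthickening _ hx) h3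
    exact h4.le

end Pool.Agent.MP_fe3720.RR
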