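import Pool.Agent.Work.MP_fe3720_an.R.Move
import Pool.Agent.Work.MP_fe3720_an.R.Limit
import Pool.Agent.Work.MP_fe3720_an.R.Interp
import Pool.Agent.Work.MP_fe3720_an.R.Shear

/-! # IL: the interpolation lemma

Construct by induction `P n ∈ Aut`, `τ n, τ' n ∈ ℂ`: `P 0` maps `u i` to `u' i` (`moveM` for `C = ∅`), and
`P (n+1) = ψ.comp (P n)` with `P (n+1) (Φ (τ n) (x n)) = Φ (τ' n) (y n)`, where `ψ` fixes the finite set
`F_n = {u' i} ∪ {Φ (τ' j) (y j) : j < n}`, and `Near C_n η_n ψ` with `C_n = KK G r` large, containing `K_n ∪ P n K_n`, `K_n = KK G n`, and `η_n` given by `limit_step`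
(`ε = 2^{-n}`). `τ n` is chosen with `P n (Φ (τ n) (x n)) ∉ C_n ∪ F_n` (`orbit_unbounded`, for the compact set
`(P n)⁻¹ (C_n ∪ F_n)`), `τ' n` with `Φ (τ' n) (y n) ∉ C_n ∪ F_n`, and `ψ` by `moveF`. Limit `Θ` (`limit_aut`): `Θ (u i) = u' i`,
`Θ (Φ (τ n) (x n)) = Φ (τ' n) (y n)` (the sequence `P k (...)` is eventually constant).
Choose entire functions `g, g'` (`interp`) with `g (f (x n)) = τ n`, `g (f (u i)) = 0`, `g' (f (y n)) = τ' n`, `g' (f (u' i)) = 0`, and the shears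
`Γ, Γ'` at time `1` (`shear`); `β = Γ'⁻¹ ∘ Θ ∘ Γ`. -/

namespace Pool.Agent.MP_fe3720.RR

open Topology Filter

variable {X : Type} [MetricSpace X] [ProperSpace X] [PreconnectedSpace X]
  {O : Subalgebra ℂ (X → ℂ)} {m N : ℕ} {G : Fin N → O}

/-- a sequence in general position with respect to `v` and `f` -/
structure Gen (v : Derivation ℂ O O) (f : O) (x : ℕ → X) : Prop where
  inj : Function.Injective (fun n => f (x n))
  large : Tendsto (fun n => ‖f (x n)‖) atTop atTop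
  nz : ∀ n, NZ v (x n)

/-- one step of the construction -/
private theorem il_step (hS : SD m O G) (hDP : LT O) {v : Derivation ℂ O O}
    {Φ : ℂ → HolAut O} (hΦ : IsFlow v Φ) {a b : X} (ha : NZ v a) (hb : NZ v b)
    (P : HolAut O) {F : Set X} (hF : F.Finite) (n : ℕ) :
    ∃ (τ τ' : ℂ) (P' : HolAut O), P' (Φ τ a) = Φ τ' b ∧ (∀ z, P z ∈ F → P' z = P z) ∧
      ∀ x ∈ KK G n, dist (P' x) (P x) ≤ (1 / 2) ^ n ∧
        dist (P'.symm x) (P.symm x) ≤ (1 / 2) ^ n := by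
  have hK : IsCompact (KK G (n : ℝ)) := isCompact_KK hS.toSD0 n
  have hPc : Continuous (fun x => P x) := P.toHomeo.continuous
  have hPs : Continuous (fun x => P.symm x) := P.toHomeo.symm.continuous
  obtain ⟨η, hη, hstep⟩ := limit_step hS.toSD0 P hK (ε := (1 / 2) ^ n) (by positivity)
  have hKP : IsCompact (KK G (n : ℝ) ∪ P '' KK G (n : ℝ)) := hK.union (hK.image hPc)
  obtain ⟨r₀, hr₀, hsub⟩ := exists_KK hS.toSD0 hKP
  have hC : OConv O (KK G r₀) := oconv_KK hS.toSD0 r₀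
  have hCF : IsCompact (KK G r₀ ∪ F) := hC.1.union hF.isCompact
  have hPCF : IsCompact ((fun x => P.symm x) '' (KK G r₀ ∪ F)) := hCF.image hPs
  obtain ⟨τ, hτ⟩ := orbit_unbounded hS.toSD0 hΦ ha hPCF
  obtain ⟨τ', hτ'⟩ := orbit_unbounded hS.toSD0 hΦ hb hCF
  have h1 : P (Φ τ a) ∉ KK G r₀ ∪ F := fun h => hτ ⟨_, h, HolAut.symm_apply_self _ _⟩
  obtain ⟨ψ, hψ1, hψ2, hψ3⟩ := moveF hS hDP hC hF h1 hτ' hη
  refine ⟨τ, τ', ψ.comp P, ?_, ?_, ?_⟩
  · rw [HolAut.comp_apply, hψ1]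
  · intro z hz
    rw [HolAut.comp_apply]
    exact hψ2 _ hz
  · intro x hx
    exact hstep ψ (fun z hz => hψ3 z (interior_subset (hsub r₀ le_rfl hz))) x hx

/-- the sequence of automorphisms -/
private theorem il_seq (hS : SD m O G) (hDP : LT O) {v : Derivation ℂ O O}
    {Φ : ℂ → HolAut O} (hΦ : IsFlow v Φ) {x y : ℕ → X} (hx : ∀ n, NZ v (x n))
    (hy : ∀ n, NZ v (y n)) {k : ℕ} (u u' : Fin k → X) (P₀ : HolAut O)
    (hP₀ : ∀ i, P₀ (u i) = u' i) :
    ∃ (τ τ' : ℕ → ℂ) (Θ : HolAut O), (∀ i, Θ (u i) = u' i) ∧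
      ∀ n, Θ (Φ (τ n) (x n)) = Φ (τ' n) (y n) := by
  have hstep : ∀ (n : ℕ) (s : {p : HolAut O × Set X // p.2.Finite}),
      ∃ (τ τ' : ℂ) (P' : HolAut O), P' (Φ τ (x n)) = Φ τ' (y n) ∧
        (∀ z, s.1.1 z ∈ s.1.2 → P' z = s.1.1 z) ∧
        ∀ x ∈ KK G n, dist (P' x) (s.1.1 x) ≤ (1 / 2) ^ n ∧
          dist (P'.symm x) (s.1.1.symm x) ≤ (1 / 2) ^ n := fun n s =>
    il_step hS hDP hΦ (hx n) (hy n) s.1.1 s.2 n
  choose τ τ' Q hQ1 hQ2 hQ3 using hstep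
  let nxt : ℕ → {p : HolAut O × Set X // p.2.Finite} → {p : HolAut O × Set X // p.2.Finite} :=
    fun n s => ⟨(Q n s, insert (Φ (τ' n s) (y n)) s.1.2), s.2.insert _⟩
  let st : ℕ → {p : HolAut O × Set X // p.2.Finite} := fun n =>
    Nat.rec ⟨(P₀, Set.range u'), Set.finite_range u'⟩ (fun n s => nxt n s) n
  have hst0 : st 0 = ⟨(P₀, Set.range u'), Set.finite_range u'⟩ := rfl
  have hstS : ∀ n, st (n + 1) = nxt n (st n) := fun n => rfl
  have hP : ∀ n, (st (n + 1)).1.1 = Q n (st n) := fun n => rfl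
  have hF : ∀ n, (st (n + 1)).1.2 = insert (Φ (τ' n (st n)) (y n)) (st n).1.2 := fun n => rfl
  have hfix : ∀ n z, (st n).1.1 z ∈ (st n).1.2 →
      ∀ j, (st (n + j)).1.1 z = (st n).1.1 z ∧ (st (n + j)).1.1 z ∈ (st (n + j)).1.2 := by
    intro n z hz j
    induction j with
    | zero => exact ⟨rfl, hz⟩
    | succ j ih =>
      have h1 : (st (n + j + 1)).1.1 z = (st (n + j)).1.1 z := by
        rw [hP]
        exact hQ2 _ _ z ih.2
      refine ⟨?_, ?_⟩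
      · show (st (n + j + 1)).1.1 z = _
        rw [h1]
        exact ih.1
      · show (st (n + j + 1)).1.1 z ∈ (st (n + j + 1)).1.2
        rw [h1, hF]
        exact Set.mem_insert_of_mem _ ih.2
  obtain ⟨Θ, hΘ, -⟩ := limit_aut hS.toSD0 (fun n => (st n).1.1) (fun n => (n : ℝ))
    tendsto_natCast_atTop_atTop Nat.mono_cast (fun n z hz => by
      have := hQ3 n (st n) z hz
      exact this)
  have hlim : ∀ n z, (st n).1.1 z ∈ (st n).1.2 → Θ z = (st n).1.1 z := by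
    intro n z hz
    refine tendsto_nhds_unique (hΘ z) ?_
    refine tendsto_const_nhds.congr' ?_
    filter_upwards [eventually_ge_atTop n] with j hj
    obtain ⟨i, rfl⟩ := Nat.exists_eq_add_of_le hj
    exact (hfix n z hz i).1.symm
  refine ⟨fun n => τ n (st n), fun n => τ' n (st n), Θ, fun i => ?_, fun n => ?_⟩
  · have h1 : (st 0).1.1 (u i) = u' i := hP₀ i
    rw [hlim 0 (u i) (by rw [h1]; exact ⟨i, rfl⟩), h1]
  · have h1 : (st (n + 1)).1.1 (Φ (τ n (st n)) (x n)) = Φ (τ' n (st n)) (y n) := hQ1 n (st n)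
    rw [hlim (n + 1) _ (by rw [h1, hF]; exact Set.mem_insert _ _), h1]

omit [MetricSpace X] [ProperSpace X] [PreconnectedSpace X] in
/-- an entire function with prescribed values -/
private theorem il_fun {f : O} {x : ℕ → X} (hinj : Function.Injective (fun n => f (x n)))
    (hlarge : Tendsto (fun n => ‖f (x n)‖) atTop atTop) {k : ℕ} (u : Fin k → X)
    (hux : ∀ i n, f (u i) ≠ f (x n)) (τ : ℕ → ℂ) :
    ∃ g : ℂ → ℂ, Differentiable ℂ g ∧ (∀ n, g (f (x n)) = τ n) ∧ ∀ i, g (f (u i)) = 0 := by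
  classical
  obtain ⟨g, hg, hgS⟩ := interp (Set.range (fun n => f (x n)) ∪ Set.range (fun i => f (u i)))
    (fun R => by
      rw [Set.union_inter_distrib_right]
      refine Set.Finite.union ?_ ((Set.finite_range _).inter_of_left _)
      have h1 : ∀ᶠ n in atTop, R < ‖f (x n)‖ := hlarge.eventually_gt_atTop R
      obtain ⟨n₀, hn₀⟩ := eventually_atTop.mp h1
      refine ((Finset.range n₀).finite_toSet.image (fun n => f (x n))).subset ?_
      rintro _ ⟨⟨n, rfl⟩, hn⟩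
      refine ⟨n, ?_, rfl⟩
      rw [mem_closedBall_zero_iff] at hn
      rw [Finset.coe_range, Set.mem_Iio]
      by_contra hcon
      exact absurd hn (not_le.mpr (hn₀ n (not_lt.mp hcon))))
    (fun z => if h : ∃ n, f (x n) = z then τ h.choose else 0)
  refine ⟨g, hg, fun n => ?_, fun i => ?_⟩
  · rw [hgS _ (Or.inl ⟨n, rfl⟩)]
    have h : ∃ j, f (x j) = f (x n) := ⟨n, rfl⟩
    rw [dif_pos h, hinj h.choose_spec]
  · rw [hgS _ (Or.inr ⟨i, rfl⟩), dif_neg]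
    rintro ⟨n, hn⟩
    exact hux i n hn.symm

theorem interpolate (hS : SD m O G) (hDP : LT O) {v : Derivation ℂ O O}
    (hv : IsVF v) {Φ : ℂ → HolAut O} (hΦ : IsFlow v Φ) {f : O} (hf : v f = 0) {x y : ℕ → X}
    (hx : Gen v f x) (hy : Gen v f y) {k : ℕ} (u u' : Fin k → X) (hu : Function.Injective u)
    (hu' : Function.Injective u') (hux : ∀ i n, f (u i) ≠ f (x n))
    (huy : ∀ i n, f (u' i) ≠ f (y n)) :
    ∃ β : HolAut O, (∀ i, β (u i) = u' i) ∧ ∀ n, β (x n) = y n := by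
  obtain ⟨P₀, hP₀, -⟩ := moveM hS hDP oconv_empty u u' hu hu' (fun _ h => h) (fun _ h => h)
    one_pos
  obtain ⟨τ, τ', Θ, hΘ1, hΘ2⟩ := il_seq hS hDP hΦ hx.nz hy.nz u u' P₀ hP₀
  obtain ⟨g, hg, hg1, hg2⟩ := il_fun hx.inj hx.large u hux τ
  obtain ⟨g', hg', hg1', hg2'⟩ := il_fun hy.inj hy.large u' huy τ'
  obtain ⟨Γ, hΓ, -⟩ := shear hS.toSD0 hv hΦ hf hg
  obtain ⟨Γ', hΓ', -⟩ := shear hS.toSD0 hv hΦ hf hg'
  refine ⟨(Γ' 1).symm.comp (Θ.comp (Γ 1)), fun i => ?_, fun n => ?_⟩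
  · rw [HolAut.comp_apply, HolAut.comp_apply, hΓ, hg2, mul_zero, hΦ.zero, hΘ1]
    have h1 : Γ' 1 (u' i) = u' i := by rw [hΓ', hg2', mul_zero, hΦ.zero]
    conv_lhs => rw [← h1]
    exact HolAut.symm_apply_self _ _
  · rw [HolAut.comp_apply, HolAut.comp_apply, hΓ, hg1, one_mul, hΘ2]
    have h1 : Γ' 1 (y n) = Φ (τ' n) (y n) := by rw [hΓ', hg1', one_mul]
    rw [← h1]
    exact HolAut.symm_apply_self _ _

end Pool.Agent.MP_fe3720.RR
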