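import Pool.Agent.Work.MP_fe3720_an.R.Word
import Pool.Agent.Work.MP_fe3720_an.R.Span
import Pool.Agent.Work.MP_fe3720_an.R.Val
import Pool.Agent.Work.MP_fe3720_an.R.WSum

/-! # LocalMove: moving a point outside an O-convex set, with a Lipschitz estimate

Let `C₁` be an O-convex neighbourhood of `C` not containing `p = κ y₀` (`oconv_nhds`), `E j` fields with
`E j (q l) p = δ_{jl}`, `h ∈ O` with `h p = 1`, `|h| < 1` on `C₁`: for `n` large the fields `V_j = h^n • E j` satisfy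
`|V_j (G i)| ≤ ε'` on `C₁` and `V_j (q l) p = δ_{jl}`. Approximate them by sums of complete fields on `C₁ ∪ {p}` (functions
`G i`, `q l`), word `Psi Φ`, linear map `M : (Fin m → ℂ) → (Fin r → ℂ)` (`(M σ) i = σ j` if `W i` occurs in the sum for `V_j`). `E(σ, y) = (q l (Psi Φ (M σ) (κ y)))_l` is
`C¹` near `(0, y₀)`, `E(0, y) = y`, derivative in `σ` at `(0,y₀)` close to the identity (matrix `∑_{i : j} W_i (q l) p`). By strict differentiability at `(0,y₀)`, for `y` close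
to `y₀`, `σ ↦ E(σ, y)` approximates the linear isomorphism `A` on a fixed ball with a small constant
(`HasStrictFDerivAt`, `ApproximatesLinearOn.surjOn_closedBall_of_nonlinearRightInverse` or
`ApproximatesLinearOn` with `A` a continuous linear equivalence): for `y'` close to `y₀` there is `σ` with
`E(σ, y) = y'` and `|σ| ≤ L |y' - y|`, with `L = 4`, say, independent of `ε'`. As `Psi Φ (M σ) (κ y)` is close to `p`, it is in the open set `κ '' V`, so
`Psi Φ (M σ) (κ y) = κ y'`. On `C₁`: `|G i (Psi x) - G i x| ≤ |∑_j σ_j ∑ W_i (G i) x| + B |M σ|² ≤ 2 m ε' |σ| + B |σ|²` (`Psi_taylor`), which is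
`≤ ε |y - y'|` for `ε'` and `|y - y'|` small. For the inverse: if `x ∈ C` then
`z = Psi⁻¹ x ∈ C₁` for `σ` small (`Psi_symm_cont`), and `dist z x = dist z (Psi z)`. -/

namespace Pool.Agent.MP_fe3720.RR

open Topology Filter

variable {X : Type} [MetricSpace X] [ProperSpace X] {O : Subalgebra ℂ (X → ℂ)} {m N : ℕ}
  {G : Fin N → O}

theorem local_move (hS : SD0 m O G) (hDP : LT O) {q : Fin m → O}
    {κ : (Fin m → ℂ) → X} {V : Set (Fin m → ℂ)} (hc : IsChart O q κ V) {C : Set X}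
    (hC : OConv O C) {y₀ : Fin m → ℂ} (hy₀ : y₀ ∈ V) (h0 : κ y₀ ∉ C) {ε : ℝ} (hε : 0 < ε) :
    ∃ δ > 0, ∀ y ∈ Metric.ball y₀ δ, ∀ y' ∈ Metric.ball y₀ δ, ∃ ψ : HolAut O,
      ψ (κ y) = κ y' ∧ Near C (ε * dist y y') ψ := by
  classical
  have hO := hS.alg
  obtain ⟨p, hp⟩ : ∃ p, p = κ y₀ := ⟨_, rfl⟩
  rw [← hp] at h0
  obtain ⟨C₁, hC₁, hCC₁, hC₁p⟩ := oconv_nhds hS hC (isOpen_compl_singleton : IsOpen ({p}ᶜ : Set X))
    (fun x hx h => h0 (by rw [← Set.mem_singleton_iff.1 h]; exact hx))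
  have hpC : p ∉ C₁ := fun h => hC₁p h rfl
  obtain ⟨E, hE1, hE2⟩ := exists_fields hS hc hy₀
  rw [← hp] at hE2
  set ε1 : ℝ := ε / (16 * (m + 1)) with hε1
  have hε10 : 0 < ε1 := by positivity
  set η : ℝ := min ε1 (1 / (2 * (Fintype.card (Fin m) + 1))) with hη
  have hη0 : 0 < η := lt_min hε10 (by positivity)
  have hη1 : (Fintype.card (Fin m) : ℝ) * η ≤ 1 / 2 := by
    have h1 : η ≤ 1 / (2 * (Fintype.card (Fin m) + 1)) := min_le_right _ _
    have h2 : (Fintype.card (Fin m) : ℝ) * η ≤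
        Fintype.card (Fin m) * (1 / (2 * (Fintype.card (Fin m) + 1))) :=
      mul_le_mul_of_nonneg_left h1 (Nat.cast_nonneg _)
    refine h2.trans ?_
    rw [mul_one_div, div_le_div_iff₀ (by positivity) (by norm_num)]
    linarith
  obtain ⟨r, W, Φ, c, hfl, hap⟩ := wsum_exists hS hDP E hE1 (fun _ => C₁) (fun _ => hC₁)
    (fun _ => p) (fun _ => hpC) (Finset.univ.image G ∪ Finset.univ.image q) hη0
  have hcol : ∀ (j : Fin m) (a : Fin N), ∀ x ∈ C₁,
      ‖∑ i, (if c i = j then (W i (G a)) x else 0)‖ ≤ 2 * ε1 := by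
    intro j a x hx
    have h1 := (hap j (G a) (Finset.mem_union_left _
      (Finset.mem_image_of_mem _ (Finset.mem_univ _)))).2 x hx
    have h3 : η ≤ ε1 := min_le_left _ _
    linarith
  -- the derivative with respect to the parameters
  have hA := wsum_deriv hO hfl c q (fun _ => p)
  have hAn : ∀ σ, ‖wsumA c W q (fun _ => p) σ - σ‖ ≤ ‖σ‖ / 2 := by
    intro σ
    rw [wsumA_apply]
    refine wsum_mat (fun j l => ∑ i, (if c i = j then (W i (q l)) p else 0)) (η := η)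
      (fun j l => ?_) hη1 σ
    rw [norm_sub_rev, ← hE2 j l]
    exact (hap j (q l) (Finset.mem_union_right _
      (Finset.mem_image_of_mem _ (Finset.mem_univ _)))).1.le
  obtain ⟨R, hR⟩ := wsum_inv _ hAn
  obtain ⟨T, hT⟩ : ∃ T : (Fin m → ℂ) × (Fin m → ℂ) → (Fin m → ℂ),
      T = fun z l => q l (Psi Φ (wsumM c z.1) (κ z.2)) := ⟨_, rfl⟩
  have hT0 : ∀ y ∈ V, T (0, y) = y := by
    intro y hy
    funext l
    rw [hT]
    show q l (Psi Φ (wsumM c (0 : Fin m → ℂ)) (κ y)) = y l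
    rw [map_zero, Psi_zero hfl, hc.inv y hy]
  have hTc : ContDiffAt ℂ 1 T (0, y₀) := by
    have h1 : ContDiffOn ℂ 1 T (Set.univ ×ˢ V) := by
      rw [hT, contDiffOn_pi]
      intro l
      have h2 := Psi_contDiff hO hfl hc (q l)
      have h3 : ContDiffOn ℂ 1 (fun z : (Fin m → ℂ) × (Fin m → ℂ) => (wsumM c z.1, z.2))
          (Set.univ ×ˢ V) :=
        (((wsumM c).contDiff.comp contDiff_fst).prodMk contDiff_snd).contDiffOn
      exact h2.comp h3 fun z hz => ⟨Set.mem_univ _, hz.2⟩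
    exact h1.contDiffAt (prod_mem_nhds univ_mem (hc.opn.mem_nhds hy₀))
  have hstr := hTc.hasStrictFDerivAt one_ne_zero
  obtain ⟨T', hT'⟩ : ∃ T', T' = fderiv ℂ T ((0 : Fin m → ℂ), y₀) := ⟨_, rfl⟩
  rw [← hT'] at hstr
  have hTA : ∀ σ : Fin m → ℂ, T' (σ, 0) = wsumA c W q (fun _ => p) σ := by
    have h1 : HasFDerivAt (fun σ : Fin m → ℂ => (σ, y₀))
        (ContinuousLinearMap.inl ℂ (Fin m → ℂ) (Fin m → ℂ)) 0 := hasFDerivAt_prodMk_left 0 y₀
    have h2 := hstr.hasFDerivAt.comp (0 : Fin m → ℂ) h1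
    have h3 : (T ∘ fun σ : Fin m → ℂ => (σ, y₀)) =
        fun σ : Fin m → ℂ => fun l => q l (Psi Φ (wsumM c σ) ((fun _ : Fin m => p) l)) := by
      rw [hT, hp]
      rfl
    rw [h3] at h2
    have h4 := h2.unique hA
    intro σ
    rw [← h4]
    rfl
  obtain ⟨s, hs, hsap⟩ := hstr.approximates_deriv_on_nhds (c := 1 / 4) (Or.inr (by norm_num))
  -- Taylor bounds
  have hBt : ∀ a : Fin N, ∃ B : ℝ, ∀ t : Fin r → ℂ, ‖t‖ ≤ 1 → ∀ x ∈ C₁,
      ‖(G a) (Psi Φ t x) - (G a) x - ∑ i, t i * (W i (G a)) x‖ ≤ B * ‖t‖ ^ 2 := fun a =>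
    Psi_taylor hO hfl (G a) hC₁.1
  choose Bt hBt using hBt
  set Bs : ℝ := ∑ a, |Bt a| with hBs
  have hBs0 : 0 ≤ Bs := Finset.sum_nonneg fun a _ => abs_nonneg _
  have hBtle : ∀ a, Bt a ≤ Bs := fun a => (le_abs_self _).trans
    (Finset.single_le_sum (f := fun a => |Bt a|) (fun _ _ => abs_nonneg _) (Finset.mem_univ a))
  -- the conditions on the parameters
  have hM0 : Tendsto (fun z : (Fin m → ℂ) × (Fin m → ℂ) => wsumM c z.1)
      (𝓝 ((0 : Fin m → ℂ), y₀)) (𝓝 (0 : Fin r → ℂ)) := by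
    have h1 := ((wsumM c).continuous.comp continuous_fst).tendsto ((0 : Fin m → ℂ), y₀)
    have h2 : ((wsumM c) ∘ Prod.fst) ((0 : Fin m → ℂ), y₀) = (0 : Fin r → ℂ) := map_zero _
    rw [h2] at h1
    exact h1
  have hκ0 : Tendsto (fun z : (Fin m → ℂ) × (Fin m → ℂ) => κ z.2)
      (𝓝 ((0 : Fin m → ℂ), y₀)) (𝓝 p) := by
    have h1 : ContinuousAt κ y₀ := hc.cont.continuousAt (hc.opn.mem_nhds hy₀)
    have h2 : Tendsto (fun z : (Fin m → ℂ) × (Fin m → ℂ) => z.2) (𝓝 ((0 : Fin m → ℂ), y₀))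
        (𝓝 y₀) := continuous_snd.tendsto _
    rw [hp]
    exact h1.tendsto.comp h2
  have hev1 : ∀ᶠ z in 𝓝 ((0 : Fin m → ℂ), y₀), Psi Φ (wsumM c z.1) (κ z.2) ∈ κ '' V := by
    have h1 : Tendsto (fun z : (Fin m → ℂ) × (Fin m → ℂ) => Psi Φ (wsumM c z.1) (κ z.2))
        (𝓝 ((0 : Fin m → ℂ), y₀)) (𝓝 p) := by
      have h2 := (Psi_cont hfl).tendsto ((0 : Fin r → ℂ), p)
      have h3 : Psi Φ ((0 : Fin r → ℂ), p).1 ((0 : Fin r → ℂ), p).2 = p := Psi_zero hfl p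
      rw [h3] at h2
      exact h2.comp (hM0.prodMk_nhds hκ0)
    exact h1.eventually (hc.img.mem_nhds (by rw [hp]; exact ⟨y₀, hy₀, rfl⟩))
  have hev2 : ∀ᶠ z in 𝓝 ((0 : Fin m → ℂ), y₀), z.2 ∈ V :=
    (continuous_snd.tendsto ((0 : Fin m → ℂ), y₀)).eventually (hc.opn.mem_nhds hy₀)
  have hev3 : ∀ᶠ z in 𝓝 ((0 : Fin m → ℂ), y₀), ∀ x ∈ C, (Psi Φ (wsumM c z.1)).symm x ∈ C₁ := by
    have h1 : ∀ᶠ t in 𝓝 (0 : Fin r → ℂ), ∀ x ∈ C, (Psi Φ t).symm x ∈ C₁ := by
      refine hC.1.eventually_forall_of_forall_eventually fun x hx => ?_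
      have h2 := (Psi_symm_cont hfl).tendsto ((0 : Fin r → ℂ), x)
      have h3 : (Psi Φ ((0 : Fin r → ℂ), x).1).symm ((0 : Fin r → ℂ), x).2 = x :=
        Psi_zero_symm hfl x
      rw [h3] at h2
      filter_upwards [h2.eventually (isOpen_interior.mem_nhds (hCC₁ hx))] with z hz
      exact interior_subset hz
    exact hM0.eventually h1
  obtain ⟨ρ1, hρ10, hball⟩ := Metric.eventually_nhds_iff.1
    (((hev1.and hev2).and hev3).and (eventually_mem_set.2 hs))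
  set ρ2 : ℝ := min (ρ1 / 2) (min 1 (ε / (8 * (Bs + 1)))) with hρ2
  have hρ20 : 0 < ρ2 := lt_min (by positivity) (lt_min one_pos (by positivity))
  have hρ21 : ρ2 ≤ ρ1 / 2 := min_le_left _ _
  have hρ22 : ρ2 ≤ 1 := (min_le_right _ _).trans (min_le_left _ _)
  have hρ23 : ρ2 ≤ ε / (8 * (Bs + 1)) := (min_le_right _ _).trans (min_le_right _ _)
  refine ⟨ρ2 / 8, by positivity, fun y hy y' hy' => ?_⟩
  rw [Metric.mem_ball] at hy hy'
  have hd0 : 0 ≤ dist y y' := dist_nonneg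
  have hd : dist y y' < ρ2 / 4 := by
    have h1 := dist_triangle_right y y' y₀
    linarith
  have hin : ∀ σ : Fin m → ℂ, ‖σ‖ ≤ ρ2 → dist ((σ, y) : (Fin m → ℂ) × (Fin m → ℂ)) (0, y₀) < ρ1 := by
    intro σ hσ
    rw [Prod.dist_eq]
    refine max_lt ?_ ?_
    · show dist σ 0 < ρ1
      rw [dist_zero_right]
      linarith
    · show dist y y₀ < ρ1
      linarith
  have hyV : y ∈ V := (hball (hin 0 (by rw [norm_zero]; exact hρ20.le))).1.1.2
  -- solving the equation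
  have hapx : ApproximatesLinearOn (fun σ : Fin m → ℂ => T (σ, y)) (wsumA c W q (fun _ => p))
      (Metric.closedBall 0 ρ2) (1 / 4) := by
    intro σ hσ σ' hσ'
    rw [mem_closedBall_zero_iff] at hσ hσ'
    have h1 := hsap (σ, y) (hball (hin σ hσ)).2 (σ', y) (hball (hin σ' hσ')).2
    rw [Prod.mk_sub_mk, sub_self, hTA] at h1
    refine h1.trans (le_of_eq ?_)
    rw [Prod.norm_mk, norm_zero, max_eq_left (norm_nonneg _)]
  have hsurj := hapx.surjOn_closedBall_of_nonlinearRightInverse R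
    (ε := 4 * dist y y') (b := 0) (by positivity)
    (Metric.closedBall_subset_closedBall (by linarith))
  have hy'mem : y' ∈ Metric.closedBall (T (0, y))
      (((R.nnnorm : ℝ)⁻¹ - ((1 / 4 : NNReal) : ℝ)) * (4 * dist y y')) := by
    rw [hT0 y hyV, Metric.mem_closedBall, dist_comm, hR]
    refine le_of_eq ?_
    push_cast
    ring
  obtain ⟨σ, hσ, hσT⟩ := hsurj hy'mem
  rw [mem_closedBall_zero_iff] at hσ
  have hσ2 : ‖σ‖ ≤ ρ2 := by linarith
  obtain ⟨⟨⟨g1, g2⟩, g3⟩, g4⟩ := hball (hin σ hσ2)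
  have hy'V : y' ∈ V := by
    have h1 : dist (((0 : Fin m → ℂ), y') : (Fin m → ℂ) × (Fin m → ℂ)) (0, y₀) < ρ1 := by
      rw [Prod.dist_eq]
      refine max_lt ?_ ?_
      · show dist (0 : Fin m → ℂ) 0 < ρ1
        rw [dist_self]
        exact hρ10
      · show dist y' y₀ < ρ1
        linarith
    exact (hball h1).1.1.2
  -- the estimate on `C₁`
  have hest : ∀ x ∈ C₁, dist (Psi Φ (wsumM c σ) x) x ≤ ε * dist y y' := by
    intro x hx
    rw [hS.dist_eq, pi_norm_le_iff_of_nonneg (by positivity)]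
    intro a
    have h1 := hBt a (wsumM c σ) ((wsumM_norm c σ).trans (by linarith)) x hx
    have h2 : ‖∑ i, (wsumM c σ) i * (W i (G a)) x‖ ≤ m * (‖σ‖ * (2 * ε1)) := by
      have e1 : ∑ i, (wsumM c σ) i * (W i (G a)) x =
          ∑ j, σ j * ∑ i, (if c i = j then (W i (G a)) x else 0) :=
        wsum_swap c (fun i => (W i (G a)) x) σ
      rw [e1]
      refine (norm_sum_le _ _).trans ?_
      have h3 : ∀ j ∈ Finset.univ, ‖σ j * ∑ i, (if c i = j then (W i (G a)) x else 0)‖ ≤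
          ‖σ‖ * (2 * ε1) := by
        intro j _
        rw [norm_mul]
        exact mul_le_mul (norm_le_pi_norm σ j) (hcol j a x hx) (norm_nonneg _) (norm_nonneg _)
      refine (Finset.sum_le_sum h3).trans (le_of_eq ?_)
      rw [Finset.sum_const, Finset.card_univ, Fintype.card_fin, nsmul_eq_mul]
    have h4 : Bt a * ‖wsumM c σ‖ ^ 2 ≤ Bs * ‖σ‖ ^ 2 := by
      have h5 : ‖wsumM c σ‖ ^ 2 ≤ ‖σ‖ ^ 2 :=
        pow_le_pow_left₀ (norm_nonneg _) (wsumM_norm c σ) 2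
      exact mul_le_mul (hBtle a) h5 (by positivity) hBs0
    have h6 : ‖(G a) (Psi Φ (wsumM c σ) x) - (G a) x‖ ≤
        m * (‖σ‖ * (2 * ε1)) + Bs * ‖σ‖ ^ 2 := by
      have e2 : (G a) (Psi Φ (wsumM c σ) x) - (G a) x =
          ((G a) (Psi Φ (wsumM c σ) x) - (G a) x - ∑ i, (wsumM c σ) i * (W i (G a)) x) +
            ∑ i, (wsumM c σ) i * (W i (G a)) x := by ring
      rw [e2]
      refine (norm_add_le _ _).trans ?_
      linarith
    have h7 : (m : ℝ) * (2 * ε1) ≤ ε / 8 := by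
      rw [hε1]
      rw [mul_div_assoc', mul_div_assoc', div_le_div_iff₀ (by positivity) (by norm_num)]
      nlinarith
    have h8 : Bs * ‖σ‖ ≤ ε / 8 := by
      have h9 : Bs * ‖σ‖ ≤ (Bs + 1) * (ε / (8 * (Bs + 1))) :=
        mul_le_mul (by linarith) (hσ2.trans hρ23) (norm_nonneg _) (by positivity)
      have h10 : (Bs + 1) * (ε / (8 * (Bs + 1))) = ε / 8 := by
        field_simp
      linarith
    have hσ0 := norm_nonneg σ
    calc ‖(G a) (Psi Φ (wsumM c σ) x) - (G a) x‖ ≤ m * (‖σ‖ * (2 * ε1)) + Bs * ‖σ‖ ^ 2 := h6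
      _ = ‖σ‖ * (m * (2 * ε1) + Bs * ‖σ‖) := by ring
      _ ≤ (4 * dist y y') * (ε / 8 + ε / 8) :=
          mul_le_mul hσ (add_le_add h7 h8)
            (add_nonneg (by positivity) (mul_nonneg hBs0 hσ0)) (by positivity)
      _ = ε * dist y y' := by ring
  refine ⟨Psi Φ (wsumM c σ), ?_, fun x hx => ⟨hest x (interior_subset (hCC₁ hx)), ?_⟩⟩
  · refine hc.eq_of g1 ⟨y', hy'V, rfl⟩ fun j => ?_
    rw [hc.inv y' hy'V]
    have h1 := congrFun hσT j
    rw [hT] at h1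
    exact h1
  · have h1 := hest _ (g3 x hx)
    have h2 : Psi Φ (wsumM c σ) ((Psi Φ (wsumM c σ)).symm x) = x := HolAut.apply_symm _ x
    rw [h2, dist_comm] at h1
    exact h1

end Pool.Agent.MP_fe3720.RR
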