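import Pool.Agent.Work.MP_fe3720_an.R.Chain
import Pool.Agent.Work.MP_fe3720_an.R.Corr
import Pool.Agent.Work.MP_fe3720_an.R.Compl

/-! # Move: moving points outside an O-convex compact set

`moveQ`: the relation `Q y y'`: `∃ U ⊇ C` open, `∀ ε > 0, ∃ ψ, ψ y = y' ∧ Near U ε ψ`, is symmetric (`ψ.symm`) and transitive: given `U, U'` let `η > 0` be such
that all the points at distance `≤ 2 η` from `C` are in `U ∩ U'`, and take for the composition the open `η`-thickening of `C` (use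
`min (ε/2) η`). Each `y ∉ C` has a neighbourhood of points `y' ∉ C` with `Q y y'`: `chain_move`, with `C ⊆ interior C₂`, `C₂ ⊆ interior C₁` O-convex
neighbourhoods (`oconv_nhds` twice) not containing `y`, and a chart ball around `y` avoiding `C₁`. `Cᶜ` is
preconnected (`oconv_compl`): `IsPreconnected.induction₂` (or `induction₂'`).
`moveF`: `moveQ` for the O-convex set `C ∪ F` gives `U` and `ψ₀`, `Near U ε₀ ψ₀`, `ψ₀ y = y'`. Then `corr` for the finite set
`F ∪ {y'}` (enumerated) and a compact neighbourhood `K ⊆ U` of `C` gives `χ` with `χ (ψ₀ x) = x` for `x ∈ F`, `χ y' = y'`, if `ε₀` is small. Take `χ.comp ψ₀`.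
`moveM`: induction on `k`. Let `C ⊆ interior C₂`, `C₂ ⊆ interior C₁`, O-convex, `C₁` not containing the `y i`, `y' i`. Induction hypothesis for
`C₁` and the first `k` points, small `ε₁`: `ψ`. Then `z = ψ (y k)` is not in `C₂` (otherwise `y k = ψ.symm z` is at distance `≤ ε₁` of a point of
`C₂`, so in `C₁`), and `z ≠ y' i` for `i < k` (injectivity). `moveF` for `C₂`, `F = {y' i}`, from `z` to `y' k`. -/

namespace Pool.Agent.MP_fe3720.RR

open Topology

variable {X : Type} [MetricSpace X] [ProperSpace X] [PreconnectedSpace X]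
  {O : Subalgebra ℂ (X → ℂ)} {m N : ℕ} {G : Fin N → O}

theorem move_near_comp {A B : Set X} {a b : ℝ} {φ ψ : HolAut O} (h1 : Near A a φ)
    (h2 : Near A b ψ) (hBA : B ⊆ A) (h3 : ∀ x ∈ B, ∀ z, dist z x ≤ a → z ∈ A)
    (h4 : ∀ x ∈ B, ∀ z, dist z x ≤ b → z ∈ A) : Near B (a + b) (ψ.comp φ) := by
  intro x hx
  have hxA := hBA hx
  constructor
  · rw [HolAut.comp_apply]
    have e1 := (h1 x hxA).1
    have e2 := (h2 (φ x) (h3 x hx _ e1)).1
    have e3 := dist_triangle (ψ (φ x)) (φ x) x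
    linarith
  · have e0 : (ψ.comp φ).symm x = φ.symm (ψ.symm x) := rfl
    rw [e0]
    have e1 := (h2 x hxA).2
    have e2 := (h1 (ψ.symm x) (h4 x hx _ e1)).2
    have e3 := dist_triangle (φ.symm (ψ.symm x)) (ψ.symm x) x
    linarith

theorem move_near_mono {A : Set X} {a b : ℝ} {φ : HolAut O} (h : Near A a φ) (hab : a ≤ b) :
    Near A b φ := fun x hx => ⟨(h x hx).1.trans hab, (h x hx).2.trans hab⟩

theorem moveQ (hS : SD m O G) (hDP : LT O) {C : Set X} (hC : OConv O C) {y y' : X}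
    (hy : y ∉ C) (hy' : y' ∉ C) : ∃ U : Set X, IsOpen U ∧ C ⊆ U ∧
      ∀ ε > 0, ∃ ψ : HolAut O, ψ y = y' ∧ Near U ε ψ := by
  refine IsPreconnected.induction₂ (oconv_compl hS hC) (fun y y' : X => ∃ U : Set X, IsOpen U ∧
    C ⊆ U ∧ ∀ ε > 0, ∃ ψ : HolAut O, ψ y = y' ∧ Near U ε ψ) ?_ ?_ ?_ hy hy'
  · -- locally
    intro y hy
    obtain ⟨C₁, hC₁, hCC₁, hC₁y⟩ := oconv_nhds hS.toSD0 hC
      (isOpen_compl_singleton : IsOpen ({y}ᶜ : Set X))
      (fun x hx h => hy (by rw [← Set.mem_singleton_iff.1 h]; exact hx))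
    have hyC₁ : y ∉ C₁ := fun h => hC₁y h rfl
    obtain ⟨C₂, hC₂, hCC₂, hC₂₁⟩ := oconv_nhds hS.toSD0 hC isOpen_interior hCC₁
    obtain ⟨q, κ, V, hc, hyV, hκ⟩ := hS.charts y
    have hκc : ContinuousAt κ (fun j => (q j) y) := hc.cont.continuousAt (hc.opn.mem_nhds hyV)
    have h1 : ∀ᶠ w in 𝓝 (fun j => (q j) y), κ w ∈ C₁ᶜ :=
      hκc.eventually (hC₁.1.isClosed.isOpen_compl.mem_nhds (by rw [hκ]; exact hyC₁))
    obtain ⟨R, hR, hball⟩ := Metric.eventually_nhds_iff_ball.1 (h1.and (hc.opn.mem_nhds hyV))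
    have h2 : ∀ᶠ y' in 𝓝 y, y' ∈ κ '' V ∧ (fun j => (q j) y') ∈ Metric.ball (fun j => (q j) y) R := by
      refine Filter.Eventually.and (hc.img.mem_nhds ⟨_, hyV, hκ⟩) ?_
      have c1 : Continuous (fun y' : X => fun j => (q j) y') :=
        continuous_pi fun j => hS.alg.cont _ (q j).2
      exact c1.continuousAt.eventually (Metric.ball_mem_nhds _ hR)
    filter_upwards [nhdsWithin_le_nhds h2] with y' hy'
    obtain ⟨⟨w, hw, rfl⟩, hy'2⟩ := hy'
    have hw2 : (fun j => (q j) (κ w)) = w := funext fun j => hc.inv w hw j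
    rw [hw2] at hy'2
    refine ⟨interior C₂, isOpen_interior, hCC₂, fun ε hε => ?_⟩
    obtain ⟨ψ, hψ1, hψ2⟩ := chain_move hS.toSD0 hDP hc hC₂.1 hC₁ hC₂₁
      (fun w hw => (hball w hw).2) (fun w hw => (hball w hw).1)
      (Metric.mem_ball_self hR) hy'2 hε
    rw [hκ] at hψ1
    exact ⟨ψ, hψ1, fun x hx => hψ2 x (interior_subset hx)⟩
  · -- transitivity
    rintro x y z - - - ⟨U, hU, hCU, h1⟩ ⟨U', hU', hCU', h2⟩
    obtain ⟨δ, hδ, hth⟩ := hC.1.exists_cthickening_subset_open (hU.inter hU')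
      (Set.subset_inter hCU hCU')
    refine ⟨Metric.thickening (δ / 2) C, Metric.isOpen_thickening,
      Metric.self_subset_thickening (by positivity) C, fun ε hε => ?_⟩
    obtain ⟨φ, hφ1, hφ2⟩ := h1 (min (ε / 2) (δ / 2)) (lt_min (by positivity) (by positivity))
    obtain ⟨ψ, hψ1, hψ2⟩ := h2 (min (ε / 2) (δ / 2)) (lt_min (by positivity) (by positivity))
    refine ⟨ψ.comp φ, ?_, ?_⟩
    · rw [HolAut.comp_apply, hφ1, hψ1]
    · have h3 : ∀ x ∈ Metric.thickening (δ / 2) C, ∀ z, dist z x ≤ min (ε / 2) (δ / 2) →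
          z ∈ U ∩ U' := by
        intro x hx z hz
        refine hth ?_
        rw [Metric.mem_thickening_iff] at hx
        obtain ⟨c, hc, hxc⟩ := hx
        refine Metric.thickening_subset_cthickening _ _ (Metric.mem_thickening_iff.2 ⟨c, hc, ?_⟩)
        have h4 := dist_triangle z x c
        have h5 := hz.trans (min_le_right _ _)
        linarith
      have h4 := move_near_comp (A := U ∩ U') (B := Metric.thickening (δ / 2) C)
        (fun x hx => hφ2 x hx.1) (fun x hx => hψ2 x hx.2)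
        (fun x hx => h3 x hx x (by rw [dist_self]; positivity)) h3 h3
      refine move_near_mono h4 ?_
      have := min_le_left (ε / 2) (δ / 2)
      linarith
  · -- symmetry
    rintro x y - - ⟨U, hU, hCU, h1⟩
    refine ⟨U, hU, hCU, fun ε hε => ?_⟩
    obtain ⟨ψ, hψ1, hψ2⟩ := h1 ε hε
    refine ⟨ψ.symm, ?_, fun x hx => ⟨(hψ2 x hx).2, (hψ2 x hx).1⟩⟩
    rw [← hψ1]
    exact HolAut.symm_apply_self _ _


theorem moveF (hS : SD m O G) (hDP : LT O) {C F : Set X} (hC : OConv O C)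
    (hF : F.Finite) {y y' : X} (hy : y ∉ C ∪ F) (hy' : y' ∉ C ∪ F) {ε : ℝ} (hε : 0 < ε) :
    ∃ ψ : HolAut O, ψ y = y' ∧ (∀ x ∈ F, ψ x = x) ∧ Near C ε ψ := by
  classical
  obtain ⟨U, hU, hCU, hQ⟩ := moveQ hS hDP (oconv_union hS.toSD0 hC hF) hy hy'
  obtain ⟨δ', hδ', hth⟩ := hC.1.exists_cthickening_subset_open hU
    (Set.subset_union_left.trans hCU)
  obtain ⟨k, x, hx, hxr⟩ := (hF.insert y').fin_param
  have hε2 : 0 < min (ε / 2) δ' := lt_min (by positivity) hδ'
  obtain ⟨δ, hδ, hcorr⟩ := corr hS.toSD0 hDP x hx (hC.1.cthickening (r := δ')) hε2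
  obtain ⟨φ, hφ1, hφ2⟩ := hQ (min (ε / 2) (min δ δ'))
    (lt_min (by positivity) (lt_min hδ hδ'))
  have hy'F : y' ∉ F := fun h => hy' (Or.inr h)
  obtain ⟨χ, hχ1, hχ2⟩ := hcorr (fun i => if x i = y' then y' else φ (x i)) (by
    intro i
    by_cases hi : x i = y'
    · simp only [if_pos hi]
      rw [hi, dist_self]
      exact hδ.le
    · simp only [if_neg hi]
      have h1 : x i ∈ F := by
        have h2 : x i ∈ insert y' F := by rw [← hxr]; exact ⟨i, rfl⟩
        exact (Set.mem_insert_iff.1 h2).resolve_left hi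
      exact (hφ2 (x i) (hCU (Or.inr h1))).1.trans ((min_le_right _ _).trans (min_le_left _ _)))
  refine ⟨χ.comp φ, ?_, ?_, ?_⟩
  · obtain ⟨i, hi⟩ : y' ∈ Set.range x := by rw [hxr]; exact Set.mem_insert _ _
    have h1 := hχ1 i
    simp only [if_pos hi] at h1
    rw [HolAut.comp_apply, hφ1, h1, hi]
  · intro z hz
    obtain ⟨i, hi⟩ : z ∈ Set.range x := by rw [hxr]; exact Set.mem_insert_of_mem _ hz
    have hne : x i ≠ y' := fun h => hy'F (by rw [← h, hi]; exact hz)
    have h1 := hχ1 i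
    simp only [if_neg hne] at h1
    rw [hi] at h1
    rw [HolAut.comp_apply, h1]
  · have h3 : ∀ z ∈ C, ∀ w, dist w z ≤ δ' → w ∈ Metric.cthickening δ' C := fun z hz w hw =>
      Metric.mem_cthickening_of_dist_le w z δ' C hz hw
    have h4 := move_near_comp (A := Metric.cthickening δ' C) (B := C)
      (fun z hz => hφ2 z (hth hz)) hχ2 (Metric.self_subset_cthickening C)
      (fun z hz w hw => h3 z hz w (hw.trans ((min_le_right _ _).trans (min_le_right _ _))))
      (fun z hz w hw => h3 z hz w (hw.trans (min_le_right _ _)))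
    refine move_near_mono h4 ?_
    have h5 := min_le_left (ε / 2) (min δ δ')
    have h6 := min_le_left (ε / 2) δ'
    linarith


theorem moveM (hS : SD m O G) (hDP : LT O) {C : Set X} (hC : OConv O C) {k : ℕ}
    (y y' : Fin k → X) (hyi : Function.Injective y) (hyi' : Function.Injective y')
    (hy : ∀ i, y i ∉ C) (hy' : ∀ i, y' i ∉ C) {ε : ℝ} (hε : 0 < ε) :
    ∃ ψ : HolAut O, (∀ i, ψ (y i) = y' i) ∧ Near C ε ψ := by
  induction k generalizing C ε with
  | zero =>
    refine ⟨idAut O, fun i => i.elim0, fun x _ => ⟨?_, ?_⟩⟩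
    · show dist x x ≤ ε
      rw [dist_self]
      exact hε.le
    · show dist x x ≤ ε
      rw [dist_self]
      exact hε.le
  | succ k ih =>
    have hfin : (Set.range y ∪ Set.range y').Finite := (Set.finite_range y).union (Set.finite_range y')
    obtain ⟨C₁, hC₁, hCC₁, hC₁y⟩ := oconv_nhds hS.toSD0 hC hfin.isClosed.isOpen_compl (by
      rintro x hx (⟨i, rfl⟩ | ⟨i, rfl⟩)
      · exact hy i hx
      · exact hy' i hx)
    have hy1 : ∀ i, y i ∉ C₁ := fun i h => hC₁y h (Or.inl ⟨i, rfl⟩)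
    have hy1' : ∀ i, y' i ∉ C₁ := fun i h => hC₁y h (Or.inr ⟨i, rfl⟩)
    obtain ⟨C₂, hC₂, hCC₂, hC₂₁⟩ := oconv_nhds hS.toSD0 hC isOpen_interior hCC₁
    have hC₂₁' : C₂ ⊆ C₁ := hC₂₁.trans interior_subset
    obtain ⟨η1, hη1, hth1⟩ := hC₂.1.exists_cthickening_subset_open isOpen_interior hC₂₁
    obtain ⟨η2, hη2, hth2⟩ := hC.1.exists_cthickening_subset_open isOpen_interior hCC₂
    have hε1 : 0 < min (ε / 2) (min η1 η2) := lt_min (by positivity) (lt_min hη1 hη2)
    obtain ⟨φ, hφ1, hφ2⟩ := ih hC₁ (fun i => y i.castSucc) (fun i => y' i.castSucc)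
      (hyi.comp (Fin.castSucc_injective k)) (hyi'.comp (Fin.castSucc_injective k))
      (fun i => hy1 _) (fun i => hy1' _) hε1
    have hz1 : φ (y (Fin.last k)) ∉ C₂ := by
      intro h
      have h1 := (hφ2 _ (hC₂₁' h)).2
      rw [HolAut.symm_apply_self] at h1
      refine hy1 (Fin.last k) (interior_subset (hth1 ?_))
      exact Metric.mem_cthickening_of_dist_le _ _ _ _ h
        (h1.trans ((min_le_right _ _).trans (min_le_left _ _)))
    obtain ⟨χ, hχ1, hχ2, hχ3⟩ := moveF hS hDP hC₂ (Set.finite_range fun i : Fin k => y' i.castSucc)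
      (y := φ (y (Fin.last k))) (y' := y' (Fin.last k)) (by
        rintro (h | ⟨i, hi⟩)
        · exact hz1 h
        · have h1 : φ (y i.castSucc) = φ (y (Fin.last k)) := by rw [hφ1 i]; exact hi
          have h2 : y i.castSucc = y (Fin.last k) := φ.toHomeo.injective h1
          exact (Fin.castSucc_lt_last i).ne (hyi h2)) (by
        rintro (h | ⟨i, hi⟩)
        · exact hy1' _ (hC₂₁' h)
        · exact (Fin.castSucc_lt_last i).ne (hyi' hi)) hε1
    refine ⟨χ.comp φ, ?_, ?_⟩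
    · rw [Fin.forall_fin_succ']
      refine ⟨fun i => ?_, ?_⟩
      · rw [HolAut.comp_apply, hφ1 i]
        exact hχ2 _ ⟨i, rfl⟩
      · rw [HolAut.comp_apply]
        exact hχ1
    · have h3 : ∀ z ∈ C, ∀ w, dist w z ≤ min (ε / 2) (min η1 η2) → w ∈ C₂ := fun z hz w hw =>
        interior_subset (hth2 (Metric.mem_cthickening_of_dist_le w z η2 C hz
          (hw.trans ((min_le_right _ _).trans (min_le_right _ _)))))
      have h4 := move_near_comp (A := C₂) (B := C) (fun z hz => hφ2 z (hC₂₁' hz)) hχ3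
        (hCC₂.trans interior_subset) h3 h3
      refine move_near_mono h4 ?_
      have h5 := min_le_left (ε / 2) (min η1 η2)
      linarith


end Pool.Agent.MP_fe3720.RR
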