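import Pool.Agent.Work.MP_fe3720_an.R.Move

/-! # StageOneA: finitely many automorphisms suffice for all configurations

Let `A` be compact, `Θ ∈ Aut` with `Θ x ∉ C` for `x ∈ A`, `C` O-convex. For every configuration `x ∈ A^n` (with
repetitions) there is `ψ`, `Near C ε ψ`, with `|f (β k (ψ (Θ (x l))))| > M` for all `l` and all `k ≤ i`: apply `moveM` to the distinct
points among the `Θ (x l)` (enumerate the finite set) and targets `a j` with different large indices `j` (so that `a j ∉ C`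
(`|f (a j)|` is large, `f` is bounded on `C`), `β k (a j) = a j` for `k ≤ i` and `|f (a j)| > M`). The condition is
open in the configuration, and the space `Fin n → A` of configurations is compact: a finite set of `ψ` suffices. -/

namespace Pool.Agent.MP_fe3720.RR

open Topology Filter

variable {X : Type} [MetricSpace X] [ProperSpace X] [PreconnectedSpace X]
  {O : Subalgebra ℂ (X → ℂ)} {m N : ℕ} {G : Fin N → O}

theorem finite_moves (hS : SD m O G) (hDP : LT O) {f : O} {a : ℕ → X}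
    (ha : Function.Injective (fun n => f (a n)))
    (hat : Tendsto (fun n => ‖f (a n)‖) atTop atTop) {β : ℕ → HolAut O} {n₀ : ℕ → ℕ}
    (hβ : ∀ k n, n₀ k ≤ n → β k (a n) = a n) {C : Set X} (hC : OConv O C) {A : Set X}
    (hA : IsCompact A) (Θ : HolAut O) (hΘ : ∀ x ∈ A, Θ x ∉ C) (n i : ℕ) (M : ℝ) {ε : ℝ}
    (hε : 0 < ε) :
    ∃ F : Set (HolAut O), F.Finite ∧ (∀ ψ ∈ F, Near C ε ψ) ∧
      ∀ x : Fin n → X, (∀ l, x l ∈ A) → ∃ ψ ∈ F, ∀ l, ∀ k ≤ i, M < ‖f (β k (ψ (Θ (x l))))‖ := by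
  classical
  have hfc : Continuous f.1 := cont hS.toSD0 f
  obtain ⟨B, hB⟩ := hC.1.exists_bound_of_continuousOn hfc.continuousOn
  obtain ⟨N₀, hN₀⟩ := eventually_atTop.mp (hat.eventually_gt_atTop (max M B))
  set N₂ : ℕ := max N₀ ((Finset.range (i + 1)).sup n₀) with hN₂
  have hidx : ∀ k ≤ i, ∀ j : ℕ, n₀ k ≤ N₂ + j := by
    intro k hk j
    have h1 : n₀ k ≤ (Finset.range (i + 1)).sup n₀ :=
      Finset.le_sup (f := n₀) (Finset.mem_range.mpr (by omega))
    have h2 : (Finset.range (i + 1)).sup n₀ ≤ N₂ := le_max_right _ _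
    omega
  have hbig : ∀ j : ℕ, max M B < ‖f (a (N₂ + j))‖ := by
    intro j
    apply hN₀
    have : N₀ ≤ N₂ := le_max_left _ _
    omega
  have hex : ∀ x : Fin n → X, (∀ l, x l ∈ A) → ∃ ψ : HolAut O, Near C ε ψ ∧
      ∀ l, ∀ k ≤ i, M < ‖f (β k (ψ (Θ (x l))))‖ := by
    intro x hx
    set s : Finset X := Finset.univ.image (fun l => Θ (x l)) with hs
    let e : s ≃ Fin s.card := s.equivFin
    obtain ⟨ψ, h1, h2⟩ := moveM hS hDP hC (k := s.card) (fun j => (e.symm j : X))
      (fun j => a (N₂ + (j : ℕ)))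
      (fun u v h => e.symm.injective (Subtype.ext h))
      (fun u v h => by
        have h' : a (N₂ + (u : ℕ)) = a (N₂ + (v : ℕ)) := h
        have h3 := ha (show (fun n => f (a n)) (N₂ + (u : ℕ)) = (fun n => f (a n)) (N₂ + (v : ℕ))
          from congrArg f.1 h')
        exact Fin.ext (by omega))
      (fun j hj => by
        obtain ⟨l, -, hl⟩ := Finset.mem_image.mp (e.symm j).2
        rw [← hl] at hj
        exact hΘ _ (hx l) hj)
      (fun j hj => by
        have h3 := hB _ hj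
        have h4 := hbig (j : ℕ)
        exact absurd h3 (not_le.mpr (lt_of_le_of_lt (le_max_right _ _) h4)))
      hε
    refine ⟨ψ, h2, fun l k hk => ?_⟩
    have hmem : Θ (x l) ∈ s := Finset.mem_image_of_mem _ (Finset.mem_univ l)
    have h3 := h1 (e ⟨Θ (x l), hmem⟩)
    have h4 : ((e.symm (e ⟨Θ (x l), hmem⟩) : s) : X) = Θ (x l) := by
      rw [Equiv.symm_apply_apply]
    simp only [h4] at h3
    rw [h3, hβ k _ (hidx k hk _)]
    exact lt_of_le_of_lt (le_max_left _ _) (hbig _)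
  have hcpt : IsCompact {x : Fin n → X | ∀ l, x l ∈ A} := by
    have h1 : IsCompact (Set.pi Set.univ (fun _ : Fin n => A)) :=
      isCompact_univ_pi (fun _ => hA)
    have h2 : {x : Fin n → X | ∀ l, x l ∈ A} = Set.pi Set.univ (fun _ : Fin n => A) := by
      ext x
      simp only [Set.mem_ofPred_eq, Set.mem_pi, Set.mem_univ, forall_const]
    rw [h2]
    exact h1
  let U : {ψ : HolAut O // Near C ε ψ} → Set (Fin n → X) := fun ψ =>
    {x | ∀ l, ∀ k ≤ i, M < ‖f (β k (ψ.1 (Θ (x l))))‖}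
  have hU : ∀ ψ, IsOpen (U ψ) := by
    intro ψ
    have h1 : U ψ = ⋂ l : Fin n, ⋂ k ∈ Set.Iic i,
        {x : Fin n → X | M < ‖f (β k (ψ.1 (Θ (x l))))‖} := by
      ext x
      simp only [U, Set.mem_ofPred_eq, Set.mem_iInter, Set.mem_Iic]
    rw [h1]
    refine isOpen_iInter_of_finite fun l => (Set.finite_Iic i).isOpen_biInter fun k _ => ?_
    refine isOpen_lt continuous_const ?_
    exact (hfc.comp ((β k).toHomeo.continuous.comp (ψ.1.toHomeo.continuous.comp
      (Θ.toHomeo.continuous.comp (continuous_apply l))))).norm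
  obtain ⟨t, ht⟩ := hcpt.elim_finite_subcover U hU (by
    intro x hx
    obtain ⟨ψ, h1, h2⟩ := hex x hx
    exact Set.mem_iUnion.mpr ⟨⟨ψ, h1⟩, h2⟩)
  refine ⟨(fun ψ : {ψ : HolAut O // Near C ε ψ} => ψ.1) '' (t : Set _),
    (Finset.finite_toSet t).image _, ?_, ?_⟩
  · rintro _ ⟨ψ, -, rfl⟩
    exact ψ.2
  · intro x hx
    have h1 := ht hx
    simp only [Set.mem_iUnion] at h1
    obtain ⟨ψ, hψ, h2⟩ := h1
    exact ⟨ψ.1, ⟨ψ, hψ, rfl⟩, h2⟩

end Pool.Agent.MP_fe3720.RR
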