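import Pool.Agent.Work.MP_fe3720_an.R.StageOneA
import Pool.Agent.Work.MP_fe3720_an.R.Limit

/-! # StageOneB: the universal sequence of radii

The data: `r : ℕ → ℝ`, finite sets `S j` of automorphisms (states), compact sets `C j = KK G (c j)`. The recursion constructs, given
`r 0, …, r j` and `S 0, …, S (j-1)`: `S j = {id} ∪ ⋃_{i<j} (S i ∪ ⋃_{Θ ∈ S i} {ψ.comp Θ | ψ ∈ F i j Θ})`, `c j ≥ r j` so large that
`Θ (KK G (r j)) ⊆ KK G (c j)` for `Θ ∈ S j`, and `r (j+1) ≥ r j + 1` so large that `Θ x ∉ KK G (c j)` if `x ∉ interior (KK G (r (j+1)))`, `Θ ∈ S j`. `F i j Θ` is given by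
`finite_moves` for `C = KK G (c i)`, `A = KK G (r j) \ interior (KK G (r (i+1)))`, `n = j`, `M = i`, and `ε = e i Θ > 0` such that for `ψ` with `Near C ε ψ`: (a) for `x ∈ KK G (r i)`,
`dist ((ψ.comp Θ) x) (Θ x) ≤ 2^{-i}` and the same for the inverses (`limit_step`); (b) `|f (β k (ψ y)) - f (β k y)| ≤ 2^{-i}` for `y ∈ KK G (c i)`, `k ≤ i`. -/

namespace Pool.Agent.MP_fe3720.RR

open Topology Filter

private theorem exists_strong {α : Type} (a₀ : α) (g : ℕ → (ℕ → α) → α)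
    (hg : ∀ n u v, (∀ i ≤ n, u i = v i) → g n u = g n v) :
    ∃ P : ℕ → α, P 0 = a₀ ∧ ∀ n, P (n + 1) = g n P := by
  classical
  let h : ∀ n : ℕ, (∀ k, k < n → α) → α := fun n => match n with
    | 0 => fun _ => a₀
    | n + 1 => fun ih => g n (fun i => if hi : i < n + 1 then ih i hi else a₀)
  refine ⟨fun n => Nat.strongRec (motive := fun _ => α) h n, ?_, fun n => ?_⟩
  · show Nat.strongRec (motive := fun _ => α) h 0 = a₀
    rw [Nat.strongRec_eq]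
  · show Nat.strongRec (motive := fun _ => α) h (n + 1) = _
    rw [Nat.strongRec_eq]
    apply hg
    intro i hi
    have : i < n + 1 := by omega
    simp only [this, dif_pos]

section NoConn

variable {X : Type} [MetricSpace X] [ProperSpace X]
  {O : Subalgebra ℂ (X → ℂ)} {m N : ℕ} {G : Fin N → O}

private theorem exists_c (hS : SD0 m O G) (r : ℝ) (S : Set (HolAut O)) :
    ∃ c : ℝ, r ≤ c ∧ (S.Finite → ∀ Θ ∈ S, ∀ x ∈ KK G r, Θ x ∈ KK G c) := by
  by_cases hf : S.Finite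
  · have hK : IsCompact (⋃ Θ ∈ S, (Θ.toHomeo : X → X) '' KK G r) :=
      hf.isCompact_biUnion fun Θ _ => (isCompact_KK hS r).image Θ.toHomeo.continuous
    obtain ⟨r₀, -, h⟩ := exists_KK hS hK
    refine ⟨max r r₀, le_max_left _ _, fun _ Θ hΘ x hx => ?_⟩
    apply interior_subset
    apply h _ (le_max_right _ _)
    exact Set.mem_biUnion hΘ ⟨x, hx, rfl⟩
  · exact ⟨r, le_rfl, fun h => absurd h hf⟩

private theorem exists_r (hS : SD0 m O G) (r c : ℝ) (S : Set (HolAut O)) :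
    ∃ r' : ℝ, r + 1 ≤ r' ∧ (S.Finite → ∀ Θ ∈ S, ∀ x ∉ interior (KK G r'), Θ x ∉ KK G c) := by
  by_cases hf : S.Finite
  · have hK : IsCompact (⋃ Θ ∈ S, (Θ.toHomeo.symm : X → X) '' KK G c) :=
      hf.isCompact_biUnion fun Θ _ => (isCompact_KK hS c).image Θ.toHomeo.symm.continuous
    obtain ⟨r₀, -, h⟩ := exists_KK hS hK
    refine ⟨max (r + 1) r₀, le_max_left _ _, fun _ Θ hΘ x hx hcon => hx ?_⟩
    apply h _ (le_max_right _ _)
    exact Set.mem_biUnion hΘ ⟨Θ x, hcon, Θ.toHomeo.symm_apply_apply x⟩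
  · exact ⟨r + 1, le_rfl, fun h => absurd h hf⟩

private theorem exists_e (hS : SD0 m O G) (f : O) (β : ℕ → HolAut O) (i : ℕ) (r c : ℝ)
    (Θ : HolAut O) : ∃ ε > 0, (r ≤ c → (∀ x ∈ KK G r, Θ x ∈ KK G c) → ∀ ψ : HolAut O,
      Near (KK G c) ε ψ →
      (∀ z ∈ KK G r, dist ((ψ.comp Θ) z) (Θ z) ≤ (1 / 2) ^ i ∧
        dist ((ψ.comp Θ).symm z) (Θ.symm z) ≤ (1 / 2) ^ i) ∧
      (∀ z ∈ KK G r, ∀ k ≤ i, ‖f (β k ((ψ.comp Θ) z)) - f (β k (Θ z))‖ ≤ (1 / 2) ^ i)) := by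
  obtain ⟨η, hη, h1⟩ := limit_step hS Θ (isCompact_KK hS r)
    (show (0 : ℝ) < (1 / 2) ^ i by positivity)
  have hfc : Continuous f.1 := cont hS f
  set F : X → (Fin (i + 1) → ℂ) := fun y k => f (β k y) with hF
  have hFc : Continuous F :=
    continuous_pi fun k => hfc.comp (β k).toHomeo.continuous
  have hu : UniformContinuousOn F (KK G (c + 1)) :=
    (isCompact_KK hS (c + 1)).uniformContinuousOn_of_continuous hFc.continuousOn
  rw [Metric.uniformContinuousOn_iff] at hu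
  obtain ⟨δ, hδ, h2⟩ := hu ((1 / 2) ^ i) (by positivity)
  refine ⟨min (min η 1) (δ / 2), by positivity, fun hrc hΘ ψ hψ => ⟨?_, ?_⟩⟩
  · apply h1 ψ
    intro x hx
    have hx' : x ∈ KK G c := by
      rcases hx with hx | ⟨y, hy, rfl⟩
      · exact KK_mono hrc hx
      · exact hΘ y hy
    have h3 := hψ x hx'
    have h4 : min (min η 1) (δ / 2) ≤ η := (min_le_left _ _).trans (min_le_left _ _)
    exact ⟨h3.1.trans h4, h3.2.trans h4⟩
  · intro z hz k hk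
    have hx' := hΘ z hz
    have h3 := (hψ _ hx').1
    have h4 : min (min η 1) (δ / 2) ≤ 1 := (min_le_left _ _).trans (min_le_right _ _)
    have h5 : min (min η 1) (δ / 2) < δ := lt_of_le_of_lt (min_le_right _ _) (by linarith)
    have h6 : ψ (Θ z) ∈ KK G (c + 1) := KK_dist hS hx' (h3.trans h4)
    have h7 : Θ z ∈ KK G (c + 1) := KK_mono (by linarith) hx'
    have h8 := h2 _ h6 _ h7 (lt_of_le_of_lt h3 h5)
    rw [dist_eq_norm] at h8
    have h9 := norm_le_pi_norm (F (ψ (Θ z)) - F (Θ z)) (⟨k, by omega⟩ : Fin (i + 1))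
    exact h9.trans h8.le

end NoConn

variable {X : Type} [MetricSpace X] [ProperSpace X] [PreconnectedSpace X]
  {O : Subalgebra ℂ (X → ℂ)} {m N : ℕ} {G : Fin N → O}

/-- the result of the recursion -/
structure Radii (G : Fin N → O) (f : O) (β : ℕ → HolAut O) (r : ℕ → ℝ)
    (S : ℕ → Set (HolAut O)) : Prop where
  pos : 0 < r 0
  step : ∀ i, r i + 1 ≤ r (i + 1)
  id_mem : idAut O ∈ S 0
  mono : ∀ i j, i ≤ j → S i ⊆ S j
  move : ∀ i j, i < j → ∀ Θ ∈ S i, ∀ x : Fin j → X,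
    (∀ l, x l ∈ KK G (r j) \ interior (KK G (r (i + 1)))) → ∃ Θ' ∈ S j,
      (∀ l, ∀ k ≤ i, (i : ℝ) < ‖f (β k (Θ' (x l)))‖) ∧
      (∀ z ∈ KK G (r i), dist (Θ' z) (Θ z) ≤ (1 / 2) ^ i ∧
        dist (Θ'.symm z) (Θ.symm z) ≤ (1 / 2) ^ i) ∧
      (∀ z ∈ KK G (r i), ∀ k ≤ i, ‖f (β k (Θ' z)) - f (β k (Θ z))‖ ≤ (1 / 2) ^ i)

theorem exists_radii (hS : SD m O G) (hDP : LT O) {f : O} {a : ℕ → X}
    (ha : Function.Injective (fun n => f (a n)))
    (hat : Tendsto (fun n => ‖f (a n)‖) atTop atTop) {β : ℕ → HolAut O} {n₀ : ℕ → ℕ}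
    (hβ : ∀ k n, n₀ k ≤ n → β k (a n) = a n) :
    ∃ (r : ℕ → ℝ) (S : ℕ → Set (HolAut O)), Radii G f β r S := by
  classical
  choose cc hcc1 hcc2 using exists_c (O := O) hS.toSD0
  choose rr hrr1 hrr2 using exists_r (O := O) hS.toSD0
  choose ee hee1 hee2 using exists_e (O := O) hS.toSD0 f β
  have hFm : ∀ (c : ℝ) (A : Set X) (Θ : HolAut O) (n i : ℕ) (ε : ℝ),
      ∃ F : Set (HolAut O), F.Finite ∧ (IsCompact A → (∀ x ∈ A, Θ x ∉ KK G c) → 0 < ε →
        (∀ ψ ∈ F, Near (KK G c) ε ψ) ∧ ∀ x : Fin n → X, (∀ l, x l ∈ A) →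
          ∃ ψ ∈ F, ∀ l, ∀ k ≤ i, (i : ℝ) < ‖f (β k (ψ (Θ (x l))))‖) := by
    intro c A Θ n i ε
    by_cases h : IsCompact A ∧ (∀ x ∈ A, Θ x ∉ KK G c) ∧ 0 < ε
    · obtain ⟨F, h1, h2, h3⟩ := finite_moves hS hDP ha hat hβ (oconv_KK hS.toSD0 c) h.1 Θ h.2.1
        n i (i : ℝ) h.2.2
      exact ⟨F, h1, fun _ _ _ => ⟨h2, h3⟩⟩
    · exact ⟨∅, Set.finite_empty, fun h1 h2 h3 => absurd ⟨h1, h2, h3⟩ h⟩
  choose Fm hFm1 hFm2 using hFm
  obtain ⟨P, hP0, hPs⟩ := exists_strong (α := ℝ × Set (HolAut O)) ((1 : ℝ), {idAut O})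
    (fun j P => (rr (P j).1 (cc (P j).1 (P j).2) (P j).2,
      {idAut O} ∪ ⋃ i ∈ Set.Iic j, ((P i).2 ∪ ⋃ Θ ∈ (P i).2, (fun ψ => ψ.comp Θ) ''
        Fm (cc (P i).1 (P i).2) (KK G (rr (P j).1 (cc (P j).1 (P j).2) (P j).2) \
          interior (KK G (rr (P i).1 (cc (P i).1 (P i).2) (P i).2))) Θ (j + 1) i
          (ee i (P i).1 (cc (P i).1 (P i).2) Θ)))) (by
      intro n u v huv
      have hn := huv n le_rfl
      simp only [hn]
      congr 2
      refine Set.iUnion₂_congr fun i hi => ?_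
      rw [huv i hi])
  have hr : ∀ j, (P (j + 1)).1 = rr (P j).1 (cc (P j).1 (P j).2) (P j).2 := by
    intro j
    rw [hPs j]
  have hSs : ∀ j, (P (j + 1)).2 = {idAut O} ∪ ⋃ i ∈ Set.Iic j, ((P i).2 ∪ ⋃ Θ ∈ (P i).2,
      (fun ψ => ψ.comp Θ) '' Fm (cc (P i).1 (P i).2) (KK G (P (j + 1)).1 \
          interior (KK G (P (i + 1)).1)) Θ (j + 1) i
          (ee i (P i).1 (cc (P i).1 (P i).2) Θ)) := by
    intro j
    simp only [hr]
    rw [hPs j]
  have hfin : ∀ j, (P j).2.Finite := by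
    intro j
    induction j using Nat.strong_induction_on with
    | _ j ih =>
      cases j with
      | zero => rw [hP0]; exact Set.finite_singleton _
      | succ j =>
        rw [hSs]
        refine (Set.finite_singleton _).union ((Set.finite_Iic j).biUnion fun i hi => ?_)
        have hi' : i < j + 1 := by
          have : i ≤ j := hi
          omega
        exact (ih i hi').union ((ih i hi').biUnion fun Θ _ => (hFm1 _ _ _ _ _ _).image _)
  refine ⟨fun j => (P j).1, fun j => (P j).2, ?_, ?_, ?_, ?_, ?_⟩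
  · show 0 < (P 0).1
    rw [hP0]
    exact one_pos
  · intro i
    show (P i).1 + 1 ≤ (P (i + 1)).1
    rw [hr]
    exact hrr1 _ _ _
  · show idAut O ∈ (P 0).2
    rw [hP0]
    exact Set.mem_singleton _
  · intro i j hij
    show (P i).2 ⊆ (P j).2
    rcases hij.eq_or_lt with rfl | hlt
    · exact subset_rfl
    · obtain ⟨j, rfl⟩ : ∃ j', j = j' + 1 := ⟨j - 1, by omega⟩
      rw [hSs]
      intro Θ hΘ
      refine Or.inr (Set.mem_biUnion (show i ∈ Set.Iic j by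
        simp only [Set.mem_Iic]
        omega) (Or.inl hΘ))
  · intro i j hij Θ hΘ x hx
    obtain ⟨j, rfl⟩ : ∃ j', j = j' + 1 := ⟨j - 1, by omega⟩
    have hA : IsCompact (KK G (P (j + 1)).1 \ interior (KK G (P (i + 1)).1)) :=
      (isCompact_KK hS.toSD0 _).diff isOpen_interior
    have hΘA : ∀ x ∈ KK G (P (j + 1)).1 \ interior (KK G (P (i + 1)).1),
        Θ x ∉ KK G (cc (P i).1 (P i).2) := by
      intro x hx
      have h1 := hx.2
      rw [hr] at h1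
      exact hrr2 _ _ _ (hfin i) Θ hΘ x h1
    obtain ⟨h1, h2⟩ := hFm2 (cc (P i).1 (P i).2) (KK G (P (j + 1)).1 \
          interior (KK G (P (i + 1)).1)) Θ (j + 1) i
          (ee i (P i).1 (cc (P i).1 (P i).2) Θ) hA hΘA (hee1 _ _ _ _)
    obtain ⟨ψ, hψ, h3⟩ := h2 x hx
    obtain ⟨h4, h5⟩ := hee2 i (P i).1 (cc (P i).1 (P i).2) Θ (hcc1 _ _)
      (hcc2 _ _ (hfin i) Θ hΘ) ψ (h1 ψ hψ)
    refine ⟨ψ.comp Θ, ?_, fun l k hk => h3 l k hk, h4, h5⟩
    show ψ.comp Θ ∈ (P (j + 1)).2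
    rw [hSs]
    refine Or.inr (Set.mem_biUnion (show i ∈ Set.Iic j by
        simp only [Set.mem_Iic]
        omega) (Or.inr (Set.mem_biUnion hΘ ⟨ψ, hψ, rfl⟩)))

end Pool.Agent.MP_fe3720.RR
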