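import Pool.Agent.Work.MP_fe3720_an.R.StageOneB

/-! # StageOneC: sparse sets

`ρ x = ‖G x‖` (so `{ρ ≤ c} = KK G c` for `c ≥ 0`), `R n = r (2 n + 2)`. Let `D` be sparse. Call `i` free if no point of `D` is in
`KK G (r (i+1)) \ KK G (r i)`, more precisely: every `x ∈ D` is in `KK G (r i)` or not in `interior (KK G (r (i+1)))`; sufficient: no `x ∈ D` with
`r i < ρ x ≤ r (i+1)`. Infinitely many `i` are free: the `2n+2` sets `{r i < ρ ≤ r (i+1)}`, `i < 2n+2`, are disjoint and contained in `{ρ ≤ R n}` which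
contains at most `n` points of `D`. So there is a strictly increasing sequence `i 0 < i 1 < ⋯` of free indices (`Nat.exists_strictMono_subsequence` or
`Nat.nth`). The points of `D` in `KK G (r (i (l+1)))` not in `KK G (r (i l))` are in `KK G (r (i (l+1))) \ interior (KK G (r (i l + 1)))` and their
number is at most `i (l+1)` (`D ∩ {ρ ≤ r j}` has at most `j` points: `j ≤ 2n + 2` with `n = j/2`, if `j ≥ 1`...): enumerate them, with repetitions, by `Fin (i (l+1))` (if there are none,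
take `Θ (l+1) = Θ l`, `Radii.mono`). Get `Θ l ∈ S (i l)`, `Θ 0 = id`.
Limit `Θ` by `limit_aut` (with radii `r (i l)`, and `(1/2)^{i l} ≤ (1/2)^l`). For `x ∈ D` in the shell `l`: `|f (β k (Θ (l+1) x))| > i l` if `k ≤ i l`, and the following changes are
at most `∑ 2^{-i} ≤ 2` (as `x ∈ KK G (r (i j))` for `j ≥ l+1`), so in the limit `|f (β k (Θ x))| ≥ i l - 2`. So for each `k, M` only the points of `D` in
`KK G (r (i l))` for `l` with `i l ≥ M + 3, k` can have `|f (β k (Θ x))| ≤ M`, and they are finitely many. -/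

namespace Pool.Agent.MP_fe3720.RR

open Topology Filter

private theorem mem_KK_iff {X : Type} {O : Subalgebra ℂ (X → ℂ)} {N : ℕ} [MetricSpace X]
    (G : Fin N → O) {r : ℝ} (hr : 0 ≤ r) (x : X) :
    x ∈ KK G r ↔ ‖(fun i => (G i) x : Fin N → ℂ)‖ ≤ r := by
  rw [pi_norm_le_iff_of_nonneg hr]
  rfl

private theorem exists_enum {X : Type} {T : Set X} {j : ℕ} (hT : T.encard ≤ j)
    (hne : T.Nonempty) : ∃ x : Fin j → X, Set.range x = T := by
  classical
  have hfin : T.Finite := Set.finite_of_encard_le_coe hT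
  have := hfin.fintype
  have hcard : Fintype.card T ≤ Fintype.card (Fin j) := by
    rw [Fintype.card_fin]
    have h1 : T.encard = (Fintype.card T : ℕ∞) := by
      rw [← Set.coe_fintypeCard]
    rw [h1] at hT
    exact_mod_cast hT
  obtain ⟨e⟩ := Function.Embedding.nonempty_of_card_le hcard
  have : Nonempty T := hne.to_subtype
  refine ⟨fun i => (Function.invFun e i : T), ?_⟩
  ext y
  constructor
  · rintro ⟨i, rfl⟩
    exact (Function.invFun e i).2
  · intro hy
    refine ⟨e ⟨y, hy⟩, ?_⟩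
    show ((Function.invFun e (e ⟨y, hy⟩) : T) : X) = y
    rw [Function.leftInverse_invFun e.injective]

variable {X : Type} [MetricSpace X] [ProperSpace X] [PreconnectedSpace X]
  {O : Subalgebra ℂ (X → ℂ)} {m N : ℕ} {G : Fin N → O}

theorem stage_one (hS : SD m O G) (hDP : LT O) {f : O} {a : ℕ → X}
    (ha : Function.Injective (fun n => f (a n)))
    (hat : Tendsto (fun n => ‖f (a n)‖) atTop atTop) {β : ℕ → HolAut O} {n₀ : ℕ → ℕ}
    (hβ : ∀ k n, n₀ k ≤ n → β k (a n) = a n) :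
    ∃ R : ℕ → ℝ, (∀ n, 0 < R n) ∧ ¬ BddAbove (Set.range R) ∧ ∀ D : Set X,
      (∀ n : ℕ, {x ∈ D | ‖(fun i => (G i) x : Fin N → ℂ)‖ ≤ R n}.encard ≤ n) →
      ∃ Θ : HolAut O, ∀ (k : ℕ) (M : ℝ), {x ∈ D | ‖f (β k (Θ x))‖ ≤ M}.Finite := by
  classical
  obtain ⟨r, S, hR⟩ := exists_radii hS hDP ha hat hβ
  have hrmono : StrictMono r := strictMono_nat_of_lt_succ fun i => by
    have := hR.step i
    linarith
  have hri : ∀ i : ℕ, (i : ℝ) < r i := by
    intro i
    induction i with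
    | zero => simpa using hR.pos
    | succ i ih =>
      have := hR.step i
      push_cast
      linarith
  have hr0 : ∀ i, 0 < r i := fun i => lt_of_le_of_lt (Nat.cast_nonneg i) (hri i)
  refine ⟨fun n => r (2 * n + 2), fun n => hr0 _, ?_, ?_⟩
  · rintro ⟨B, hB⟩
    obtain ⟨n, hn⟩ := exists_nat_gt B
    have h1 := hB ⟨n, rfl⟩
    have h2 := hri (2 * n + 2)
    push_cast at h2
    have h3 : r (2 * n + 2) ≤ B := h1
    have h4 : (0 : ℝ) ≤ n := Nat.cast_nonneg n
    linarith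
  intro D hD
  set ρ : X → ℝ := fun x => ‖(fun i => (G i) x : Fin N → ℂ)‖ with hρ
  -- points of `D` in `ρ ≤ r j`
  have hDj : ∀ j : ℕ, {x ∈ D | ρ x ≤ r j}.encard ≤ j := by
    intro j
    have h1 : {x ∈ D | ρ x ≤ r j} ⊆ {x ∈ D | ρ x ≤ r (2 * (j / 2) + 2)} := by
      rintro x ⟨hx1, hx2⟩
      exact ⟨hx1, hx2.trans (hrmono.monotone (by omega))⟩
    refine (Set.encard_le_encard h1).trans ((hD (j / 2)).trans ?_)
    exact_mod_cast Nat.div_le_self j 2
  -- infinitely many free indices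
  have hfree : ∀ n : ℕ, ∃ i > n, ∀ x ∈ D, ¬ (r i < ρ x ∧ ρ x ≤ r (i + 1)) := by
    intro n
    by_contra hcon
    push Not at hcon
    have : Nonempty X := ⟨(hcon (n + 1) (by omega)).choose⟩
    choose! p hpD hp1 hp2 using hcon
    have hinj : Set.InjOn p (Set.Ioc n (2 * n + 1)) := by
      have key : ∀ i i' : ℕ, n < i → i < i' → p i ≠ p i' := by
        intro i i' hi hii' he
        have h1 := hp2 i hi
        have h2 := hp1 i' (by omega)
        rw [← he] at h2
        have h3 : r (i + 1) ≤ r i' := hrmono.monotone (by omega)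
        linarith
      intro i hi i' hi' he
      rcases lt_trichotomy i i' with h | h | h
      · exact absurd he (key i i' hi.1 h)
      · exact h
      · exact absurd he.symm (key i' i hi'.1 h)
    have hsub : p '' (Set.Ioc n (2 * n + 1)) ⊆ {x ∈ D | ρ x ≤ r (2 * n + 2)} := by
      rintro _ ⟨i, hi, rfl⟩
      exact ⟨hpD i hi.1, (hp2 i hi.1).trans (hrmono.monotone (by have := hi.2; omega))⟩
    have h1 := (Set.encard_le_encard hsub).trans (hD n)
    rw [hinj.encard_image] at h1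
    have h2 : (Set.Ioc n (2 * n + 1)).encard = ((n + 1 : ℕ) : ℕ∞) := by
      rw [← Finset.coe_Ioc, Set.encard_coe_eq_coe_finsetCard, Nat.card_Ioc]
      congr 1
      omega
    rw [h2] at h1
    have h3 : n + 1 ≤ n := by exact_mod_cast h1
    omega
  obtain ⟨ι, hι, hιf⟩ := Nat.exists_strictMono_subsequence hfree
  have hιl : ∀ l, l ≤ ι l := fun l => hι.le_apply
  -- the step
  have hstep : ∀ (l : ℕ) (Θ : HolAut O), Θ ∈ S (ι l) → ∃ Θ' : HolAut O, Θ' ∈ S (ι (l + 1)) ∧
      (∀ x ∈ D, r (ι l) < ρ x → ρ x ≤ r (ι (l + 1)) → ∀ k ≤ ι l,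
        (ι l : ℝ) < ‖f (β k (Θ' x))‖) ∧
      (∀ z ∈ KK G (r (ι l)), dist (Θ' z) (Θ z) ≤ (1 / 2) ^ (ι l) ∧
        dist (Θ'.symm z) (Θ.symm z) ≤ (1 / 2) ^ (ι l)) ∧
      (∀ z ∈ KK G (r (ι l)), ∀ k ≤ ι l,
        ‖f (β k (Θ' z)) - f (β k (Θ z))‖ ≤ (1 / 2) ^ (ι l)) := by
    intro l Θ hΘ
    have hlt : ι l < ι (l + 1) := hι (Nat.lt_succ_self l)
    set T : Set X := {x ∈ D | r (ι l) < ρ x ∧ ρ x ≤ r (ι (l + 1))} with hT
    by_cases hne : T.Nonempty
    · have hTc : T.encard ≤ (ι (l + 1) : ℕ) := by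
        refine (Set.encard_le_encard ?_).trans (hDj (ι (l + 1)))
        rintro x ⟨h1, h2, h3⟩
        exact ⟨h1, h3⟩
      obtain ⟨x, hx⟩ := exists_enum hTc hne
      obtain ⟨Θ', h1, h2, h3, h4⟩ := hR.move (ι l) (ι (l + 1)) hlt Θ hΘ x (by
        intro i
        have hi : x i ∈ T := hx ▸ Set.mem_range_self i
        obtain ⟨hi1, hi2, hi3⟩ := hi
        refine ⟨(mem_KK_iff G (hr0 _).le _).mpr hi3, fun hcon => ?_⟩
        have h5 := (mem_KK_iff G (hr0 _).le _).mp (interior_subset hcon)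
        exact hιf l _ hi1 ⟨hi2, h5⟩)
      refine ⟨Θ', h1, ?_, h3, h4⟩
      intro y hy1 hy2 hy3 k hk
      have hy : y ∈ T := ⟨hy1, hy2, hy3⟩
      rw [← hx] at hy
      obtain ⟨i, rfl⟩ := hy
      exact h2 i k hk
    · refine ⟨Θ, hR.mono _ _ hlt.le hΘ, ?_, ?_, ?_⟩
      · intro y hy1 hy2 hy3
        exact absurd ⟨y, hy1, hy2, hy3⟩ hne
      · intro z _
        rw [dist_self, dist_self]
        exact ⟨by positivity, by positivity⟩
      · intro z _ k _
        rw [sub_self, norm_zero]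
        positivity
  choose nx hnx1 hnx2 hnx3 hnx4 using hstep
  let sq : ∀ l, {Θ : HolAut O // Θ ∈ S (ι l)} := fun l =>
    Nat.rec (motive := fun l => {Θ : HolAut O // Θ ∈ S (ι l)})
      ⟨idAut O, hR.mono 0 _ (Nat.zero_le _) hR.id_mem⟩
      (fun l p => ⟨nx l p.1 p.2, hnx1 l p.1 p.2⟩) l
  have hsq : ∀ l, (sq (l + 1)).1 = nx l (sq l).1 (sq l).2 := fun l => rfl
  have hmonoi : Monotone fun l => r (ι l) := hrmono.monotone.comp hι.monotone
  have htend : Tendsto (fun l => r (ι l)) atTop atTop := by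
    refine tendsto_atTop_mono (fun l => ?_) tendsto_natCast_atTop_atTop
    have h1 := hri (ι l)
    have h2 : (l : ℝ) ≤ (ι l : ℝ) := by exact_mod_cast hιl l
    linarith
  have hpow : ∀ l, ((1 : ℝ) / 2) ^ (ι l) ≤ (1 / 2) ^ l := fun l =>
    pow_le_pow_of_le_one (by norm_num) (by norm_num) (hιl l)
  obtain ⟨Θ, hΘ, -⟩ := limit_aut hS.toSD0 (fun l => (sq l).1) (fun l => r (ι l)) htend hmonoi (by
    intro l x hx
    show dist ((sq (l + 1)).1 x) ((sq l).1 x) ≤ _ ∧
      dist ((sq (l + 1)).1.symm x) ((sq l).1.symm x) ≤ _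
    rw [hsq]
    have h1 := hnx3 l (sq l).1 (sq l).2 x hx
    exact ⟨h1.1.trans (hpow l), h1.2.trans (hpow l)⟩)
  -- the estimate in the limit
  have hest : ∀ l, ∀ x ∈ D, r (ι l) < ρ x → ρ x ≤ r (ι (l + 1)) → ∀ k ≤ ι l,
      (ι l : ℝ) - 2 ≤ ‖f (β k (Θ x))‖ := by
    intro l x hx1 hx2 hx3 k hk
    have hind : ∀ j, l + 1 ≤ j → (ι l : ℝ) - 2 + 2 * (1 / 2) ^ j ≤ ‖f (β k ((sq j).1 x))‖ := by
      intro j hj
      induction j, hj using Nat.le_induction with
      | base =>
        have h1 := hnx2 l (sq l).1 (sq l).2 x hx1 hx2 hx3 k hk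
        rw [← hsq] at h1
        have h2 : ((1 : ℝ) / 2) ^ (l + 1) ≤ 1 := pow_le_one₀ (by norm_num) (by norm_num)
        linarith
      | succ j hj ih =>
        have hxj : x ∈ KK G (r (ι j)) :=
          (mem_KK_iff G (hr0 _).le _).mpr (hx3.trans (hmonoi hj))
        have h1 := hnx4 j (sq j).1 (sq j).2 x hxj k (hk.trans (hι.monotone (by omega)))
        rw [← hsq] at h1
        have h2 := h1.trans (hpow j)
        have h3 := norm_sub_norm_le (f (β k ((sq j).1 x))) (f (β k ((sq (j + 1)).1 x)))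
        rw [norm_sub_rev] at h3
        have h4 : ((1 : ℝ) / 2) ^ (j + 1) = (1 / 2) ^ j / 2 := by
          rw [pow_succ]
          ring
        rw [h4]
        linarith
    have hlim : Tendsto (fun j => ‖f (β k ((sq j).1 x))‖) atTop (𝓝 ‖f (β k (Θ x))‖) := by
      have hc : Continuous fun y => ‖f (β k y)‖ :=
        ((cont hS.toSD0 f).comp (β k).toHomeo.continuous).norm
      exact (hc.tendsto (Θ x)).comp (hΘ x)
    refine ge_of_tendsto hlim ?_
    filter_upwards [eventually_ge_atTop (l + 1)] with j hj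
    have h1 := hind j hj
    have h2 : (0 : ℝ) ≤ 2 * (1 / 2) ^ j := by positivity
    linarith
  refine ⟨Θ, fun k M => ?_⟩
  obtain ⟨q, hq⟩ := exists_nat_gt (M + 2)
  set l₀ : ℕ := max k q with hl₀
  have hsub : {x ∈ D | ‖f (β k (Θ x))‖ ≤ M} ⊆ {x ∈ D | ρ x ≤ r (ι l₀)} := by
    rintro x ⟨hx1, hx2⟩
    refine ⟨hx1, ?_⟩
    by_contra hcon
    push Not at hcon
    have hex : ∃ j, ρ x ≤ r (ι j) := by
      obtain ⟨j, hj⟩ := (htend.eventually_ge_atTop (ρ x)).exists
      exact ⟨j, hj⟩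
    set j := Nat.find hex with hj
    have hj1 : ρ x ≤ r (ι j) := Nat.find_spec hex
    have hj2 : l₀ < j := by
      by_contra hc
      push Not at hc
      have := hmonoi hc
      simp only at this
      linarith
    obtain ⟨l, hl⟩ : ∃ l, j = l + 1 := ⟨j - 1, by omega⟩
    have hj3 : r (ι l) < ρ x := by
      by_contra hc
      push Not at hc
      have := Nat.find_min' hex hc
      omega
    rw [hl] at hj1
    have hkl : k ≤ ι l := by
      have h1 := hιl l
      have h2 : k ≤ l₀ := le_max_left _ _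
      omega
    have h1 := hest l x hx1 hj3 hj1 k hkl
    have h2 : (q : ℝ) ≤ (ι l : ℝ) := by
      have h1 := hιl l
      have h2 : q ≤ l₀ := le_max_right _ _
      exact_mod_cast (show q ≤ ι l by omega)
    linarith
  exact (Set.finite_of_encard_le_coe (hDj (ι l₀))).subset hsub

end Pool.Agent.MP_fe3720.RR
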